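import Pool.Agent.Lib.MP_42948a_nt.SV.Defs

/-!
# Mertens' theorems (job B1)

`mertB`: from `OM.prime_log_sum` with `z = ⌊u⌋₊`, `t = ⌊v⌋₊` (`|log u - log ⌊u⌋₊| ≤ log 2` for `u ≥ 1`).
`mertA`: partial summation from `mertB`: `1/log p = 1/log v + ∫_p^v dt/(t log^2 t)`, so `∑_{u<p≤v} 1/p = B(v)/log v + ∫_u^v B(t) dt/(t log^2 t)` with `B(t) = ∑_{u<p≤t} log p/p = log t - log u + O(C)`;
the main term is `1 - log u/log v + ∫_u^v (log t - log u)/(t log^2 t) dt = log(log v/log u)` and the error is `≤ C/log v + C (1/log u - 1/log v) ≤ C/log u`. (A version with sums, or a two-sided Mertens II of one of our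
libraries, is fine as well: `Pool.Agent.Lib.MP_2c5684_nt.Mertens` and the files of `MP_42948a_nt` are usable.)
-/

namespace Pool.Agent.Lib.MP_42948a_nt.SV

open Finset Pool.Agent.Lib.MP_42948a_nt.OA Pool.Agent.Lib.MP_42948a_nt.OM

private theorem SV_B1_floor {u : ℝ} (hu : 1 ≤ u) :
    0 ≤ Real.log u - Real.log (⌊u⌋₊ : ℝ) ∧ Real.log u - Real.log (⌊u⌋₊ : ℝ) ≤ Real.log 2 := by
  have h1 : 1 ≤ ⌊u⌋₊ := (Nat.one_le_floor_iff u).mpr hu
  have h2 : (1 : ℝ) ≤ (⌊u⌋₊ : ℝ) := by exact_mod_cast h1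
  have h3 : (⌊u⌋₊ : ℝ) ≤ u := Nat.floor_le (by linarith)
  have h4 : u < (⌊u⌋₊ : ℝ) + 1 := Nat.lt_floor_add_one u
  have h5 : Real.log (⌊u⌋₊ : ℝ) ≤ Real.log u := Real.log_le_log (by linarith) h3
  have h6 : Real.log u ≤ Real.log 2 + Real.log (⌊u⌋₊ : ℝ) := by
    rw [← Real.log_mul (by norm_num) (by linarith)]
    exact Real.log_le_log (by linarith) (by linarith)
  constructor <;> linarith

theorem mertB : ∃ C : ℝ, 0 ≤ C ∧ ∀ u v : ℝ, 1 ≤ u → u ≤ v →
    |∑ p ∈ Pri u v, Real.log p / p - (Real.log v - Real.log u)| ≤ C := by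
  obtain ⟨C, hC0, hC⟩ := prime_log_sum
  have hl2 : 0 ≤ Real.log 2 := Real.log_nonneg (by norm_num)
  have hC0' : 0 ≤ C := by
    have h := hC 1 1 le_rfl le_rfl
    exact (abs_nonneg _).trans h
  refine ⟨C + Real.log 2, by linarith, fun u v hu huv => ?_⟩
  have h1 : 1 ≤ ⌊u⌋₊ := (Nat.one_le_floor_iff u).mpr hu
  have h2 : ⌊u⌋₊ ≤ ⌊v⌋₊ := Nat.floor_le_floor huv
  have h3 := abs_le.mp (hC ⌊u⌋₊ ⌊v⌋₊ h1 h2)
  obtain ⟨a1, a2⟩ := SV_B1_floor hu
  obtain ⟨b1, b2⟩ := SV_B1_floor (hu.trans huv)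
  rw [abs_le]
  unfold Pri
  constructor <;> linarith [h3.1, h3.2]

theorem mertA : ∃ C : ℝ, 0 ≤ C ∧ ∀ u v : ℝ, 2 ≤ u → u ≤ v →
    |∑ p ∈ Pri u v, 1 / (p : ℝ) - Real.log (Real.log v / Real.log u)| ≤ C / Real.log u := by
  obtain ⟨C, hC0, hC⟩ := mertB
  refine ⟨C, hC0, fun u v hu huv => ?_⟩
  have hu0 : 0 ≤ u := by linarith
  have hlog : ∀ t, u ≤ t → 0 < Real.log t := fun t ht => Real.log_pos (by linarith)
  obtain ⟨c, hc⟩ : ∃ c : ℕ → ℝ, c = fun k : ℕ =>
      if k.Prime ∧ u < (k : ℝ) then Real.log k / k else 0 := ⟨_, rfl⟩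
  obtain ⟨g, hg⟩ : ∃ g : ℝ → ℝ, g = fun t => -(t⁻¹) / (Real.log t) ^ 2 := ⟨_, rfl⟩
  have hder : ∀ t ∈ Set.Icc u v, HasDerivAt (fun t => (Real.log t)⁻¹) (g t) t := by
    intro t ht
    have h1 : t ≠ 0 := by
      have := ht.1
      intro h
      linarith
    rw [hg]
    exact (Real.hasDerivAt_log h1).inv (hlog t ht.1).ne'
  have hgc : ContinuousOn g (Set.Icc u v) := by
    rw [hg]
    have h0 : ∀ t ∈ Set.Icc u v, t ≠ 0 := by
      intro t ht h
      have := ht.1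
      linarith
    have hl : ContinuousOn Real.log (Set.Icc u v) := Real.continuousOn_log.mono h0
    exact ((continuousOn_inv₀.mono h0).neg).div (hl.pow 2) fun t ht =>
      (pow_pos (hlog t ht.1) 2).ne'
  have hderiv : ∀ t ∈ Set.Icc u v, deriv (fun t => (Real.log t)⁻¹) t = g t :=
    fun t ht => (hder t ht).deriv
  have hint : MeasureTheory.IntegrableOn (deriv fun t => (Real.log t)⁻¹) (Set.Icc u v) :=
    (hgc.integrableOn_Icc).congr_fun (fun t ht => (hderiv t ht).symm) measurableSet_Icc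
  -- the partial sums
  have hS : ∀ t, u ≤ t → ∑ k ∈ Icc 0 ⌊t⌋₊, c k = ∑ p ∈ Pri u t, Real.log p / p := by
    intro t ht
    rw [hc]
    simp only
    rw [← sum_filter]
    refine sum_congr ?_ fun _ _ => rfl
    ext k
    unfold Pri
    rw [mem_filter, mem_filter, mem_Icc, mem_Ioc, Nat.floor_lt hu0]
    constructor
    · rintro ⟨⟨_, h1⟩, h2, h3⟩
      exact ⟨⟨h3, h1⟩, h2⟩
    · rintro ⟨⟨h3, h1⟩, h2⟩
      exact ⟨⟨Nat.zero_le _, h1⟩, h2, h3⟩
  have hSu : ∑ k ∈ Icc 0 ⌊u⌋₊, c k = 0 := by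
    rw [hS u le_rfl]
    unfold Pri
    rw [Ioc_self, filter_empty, sum_empty]
  have hlhs : ∑ k ∈ Ioc ⌊u⌋₊ ⌊v⌋₊, (Real.log k)⁻¹ * c k = ∑ p ∈ Pri u v, 1 / (p : ℝ) := by
    unfold Pri
    rw [sum_filter]
    refine sum_congr rfl fun k hk => ?_
    rw [mem_Ioc, Nat.floor_lt hu0] at hk
    rw [hc]
    show (Real.log k)⁻¹ * (if k.Prime ∧ u < (k : ℝ) then Real.log k / k else 0) = _
    by_cases hp : k.Prime
    · rw [if_pos (show k.Prime ∧ u < (k : ℝ) from ⟨hp, hk.1⟩), if_pos hp]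
      have h1 := (hlog k hk.1.le).ne'
      field_simp
    · rw [if_neg (show ¬(k.Prime ∧ u < (k : ℝ)) from fun h => hp h.1), if_neg hp, mul_zero]
  have habel := sum_mul_eq_sub_sub_integral_mul c (f := fun t => (Real.log t)⁻¹) hu0 huv
    (fun t ht => (hder t ht).differentiableAt) hint
  rw [hSu, mul_zero, sub_zero] at habel
  have habel' : ∑ p ∈ Pri u v, 1 / (p : ℝ) = (Real.log v)⁻¹ * (∑ k ∈ Icc 0 ⌊v⌋₊, c k) -
      ∫ t in Set.Ioc u v, g t * ∑ k ∈ Icc 0 ⌊t⌋₊, c k := by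
    rw [← hlhs]
    refine habel.trans ?_
    congr 1
    refine MeasureTheory.setIntegral_congr_fun measurableSet_Ioc fun t ht => ?_
    show deriv (fun t => (Real.log t)⁻¹) t * _ = g t * _
    rw [hderiv t ⟨ht.1.le, ht.2⟩]
  -- integrability
  have hi1 : MeasureTheory.IntegrableOn (fun t => g t * ∑ k ∈ Icc 0 ⌊t⌋₊, c k)
      (Set.Ioc u v) :=
    (integrableOn_mul_sum_Icc c hu0 hgc.integrableOn_Icc).mono_set Set.Ioc_subset_Icc_self
  have h0 : ∀ t ∈ Set.Icc u v, t ≠ 0 := by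
    intro t ht h
    have := ht.1
    linarith
  have hlc : ContinuousOn Real.log (Set.Icc u v) := Real.continuousOn_log.mono h0
  have hghc : ContinuousOn (fun t => g t * (Real.log t - Real.log u)) (Set.Icc u v) :=
    hgc.mul (hlc.sub continuousOn_const)
  have hi2 : MeasureTheory.IntegrableOn (fun t => g t * (Real.log t - Real.log u))
      (Set.Ioc u v) := hghc.integrableOn_Icc.mono_set Set.Ioc_subset_Icc_self
  -- the main integral
  have hmain : ∫ t in Set.Ioc u v, g t * (Real.log t - Real.log u) =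
      -(Real.log (Real.log v / Real.log u)) - Real.log u * (Real.log v)⁻¹ + 1 := by
    have h1 := intervalIntegral.integral_eq_sub_of_hasDerivAt (a := u) (b := v)
      (f := fun t => -Real.log (Real.log t) - Real.log u * (Real.log t)⁻¹)
      (f' := fun t => g t * (Real.log t - Real.log u)) (fun t ht => ?_) ?_
    · rw [intervalIntegral.integral_of_le huv] at h1
      rw [h1, Real.log_div (hlog v huv).ne' (hlog u le_rfl).ne', mul_inv_cancel₀ (hlog u le_rfl).ne']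
      ring
    · rw [Set.uIcc_of_le huv] at ht
      have h2 := ((Real.hasDerivAt_log (h0 t ht)).log (hlog t ht.1).ne').neg.sub
        ((hder t ht).const_mul (Real.log u))
      have e : -(t⁻¹ / Real.log t) - Real.log u * g t = g t * (Real.log t - Real.log u) := by
        rw [hg]
        have h3 := (hlog t ht.1).ne'
        field_simp
        ring
      rw [e] at h2
      exact h2
    · refine ContinuousOn.intervalIntegrable ?_
      rw [Set.uIcc_of_le huv]
      exact hghc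
  have hgneg : ∀ t ∈ Set.Icc u v, g t ≤ 0 := by
    intro t ht
    rw [hg]
    have h1 : 0 ≤ t⁻¹ := inv_nonneg.mpr (by linarith [ht.1])
    exact div_nonpos_of_nonpos_of_nonneg (by linarith) (sq_nonneg _)
  have hgint : ∫ t in Set.Ioc u v, -g t = (Real.log u)⁻¹ - (Real.log v)⁻¹ := by
    have h1 := intervalIntegral.integral_eq_sub_of_hasDerivAt (a := u) (b := v)
      (f := fun t => (Real.log t)⁻¹) (f' := g) (fun t ht => ?_) ?_
    · rw [intervalIntegral.integral_of_le huv] at h1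
      rw [MeasureTheory.integral_neg, h1]
      ring
    · rw [Set.uIcc_of_le huv] at ht
      exact hder t ht
    · refine ContinuousOn.intervalIntegrable ?_
      rw [Set.uIcc_of_le huv]
      exact hgc
  -- the error
  have herr : |∫ t in Set.Ioc u v, (g t * ∑ k ∈ Icc 0 ⌊t⌋₊, c k -
      g t * (Real.log t - Real.log u))| ≤ C * ((Real.log u)⁻¹ - (Real.log v)⁻¹) := by
    rw [← hgint, ← MeasureTheory.integral_const_mul, ← Real.norm_eq_abs]
    refine MeasureTheory.norm_integral_le_of_norm_le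
      ((hgc.integrableOn_Icc.mono_set Set.Ioc_subset_Icc_self).neg.const_mul C) ?_
    refine (MeasureTheory.ae_restrict_iff' measurableSet_Ioc).mpr (Filter.Eventually.of_forall
      fun t ht => ?_)
    have h1 := hgneg t ⟨ht.1.le, ht.2⟩
    have h2 := hC u t (by linarith) ht.1.le
    rw [← mul_sub, norm_mul, Real.norm_eq_abs, Real.norm_eq_abs, abs_of_nonpos h1, hS t ht.1.le,
      mul_comm]
    exact mul_le_mul_of_nonneg_right h2 (by linarith)
  rw [MeasureTheory.integral_sub hi1 hi2, hmain] at herr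
  have hv := hC u v (by linarith) huv
  have hlu := hlog u le_rfl
  have hlv := hlog v huv
  rw [habel', hS v huv]
  obtain ⟨S, hSd⟩ : ∃ S, S = ∑ p ∈ Pri u v, Real.log p / p := ⟨_, rfl⟩
  obtain ⟨I, hId⟩ : ∃ I, I = ∫ t in Set.Ioc u v, g t * ∑ k ∈ Icc 0 ⌊t⌋₊, c k := ⟨_, rfl⟩
  rw [← hSd] at hv ⊢
  rw [← hId] at herr ⊢
  have e1 : (Real.log v)⁻¹ * S - I - Real.log (Real.log v / Real.log u) =
      (Real.log v)⁻¹ * (S - (Real.log v - Real.log u)) -
        (I - (-(Real.log (Real.log v / Real.log u)) - Real.log u * (Real.log v)⁻¹ + 1)) := by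
    have h1 : (Real.log v)⁻¹ * Real.log v = 1 := inv_mul_cancel₀ hlv.ne'
    linear_combination h1
  rw [e1]
  have h2 : |(Real.log v)⁻¹ * (S - (Real.log v - Real.log u))| ≤ (Real.log v)⁻¹ * C := by
    rw [abs_mul, abs_of_pos (inv_pos.mpr hlv)]
    exact mul_le_mul_of_nonneg_left hv (inv_pos.mpr hlv).le
  refine (abs_sub _ _).trans ((add_le_add h2 herr).trans (le_of_eq ?_))
  rw [div_eq_mul_inv]
  ring

end Pool.Agent.Lib.MP_42948a_nt.SV
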