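import Pool.Agent.Lib.MP_42948a_nt.SV.Z0
import Pool.Agent.Lib.MP_42948a_nt.EK.TI0

/-!
# The weighted sieve, uniformly for `x = d ^ a`
-/

namespace Pool.Agent.Lib.MP_42948a_nt.SV

open Finset Pool.Agent.Lib.MP_42948a_nt.OA

theorem svp : EK.SVP (299 / 500) (83 / 100) (5 / 4) := by
  classical
  obtain ⟨c, hc, C, x0, hx0, h⟩ := sv
  refine ⟨8 / 10000, c / 2, by norm_num, by positivity, 2 * C, ⌈x0 ^ 2⌉₊ + 10, ?_⟩
  intro d hd a ha1 ha2
  have hdN : 10 ≤ d := by omega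
  have hd1 : (1 : ℝ) ≤ d := by exact_mod_cast (by omega : 1 ≤ d)
  have hd0 : (0 : ℝ) < d := by linarith
  have hdx0 : x0 ^ 2 ≤ (d : ℝ) := by
    have h1 : x0 ^ 2 ≤ (⌈x0 ^ 2⌉₊ : ℝ) := Nat.le_ceil _
    have h2 : ((⌈x0 ^ 2⌉₊ : ℕ) : ℝ) ≤ d := by exact_mod_cast (by omega : ⌈x0 ^ 2⌉₊ ≤ d)
    exact h1.trans h2
  set x : ℝ := (d : ℝ) ^ a with hx
  have hxpos : 0 < x := Real.rpow_pos_of_pos hd0 a
  have hx0x : x0 ≤ x := by
    have h1 : x0 ≤ (d : ℝ) ^ (1 / 2 : ℝ) := by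
      have h2 : x0 = (x0 ^ 2) ^ (1 / 2 : ℝ) := by
        rw [← Real.rpow_natCast, ← Real.rpow_mul (by linarith)]
        norm_num
      rw [h2]
      exact Real.rpow_le_rpow (by positivity) hdx0 (by norm_num)
    exact h1.trans (Real.rpow_le_rpow_of_exponent_le hd1 (by linarith))
  have hx2 : (2 : ℝ) ≤ x := hx0.trans hx0x
  have hdx2 : (d : ℝ) ≤ x ^ 2 := by
    have h1 : x ^ 2 = (d : ℝ) ^ (a * 2) := by
      rw [hx, ← Real.rpow_natCast, ← Real.rpow_mul hd0.le]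
      norm_num
    rw [h1]
    calc (d : ℝ) = (d : ℝ) ^ (1 : ℝ) := (Real.rpow_one _).symm
      _ ≤ (d : ℝ) ^ (a * 2) := Real.rpow_le_rpow_of_exponent_le hd1 (by linarith)
  have hpow : ∀ r : ℝ, x ^ r = (d : ℝ) ^ (r * a) := by
    intro r
    rw [hx, ← Real.rpow_mul hd0.le, mul_comm]
  have hlog : Real.log x = a * Real.log d := by
    rw [hx, Real.log_rpow hd0]
  have hld : 2 ≤ Real.log d := by
    have h1 : Real.exp 2 ≤ (d : ℝ) := by
      have h2 : Real.exp 2 = Real.exp 1 ^ 2 := by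
        rw [← Real.exp_nat_mul]
        norm_num
      have h3 := Real.exp_one_lt_d9
      have h4 := Real.exp_pos 1
      have h5 : (10 : ℝ) ≤ d := by exact_mod_cast hdN
      rw [h2]
      nlinarith
    have h2 := Real.log_le_log (Real.exp_pos 2) h1
    rwa [Real.log_exp] at h2
  obtain ⟨ω, hω1, hω2, hω3, hω4⟩ := h x hx0x d (by omega) hdx2
  rw [hpow] at hω1 hω2 hω4
  refine ⟨ω, ?_, ?_, ?_, ?_⟩
  · intro m hm
    obtain ⟨m1, m2, m3⟩ := hω1 m hm
    exact ⟨m1, (Nat.le_floor_iff (Real.rpow_nonneg hd0.le _)).mp m2, m3⟩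
  · refine hω2.trans ?_
    rw [hlog]
    have h1 : a * Real.log d ≤ Real.log d ^ 2 := by
      calc a * Real.log d ≤ 2 * Real.log d := mul_le_mul_of_nonneg_right (by linarith) (by linarith)
        _ ≤ Real.log d * Real.log d := mul_le_mul_of_nonneg_right hld (by linarith)
        _ = Real.log d ^ 2 := by ring
    rw [pow_mul]
    exact pow_le_pow_left₀ (mul_nonneg (by linarith) (by linarith)) h1 C
  · intro n hn hn2 hnd
    have h1 : (n : ℝ) ≤ x ^ (1001 / 1000 : ℝ) := by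
      rw [hpow]
      exact hn2.trans (Real.rpow_le_rpow_of_exponent_le hd1 (by linarith))
    refine (hω3 n hn h1 hnd).trans ?_
    have h2 : (d : ℝ) ^ (9 / 100 : ℝ) ≤ x ^ (1 / 9 : ℝ) := by
      rw [hpow]
      exact Real.rpow_le_rpow_of_exponent_le hd1 (by linarith)
    refine add_le_add ?_ ?_
    · by_cases h3 : Rough ⌊x ^ (1 / 9 : ℝ)⌋₊ n ∧ ArithmeticFunction.cardFactors n ≤ 2
      · have h4 : Rough ⌊(d : ℝ) ^ (9 / 100 : ℝ)⌋₊ n ∧ ArithmeticFunction.cardFactors n ≤ 2 :=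
          ⟨⟨h3.1.1, fun p hp hpn => (Nat.floor_le_floor h2).trans_lt (h3.1.2 p hp hpn)⟩, h3.2⟩
        rw [if_pos h3, if_pos h4]
      · rw [if_neg h3]
        split_ifs <;> norm_num
    · by_cases h3 : ∃ p : ℕ, p.Prime ∧ x ^ (1 / 9 : ℝ) < p ∧ p ^ 2 ∣ n
      · have h4 : ∃ p : ℕ, p.Prime ∧ (d : ℝ) ^ (9 / 100 : ℝ) < p ∧ p ^ 2 ∣ n := by
          obtain ⟨p, hp1, hp2, hp3⟩ := h3
          exact ⟨p, hp1, h2.trans_lt hp2, hp3⟩
        rw [if_pos h3, if_pos h4]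
      · rw [if_neg h3]
        split_ifs <;> norm_num
  · refine le_trans ?_ hω4
    rw [hlog]
    have hr : 0 ≤ (d : ℝ) / d.totient := by positivity
    have h1 : c / 2 * ((d : ℝ) / d.totient) / Real.log d = c * ((d : ℝ) / d.totient / (2 * Real.log d)) := by
      field_simp
    rw [h1]
    refine mul_le_mul_of_nonneg_left ?_ hc.le
    refine div_le_div_of_nonneg_left hr (mul_pos (by linarith) (by linarith)) ?_
    exact mul_le_mul_of_nonneg_right (by linarith) (by linarith)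

end Pool.Agent.Lib.MP_42948a_nt.SV
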