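import Pool.Agent.Lib.MP_42948a_nt.SV.Defs

/-!
# Selberg's weights: `λ 1 = 1`, `|λ m| ≤ 1` (job A1a)

`lamS_one`: `lamS d w ξ 1 = (sum over Sq d w ξ of 1/φ) / Gs d w ξ = 1` (`ξ / 1 = ξ`, every `k` is prime to `1`, `Gs_pos`).
`abs_lamS_le`: let `m ∈ Sq d w ξ`, `G m = ∑_{k ∈ Sq d w (ξ/m), (k,m)=1} 1/φ k`. Every `n ∈ Sq d w ξ` is uniquely `n = l k` with `l = gcd n m`, `k` prime to `m`.
So `Gs = ∑_{l ∣ m} 1/φ l · ∑_{k ∈ Sq d w (ξ/l), (k,m)=1} 1/φ k ≥ (∑_{l ∣ m} 1/φ l) · G m = (m/φ m) · G m`. It is enough to prove the inequality `(m/φ m) G m ≤ Gs`: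
the map `(l, k) ↦ l * k` from `m.divisors × {k ∈ Sq d w (ξ/m) : (k,m)=1}` to `Sq d w ξ` is injective (`l = gcd (l k) m`), and `φ (l k) = φ l φ k`.
`∑_{l ∣ m} 1/φ l = m/φ m` for squarefree `m`: induction on primes (`Nat.recOnMul`/`induction_on_coprime`), or multiplicativity
(`Nat.Coprime.sum_divisors_mul` ...), or `∑_{l ∣ m} φ(m/l) = m` (`Nat.sum_totient`) with `φ(m/l) = φ m/φ l` for squarefree `m`: this is the shortest.
-/

namespace Pool.Agent.Lib.MP_42948a_nt.SV

open Finset Pool.Agent.Lib.MP_42948a_nt.OA Pool.Agent.Lib.MP_42948a_nt.OM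

/-- `∑_{l ∣ m} 1/φ l = m/φ m` for squarefree `m` -/
theorem sum_inv_totient {m : ℕ} (hm : Squarefree m) :
    ∑ l ∈ m.divisors, 1 / (l.totient : ℝ) = (m : ℝ) / m.totient := by
  have hm0 : m ≠ 0 := hm.ne_zero
  have hφ : (0:ℝ) < m.totient := by exact_mod_cast Nat.totient_pos.mpr (Nat.pos_of_ne_zero hm0)
  have h1 : ∀ l ∈ m.divisors, 1 / (l.totient : ℝ) = ((m / l).totient : ℝ) / m.totient := by
    intro l hl
    have hl0 : 0 < l := Nat.pos_of_mem_divisors hl
    obtain ⟨k, hk⟩ := Nat.dvd_of_mem_divisors hl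
    have hk0 : 0 < k := by
      rcases Nat.eq_zero_or_pos k with h | h
      · rw [h, mul_zero] at hk
        exact absurd hk hm0
      · exact h
    have e1 : m / l = k := by
      rw [hk]
      exact Nat.mul_div_cancel_left k hl0
    have hc : l.Coprime k := by
      rw [hk] at hm
      exact Nat.coprime_of_squarefree_mul hm
    have ht : m.totient = l.totient * k.totient := by
      rw [hk]
      exact Nat.totient_mul hc
    have hl1 : (0:ℝ) < l.totient := by exact_mod_cast Nat.totient_pos.mpr hl0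
    have hk1 : (0:ℝ) < k.totient := by exact_mod_cast Nat.totient_pos.mpr hk0
    rw [e1, ht]
    push_cast
    field_simp
  rw [sum_congr rfl h1, ← sum_div]
  have h2 : ∑ l ∈ m.divisors, ((m / l).totient : ℝ) = m := by
    rw [Nat.sum_div_divisors m (fun l => (l.totient : ℝ))]
    exact_mod_cast Nat.sum_totient m
  rw [h2]

theorem lamS_one (d w : ℕ) {ξ : ℕ} (h : 1 ≤ ξ) : lamS d w ξ 1 = 1 := by
  classical
  have hG := Gs_pos d w h
  unfold lamS
  rw [if_pos (one_mem_Sq d w h)]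
  have e1 : (Sq d w (ξ / 1)).filter (fun k => k.Coprime 1) = Sq d w ξ := by
    rw [Nat.div_one]
    exact filter_true_of_mem fun k _ => Nat.coprime_one_right k
  rw [e1]
  have e2 : ∑ k ∈ Sq d w ξ, 1 / (k.totient : ℝ) = Gs d w ξ := rfl
  rw [e2]
  have e3 : ((ArithmeticFunction.moebius 1 : ℤ) : ℝ) = 1 := by
    rw [ArithmeticFunction.moebius_apply_one]
    norm_num
  rw [e3]
  simp only [Nat.totient_one, Nat.cast_one, div_one, mul_one, one_mul]
  exact div_self hG.ne'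

theorem abs_lamS_le (d w ξ m : ℕ) : |lamS d w ξ m| ≤ 1 := by
  classical
  unfold lamS
  by_cases hm : m ∈ Sq d w ξ
  · rw [if_pos hm]
    have hm' := mem_Sq.mp hm
    obtain ⟨⟨hm1, hmx⟩, hsq, hmd, hmp⟩ := hm'
    have hξ : 1 ≤ ξ := hm1.trans hmx
    have hG := Gs_pos d w hξ
    set F := (Sq d w (ξ / m)).filter (fun k => k.Coprime m) with hF
    have hS0 : 0 ≤ ∑ k ∈ F, 1 / (k.totient : ℝ) := sum_nonneg fun k _ => by positivity
    have key : ((m : ℝ) / m.totient) * (∑ k ∈ F, 1 / (k.totient : ℝ)) ≤ Gs d w ξ := by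
      rw [← sum_inv_totient hsq, sum_mul_sum, ← sum_product']
      have hmem : ∀ x ∈ m.divisors ×ˢ F, x.1 ∣ m ∧ x.1.Coprime x.2 ∧ 0 < x.1 ∧ x.2 ∈ Sq d w (ξ / m) ∧
          x.2.Coprime m := by
        intro x hx
        rw [mem_product] at hx
        have h1 := Nat.dvd_of_mem_divisors hx.1
        have h2 := mem_filter.mp (hF ▸ hx.2)
        exact ⟨h1, (Nat.Coprime.coprime_dvd_right h1 h2.2).symm, Nat.pos_of_mem_divisors hx.1, h2.1, h2.2⟩
      have h1 : ∀ x ∈ m.divisors ×ˢ F, 1 / (x.1.totient : ℝ) * (1 / (x.2.totient : ℝ)) =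
          1 / ((x.1 * x.2).totient : ℝ) := by
        intro x hx
        rw [Nat.totient_mul (hmem x hx).2.1]
        push_cast
        rw [one_div_mul_one_div]
      rw [sum_congr rfl h1]
      have hinj : Set.InjOn (fun x : ℕ × ℕ => x.1 * x.2) (m.divisors ×ˢ F : Finset (ℕ × ℕ)) := by
        intro x hx y hy hxy
        have a1 := hmem x hx
        have a2 := hmem y hy
        have hxy' : x.1 * x.2 = y.1 * y.2 := hxy
        have g1 : Nat.gcd (x.1 * x.2) m = x.1 := by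
          rw [Nat.Coprime.gcd_mul_right_cancel x.1 a1.2.2.2.2]
          exact Nat.gcd_eq_left a1.1
        have g2 : Nat.gcd (y.1 * y.2) m = y.1 := by
          rw [Nat.Coprime.gcd_mul_right_cancel y.1 a2.2.2.2.2]
          exact Nat.gcd_eq_left a2.1
        have e1 : x.1 = y.1 := by rw [← g1, ← g2, hxy']
        have e2 : x.2 = y.2 := by
          rw [e1] at hxy'
          exact Nat.eq_of_mul_eq_mul_left a2.2.2.1 hxy'
        exact Prod.ext e1 e2
      have h2 : ∑ x ∈ m.divisors ×ˢ F, 1 / ((x.1 * x.2).totient : ℝ) =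
          ∑ n ∈ (m.divisors ×ˢ F).image (fun x : ℕ × ℕ => x.1 * x.2), 1 / (n.totient : ℝ) :=
        (sum_image (f := fun n : ℕ => 1 / (n.totient : ℝ)) hinj).symm
      rw [h2]
      unfold Gs
      refine sum_le_sum_of_subset_of_nonneg ?_ fun n _ _ => by positivity
      intro n hn
      rw [mem_image] at hn
      obtain ⟨x, hx, rfl⟩ := hn
      obtain ⟨b1, b2, b3, b4, b5⟩ := hmem x hx
      rw [mem_Sq] at b4 ⊢
      refine ⟨⟨Nat.mul_pos b3 b4.1.1, ?_⟩, ?_, ?_, ?_⟩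
      · calc x.1 * x.2 ≤ m * (ξ / m) := Nat.mul_le_mul (Nat.le_of_dvd hm1 b1) b4.1.2
          _ ≤ ξ := Nat.mul_div_le ξ m
      · exact (Nat.squarefree_mul b2).mpr ⟨hsq.squarefree_of_dvd b1, b4.2.1⟩
      · exact Nat.Coprime.mul_left (Nat.Coprime.coprime_dvd_left b1 hmd) b4.2.2.1
      · intro p hp hpd
        rcases (Nat.Prime.dvd_mul hp).mp hpd with h | h
        · exact hmp p hp (h.trans b1)
        · exact b4.2.2.2 p hp h
    have hμ : |((ArithmeticFunction.moebius m : ℤ) : ℝ)| ≤ 1 := by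
      have := ArithmeticFunction.abs_moebius_le_one (n := m)
      exact_mod_cast this
    have hmφ : 0 ≤ (m : ℝ) / m.totient := by positivity
    rw [abs_div, abs_mul, abs_mul, abs_of_pos hG, abs_of_nonneg hS0, abs_of_nonneg hmφ, div_le_one hG]
    calc |((ArithmeticFunction.moebius m : ℤ) : ℝ)| * ((m : ℝ) / m.totient) * ∑ k ∈ F, 1 / (k.totient : ℝ)
        = |((ArithmeticFunction.moebius m : ℤ) : ℝ)| *
          (((m : ℝ) / m.totient) * ∑ k ∈ F, 1 / (k.totient : ℝ)) := by ring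
      _ ≤ 1 * Gs d w ξ := mul_le_mul hμ key (mul_nonneg hmφ hS0) zero_le_one
      _ = Gs d w ξ := one_mul _
  · rw [if_neg hm, abs_zero]
    exact zero_le_one

end Pool.Agent.Lib.MP_42948a_nt.SV
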