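import Pool.Agent.Lib.MP_42948a_nt.SV.A1b

/-!
# Selberg's identity (job A1c)

`1/lcm a b = gcd a b/(a b)` and `gcd a b = ∑_{r ∣ gcd a b} φ r` (`Nat.sum_totient`), so the double sum is `∑_r φ r (∑_{a ∈ Sq, r ∣ a} λ a/a)^2`,
the sum being over `r ∈ Sq d w ξ` (a divisor of an element of `Sq` is in `Sq`). By `dual_sum` it is `∑_{r ∈ Sq} φ r · μ(r)^2/(φ r G)^2 = 1/G`.
-/

namespace Pool.Agent.Lib.MP_42948a_nt.SV

open Finset Pool.Agent.Lib.MP_42948a_nt.OA Pool.Agent.Lib.MP_42948a_nt.OM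

/-- Divisors of elements of `Sq` are in `Sq`. -/
private theorem SV_A1c_dvd {d w ξ m n : ℕ} (hn : n ∈ Sq d w ξ) (h : m ∣ n) : m ∈ Sq d w ξ := by
  rw [mem_Sq] at hn ⊢
  obtain ⟨⟨h1, h2⟩, h3, h4, h5⟩ := hn
  have hm : 0 < m := Nat.pos_of_dvd_of_pos h h1
  exact ⟨⟨hm, (Nat.le_of_dvd h1 h).trans h2⟩, h3.squarefree_of_dvd h, Nat.Coprime.coprime_dvd_left h h4,
    fun p hp hd => h5 p hp (hd.trans h)⟩

theorem selberg (d w ξ : ℕ) (h : 1 ≤ ξ) :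
    ∑ a ∈ Sq d w ξ, ∑ b ∈ Sq d w ξ, lamS d w ξ a * lamS d w ξ b / ((a.lcm b : ℕ) : ℝ) = 1 / Gs d w ξ := by
  classical
  have hG := Gs_pos d w h
  have e1 : ∀ a ∈ Sq d w ξ, ∀ b ∈ Sq d w ξ, lamS d w ξ a * lamS d w ξ b / ((a.lcm b : ℕ) : ℝ) =
      ∑ r ∈ Sq d w ξ, if r ∣ a ∧ r ∣ b then
        (r.totient : ℝ) * ((lamS d w ξ a / a) * (lamS d w ξ b / b)) else 0 := by
    intro a ha b hb
    have ha0 : 0 < a := (mem_Sq.mp ha).1.1
    have hb0 : 0 < b := (mem_Sq.mp hb).1.1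
    have hset : (Sq d w ξ).filter (fun r => r ∣ a ∧ r ∣ b) = (a.gcd b).divisors := by
      ext r
      rw [mem_filter, Nat.mem_divisors]
      constructor
      · rintro ⟨_, h1, h2⟩
        exact ⟨Nat.dvd_gcd h1 h2, (Nat.gcd_pos_of_pos_left b ha0).ne'⟩
      · rintro ⟨h1, _⟩
        exact ⟨SV_A1c_dvd ha (h1.trans (Nat.gcd_dvd_left a b)), h1.trans (Nat.gcd_dvd_left a b),
          h1.trans (Nat.gcd_dvd_right a b)⟩
    rw [← sum_filter, hset, ← sum_mul]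
    have h3 : ∑ r ∈ (a.gcd b).divisors, (r.totient : ℝ) = ((a.gcd b : ℕ) : ℝ) := by
      exact_mod_cast Nat.sum_totient (a.gcd b)
    rw [h3]
    have h4 : ((a.gcd b : ℕ) : ℝ) * ((a.lcm b : ℕ) : ℝ) = (a : ℝ) * b := by
      exact_mod_cast Nat.gcd_mul_lcm a b
    have hl : (0 : ℝ) < ((a.lcm b : ℕ) : ℝ) := by
      exact_mod_cast Nat.lcm_pos ha0 hb0
    have hg : (0 : ℝ) < ((a.gcd b : ℕ) : ℝ) := by
      exact_mod_cast Nat.gcd_pos_of_pos_left b ha0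
    have haR : (0 : ℝ) < a := by exact_mod_cast ha0
    have hbR : (0 : ℝ) < b := by exact_mod_cast hb0
    have e : ((a.gcd b : ℕ) : ℝ) * ((lamS d w ξ a / a) * (lamS d w ξ b / b)) =
        lamS d w ξ a * lamS d w ξ b * (((a.gcd b : ℕ) : ℝ) / ((a : ℝ) * b)) := by
      field_simp
    rw [e, ← h4, div_mul_eq_div_div, div_self hg.ne']
    ring
  have e2 : ∑ a ∈ Sq d w ξ, ∑ b ∈ Sq d w ξ, lamS d w ξ a * lamS d w ξ b / ((a.lcm b : ℕ) : ℝ) =
      ∑ r ∈ Sq d w ξ, ∑ a ∈ Sq d w ξ, ∑ b ∈ Sq d w ξ, if r ∣ a ∧ r ∣ b then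
        (r.totient : ℝ) * ((lamS d w ξ a / a) * (lamS d w ξ b / b)) else 0 := by
    rw [sum_congr rfl fun a ha => sum_congr rfl fun b hb => e1 a ha b hb]
    rw [sum_congr rfl fun a _ => sum_comm]
    exact sum_comm
  have e3 : ∀ r ∈ Sq d w ξ, (∑ a ∈ Sq d w ξ, ∑ b ∈ Sq d w ξ, if r ∣ a ∧ r ∣ b then
        (r.totient : ℝ) * ((lamS d w ξ a / a) * (lamS d w ξ b / b)) else 0) =
        1 / (r.totient : ℝ) * (1 / Gs d w ξ ^ 2) := by
    intro r hr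
    have hr0 : 0 < r := (mem_Sq.mp hr).1.1
    have hφ : (r.totient : ℝ) ≠ 0 := by
      have := Nat.totient_pos.mpr hr0
      exact_mod_cast this.ne'
    have f1 : ∀ a ∈ Sq d w ξ, (∑ b ∈ Sq d w ξ, if r ∣ a ∧ r ∣ b then
        (r.totient : ℝ) * ((lamS d w ξ a / a) * (lamS d w ξ b / b)) else 0) =
        if r ∣ a then (r.totient : ℝ) * (lamS d w ξ a / a) *
          ∑ b ∈ (Sq d w ξ).filter (fun b => r ∣ b), lamS d w ξ b / b else 0 := by
      intro a _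
      by_cases h1 : r ∣ a
      · rw [if_pos h1, mul_sum, sum_filter]
        refine sum_congr rfl fun b _ => ?_
        by_cases h2 : r ∣ b
        · rw [if_pos ⟨h1, h2⟩, if_pos h2]
          ring
        · rw [if_neg (fun h => h2 h.2), if_neg h2]
      · rw [if_neg h1]
        exact sum_eq_zero fun b _ => if_neg fun h => h1 h.1
    rw [sum_congr rfl f1, ← sum_filter, ← sum_mul, ← mul_sum, dual_sum d w ξ r hr]
    have hμ : ((ArithmeticFunction.moebius r : ℤ) : ℝ) ^ 2 = 1 := by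
      have := ArithmeticFunction.moebius_sq_eq_one_of_squarefree (mem_Sq.mp hr).2.1
      exact_mod_cast this
    have hG' := hG.ne'
    field_simp
    exact hμ
  rw [e2, sum_congr rfl e3, ← sum_mul]
  have e4 : ∑ r ∈ Sq d w ξ, 1 / (r.totient : ℝ) = Gs d w ξ := rfl
  rw [e4]
  field_simp

end Pool.Agent.Lib.MP_42948a_nt.SV
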