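import Pool.Agent.Lib.MP_42948a_nt.SV.Defs

/-!
# The weighted sieve at an integer (job A2)

`∑_{m ∣ n} κ_p m = ∑_{a, b} [p lcm(a,b) ∣ n] λ a λ b` (exchange the sums; for given `a, b` exactly one `m`, if `p lcm(a,b) ∣ n`), and `p lcm(a,b) ∣ n` iff
`p ∣ n` and `a ∣ n/p` and `b ∣ n/p` (`Nat.lcm_dvd_iff`, `Nat.dvd_div_iff_mul_dvd`).
-/

namespace Pool.Agent.Lib.MP_42948a_nt.SV

open Finset Pool.Agent.Lib.MP_42948a_nt.OA Pool.Agent.Lib.MP_42948a_nt.OM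

open Classical in
theorem SV_A2_kap (d w ξ p n : ℕ) (hn : 0 < n) :
    ∑ m ∈ n.divisors, kap d w ξ p m =
      if p ∣ n then (∑ a ∈ (Sq d w ξ).filter (fun a => a ∣ n / p), lamS d w ξ a) ^ 2 else 0 := by
  unfold kap
  rw [sum_comm]
  have e1 : ∀ a ∈ Sq d w ξ, (∑ m ∈ n.divisors, ∑ b ∈ Sq d w ξ,
      if p * a.lcm b = m then lamS d w ξ a * lamS d w ξ b else 0) =
      ∑ b ∈ Sq d w ξ, if p ∣ n ∧ a ∣ n / p ∧ b ∣ n / p then lamS d w ξ a * lamS d w ξ b else 0 := by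
    intro a _
    rw [sum_comm]
    refine sum_congr rfl fun b _ => ?_
    rw [sum_ite_eq n.divisors (p * a.lcm b)]
    have hiff : p * a.lcm b ∈ n.divisors ↔ p ∣ n ∧ a ∣ n / p ∧ b ∣ n / p := by
      rw [Nat.mem_divisors]
      constructor
      · rintro ⟨h1, _⟩
        have h2 : p ∣ n := (Dvd.intro _ rfl).trans h1
        have h3 : a.lcm b ∣ n / p := (Nat.dvd_div_iff_mul_dvd h2).mpr h1
        exact ⟨h2, (Nat.dvd_lcm_left a b).trans h3, (Nat.dvd_lcm_right a b).trans h3⟩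
      · rintro ⟨h1, h2, h3⟩
        exact ⟨(Nat.dvd_div_iff_mul_dvd h1).mp (Nat.lcm_dvd h2 h3), hn.ne'⟩
    by_cases h : p * a.lcm b ∈ n.divisors
    · rw [if_pos h, if_pos (hiff.mp h)]
    · rw [if_neg h, if_neg (fun h' => h (hiff.mpr h'))]
  rw [sum_congr rfl e1]
  by_cases hpn : p ∣ n
  · rw [if_pos hpn, pow_two, sum_filter, sum_mul_sum]
    refine sum_congr rfl fun a _ => sum_congr rfl fun b _ => ?_
    by_cases h1 : a ∣ n / p
    · by_cases h2 : b ∣ n / p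
      · rw [if_pos ⟨hpn, h1, h2⟩, if_pos h1, if_pos h2]
      · rw [if_neg (fun h => h2 h.2.2), if_neg h2, mul_zero]
    · rw [if_neg (fun h => h1 h.2.1), if_neg h1, zero_mul]
  · rw [if_neg hpn]
    exact sum_eq_zero fun a _ => sum_eq_zero fun b _ => if_neg fun h => hpn h.1

open Classical in
theorem omg_div (d : ℕ) (P : Finset ℕ) (c : ℕ → ℝ) (W X : ℕ → ℕ) (hP : ∀ p ∈ P, 0 < p) (n : ℕ) (hn : 0 < n) :
    ∑ m ∈ n.divisors, omg d P c W X m =
      1 - ∑ p ∈ P.filter (fun p => p ∣ n),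
        c p * (∑ a ∈ (Sq d (W p) (X p)).filter (fun a => a ∣ n / p), lamS d (W p) (X p) a) ^ 2 := by
  unfold omg
  rw [sum_sub_distrib, sum_comm (s := n.divisors) (t := P)]
  congr 1
  · rw [sum_ite_eq' n.divisors 1, if_pos (Nat.one_mem_divisors.mpr hn.ne')]
  · rw [sum_filter]
    refine sum_congr rfl fun p hp => ?_
    rw [← mul_sum, SV_A2_kap d (W p) (X p) p n hn]
    by_cases h : p ∣ n
    · rw [if_pos h, if_pos h]
    · rw [if_neg h, if_neg h, mul_zero]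

end Pool.Agent.Lib.MP_42948a_nt.SV
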