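import Pool.Agent.Lib.MP_42948a_nt.SV.Defs

/-!
# `SD y 1` and the comparison from below (job B2a)

`SD_one`: `Pool.Agent.Lib.MP_2a816b_nt.BH.density` with `D = 1` (`y^(-1/4) ≤ 1` gives the second form).
`SD_lower`: every squarefree `e ≤ y` is uniquely `e = l m` with `l = gcd e d`, `m` prime to `d`; so
`SD y 1 ≤ ∑_{l ∣ d, squarefree} (1/φ l) SD y d = (d/φ d) SD y d`. (`∑_{l ∣ d, l squarefree} 1/φ l = d/φ d`: e.g. `∑_{l ∣ rad d} 1/φ l = rad d/φ(rad d) = d/φ d`; multiplicative functions, or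
`Nat.totient_mul_prod_primeFactors`/`Nat.totient_eq_mul_prod_factors` and `Finset.prod_one_add`.)
-/

namespace Pool.Agent.Lib.MP_42948a_nt.SV

open Finset Pool.Agent.Lib.MP_42948a_nt.OA Pool.Agent.Lib.MP_42948a_nt.OM

open Pool.Agent.Lib.MP_2a816b_nt.BH in
theorem SD_one : ∃ C : ℝ, 0 ≤ C ∧ ∀ y : ℕ, 1 ≤ y → |SD y 1 - Real.log y| ≤ C := by
  obtain ⟨C₁, hC1, h⟩ := density
  obtain ⟨B, hB⟩ := h 1 one_pos
  refine ⟨C₁ + |B|, by positivity, fun y hy => ?_⟩
  have h1 := hB y hy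
  have h2 : ((1 : ℕ).totient : ℝ) / ((1 : ℕ) : ℝ) = 1 := by norm_num
  have h3 : (((1 : ℕ).divisors.card : ℕ) : ℝ) = 1 := by norm_num
  rw [h2, h3, one_mul, mul_one] at h1
  have hy1 : (1 : ℝ) ≤ (y : ℝ) := by exact_mod_cast hy
  have h4 : (y : ℝ) ^ (-(1 / 4) : ℝ) ≤ 1 := Real.rpow_le_one_of_one_le_of_nonpos hy1 (by norm_num)
  have h5 : C₁ * (y : ℝ) ^ (-(1 / 4) : ℝ) ≤ C₁ := by
    have := mul_le_mul_of_nonneg_left h4 (by linarith : (0 : ℝ) ≤ C₁)
    rwa [mul_one] at this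
  have h6 : SD y 1 - Real.log y = (SD y 1 - (Real.log y + B)) + B := by ring
  rw [h6]
  exact (abs_add_le _ _).trans (add_le_add (h1.trans h5) (le_refl _))

private theorem SV_B2a_tot (s : Finset ℕ) (hs : ∀ p ∈ s, p.Prime) :
    ((∏ p ∈ s, p).totient : ℝ) = ∏ p ∈ s, ((p : ℝ) - 1) := by
  classical
  induction s using Finset.induction_on with
  | empty => simp
  | insert a s ha ih =>
    rw [prod_insert ha, prod_insert ha]
    have hpa : a.Prime := hs a (mem_insert_self a s)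
    have hc : Nat.Coprime a (∏ p ∈ s, p) := by
      refine Nat.Coprime.prod_right fun p hp => ?_
      rw [Nat.coprime_primes hpa (hs p (mem_insert_of_mem hp))]
      rintro rfl
      exact ha hp
    rw [Nat.totient_mul hc, Nat.totient_prime hpa, Nat.cast_mul,
      ih fun p hp => hs p (mem_insert_of_mem hp), Nat.cast_sub hpa.one_le, Nat.cast_one]

open Classical in
theorem sum_sqf_inv_totient {d : ℕ} (hd : 1 ≤ d) :
    ∑ l ∈ d.divisors.filter (fun l => Squarefree l), 1 / (l.totient : ℝ) = (d : ℝ) / d.totient := by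
  have hd0 : d ≠ 0 := by omega
  have hfac : (UniqueFactorizationMonoid.normalizedFactors d).toFinset = d.primeFactors := by
    ext p
    rw [Multiset.mem_toFinset, Nat.mem_primeFactors, UniqueFactorizationMonoid.mem_normalizedFactors_iff' hd0,
      ← Nat.prime_iff_prime_int.trans Nat.prime_iff_prime_int.symm, ← Nat.irreducible_iff_nat_prime]
    simp [hd0]
  have h1 : ∑ l ∈ d.divisors.filter (fun l => Squarefree l), 1 / (l.totient : ℝ) =
      ∑ i ∈ d.primeFactors.powerset, 1 / ((∏ p ∈ i, p).totient : ℝ) := by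
    have h2 := Nat.sum_divisors_filter_squarefree hd0 (f := fun l => 1 / (l.totient : ℝ))
    rw [hfac] at h2
    refine Eq.trans ?_ (h2.trans ?_)
    · refine sum_congr ?_ fun _ _ => rfl
      ext l
      simp only [mem_filter]
    · refine sum_congr rfl fun i _ => ?_
      rw [Finset.prod_val]
      rfl
  rw [h1]
  have h3 : ∑ i ∈ d.primeFactors.powerset, 1 / ((∏ p ∈ i, p).totient : ℝ) =
      ∑ i ∈ d.primeFactors.powerset, ∏ p ∈ i, (1 / ((p : ℝ) - 1)) := by
    refine sum_congr rfl fun i hi => ?_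
    rw [mem_powerset] at hi
    rw [SV_B2a_tot i fun p hp => Nat.prime_of_mem_primeFactors (hi hp), prod_div_distrib, prod_const_one]
  rw [h3, ← prod_one_add]
  have h4 := Nat.totient_mul_prod_primeFactors d
  have h5 : (d.totient : ℝ) * ∏ p ∈ d.primeFactors, (p : ℝ) = (d : ℝ) * ∏ p ∈ d.primeFactors, ((p : ℝ) - 1) := by
    have h6 : ((d.totient * ∏ p ∈ d.primeFactors, p : ℕ) : ℝ) = ((d * ∏ p ∈ d.primeFactors, (p - 1) : ℕ) : ℝ) := by
      rw [h4]
    rw [Nat.cast_mul, Nat.cast_mul, Nat.cast_prod, Nat.cast_prod] at h6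
    rw [h6]
    congr 1
    refine prod_congr rfl fun p hp => ?_
    rw [Nat.cast_sub (Nat.prime_of_mem_primeFactors hp).one_le, Nat.cast_one]
  have h7 : ∏ p ∈ d.primeFactors, (1 + 1 / ((p : ℝ) - 1)) =
      (∏ p ∈ d.primeFactors, (p : ℝ)) / ∏ p ∈ d.primeFactors, ((p : ℝ) - 1) := by
    rw [← prod_div_distrib]
    refine prod_congr rfl fun p hp => ?_
    have h8 : (2 : ℝ) ≤ p := by exact_mod_cast (Nat.prime_of_mem_primeFactors hp).two_le
    have h9 : (p : ℝ) - 1 ≠ 0 := by linarith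
    field_simp
    ring
  have h10 : (0 : ℝ) < d.totient := by exact_mod_cast Nat.totient_pos.mpr hd
  have h11 : (0 : ℝ) < ∏ p ∈ d.primeFactors, ((p : ℝ) - 1) := by
    refine prod_pos fun p hp => ?_
    have h8 : (2 : ℝ) ≤ p := by exact_mod_cast (Nat.prime_of_mem_primeFactors hp).two_le
    linarith
  rw [h7, div_eq_div_iff h11.ne' h10.ne', mul_comm, h5]

open Pool.Agent.Lib.MP_2a816b_nt.BH in
theorem SD_lower {d : ℕ} (hd : 1 ≤ d) (y : ℕ) : SD y 1 ≤ (d : ℝ) / d.totient * SD y d := by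
  classical
  rw [← sum_sqf_inv_totient hd]
  unfold SD
  rw [sum_mul_sum, ← sum_product']
  set T := d.divisors.filter (fun l => Squarefree l) ×ˢ
    (Ioc 0 y).filter (fun e => Squarefree e ∧ e.Coprime d) with hT
  set i : ℕ → ℕ × ℕ := fun e => (Nat.gcd e d, e / Nat.gcd e d) with hi
  have key : ∀ e ∈ (Ioc 0 y).filter (fun e => Squarefree e ∧ e.Coprime 1),
      i e ∈ T ∧ 1 / (e.totient : ℝ) = 1 / ((i e).1.totient : ℝ) * (1 / ((i e).2.totient : ℝ)) ∧
        (i e).1 * (i e).2 = e := by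
    intro e he
    rw [mem_filter, mem_Ioc] at he
    obtain ⟨⟨he0, hey⟩, hsq, -⟩ := he
    have hl : Nat.gcd e d ∣ e := Nat.gcd_dvd_left e d
    have hlpos : 0 < Nat.gcd e d := Nat.gcd_pos_of_pos_left d he0
    have hmul : Nat.gcd e d * (e / Nat.gcd e d) = e := Nat.mul_div_cancel' hl
    have hm : e / Nat.gcd e d ∣ e := Nat.div_dvd_of_dvd hl
    have hcop : Nat.Coprime (Nat.gcd e d) (e / Nat.gcd e d) := by
      apply Nat.coprime_of_squarefree_mul
      rw [hmul]
      exact hsq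
    have hcd : Nat.Coprime (e / Nat.gcd e d) d := by
      rw [Nat.coprime_iff_gcd_eq_one]
      by_contra hne
      obtain ⟨p, hp, hpd⟩ := Nat.exists_prime_and_dvd hne
      have h1 : p ∣ e / Nat.gcd e d := hpd.trans (Nat.gcd_dvd_left _ _)
      have h2 : p ∣ d := hpd.trans (Nat.gcd_dvd_right _ _)
      have h3 : p ∣ Nat.gcd e d := Nat.dvd_gcd (h1.trans hm) h2
      have h4 : p ∣ Nat.gcd (Nat.gcd e d) (e / Nat.gcd e d) := Nat.dvd_gcd h3 h1
      rw [Nat.coprime_iff_gcd_eq_one.mp hcop] at h4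
      exact hp.one_lt.ne' (Nat.dvd_one.mp h4)
    refine ⟨?_, ?_, hmul⟩
    · rw [hT, mem_product, mem_filter, mem_filter, mem_Ioc, Nat.mem_divisors]
      refine ⟨⟨⟨Nat.gcd_dvd_right e d, by omega⟩, hsq.squarefree_of_dvd hl⟩, ⟨?_, ?_⟩,
        hsq.squarefree_of_dvd hm, hcd⟩
      · exact Nat.div_pos (Nat.le_of_dvd he0 hl) hlpos
      · exact (Nat.div_le_self _ _).trans hey
    · have h5 : e.totient = (Nat.gcd e d).totient * (e / Nat.gcd e d).totient := by
        rw [← Nat.totient_mul hcop, hmul]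
      change 1 / (e.totient : ℝ) = 1 / ((Nat.gcd e d).totient : ℝ) * (1 / ((e / Nat.gcd e d).totient : ℝ))
      rw [h5, Nat.cast_mul, one_div_mul_one_div]
  have hinj : Set.InjOn i ((Ioc 0 y).filter (fun e => Squarefree e ∧ e.Coprime 1) : Finset ℕ) := by
    intro e he e' he' h
    rw [← (key e he).2.2, ← (key e' he').2.2, h]
  rw [sum_congr rfl fun e he => (key e he).2.1]
  rw [← sum_image (f := fun x : ℕ × ℕ => 1 / (x.1.totient : ℝ) * (1 / (x.2.totient : ℝ))) hinj]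
  refine sum_le_sum_of_subset_of_nonneg ?_ fun x _ _ => by positivity
  intro x hx
  rw [mem_image] at hx
  obtain ⟨e, he, rfl⟩ := hx
  exact (key e he).1

end Pool.Agent.Lib.MP_42948a_nt.SV
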