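import Pool.Agent.Lib.MP_42948a_nt.SV.Defs

/-!
# One step of Buchstab's identity (job B3)

A squarefree `m ≤ ξ` prime to `d` is in `Sq d w ξ`, or it has a prime factor `p ≥ w`, `p ≤ ξ`, `p ∤ d`; then `m = p m'`, `m' ≤ ξ/p` squarefree, prime to `d`, and `φ m = (p-1) φ m'`.
-/

namespace Pool.Agent.Lib.MP_42948a_nt.SV

open Finset Pool.Agent.Lib.MP_42948a_nt.OA Pool.Agent.Lib.MP_42948a_nt.OM

open Pool.Agent.Lib.MP_2a816b_nt.BH in
private theorem SV_B3_SD (d : ℕ) : ∃ A : ℕ → Finset ℕ,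
    (∀ y, SD y d = ∑ e ∈ A y, 1 / (e.totient : ℝ)) ∧
      ∀ y e, e ∈ A y ↔ (0 < e ∧ e ≤ y) ∧ Squarefree e ∧ e.Coprime d := by
  refine ⟨fun y => (Ioc 0 y).filter (fun e => Squarefree e ∧ e.Coprime d), fun y => rfl,
    fun y e => ?_⟩
  rw [mem_filter, mem_Ioc]

private theorem SV_B3_inner {p ξ d : ℕ} (hp : p.Prime) {B A : Finset ℕ}
    (hA : ∀ e, e ∈ A ↔ (0 < e ∧ e ≤ ξ / p) ∧ Squarefree e ∧ e.Coprime d)
    (hB : ∀ m ∈ B, 0 < m ∧ m ≤ ξ ∧ Squarefree m ∧ m.Coprime d ∧ p ∣ m) :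
    ∑ m ∈ B, 1 / (m.totient : ℝ) ≤ (∑ e ∈ A, 1 / (e.totient : ℝ)) / ((p : ℝ) - 1) := by
  classical
  have hp1 : (0 : ℝ) < (p : ℝ) - 1 := by
    have : (1 : ℝ) < p := by exact_mod_cast hp.one_lt
    linarith
  have h1 : ∀ m ∈ B, 1 / (m.totient : ℝ) =
      1 / ((m / p).totient : ℝ) / ((p : ℝ) - 1) := by
    intro m hm
    obtain ⟨-, -, hsq, -, c, rfl⟩ := hB m hm
    rw [Nat.mul_div_cancel_left c hp.pos]
    have hcop : p.Coprime c := (Nat.squarefree_mul_iff.1 hsq).1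
    rw [Nat.totient_mul hcop, Nat.totient_prime hp]
    push_cast [hp.one_lt.le]
    rw [div_div, mul_comm]
  have h2 : Set.InjOn (fun m : ℕ => m / p) B := by
    intro m hm m' hm' h
    obtain ⟨c, rfl⟩ := (hB m hm).2.2.2.2
    obtain ⟨c', rfl⟩ := (hB m' hm').2.2.2.2
    have h3 : p * c / p = p * c' / p := h
    rw [Nat.mul_div_cancel_left c hp.pos, Nat.mul_div_cancel_left c' hp.pos] at h3
    rw [h3]
  have h3 : B.image (fun m : ℕ => m / p) ⊆ A := by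
    intro e he
    obtain ⟨m, hm, rfl⟩ := mem_image.1 he
    obtain ⟨h0, hξ, hsq, hcd, c, rfl⟩ := hB m hm
    rw [hA]
    show (0 < p * c / p ∧ p * c / p ≤ ξ / p) ∧ Squarefree (p * c / p) ∧ (p * c / p).Coprime d
    have h4 := Nat.div_le_div_right (c := p) hξ
    rw [Nat.mul_div_cancel_left c hp.pos] at h4 ⊢
    refine ⟨⟨Nat.pos_of_mul_pos_left h0, h4⟩, (Nat.squarefree_mul_iff.1 hsq).2.2, ?_⟩
    exact Nat.Coprime.coprime_mul_left hcd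
  rw [sum_congr rfl h1, sum_div,
    ← sum_image (f := fun e : ℕ => 1 / (e.totient : ℝ) / ((p : ℝ) - 1)) h2]
  exact sum_le_sum_of_subset_of_nonneg h3 fun e _ _ => by positivity

open Classical Pool.Agent.Lib.MP_2a816b_nt.BH in
theorem Gs_ge (d w ξ : ℕ) :
    SD ξ d - ∑ p ∈ (Icc w ξ).filter (fun p => p.Prime ∧ ¬ p ∣ d), SD (ξ / p) d / ((p : ℝ) - 1) ≤ Gs d w ξ := by
  obtain ⟨A, hSD, hA⟩ := SV_B3_SD d
  obtain ⟨P, hP⟩ : ∃ P : Finset ℕ, P = (Icc w ξ).filter (fun p => p.Prime ∧ ¬ p ∣ d) := ⟨_, rfl⟩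
  rw [← hP, sub_le_iff_le_add, hSD ξ]
  have h1 := sum_filter_add_sum_filter_not (A ξ) (fun m => m ∈ Sq d w ξ)
    (fun m : ℕ => 1 / (m.totient : ℝ))
  rw [← h1]
  refine add_le_add ?_ ?_
  · unfold Gs
    refine sum_le_sum_of_subset_of_nonneg ?_ fun m _ _ => by positivity
    intro m hm
    exact (mem_filter.1 hm).2
  · have h2 : ∀ m ∈ (A ξ).filter (fun m => ¬ m ∈ Sq d w ξ), 1 / (m.totient : ℝ) ≤
        ∑ p ∈ P, if p ∣ m then 1 / (m.totient : ℝ) else 0 := by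
      intro m hm
      rw [mem_filter, hA, mem_Sq] at hm
      obtain ⟨⟨⟨hm0, hmξ⟩, hsq, hcd⟩, hn⟩ := hm
      have h3 : ∃ p : ℕ, p.Prime ∧ p ∣ m ∧ w ≤ p := by
        by_contra hcon
        push Not at hcon
        exact hn ⟨⟨hm0, hmξ⟩, hsq, hcd, hcon⟩
      obtain ⟨p, hp, hpm, hwp⟩ := h3
      have hpP : p ∈ P := by
        rw [hP, mem_filter, mem_Icc]
        refine ⟨⟨hwp, (Nat.le_of_dvd hm0 hpm).trans hmξ⟩, hp, fun hpd => ?_⟩
        exact hp.one_lt.ne' (Nat.dvd_one.1 (hcd ▸ Nat.dvd_gcd hpm hpd))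
      have h4 := single_le_sum (f := fun p : ℕ => if p ∣ m then 1 / (m.totient : ℝ) else 0)
        (s := P) (fun q _ => by split_ifs <;> positivity) hpP
      have h5 : (if p ∣ m then 1 / (m.totient : ℝ) else 0) ≤
        ∑ p ∈ P, if p ∣ m then 1 / (m.totient : ℝ) else 0 := h4
      rwa [if_pos hpm] at h5
    refine (sum_le_sum h2).trans ?_
    rw [sum_comm]
    refine sum_le_sum fun p hpP => ?_
    rw [hP, mem_filter] at hpP
    rw [← sum_filter, hSD (ξ / p)]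
    refine SV_B3_inner hpP.2.1 (hA (ξ / p)) fun m hm => ?_
    rw [mem_filter, mem_filter, hA] at hm
    obtain ⟨⟨⟨⟨hm0, hmξ⟩, hsq, hcd⟩, -⟩, hpm⟩ := hm
    exact ⟨hm0, hmξ, hsq, hcd, hpm⟩

end Pool.Agent.Lib.MP_42948a_nt.SV
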