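import Pool.Agent.Lib.MP_42948a_nt.SV.Defs

/-!
# Selberg's weights: the dual sums (job A1b)

For `r ∈ Sq d w ξ`: `∑_{m ∈ Sq d w ξ, r ∣ m} λ m/m = (1/G) ∑_{m, r ∣ m} μ m/φ m ∑_{k ∈ Sq d w (ξ/m), (k,m)=1} 1/φ k`. Put `n = m k ∈ Sq d w ξ`
(the pairs `(m, k)` correspond to the pairs `(m, n)`, `m ∣ n`, `n ∈ Sq d w ξ`: `k = n/m`, `φ n = φ m φ k`):
`= (1/G) ∑_{n ∈ Sq d w ξ, r ∣ n} (1/φ n) ∑_{r ∣ m ∣ n} μ m`, and `∑_{r ∣ m ∣ n} μ m = μ r ∑_{j ∣ n/r} μ j = μ r [n = r]`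
(`m = r j`, `μ (r j) = μ r μ j` as `n` is squarefree; `ArithmeticFunction.sum_moebius...` / `coe_moebius_mul_coe_zeta`).
-/

namespace Pool.Agent.Lib.MP_42948a_nt.SV

open Finset Pool.Agent.Lib.MP_42948a_nt.OA Pool.Agent.Lib.MP_42948a_nt.OM

/-- Divisors of elements of `Sq` are in `Sq`. -/
theorem SV_A1b_dvd {d w ξ m n : ℕ} (hn : n ∈ Sq d w ξ) (h : m ∣ n) : m ∈ Sq d w ξ := by
  rw [mem_Sq] at hn ⊢
  obtain ⟨⟨h1, h2⟩, h3, h4, h5⟩ := hn
  have hm : 0 < m := Nat.pos_of_dvd_of_pos h h1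
  exact ⟨⟨hm, (Nat.le_of_dvd h1 h).trans h2⟩, h3.squarefree_of_dvd h, Nat.Coprime.coprime_dvd_left h h4,
    fun p hp hd => h5 p hp (hd.trans h)⟩

open Classical in
/-- The inner sum of the weights. -/
theorem SV_A1b_inner {d w ξ m : ℕ} (hm : m ∈ Sq d w ξ) :
    ∑ k ∈ (Sq d w (ξ / m)).filter (fun k => k.Coprime m), 1 / (m.totient : ℝ) * (1 / (k.totient : ℝ)) =
      ∑ n ∈ (Sq d w ξ).filter (fun n => m ∣ n), 1 / (n.totient : ℝ) := by
  have hm' := mem_Sq.mp hm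
  obtain ⟨⟨hm1, hmx⟩, hsq, hmd, hmp⟩ := hm'
  have hm0 : 0 < m := hm1
  refine sum_nbij' (fun k => m * k) (fun n => n / m) ?_ ?_ ?_ ?_ ?_
  · intro k hk
    rw [mem_filter] at hk
    obtain ⟨hk1, hk2⟩ := hk
    rw [mem_Sq] at hk1
    rw [mem_filter, mem_Sq]
    refine ⟨⟨⟨Nat.mul_pos hm0 hk1.1.1, ?_⟩, ?_, ?_, ?_⟩, Dvd.intro k rfl⟩
    · exact (Nat.mul_le_mul_left m hk1.1.2).trans (Nat.mul_div_le ξ m)
    · exact (Nat.squarefree_mul hk2.symm).mpr ⟨hsq, hk1.2.1⟩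
    · exact Nat.Coprime.mul_left hmd hk1.2.2.1
    · intro p hp hpd
      rcases (Nat.Prime.dvd_mul hp).mp hpd with h | h
      · exact hmp p hp h
      · exact hk1.2.2.2 p hp h
  · intro n hn
    rw [mem_filter] at hn
    obtain ⟨hn1, hn2⟩ := hn
    obtain ⟨k, rfl⟩ := hn2
    have e1 : m * k / m = k := Nat.mul_div_cancel_left k hm0
    have hks := SV_A1b_dvd hn1 (Dvd.intro_left m rfl : k ∣ m * k)
    have hks' := mem_Sq.mp hks
    have hn1' := mem_Sq.mp hn1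
    rw [e1, mem_filter, mem_Sq]
    refine ⟨⟨⟨hks'.1.1, ?_⟩, hks'.2.1, hks'.2.2.1, hks'.2.2.2⟩, ?_⟩
    · rw [Nat.le_div_iff_mul_le hm0, mul_comm]
      exact hn1'.1.2
    · exact (Nat.coprime_of_squarefree_mul hn1'.2.1).symm
  · intro k _
    exact Nat.mul_div_cancel_left k hm0
  · intro n hn
    rw [mem_filter] at hn
    exact Nat.mul_div_cancel' hn.2
  · intro k hk
    rw [mem_filter] at hk
    rw [Nat.totient_mul hk.2.symm]
    push_cast
    rw [one_div_mul_one_div]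

theorem SV_A1b_mob (n : ℕ) : ∑ j ∈ n.divisors, ((ArithmeticFunction.moebius j : ℤ) : ℝ) =
    if n = 1 then 1 else 0 := by
  have h1 : (ArithmeticFunction.moebius * (ArithmeticFunction.zeta : ArithmeticFunction ℤ)) n =
      ∑ j ∈ n.divisors, ArithmeticFunction.moebius j := ArithmeticFunction.coe_mul_zeta_apply
  rw [ArithmeticFunction.moebius_mul_coe_zeta, ArithmeticFunction.one_apply] at h1
  have h2 : ((∑ j ∈ n.divisors, ArithmeticFunction.moebius j : ℤ) : ℝ) = ((if n = 1 then 1 else 0 : ℤ) : ℝ) := by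
    rw [← h1]
  push_cast at h2
  exact h2

/-- The sum of the Moebius function over the multiples of `r` dividing `n`. -/
theorem SV_A1b_mob2 {n r : ℕ} (hn : Squarefree n) (hr : 0 < r) :
    ∑ m ∈ n.divisors.filter (fun m => r ∣ m), ((ArithmeticFunction.moebius m : ℤ) : ℝ) =
      if n = r then ((ArithmeticFunction.moebius r : ℤ) : ℝ) else 0 := by
  by_cases hd : r ∣ n
  · obtain ⟨k, hk⟩ := hd
    have hn0 : n ≠ 0 := hn.ne_zero
    have hk0 : k ≠ 0 := by
      intro h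
      rw [h, mul_zero] at hk
      exact hn0 hk
    have hsq : Squarefree (r * k) := hk ▸ hn
    have hc : r.Coprime k := Nat.coprime_of_squarefree_mul hsq
    have e1 : ∑ m ∈ n.divisors.filter (fun m => r ∣ m), ((ArithmeticFunction.moebius m : ℤ) : ℝ) =
        ∑ j ∈ k.divisors, ((ArithmeticFunction.moebius r : ℤ) : ℝ) *
          ((ArithmeticFunction.moebius j : ℤ) : ℝ) := by
      refine sum_nbij' (fun m => m / r) (fun j => r * j) ?_ ?_ ?_ ?_ ?_
      · intro m hm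
        rw [mem_filter, Nat.mem_divisors] at hm
        obtain ⟨⟨h1, _⟩, j, rfl⟩ := hm
        rw [Nat.mul_div_cancel_left j hr, Nat.mem_divisors]
        refine ⟨?_, hk0⟩
        rw [hk] at h1
        exact Nat.dvd_of_mul_dvd_mul_left hr h1
      · intro j hj
        rw [Nat.mem_divisors] at hj
        rw [mem_filter, Nat.mem_divisors]
        refine ⟨⟨?_, hn0⟩, Dvd.intro j rfl⟩
        rw [hk]
        exact Nat.mul_dvd_mul_left r hj.1
      · intro m hm
        rw [mem_filter] at hm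
        exact Nat.mul_div_cancel' hm.2
      · intro j _
        exact Nat.mul_div_cancel_left j hr
      · intro m hm
        rw [mem_filter, Nat.mem_divisors] at hm
        obtain ⟨⟨h1, _⟩, j, rfl⟩ := hm
        rw [Nat.mul_div_cancel_left j hr]
        have hj : j ∣ k := by
          rw [hk] at h1
          exact Nat.dvd_of_mul_dvd_mul_left hr h1
        rw [ArithmeticFunction.isMultiplicative_moebius.map_mul_of_coprime (Nat.Coprime.coprime_dvd_right hj hc)]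
        push_cast
        ring
    rw [e1, ← mul_sum, SV_A1b_mob]
    by_cases h1 : k = 1
    · rw [if_pos h1, if_pos (by rw [hk, h1, mul_one]), mul_one]
    · rw [if_neg h1, if_neg, mul_zero]
      intro h
      apply h1
      have : r * k = r * 1 := by rw [← hk, h, mul_one]
      exact Nat.eq_of_mul_eq_mul_left hr this
  · have e1 : n.divisors.filter (fun m => r ∣ m) = ∅ := by
      rw [filter_eq_empty_iff]
      intro m hm h
      exact hd (h.trans (Nat.dvd_of_mem_divisors hm))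
    rw [e1, sum_empty, if_neg]
    intro h
    exact hd (h ▸ dvd_refl n)

open Classical in
theorem dual_sum (d w ξ r : ℕ) (hr : r ∈ Sq d w ξ) :
    ∑ m ∈ (Sq d w ξ).filter (fun m => r ∣ m), lamS d w ξ m / m =
      ((ArithmeticFunction.moebius r : ℤ) : ℝ) / (r.totient * Gs d w ξ) := by
  have hr' := mem_Sq.mp hr
  have hr0 : 0 < r := hr'.1.1
  have e1 : ∀ m ∈ (Sq d w ξ).filter (fun m => r ∣ m), lamS d w ξ m / m =
      (∑ n ∈ (Sq d w ξ).filter (fun n => m ∣ n), ((ArithmeticFunction.moebius m : ℤ) : ℝ) *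
        (1 / (n.totient : ℝ))) / Gs d w ξ := by
    intro m hm
    rw [mem_filter] at hm
    have hm1 := mem_Sq.mp hm.1
    have hm0 : (m : ℝ) ≠ 0 := by
      have : 0 < m := hm1.1.1
      exact_mod_cast this.ne'
    unfold lamS
    rw [if_pos hm.1, ← mul_sum, ← SV_A1b_inner hm.1, ← mul_sum]
    field_simp
  rw [sum_congr rfl e1, ← sum_div]
  have e2 : ∑ m ∈ (Sq d w ξ).filter (fun m => r ∣ m), ∑ n ∈ (Sq d w ξ).filter (fun n => m ∣ n),
      ((ArithmeticFunction.moebius m : ℤ) : ℝ) * (1 / (n.totient : ℝ)) =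
      ∑ n ∈ Sq d w ξ, ∑ m ∈ n.divisors.filter (fun m => r ∣ m),
        ((ArithmeticFunction.moebius m : ℤ) : ℝ) * (1 / (n.totient : ℝ)) := by
    refine sum_comm' ?_
    intro m n
    rw [mem_filter, mem_filter, mem_filter, Nat.mem_divisors]
    constructor
    · rintro ⟨⟨h1, h2⟩, h3, h4⟩
      have h5 : 0 < n := (mem_Sq.mp h3).1.1
      exact ⟨⟨⟨h4, h5.ne'⟩, h2⟩, h3⟩
    · rintro ⟨⟨⟨h1, h2⟩, h3⟩, h4⟩
      exact ⟨⟨SV_A1b_dvd h4 h1, h3⟩, h4, h1⟩
  rw [e2]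
  have e3 : ∀ n ∈ Sq d w ξ, ∑ m ∈ n.divisors.filter (fun m => r ∣ m),
      ((ArithmeticFunction.moebius m : ℤ) : ℝ) * (1 / (n.totient : ℝ)) =
      if n = r then ((ArithmeticFunction.moebius r : ℤ) : ℝ) * (1 / (r.totient : ℝ)) else 0 := by
    intro n hn
    rw [← sum_mul, SV_A1b_mob2 (mem_Sq.mp hn).2.1 hr0]
    by_cases h : n = r
    · rw [if_pos h, if_pos h, h]
    · rw [if_neg h, if_neg h, zero_mul]
  rw [sum_congr rfl e3, sum_ite_eq' (Sq d w ξ) r, if_pos hr]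
  have hφ : (r.totient : ℝ) ≠ 0 := by
    have := Nat.totient_pos.mpr hr0
    exact_mod_cast this.ne'
  have hG : Gs d w ξ ≠ 0 := (Gs_pos d w (hr'.1.1.trans hr'.1.2)).ne'
  field_simp

end Pool.Agent.Lib.MP_42948a_nt.SV
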