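import Pool.Agent.Lib.MP_42948a_nt.SV.A1c

/-!
# The weighted sieve: support and main term (job A3a)

`omg_supp`: if `kap d (W p) (X p) p m ≠ 0` then `m = p lcm(a,b)` with `a, b ∈ Sq d (W p) (X p)`, so `1 ≤ m ≤ p a b ≤ p (X p)^2 ≤ D`, and `m` is prime to `d`.
`omg_sum`: `∑_{m ∈ Icc 1 D} κ_p m/m = ∑_{a,b} λ a λ b/(p lcm(a,b)) = 1/(p Gs)` by `selberg` (all `p lcm(a,b)` are in `Icc 1 D`).
-/

namespace Pool.Agent.Lib.MP_42948a_nt.SV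

open Finset Pool.Agent.Lib.MP_42948a_nt.OA Pool.Agent.Lib.MP_42948a_nt.OM

private theorem SV_A3a_lcm {d w ξ a b : ℕ} (ha : a ∈ Sq d w ξ) (hb : b ∈ Sq d w ξ) :
    1 ≤ a.lcm b ∧ a.lcm b ≤ ξ ^ 2 ∧ (a.lcm b).Coprime d := by
  obtain ⟨⟨ha1, ha2⟩, ha3, ha4, ha5⟩ := mem_Sq.1 ha
  obtain ⟨⟨hb1, hb2⟩, hb3, hb4, hb5⟩ := mem_Sq.1 hb
  have hd : a.lcm b ∣ a * b := Nat.lcm_dvd_mul a b
  refine ⟨Nat.lcm_pos ha1 hb1, ?_, ?_⟩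
  · refine (Nat.le_of_dvd (Nat.mul_pos ha1 hb1) hd).trans ?_
    rw [pow_two]
    exact Nat.mul_le_mul ha2 hb2
  · exact Nat.Coprime.coprime_dvd_left hd (Nat.Coprime.mul_left ha4 hb4)

private theorem SV_A3a_kap {d w ξ p m : ℕ} (h : kap d w ξ p m ≠ 0) :
    ∃ a ∈ Sq d w ξ, ∃ b ∈ Sq d w ξ, p * a.lcm b = m := by
  unfold kap at h
  obtain ⟨a, ha, h1⟩ := exists_ne_zero_of_sum_ne_zero h
  obtain ⟨b, hb, h2⟩ := exists_ne_zero_of_sum_ne_zero h1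
  refine ⟨a, ha, b, hb, ?_⟩
  by_contra hc
  exact h2 (if_neg hc)

private theorem SV_A3a_sum {d D w ξ p : ℕ} (hp : 0 < p) (hD : p * ξ ^ 2 ≤ D) (hξ : 1 ≤ ξ) :
    ∑ m ∈ Icc 1 D, kap d w ξ p m / m = 1 / (p * Gs d w ξ) := by
  unfold kap
  have h1 : ∀ m ∈ Icc 1 D, (∑ a ∈ Sq d w ξ, ∑ b ∈ Sq d w ξ,
      if p * a.lcm b = m then lamS d w ξ a * lamS d w ξ b else 0) / (m : ℝ) =
      ∑ a ∈ Sq d w ξ, ∑ b ∈ Sq d w ξ,
      if p * a.lcm b = m then lamS d w ξ a * lamS d w ξ b / ((p * a.lcm b : ℕ) : ℝ) else 0 := by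
    intro m _
    rw [sum_div]
    refine sum_congr rfl fun a _ => ?_
    rw [sum_div]
    refine sum_congr rfl fun b _ => ?_
    by_cases h : p * a.lcm b = m
    · rw [if_pos h, if_pos h, h]
    · rw [if_neg h, if_neg h, zero_div]
  rw [sum_congr rfl h1, sum_comm]
  have h2 : ∀ a ∈ Sq d w ξ, ∑ m ∈ Icc 1 D, ∑ b ∈ Sq d w ξ,
      (if p * a.lcm b = m then lamS d w ξ a * lamS d w ξ b / ((p * a.lcm b : ℕ) : ℝ) else 0) =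
      ∑ b ∈ Sq d w ξ, lamS d w ξ a * lamS d w ξ b / ((a.lcm b : ℕ) : ℝ) * (1 / p) := by
    intro a ha
    rw [sum_comm]
    refine sum_congr rfl fun b hb => ?_
    obtain ⟨h3, h4, _⟩ := SV_A3a_lcm ha hb
    rw [sum_ite_eq, if_pos]
    · push_cast
      rw [div_mul_div_comm, mul_one, mul_comm (p : ℝ)]
    · rw [mem_Icc]
      exact ⟨Nat.mul_pos hp h3, (Nat.mul_le_mul_left p h4).trans hD⟩
  rw [sum_congr rfl h2]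
  have h5 : ∑ a ∈ Sq d w ξ, ∑ b ∈ Sq d w ξ,
      lamS d w ξ a * lamS d w ξ b / ((a.lcm b : ℕ) : ℝ) * (1 / (p : ℝ)) =
      (∑ a ∈ Sq d w ξ, ∑ b ∈ Sq d w ξ,
        lamS d w ξ a * lamS d w ξ b / ((a.lcm b : ℕ) : ℝ)) * (1 / (p : ℝ)) := by
    rw [sum_mul]
    exact sum_congr rfl fun a _ => (sum_mul _ _ _).symm
  rw [h5, selberg d w ξ hξ, div_mul_div_comm, mul_one, mul_comm (Gs d w ξ)]

theorem omg_supp (d D : ℕ) (P : Finset ℕ) (c : ℕ → ℝ) (W X : ℕ → ℕ) (hD : 1 ≤ D)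
    (hP : ∀ p ∈ P, p.Prime ∧ ¬ p ∣ d ∧ p * (X p) ^ 2 ≤ D) (m : ℕ) (hm : omg d P c W X m ≠ 0) :
    1 ≤ m ∧ m ≤ D ∧ m.Coprime d := by
  by_cases h1 : m = 1
  · subst h1
    exact ⟨le_rfl, hD, Nat.coprime_one_left d⟩
  unfold omg at hm
  rw [if_neg h1, zero_sub, neg_ne_zero] at hm
  obtain ⟨p, hp, h2⟩ := exists_ne_zero_of_sum_ne_zero hm
  obtain ⟨a, ha, b, hb, hab⟩ := SV_A3a_kap (right_ne_zero_of_mul h2)
  obtain ⟨hp1, hp2, hp3⟩ := hP p hp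
  obtain ⟨h3, h4, h5⟩ := SV_A3a_lcm ha hb
  rw [← hab]
  exact ⟨Nat.mul_pos hp1.pos h3, (Nat.mul_le_mul_left p h4).trans hp3,
    Nat.Coprime.mul_left ((Nat.Prime.coprime_iff_not_dvd hp1).2 hp2) h5⟩

theorem omg_sum (d D : ℕ) (P : Finset ℕ) (c : ℕ → ℝ) (W X : ℕ → ℕ) (hD : 1 ≤ D)
    (hP : ∀ p ∈ P, p.Prime ∧ ¬ p ∣ d ∧ p * (X p) ^ 2 ≤ D) (hX : ∀ p ∈ P, 1 ≤ X p) :
    ∑ m ∈ Icc 1 D, omg d P c W X m / m = 1 - ∑ p ∈ P, c p / (p * Gs d (W p) (X p)) := by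
  unfold omg
  have h1 : ∀ m ∈ Icc 1 D, ((if m = 1 then 1 else 0) - ∑ p ∈ P, c p * kap d (W p) (X p) p m) /
      (m : ℝ) = (if m = 1 then 1 else 0) - ∑ p ∈ P, c p * (kap d (W p) (X p) p m / m) := by
    intro m _
    rw [sub_div, sum_div]
    refine congrArg₂ _ ?_ (sum_congr rfl fun p _ => by ring)
    by_cases h : m = 1
    · rw [if_pos h, h]
      norm_num
    · rw [if_neg h, zero_div]
  have h2 : ∀ p ∈ P, ∑ m ∈ Icc 1 D, c p * (kap d (W p) (X p) p m / m) =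
      c p / (p * Gs d (W p) (X p)) := by
    intro p hp
    obtain ⟨hp1, hp2, hp3⟩ := hP p hp
    rw [← mul_sum, SV_A3a_sum hp1.pos hp3 (hX p hp)]
    ring
  rw [sum_congr rfl h1, sum_sub_distrib, sum_comm, sum_congr rfl h2, sum_ite_eq' (Icc 1 D) 1,
    if_pos (mem_Icc.2 ⟨le_rfl, hD⟩)]

end Pool.Agent.Lib.MP_42948a_nt.SV
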