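import Pool.Agent.Lib.MP_42948a_nt.SV.A1a

/-!
# The weighted sieve: absolute values (job A3b)

`|omg m| ≤ [m = 1] + ∑_p ∑_{a,b ∈ Sq} [p lcm(a,b) = m]` by `abs_lamS_le`, so the sum is `≤ 1 + ∑_{p ∈ P} (1/p) ∑_{a,b ∈ Icc 1 D} 1/lcm(a,b)`
(`X p ≤ D`, as `p (X p)^2 ≤ D`); `∑_{a,b ∈ Icc 1 D} 1/lcm(a,b) ≤ ∑_{g,a',b' ∈ Icc 1 D} 1/(g a' b') ≤ (1 + log D)^3` (`g = gcd a b`, `lcm a b = g a' b'`), and
`∑_{p ∈ P} 1/p ≤ ∑_{n ∈ Icc 1 D} 1/n ≤ 1 + log D` (`p ≤ D` if `1 ≤ X p`). `harmonic_le_one_add_log`.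
-/

namespace Pool.Agent.Lib.MP_42948a_nt.SV

open Finset Pool.Agent.Lib.MP_42948a_nt.OA Pool.Agent.Lib.MP_42948a_nt.OM

private theorem SV_A3b_H (D : ℕ) : ∑ n ∈ Icc 1 D, 1 / (n : ℝ) ≤ 1 + Real.log D := by
  have h := harmonic_le_one_add_log D
  rw [harmonic_eq_sum_Icc] at h
  push_cast at h
  refine le_trans (le_of_eq ?_) h
  exact sum_congr rfl fun n _ => one_div _

private theorem SV_A3b_lcm (D : ℕ) :
    ∑ a ∈ Icc 1 D, ∑ b ∈ Icc 1 D, 1 / ((a.lcm b : ℕ) : ℝ) ≤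
      (∑ n ∈ Icc 1 D, 1 / (n : ℝ)) ^ 3 := by
  have e1 : (∑ n ∈ Icc 1 D, 1 / (n : ℝ)) ^ 3 =
      ∑ y ∈ Icc 1 D ×ˢ (Icc 1 D ×ˢ Icc 1 D),
        1 / (y.1 : ℝ) * (1 / (y.2.1 : ℝ) * (1 / (y.2.2 : ℝ))) := by
    rw [sum_product, pow_succ', pow_two, sum_mul_sum, sum_mul]
    refine sum_congr rfl fun g _ => ?_
    rw [sum_product, mul_sum]
    refine sum_congr rfl fun a _ => ?_
    rw [mul_sum]
  obtain ⟨e, he⟩ : ∃ e : ℕ × ℕ → ℕ × (ℕ × ℕ), e = fun x =>
      (x.1.gcd x.2, (x.1 / x.1.gcd x.2, x.2 / x.1.gcd x.2)) := ⟨_, rfl⟩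
  have hinj : Set.InjOn e ((Icc 1 D ×ˢ Icc 1 D : Finset (ℕ × ℕ)) : Set (ℕ × ℕ)) := by
    intro x _ y _ h
    rw [he] at h
    simp only [Prod.mk.injEq] at h
    obtain ⟨h1, h2, h3⟩ := h
    have a1 := Nat.div_mul_cancel (Nat.gcd_dvd_left x.1 x.2)
    have a2 := Nat.div_mul_cancel (Nat.gcd_dvd_right x.1 x.2)
    have b1 := Nat.div_mul_cancel (Nat.gcd_dvd_left y.1 y.2)
    have b2 := Nat.div_mul_cancel (Nat.gcd_dvd_right y.1 y.2)
    refine Prod.ext ?_ ?_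
    · rw [← a1, ← b1, h2, h1]
    · rw [← a2, ← b2, h3, h1]
  rw [e1, ← sum_product']
  calc ∑ x ∈ Icc 1 D ×ˢ Icc 1 D, 1 / ((x.1.lcm x.2 : ℕ) : ℝ)
      = ∑ x ∈ Icc 1 D ×ˢ Icc 1 D,
          1 / ((e x).1 : ℝ) * (1 / ((e x).2.1 : ℝ) * (1 / ((e x).2.2 : ℝ))) := by
        refine sum_congr rfl fun x hx => ?_
        rw [mem_product, mem_Icc, mem_Icc] at hx
        rw [he]
        show _ = 1 / ((x.1.gcd x.2 : ℕ) : ℝ) * (1 / ((x.1 / x.1.gcd x.2 : ℕ) : ℝ) *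
          (1 / ((x.2 / x.1.gcd x.2 : ℕ) : ℝ)))
        have h1 : x.1.lcm x.2 = x.1.gcd x.2 * (x.1 / x.1.gcd x.2 * (x.2 / x.1.gcd x.2)) := by
          have hg : 0 < x.1.gcd x.2 := Nat.gcd_pos_of_pos_left _ hx.1.1
          have a1 := Nat.div_mul_cancel (Nat.gcd_dvd_left x.1 x.2)
          have a2 := Nat.div_mul_cancel (Nat.gcd_dvd_right x.1 x.2)
          have a3 := Nat.gcd_mul_lcm x.1 x.2
          refine Nat.eq_of_mul_eq_mul_left hg ?_
          rw [a3]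
          calc x.1 * x.2 = (x.1 / x.1.gcd x.2 * x.1.gcd x.2) *
                (x.2 / x.1.gcd x.2 * x.1.gcd x.2) := by rw [a1, a2]
            _ = _ := by ring
        rw [h1]
        push_cast
        rw [one_div_mul_one_div, one_div_mul_one_div]
    _ = ∑ y ∈ (Icc 1 D ×ˢ Icc 1 D).image e,
          1 / (y.1 : ℝ) * (1 / (y.2.1 : ℝ) * (1 / (y.2.2 : ℝ))) := by
        rw [sum_image hinj]
    _ ≤ _ := by
        refine sum_le_sum_of_subset_of_nonneg ?_ fun y _ _ => by positivity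
        intro y hy
        rw [mem_image] at hy
        obtain ⟨x, hx, rfl⟩ := hy
        rw [mem_product, mem_Icc, mem_Icc] at hx
        rw [he, mem_product, mem_product, mem_Icc, mem_Icc, mem_Icc]
        have hg : 0 < x.1.gcd x.2 := Nat.gcd_pos_of_pos_left _ hx.1.1
        refine ⟨⟨hg, (Nat.gcd_le_left _ hx.1.1).trans hx.1.2⟩,
          ⟨Nat.div_pos (Nat.gcd_le_left _ hx.1.1) hg, (Nat.div_le_self _ _).trans hx.1.2⟩,
          ⟨Nat.div_pos (Nat.gcd_le_right _ hx.2.1) hg, (Nat.div_le_self _ _).trans hx.2.2⟩⟩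

private theorem SV_A3b_kap (d w ξ p m : ℕ) :
    |kap d w ξ p m| ≤ ∑ a ∈ Sq d w ξ, ∑ b ∈ Sq d w ξ, if p * a.lcm b = m then (1 : ℝ) else 0 := by
  classical
  unfold kap
  refine (abs_sum_le_sum_abs _ _).trans (sum_le_sum fun a _ => ?_)
  refine (abs_sum_le_sum_abs _ _).trans (sum_le_sum fun b _ => ?_)
  by_cases h : p * a.lcm b = m
  · rw [if_pos h, if_pos h, abs_mul]
    have h1 := abs_lamS_le d w ξ a
    have h2 := abs_lamS_le d w ξ b
    calc |lamS d w ξ a| * |lamS d w ξ b| ≤ 1 * 1 :=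
          mul_le_mul h1 h2 (abs_nonneg _) zero_le_one
      _ = 1 := one_mul 1
  · rw [if_neg h, if_neg h, abs_zero]

theorem omg_abs (d D : ℕ) (P : Finset ℕ) (c : ℕ → ℝ) (W X : ℕ → ℕ) (hD : 1 ≤ D)
    (hP : ∀ p ∈ P, p.Prime ∧ ¬ p ∣ d ∧ p * (X p) ^ 2 ≤ D) (hX : ∀ p ∈ P, 1 ≤ X p)
    (hc : ∀ p ∈ P, |c p| ≤ 1) :
    ∑ m ∈ Icc 1 D, |omg d P c W X m| / m ≤ 1 + (1 + Real.log D) ^ 4 := by
  classical
  obtain ⟨H, hH⟩ : ∃ H : ℝ, H = ∑ n ∈ Icc 1 D, 1 / (n : ℝ) := ⟨_, rfl⟩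
  have hH0 : 0 ≤ H := by
    rw [hH]
    exact sum_nonneg fun n _ => by positivity
  have hHle : H ≤ 1 + Real.log D := by
    rw [hH]
    exact SV_A3b_H D
  have h3 := SV_A3b_lcm D
  rw [← hH] at h3
  -- pointwise
  have hpt : ∀ m ∈ Icc 1 D, |omg d P c W X m| / m ≤ (if m = 1 then (1 : ℝ) else 0) +
      ∑ p ∈ P, ∑ a ∈ Sq d (W p) (X p), ∑ b ∈ Sq d (W p) (X p),
        if p * a.lcm b = m then 1 / ((p * a.lcm b : ℕ) : ℝ) else 0 := by
    intro m hm
    rw [mem_Icc] at hm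
    have hm0 : (0 : ℝ) < m := by
      have := hm.1
      exact_mod_cast this
    have h1 : |omg d P c W X m| ≤ (if m = 1 then (1 : ℝ) else 0) +
        ∑ p ∈ P, ∑ a ∈ Sq d (W p) (X p), ∑ b ∈ Sq d (W p) (X p),
          if p * a.lcm b = m then (1 : ℝ) else 0 := by
      unfold omg
      refine (abs_sub _ _).trans (add_le_add (le_of_eq ?_) ?_)
      · by_cases h : m = 1
        · rw [if_pos h, abs_one]
        · rw [if_neg h, abs_zero]
      · refine (abs_sum_le_sum_abs _ _).trans (sum_le_sum fun p hp => ?_)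
        rw [abs_mul]
        calc |c p| * |kap d (W p) (X p) p m| ≤ 1 * |kap d (W p) (X p) p m| :=
              mul_le_mul_of_nonneg_right (hc p hp) (abs_nonneg _)
          _ = |kap d (W p) (X p) p m| := one_mul _
          _ ≤ _ := SV_A3b_kap _ _ _ _ _
    rw [div_le_iff₀ hm0]
    refine h1.trans (le_of_eq ?_)
    rw [add_mul, sum_mul]
    refine congrArg₂ (· + ·) ?_ (sum_congr rfl fun p _ => ?_)
    · by_cases h : m = 1
      · rw [if_pos h, h, Nat.cast_one, mul_one]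
      · rw [if_neg h, zero_mul]
    · rw [sum_mul]
      refine sum_congr rfl fun a _ => ?_
      rw [sum_mul]
      refine sum_congr rfl fun b _ => ?_
      by_cases h : p * a.lcm b = m
      · rw [if_pos h, if_pos h, h, one_div, inv_mul_cancel₀ hm0.ne']
      · rw [if_neg h, if_neg h, zero_mul]
  refine (sum_le_sum hpt).trans ?_
  rw [sum_add_distrib]
  have hA : ∑ m ∈ Icc 1 D, (if m = 1 then (1 : ℝ) else 0) ≤ 1 := by
    rw [sum_ite_eq']
    split_ifs <;> norm_num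
  have hB : ∑ m ∈ Icc 1 D, ∑ p ∈ P, ∑ a ∈ Sq d (W p) (X p), ∑ b ∈ Sq d (W p) (X p),
      (if p * a.lcm b = m then 1 / ((p * a.lcm b : ℕ) : ℝ) else 0) ≤ H * H ^ 3 := by
    rw [sum_comm]
    calc ∑ p ∈ P, ∑ m ∈ Icc 1 D, ∑ a ∈ Sq d (W p) (X p), ∑ b ∈ Sq d (W p) (X p),
          (if p * a.lcm b = m then 1 / ((p * a.lcm b : ℕ) : ℝ) else 0)
        ≤ ∑ p ∈ P, 1 / (p : ℝ) * H ^ 3 := by
          refine sum_le_sum fun p hp => ?_
          obtain ⟨hpp, _, hpX⟩ := hP p hp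
          have hX1 := hX p hp
          have hXD : X p ≤ D := by
            have e1 : X p ≤ (X p) ^ 2 := by
              rw [pow_two]
              exact Nat.le_mul_of_pos_left _ hX1
            have e2 : (X p) ^ 2 ≤ p * (X p) ^ 2 := Nat.le_mul_of_pos_left _ hpp.pos
            exact e1.trans (e2.trans hpX)
          have hsub : Sq d (W p) (X p) ⊆ Icc 1 D := by
            intro a ha
            rw [mem_Sq] at ha
            exact mem_Icc.mpr ⟨ha.1.1, ha.1.2.trans hXD⟩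
          rw [sum_comm]
          calc ∑ a ∈ Sq d (W p) (X p), ∑ m ∈ Icc 1 D, ∑ b ∈ Sq d (W p) (X p),
                (if p * a.lcm b = m then 1 / ((p * a.lcm b : ℕ) : ℝ) else 0)
              ≤ ∑ a ∈ Sq d (W p) (X p), ∑ b ∈ Sq d (W p) (X p),
                  1 / (p : ℝ) * (1 / ((a.lcm b : ℕ) : ℝ)) := by
                refine sum_le_sum fun a _ => ?_
                rw [sum_comm]
                refine sum_le_sum fun b _ => ?_
                rw [sum_ite_eq]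
                have e : 1 / ((p * a.lcm b : ℕ) : ℝ) = 1 / (p : ℝ) * (1 / ((a.lcm b : ℕ) : ℝ)) := by
                  rw [one_div_mul_one_div, Nat.cast_mul]
                rw [← e]
                split_ifs
                · exact le_refl _
                · positivity
            _ ≤ ∑ a ∈ Icc 1 D, ∑ b ∈ Icc 1 D, 1 / (p : ℝ) * (1 / ((a.lcm b : ℕ) : ℝ)) := by
                refine (sum_le_sum fun a _ => sum_le_sum_of_subset_of_nonneg hsub
                  fun b _ _ => by positivity).trans ?_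
                exact sum_le_sum_of_subset_of_nonneg hsub fun a _ _ =>
                  sum_nonneg fun b _ => by positivity
            _ = 1 / (p : ℝ) * ∑ a ∈ Icc 1 D, ∑ b ∈ Icc 1 D, 1 / ((a.lcm b : ℕ) : ℝ) := by
                rw [mul_sum]
                exact sum_congr rfl fun a _ => (mul_sum _ _ _).symm
            _ ≤ 1 / (p : ℝ) * H ^ 3 := mul_le_mul_of_nonneg_left h3 (by positivity)
      _ = (∑ p ∈ P, 1 / (p : ℝ)) * H ^ 3 := by rw [sum_mul]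
      _ ≤ H * H ^ 3 := by
          refine mul_le_mul_of_nonneg_right ?_ (by positivity)
          rw [hH]
          refine sum_le_sum_of_subset_of_nonneg ?_ fun n _ _ => by positivity
          intro p hp
          obtain ⟨hpp, _, hpX⟩ := hP p hp
          have hX1 := hX p hp
          refine mem_Icc.mpr ⟨hpp.pos, le_trans ?_ hpX⟩
          exact Nat.le_mul_of_pos_right _ (pow_pos hX1 2)
  have hC : H * H ^ 3 ≤ (1 + Real.log D) ^ 4 := by
    have e : H * H ^ 3 = H ^ 4 := by ring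
    rw [e]
    exact pow_le_pow_left₀ hH0 hHle 4
  linarith

end Pool.Agent.Lib.MP_42948a_nt.SV
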