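import Pool.Agent.Lib.MP_42948a_nt.SV.A1a

/-!
# The weighted sieve is at most the indicator of the products of two primes (job A4)

Let `S_p = ∑_{a ∈ Sq d (Wx x p) (Xx x p), a ∣ n/p} λ a`. Everything subtracted is `≥ 0`: `cx x p ≥ 0` for `p ∈ Px d x`
(`p ≤ yx x ≤ x^(8/15)`, so `log p ≤ 8/15 log x`; `lz > 0`).
Case 1: `n` has a prime factor `≤ zx x`. Let `q` be the least prime factor of `n` (`Nat.minFac`); `q ≤ zx x ≤ yx x`, `q ∤ d` (`n` is prime to `d`), so `q ∈ Px d x`, `cx x q = 1`,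
`Wx x q = q`; an `a` with `a ∣ n/q`, all primes of `a` `< q`, is `1`. So `S_q = λ 1 = 1` (`one_mem_Sq`, `one_le_Xx`, `lamS_one`), and the left side is `≤ 0`.
Case 2: all primes of `n` are `> zx x` (so `Rough (zx x) n`, and every prime `p` of `n` is `> x^(1/9)` as `p ≥ zx x + 1`). For `p ∈ Px d x`, `p ∣ n`: `Wx x p = zx x + 1`, so `S_p = λ 1 = 1`, and the left side
is `1 - lz ∑_{p ∣ n, p ≤ yx x} (1 - 15/8 log p/log x)`, always `≤ 1`. If `Ω n ≤ 2` or `p^2 ∣ n` for some prime `p`, fine. Otherwise `n` is squarefree with `≥ 3` prime factors, and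
`∑_{p ∣ n, p ≤ yx x} (1 - 15/8 log p/log x) ≥ ∑_{p ∣ n} (1 - 15/8 log p/log x)` (a prime `p > yx x` has `p > x^(8/15)`, so its term is `≤ 0`) `= Ω n - 15/8 log n/log x ≥ 3 - 15/8 · 1001/1000 = 1/lz`.
-/

namespace Pool.Agent.Lib.MP_42948a_nt.SV

open Finset Pool.Agent.Lib.MP_42948a_nt.OA Pool.Agent.Lib.MP_42948a_nt.OM

open Classical in
private theorem SV_A4_one {x : ℝ} (hx : 1 ≤ x) (d n p : ℕ) (hp : p.Prime) (hpy : p ≤ yx x)
    (hpn : p ∣ n) (h : ∀ q : ℕ, q.Prime → q ∣ n → Wx x p ≤ q) :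
    (∑ a ∈ (Sq d (Wx x p) (Xx x p)).filter (fun a => a ∣ n / p),
      lamS d (Wx x p) (Xx x p) a) = 1 := by
  have hX : 1 ≤ Xx x p := one_le_Xx hx hp.one_lt.le hpy
  have hS : (Sq d (Wx x p) (Xx x p)).filter (fun a => a ∣ n / p) = {1} := by
    ext a
    rw [mem_filter, mem_singleton]
    constructor
    · rintro ⟨ha, had⟩
      by_contra hne
      obtain ⟨q, hq, hqa⟩ := Nat.exists_prime_and_dvd hne
      have h1 := (mem_Sq.mp ha).2.2.2 q hq hqa
      have h2 : q ∣ n := (hqa.trans had).trans (Nat.div_dvd_of_dvd hpn)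
      exact absurd (h q hq h2) (not_le.mpr h1)
    · rintro rfl
      exact ⟨one_mem_Sq d _ hX, one_dvd _⟩
  rw [hS, sum_singleton, lamS_one d _ hX]

private theorem SV_A4_lz : 0 < lz := by
  unfold lz
  norm_num

private theorem SV_A4_term {x : ℝ} (hx : 2 ≤ x) (p : ℕ) (hp : p.Prime) (hpy : p ≤ yx x) :
    0 ≤ 1 - 15 / 8 * (Real.log p / Real.log x) := by
  have hx0 : 0 < x := by linarith
  have hlx : 0 < Real.log x := Real.log_pos (by linarith)
  have hp0 : (0 : ℝ) < p := by exact_mod_cast hp.pos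
  have h1 : (p : ℝ) ≤ x ^ (8 / 15 : ℝ) := by
    have h2 : ((yx x : ℕ) : ℝ) ≤ x ^ (8 / 15 : ℝ) := Nat.floor_le (Real.rpow_nonneg hx0.le _)
    have h3 : (p : ℝ) ≤ (yx x : ℕ) := by exact_mod_cast hpy
    exact h3.trans h2
  have h4 : Real.log p ≤ 8 / 15 * Real.log x := by
    have h5 := Real.log_le_log hp0 h1
    rwa [Real.log_rpow hx0] at h5
  have h6 : Real.log p / Real.log x ≤ 8 / 15 := by
    rw [div_le_iff₀ hlx]
    exact h4
  linarith

private theorem SV_A4_term_neg {x : ℝ} (hx : 2 ≤ x) (p : ℕ) (hpy : yx x < p) :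
    1 - 15 / 8 * (Real.log p / Real.log x) ≤ 0 := by
  have hx0 : 0 < x := by linarith
  have hlx : 0 < Real.log x := Real.log_pos (by linarith)
  have h1 : x ^ (8 / 15 : ℝ) ≤ (p : ℝ) := by
    have h2 : x ^ (8 / 15 : ℝ) < ((yx x : ℕ) : ℝ) + 1 := Nat.lt_floor_add_one _
    have h3 : ((yx x : ℕ) : ℝ) + 1 ≤ p := by exact_mod_cast hpy
    linarith
  have h4 : 8 / 15 * Real.log x ≤ Real.log p := by
    have h5 := Real.log_le_log (Real.rpow_pos_of_pos hx0 _) h1
    rwa [Real.log_rpow hx0] at h5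
  have h6 : 8 / 15 ≤ Real.log p / Real.log x := by
    rw [le_div_iff₀ hlx]
    exact h4
  linarith

private theorem SV_A4_zy {x : ℝ} (hx : 2 ≤ x) : zx x ≤ yx x := by
  unfold zx yx
  refine Nat.floor_le_floor ?_
  exact Real.rpow_le_rpow_of_exponent_le (by linarith) (by norm_num)

private theorem SV_A4_cx_nonneg {x : ℝ} (hx : 2 ≤ x) (p : ℕ) (hp : p.Prime) (hpy : p ≤ yx x) :
    0 ≤ cx x p := by
  unfold cx
  split_ifs
  · exact zero_le_one
  · exact mul_nonneg SV_A4_lz.le (SV_A4_term hx p hp hpy)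

private theorem SV_A4_sum {x : ℝ} (hx : 2 ≤ x) {n : ℕ} (hn : x < (n : ℝ))
    (hn2 : (n : ℝ) ≤ x ^ (1001 / 1000 : ℝ)) (hsq : Squarefree n) (hO : 3 ≤ Om n) :
    3 - 15 / 8 * (1001 / 1000) ≤ ∑ p ∈ n.primeFactors, (1 - 15 / 8 * (Real.log p / Real.log x)) := by
  have hx0 : 0 < x := by linarith
  have hlx : 0 < Real.log x := Real.log_pos (by linarith)
  have hn0 : (0 : ℝ) < n := by linarith
  have hn0' : n ≠ 0 := by
    rintro rfl
    simp at hn0
  have hcard : (3 : ℝ) ≤ (n.primeFactors.card : ℝ) := by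
    have h1 : n.primeFactors.card = Om n := by
      have h2 := (ArithmeticFunction.cardDistinctFactors_eq_cardFactors_iff_squarefree hn0').mpr hsq
      exact h2
    rw [h1]
    exact_mod_cast hO
  have hlog : ∑ p ∈ n.primeFactors, Real.log p = Real.log n := by
    have h1 := Nat.prod_primeFactors_of_squarefree hsq
    have h2 : ((∏ p ∈ n.primeFactors, p : ℕ) : ℝ) = n := by rw [h1]
    rw [← h2, Nat.cast_prod, Real.log_prod]
    intro p hp
    have := (Nat.prime_of_mem_primeFactors hp).pos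
    positivity
  have h3 : Real.log n ≤ 1001 / 1000 * Real.log x := by
    have h5 := Real.log_le_log hn0 hn2
    rwa [Real.log_rpow hx0] at h5
  have h6 : Real.log n / Real.log x ≤ 1001 / 1000 := by
    rw [div_le_iff₀ hlx]
    exact h3
  have h7 : ∑ p ∈ n.primeFactors, (1 - 15 / 8 * (Real.log p / Real.log x)) =
      (n.primeFactors.card : ℝ) - 15 / 8 * (Real.log n / Real.log x) := by
    rw [sum_sub_distrib, ← mul_sum, ← sum_div, hlog, sum_const, nsmul_eq_mul, mul_one]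
  rw [h7]
  linarith

open Classical in
theorem pointwise {x : ℝ} (hx : 2 ≤ x) (d n : ℕ) (hn : x < (n : ℝ)) (hn2 : (n : ℝ) ≤ x ^ (1001 / 1000 : ℝ))
    (hd : n.Coprime d) :
    1 - ∑ p ∈ (Px d x).filter (fun p => p ∣ n),
        cx x p * (∑ a ∈ (Sq d (Wx x p) (Xx x p)).filter (fun a => a ∣ n / p), lamS d (Wx x p) (Xx x p) a) ^ 2 ≤
      (if Rough (zx x) n ∧ Om n ≤ 2 then 1 else 0) +
        (if ∃ p : ℕ, p.Prime ∧ x ^ (1 / 9 : ℝ) < p ∧ p ^ 2 ∣ n then 1 else 0) := by
  have hx0 : 0 < x := by linarith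
  have hx1 : 1 ≤ x := by linarith
  have hn0 : (0 : ℝ) < n := by linarith
  have hnpos : 0 < n := by exact_mod_cast hn0
  have hn1 : n ≠ 1 := by
    rintro rfl
    norm_num at hn
    linarith
  have hR1 : (0 : ℝ) ≤ (if Rough (zx x) n ∧ Om n ≤ 2 then 1 else 0) := by
    split_ifs <;> norm_num
  have hR2 : (0 : ℝ) ≤ (if ∃ p : ℕ, p.Prime ∧ x ^ (1 / 9 : ℝ) < p ∧ p ^ 2 ∣ n then 1 else 0) := by
    split_ifs <;> norm_num
  have hmem : ∀ p : ℕ, p ∈ (Px d x).filter (fun p => p ∣ n) ↔ p.Prime ∧ p ∣ n ∧ p ≤ yx x := by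
    intro p
    unfold Px
    rw [mem_filter, mem_Pw]
    constructor
    · rintro ⟨⟨h1, h2, _⟩, h4⟩
      exact ⟨h2, h4, Nat.lt_succ_iff.mp h1⟩
    · rintro ⟨h1, h2, h3⟩
      refine ⟨⟨Nat.lt_succ_iff.mpr h3, h1, fun h4 => ?_⟩, h2⟩
      exact Nat.not_coprime_of_dvd_of_dvd h1.one_lt h2 h4 hd
  have hnn : ∀ p ∈ (Px d x).filter (fun p => p ∣ n), 0 ≤ cx x p *
      (∑ a ∈ (Sq d (Wx x p) (Xx x p)).filter (fun a => a ∣ n / p),
        lamS d (Wx x p) (Xx x p) a) ^ 2 := by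
    intro p hp
    obtain ⟨h1, _, h3⟩ := (hmem p).mp hp
    exact mul_nonneg (SV_A4_cx_nonneg hx p h1 h3) (sq_nonneg _)
  by_cases hcase : ∃ p : ℕ, p.Prime ∧ p ∣ n ∧ p ≤ zx x
  · obtain ⟨p0, hp0, hp0n, hp0z⟩ := hcase
    have hq : (n.minFac).Prime := Nat.minFac_prime hn1
    have hqn : n.minFac ∣ n := Nat.minFac_dvd n
    have hqz : n.minFac ≤ zx x := (Nat.minFac_le_of_dvd hp0.two_le hp0n).trans hp0z
    have hqy : n.minFac ≤ yx x := hqz.trans (SV_A4_zy hx)
    have hW : Wx x n.minFac = n.minFac := by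
      unfold Wx
      exact min_eq_left (by omega)
    have hc : cx x n.minFac = 1 := by
      unfold cx
      rw [if_pos hqz]
    have hs := SV_A4_one hx1 d n n.minFac hq hqy hqn (by
      intro r hr hrn
      rw [hW]
      exact Nat.minFac_le_of_dvd hr.two_le hrn)
    have hle := single_le_sum hnn ((hmem n.minFac).mpr ⟨hq, hqn, hqy⟩)
    rw [hs, hc] at hle
    have : (1 : ℝ) * 1 ^ 2 = 1 := by norm_num
    rw [this] at hle
    linarith
  · have hall : ∀ p : ℕ, p.Prime → p ∣ n → zx x < p := by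
      intro p hp hpn
      by_contra h
      exact hcase ⟨p, hp, hpn, not_lt.mp h⟩
    have hRough : Rough (zx x) n := ⟨hnpos, hall⟩
    have hterm : ∀ p ∈ (Px d x).filter (fun p => p ∣ n), cx x p *
        (∑ a ∈ (Sq d (Wx x p) (Xx x p)).filter (fun a => a ∣ n / p),
          lamS d (Wx x p) (Xx x p) a) ^ 2 = lz * (1 - 15 / 8 * (Real.log p / Real.log x)) := by
      intro p hp
      obtain ⟨h1, h2, h3⟩ := (hmem p).mp hp
      have hs := SV_A4_one hx1 d n p h1 h3 h2 (by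
        intro r hr hrn
        have h5 := hall r hr hrn
        unfold Wx
        exact (min_le_right _ _).trans h5)
      rw [hs]
      unfold cx
      rw [if_neg (not_le.mpr (hall p h1 h2))]
      ring
    by_cases hO : Om n ≤ 2
    · have h1 : (if Rough (zx x) n ∧ Om n ≤ 2 then (1 : ℝ) else 0) = 1 := if_pos ⟨hRough, hO⟩
      rw [h1]
      have h2 := sum_nonneg hnn
      linarith
    · by_cases hS : ∃ p : ℕ, p.Prime ∧ x ^ (1 / 9 : ℝ) < p ∧ p ^ 2 ∣ n
      · have h1 : (if ∃ p : ℕ, p.Prime ∧ x ^ (1 / 9 : ℝ) < p ∧ p ^ 2 ∣ n then (1 : ℝ) else 0) = 1 :=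
          if_pos hS
        rw [h1]
        have h2 := sum_nonneg hnn
        linarith
      · have hsq : Squarefree n := by
          rw [Nat.squarefree_iff_prime_squarefree]
          intro p hp hpp
          refine hS ⟨p, hp, ?_, by rw [pow_two]; exact hpp⟩
          have h5 := hall p hp (dvd_of_mul_left_dvd hpp)
          have h6 : x ^ (1 / 9 : ℝ) < ((zx x : ℕ) : ℝ) + 1 := Nat.lt_floor_add_one _
          have h7 : ((zx x : ℕ) : ℝ) + 1 ≤ p := by exact_mod_cast h5
          linarith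
        have h3 := SV_A4_sum hx hn hn2 hsq (by omega)
        have h4 : ∑ p ∈ n.primeFactors, (1 - 15 / 8 * (Real.log p / Real.log x)) ≤
            ∑ p ∈ (Px d x).filter (fun p => p ∣ n), (1 - 15 / 8 * (Real.log p / Real.log x)) := by
          have hsub : (Px d x).filter (fun p => p ∣ n) ⊆ n.primeFactors := by
            intro p hp
            obtain ⟨h1, h2, _⟩ := (hmem p).mp hp
            exact Nat.mem_primeFactors.mpr ⟨h1, h2, hnpos.ne'⟩
          rw [← sum_sdiff hsub]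
          have : ∑ p ∈ n.primeFactors \ (Px d x).filter (fun p => p ∣ n),
              (1 - 15 / 8 * (Real.log p / Real.log x)) ≤ 0 := by
            refine sum_nonpos fun p hp => ?_
            rw [mem_sdiff] at hp
            have h1 := Nat.mem_primeFactors.mp hp.1
            refine SV_A4_term_neg hx p ?_
            by_contra h2
            exact hp.2 ((hmem p).mpr ⟨h1.1, h1.2.1, not_lt.mp h2⟩)
          linarith
        rw [sum_congr rfl hterm, ← mul_sum]
        have h5 : lz * (3 - 15 / 8 * (1001 / 1000)) = 1 := by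
          unfold lz
          norm_num
        have h6 := mul_le_mul_of_nonneg_left (h3.trans h4) SV_A4_lz.le
        rw [h5] at h6
        linarith

end Pool.Agent.Lib.MP_42948a_nt.SV
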