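import Pool.Agent.Lib.MP_42948a_nt.SV.B10a

/-!
# The primes from `x^(1/15)` to `x^(1/9)` (job B10b)

Twenty pieces `a = k/900`, `b = (k+2)/900`, `k = 60, 62, .., 98` of `piece1` (the sets `Prd` of the pieces are disjoint and their union is the whole). `b' = 27/10 a` for `k ≤ 82`, and `b' = (299/500 - b)/2` for `k ≥ 84`
(check `b' ≤ (299/500 - b)/2`). For `k ≤ 82`: `Gam a b' = a (2 · 2.7 - 2.7 log 2.7 - 1) ≥ 1.718 a` (`log 2.7 ≤ .9933`), so `U = 1000/(1717 a)`.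
`k ≥ 84`: `Gam a b'` is `.16036, .16401, .16746, .17074, .17383, .17676, .17952, .18213` for `k = 84, .., 98`; `U` slightly above its inverse. The exact total is `∑ log(b/a)/Gam = 3.5485`; asked `3.58`, so there is room for rounding:
`δ = 10^-4` in each piece. `log q ≤ r` for rationals: `q ≤ exp r`, `Real.sum_le_exp_of_nonneg` (Taylor sums are below `exp`) and `norm_num`; or `log q ≤ q - 1 - ...`; `log((k+2)/k) ≤ 2/(k+1) + 1/(k (k+1)^2)` or so.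
-/

namespace Pool.Agent.Lib.MP_42948a_nt.SV

open Finset Pool.Agent.Lib.MP_42948a_nt.OA Pool.Agent.Lib.MP_42948a_nt.OM

private def SV_B10b_P (f : ℝ → ℕ → ℕ → ℝ) (a b T : ℝ) : Prop :=
  ∃ x0 : ℝ, 2 ≤ x0 ∧ ∀ x : ℝ, x0 ≤ x → ∀ d : ℕ, 1 ≤ d → (d : ℝ) ≤ x ^ 2 →
    ∑ p ∈ Prd d (x ^ a) (x ^ b), f x d p ≤ (d : ℝ) / d.totient / Real.log x * T

private theorem SV_B10b_glue (f : ℝ → ℕ → ℕ → ℝ) (a b c T T' : ℝ) (hab : a ≤ b) (hbc : b ≤ c)
    (h1 : SV_B10b_P f a b T) (h2 : SV_B10b_P f b c T') : SV_B10b_P f a c (T + T') := by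
  obtain ⟨x1, hx1, h1⟩ := h1
  obtain ⟨x2, hx2, h2⟩ := h2
  refine ⟨max x1 x2, hx1.trans (le_max_left _ _), fun x hx d hd hdx => ?_⟩
  have g1 := h1 x ((le_max_left _ _).trans hx) d hd hdx
  have g2 := h2 x ((le_max_right _ _).trans hx) d hd hdx
  have hx0 : 1 ≤ x := by
    have := (le_max_left x1 x2).trans hx
    linarith
  have p0 : 0 ≤ x ^ a := Real.rpow_nonneg (by linarith) a
  have p1 : 0 ≤ x ^ b := Real.rpow_nonneg (by linarith) b
  have q1 : x ^ a ≤ x ^ b := Real.rpow_le_rpow_of_exponent_le hx0 hab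
  have q2 : x ^ b ≤ x ^ c := Real.rpow_le_rpow_of_exponent_le hx0 hbc
  have e : Prd d (x ^ a) (x ^ c) = Prd d (x ^ a) (x ^ b) ∪ Prd d (x ^ b) (x ^ c) := by
    ext p
    rw [mem_union, mem_Prd p0, mem_Prd p0, mem_Prd p1]
    constructor
    · rintro ⟨⟨h3, h4, h5⟩, h6⟩
      rcases le_or_gt (p : ℝ) (x ^ b) with h7 | h7
      · exact Or.inl ⟨⟨h3, h4, h7⟩, h6⟩
      · exact Or.inr ⟨⟨h3, h7, h5⟩, h6⟩
    · rintro (⟨⟨h3, h4, h5⟩, h6⟩ | ⟨⟨h3, h4, h5⟩, h6⟩)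
      · exact ⟨⟨h3, h4, h5.trans q2⟩, h6⟩
      · exact ⟨⟨h3, q1.trans_lt h4, h5⟩, h6⟩
  have hd : Disjoint (Prd d (x ^ a) (x ^ b)) (Prd d (x ^ b) (x ^ c)) := by
    rw [Finset.disjoint_left]
    intro p h3 h4
    rw [mem_Prd p0] at h3
    rw [mem_Prd p1] at h4
    linarith [h3.1.2.2, h4.1.2.1]
  rw [e, sum_union hd, mul_add]
  exact add_le_add g1 g2

private theorem SV_B10b_log (q r : ℝ) (n : ℕ) (hq : 0 < q) (hr : 0 ≤ r) (h : q ≤ ∑ i ∈ range n, r ^ i / (i.factorial : ℝ)) :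
    Real.log q ≤ r := by
  rw [Real.log_le_iff_le_exp hq]
  exact h.trans (Real.sum_le_exp_of_nonneg hr n)

private noncomputable def SV_B10b_f (x : ℝ) (d p : ℕ) : ℝ := 1 / (p * Gs d p (Xx x p))

private theorem SV_B10b_step (a b b' U r L T : ℝ) (ha : 1 / 20 ≤ a) (hab : a ≤ b) (hb : b ≤ 1 / 2) (hb' : 1 / 50 ≤ b')
    (hbb : b' ≤ (299 / 500 - b) / 2) (hU0 : 0 < U) (hlt : a < b') (hr0 : 0 ≤ r)
    (hr : b' / a ≤ ∑ i ∈ range 9, r ^ i / (i.factorial : ℝ)) (hU : 1 < U * (2 * b' - b' * r - a)) (hL0 : 0 ≤ L)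
    (hL : b / a ≤ ∑ i ∈ range 5, L ^ i / (i.factorial : ℝ)) (hT : U * L + 1 / 10000 ≤ T) :
    SV_B10b_P SV_B10b_f a b T := by
  have ha0 : 0 < a := by linarith
  have hb0 : 0 < b' := by linarith
  have h1 : Real.log (b' / a) ≤ r := SV_B10b_log _ _ 9 (div_pos hb0 ha0) hr0 hr
  have h2 : Real.log (b / a) ≤ L := SV_B10b_log _ _ 5 (div_pos (by linarith) ha0) hL0 hL
  have h3 : 1 < U * Gam a b' := by
    unfold Gam
    rw [if_neg (not_le.mpr hlt)]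
    refine hU.trans_le (mul_le_mul_of_nonneg_left ?_ hU0.le)
    have := mul_le_mul_of_nonneg_left h1 hb0.le
    linarith
  obtain ⟨x0, hx0, h⟩ := piece1 a b b' U ha hab hb hb' hbb hU0 h3 (1 / 10000) (by norm_num)
  refine ⟨x0, hx0, fun x hx d hd hdx => ?_⟩
  refine (h x hx d hd hdx).trans (mul_le_mul_of_nonneg_left ?_ ?_)
  · have := mul_le_mul_of_nonneg_left h2 hU0.le
    linarith
  · have h4 : 0 ≤ Real.log x := Real.log_nonneg (by linarith)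
    positivity

private theorem SV_B10b_60 : SV_B10b_P SV_B10b_f (60 / 900) (62 / 900) (179 / 625) := by
  refine SV_B10b_step (60 / 900) (62 / 900) (9 / 50) (8731 / 1000) (9933 / 10000) (3279 / 100000) (179 / 625) ?_ ?_ ?_ ?_ ?_ ?_ ?_ ?_ ?_ ?_ ?_ ?_ ?_ <;>
    norm_num [Finset.sum_range_succ, Nat.factorial]

private theorem SV_B10b_62 : SV_B10b_P SV_B10b_f (62 / 900) (64 / 900) (671 / 2500) := by
  refine SV_B10b_step (62 / 900) (64 / 900) (93 / 500) (8449 / 1000) (9933 / 10000) (127 / 4000) (671 / 2500) ?_ ?_ ?_ ?_ ?_ ?_ ?_ ?_ ?_ ?_ ?_ ?_ ?_ <;>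
    norm_num [Finset.sum_range_succ, Nat.factorial]

private theorem SV_B10b_64 : SV_B10b_P SV_B10b_f (64 / 900) (66 / 900) (2521 / 10000) := by
  refine SV_B10b_step (64 / 900) (66 / 900) (24 / 125) (1637 / 200) (9933 / 10000) (1539 / 50000) (2521 / 10000) ?_ ?_ ?_ ?_ ?_ ?_ ?_ ?_ ?_ ?_ ?_ ?_ ?_ <;>
    norm_num [Finset.sum_range_succ, Nat.factorial]

private theorem SV_B10b_66 : SV_B10b_P SV_B10b_f (66 / 900) (68 / 900) (2371 / 10000) := by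
  refine SV_B10b_step (66 / 900) (68 / 900) (99 / 500) (7937 / 1000) (9933 / 10000) (1493 / 50000) (2371 / 10000) ?_ ?_ ?_ ?_ ?_ ?_ ?_ ?_ ?_ ?_ ?_ ?_ ?_ <;>
    norm_num [Finset.sum_range_succ, Nat.factorial]

private theorem SV_B10b_68 : SV_B10b_P SV_B10b_f (68 / 900) (70 / 900) (447 / 2000) := by
  refine SV_B10b_step (68 / 900) (70 / 900) (51 / 250) (963 / 125) (9933 / 10000) (2899 / 100000) (447 / 2000) ?_ ?_ ?_ ?_ ?_ ?_ ?_ ?_ ?_ ?_ ?_ ?_ ?_ <;>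
    norm_num [Finset.sum_range_succ, Nat.factorial]

private theorem SV_B10b_70 : SV_B10b_P SV_B10b_f (70 / 900) (72 / 900) (211 / 1000) := by
  refine SV_B10b_step (70 / 900) (72 / 900) (21 / 100) (1871 / 250) (9933 / 10000) (1409 / 50000) (211 / 1000) ?_ ?_ ?_ ?_ ?_ ?_ ?_ ?_ ?_ ?_ ?_ ?_ ?_ <;>
    norm_num [Finset.sum_range_succ, Nat.factorial]

private theorem SV_B10b_72 : SV_B10b_P SV_B10b_f (72 / 900) (74 / 900) (399 / 2000) := by
  refine SV_B10b_step (72 / 900) (74 / 900) (27 / 125) (1819 / 250) (9933 / 10000) (137 / 5000) (399 / 2000) ?_ ?_ ?_ ?_ ?_ ?_ ?_ ?_ ?_ ?_ ?_ ?_ ?_ <;>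
    norm_num [Finset.sum_range_succ, Nat.factorial]

private theorem SV_B10b_74 : SV_B10b_P SV_B10b_f (74 / 900) (76 / 900) (1889 / 10000) := by
  refine SV_B10b_step (74 / 900) (76 / 900) (111 / 500) (7079 / 1000) (9933 / 10000) (2667 / 100000) (1889 / 10000) ?_ ?_ ?_ ?_ ?_ ?_ ?_ ?_ ?_ ?_ ?_ ?_ ?_ <;>
    norm_num [Finset.sum_range_succ, Nat.factorial]

private theorem SV_B10b_76 : SV_B10b_P SV_B10b_f (76 / 900) (78 / 900) (112 / 625) := by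
  refine SV_B10b_step (76 / 900) (78 / 900) (57 / 250) (6893 / 1000) (9933 / 10000) (1299 / 50000) (112 / 625) ?_ ?_ ?_ ?_ ?_ ?_ ?_ ?_ ?_ ?_ ?_ ?_ ?_ <;>
    norm_num [Finset.sum_range_succ, Nat.factorial]

private theorem SV_B10b_78 : SV_B10b_P SV_B10b_f (78 / 900) (80 / 900) (851 / 5000) := by
  refine SV_B10b_step (78 / 900) (80 / 900) (117 / 500) (1679 / 250) (9933 / 10000) (633 / 25000) (851 / 5000) ?_ ?_ ?_ ?_ ?_ ?_ ?_ ?_ ?_ ?_ ?_ ?_ ?_ <;>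
    norm_num [Finset.sum_range_succ, Nat.factorial]

private theorem SV_B10b_80 : SV_B10b_P SV_B10b_f (80 / 900) (82 / 900) (1619 / 10000) := by
  refine SV_B10b_step (80 / 900) (82 / 900) (6 / 25) (1637 / 250) (9933 / 10000) (247 / 10000) (1619 / 10000) ?_ ?_ ?_ ?_ ?_ ?_ ?_ ?_ ?_ ?_ ?_ ?_ ?_ <;>
    norm_num [Finset.sum_range_succ, Nat.factorial]

private theorem SV_B10b_82 : SV_B10b_P SV_B10b_f (82 / 900) (84 / 900) (1541 / 10000) := by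
  refine SV_B10b_step (82 / 900) (84 / 900) (123 / 500) (6389 / 1000) (9933 / 10000) (241 / 10000) (1541 / 10000) ?_ ?_ ?_ ?_ ?_ ?_ ?_ ?_ ?_ ?_ ?_ ?_ ?_ <;>
    norm_num [Finset.sum_range_succ, Nat.factorial]

private theorem SV_B10b_84 : SV_B10b_P SV_B10b_f (84 / 900) (86 / 900) (147 / 1000) := by
  refine SV_B10b_step (84 / 900) (86 / 900) (2261 / 9000) (6237 / 1000) (4951 / 5000) (1177 / 50000) (147 / 1000) ?_ ?_ ?_ ?_ ?_ ?_ ?_ ?_ ?_ ?_ ?_ ?_ ?_ <;>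
    norm_num [Finset.sum_range_succ, Nat.factorial]

private theorem SV_B10b_86 : SV_B10b_P SV_B10b_f (86 / 900) (88 / 900) (1403 / 10000) := by
  refine SV_B10b_step (86 / 900) (88 / 900) (2251 / 9000) (3049 / 500) (4811 / 5000) (2299 / 100000) (1403 / 10000) ?_ ?_ ?_ ?_ ?_ ?_ ?_ ?_ ?_ ?_ ?_ ?_ ?_ <;>
    norm_num [Finset.sum_range_succ, Nat.factorial]

private theorem SV_B10b_88 : SV_B10b_P SV_B10b_f (88 / 900) (90 / 900) (84 / 625) := by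
  refine SV_B10b_step (88 / 900) (90 / 900) (249 / 1000) (1493 / 250) (2337 / 2500) (281 / 12500) (84 / 625) ?_ ?_ ?_ ?_ ?_ ?_ ?_ ?_ ?_ ?_ ?_ ?_ ?_ <;>
    norm_num [Finset.sum_range_succ, Nat.factorial]

private theorem SV_B10b_90 : SV_B10b_P SV_B10b_f (90 / 900) (92 / 900) (1289 / 10000) := by
  refine SV_B10b_step (90 / 900) (92 / 900) (2231 / 9000) (2929 / 500) (9079 / 10000) (1099 / 50000) (1289 / 10000) ?_ ?_ ?_ ?_ ?_ ?_ ?_ ?_ ?_ ?_ ?_ ?_ ?_ <;>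
    norm_num [Finset.sum_range_succ, Nat.factorial]

private theorem SV_B10b_92 : SV_B10b_P SV_B10b_f (92 / 900) (94 / 900) (1239 / 10000) := by
  refine SV_B10b_step (92 / 900) (94 / 900) (2221 / 9000) (5753 / 1000) (4407 / 5000) (2151 / 100000) (1239 / 10000) ?_ ?_ ?_ ?_ ?_ ?_ ?_ ?_ ?_ ?_ ?_ ?_ ?_ <;>
    norm_num [Finset.sum_range_succ, Nat.factorial]

private theorem SV_B10b_94 : SV_B10b_P SV_B10b_f (94 / 900) (96 / 900) (1193 / 10000) := by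
  refine SV_B10b_step (94 / 900) (96 / 900) (737 / 3000) (2829 / 500) (4277 / 5000) (1053 / 50000) (1193 / 10000) ?_ ?_ ?_ ?_ ?_ ?_ ?_ ?_ ?_ ?_ ?_ ?_ ?_ <;>
    norm_num [Finset.sum_range_succ, Nat.factorial]

private theorem SV_B10b_96 : SV_B10b_P SV_B10b_f (96 / 900) (98 / 900) (23 / 200) := by
  refine SV_B10b_step (96 / 900) (98 / 900) (2201 / 9000) (5571 / 1000) (4149 / 5000) (1031 / 50000) (23 / 200) ?_ ?_ ?_ ?_ ?_ ?_ ?_ ?_ ?_ ?_ ?_ ?_ ?_ <;>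
    norm_num [Finset.sum_range_succ, Nat.factorial]

private theorem SV_B10b_98 : SV_B10b_P SV_B10b_f (98 / 900) (100 / 900) (1111 / 10000) := by
  refine SV_B10b_step (98 / 900) (100 / 900) (2191 / 9000) (5491 / 1000) (4023 / 5000) (2021 / 100000) (1111 / 10000) ?_ ?_ ?_ ?_ ?_ ?_ ?_ ?_ ?_ ?_ ?_ ?_ ?_ <;>
    norm_num [Finset.sum_range_succ, Nat.factorial]

theorem reg1 : ∃ x0 : ℝ, 2 ≤ x0 ∧ ∀ x : ℝ, x0 ≤ x → ∀ d : ℕ, 1 ≤ d → (d : ℝ) ≤ x ^ 2 →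
    ∑ p ∈ Prd d (x ^ (1 / 15 : ℝ)) (x ^ (1 / 9 : ℝ)), 1 / (p * Gs d p (Xx x p)) ≤
      179 / 50 * ((d : ℝ) / d.totient / Real.log x) := by
  have g62 := SV_B10b_60
  have g64 := SV_B10b_glue SV_B10b_f (60 / 900) (62 / 900) (64 / 900) _ _ (by norm_num) (by norm_num) g62 SV_B10b_62
  have g66 := SV_B10b_glue SV_B10b_f (60 / 900) (64 / 900) (66 / 900) _ _ (by norm_num) (by norm_num) g64 SV_B10b_64
  have g68 := SV_B10b_glue SV_B10b_f (60 / 900) (66 / 900) (68 / 900) _ _ (by norm_num) (by norm_num) g66 SV_B10b_66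
  have g70 := SV_B10b_glue SV_B10b_f (60 / 900) (68 / 900) (70 / 900) _ _ (by norm_num) (by norm_num) g68 SV_B10b_68
  have g72 := SV_B10b_glue SV_B10b_f (60 / 900) (70 / 900) (72 / 900) _ _ (by norm_num) (by norm_num) g70 SV_B10b_70
  have g74 := SV_B10b_glue SV_B10b_f (60 / 900) (72 / 900) (74 / 900) _ _ (by norm_num) (by norm_num) g72 SV_B10b_72
  have g76 := SV_B10b_glue SV_B10b_f (60 / 900) (74 / 900) (76 / 900) _ _ (by norm_num) (by norm_num) g74 SV_B10b_74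
  have g78 := SV_B10b_glue SV_B10b_f (60 / 900) (76 / 900) (78 / 900) _ _ (by norm_num) (by norm_num) g76 SV_B10b_76
  have g80 := SV_B10b_glue SV_B10b_f (60 / 900) (78 / 900) (80 / 900) _ _ (by norm_num) (by norm_num) g78 SV_B10b_78
  have g82 := SV_B10b_glue SV_B10b_f (60 / 900) (80 / 900) (82 / 900) _ _ (by norm_num) (by norm_num) g80 SV_B10b_80
  have g84 := SV_B10b_glue SV_B10b_f (60 / 900) (82 / 900) (84 / 900) _ _ (by norm_num) (by norm_num) g82 SV_B10b_82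
  have g86 := SV_B10b_glue SV_B10b_f (60 / 900) (84 / 900) (86 / 900) _ _ (by norm_num) (by norm_num) g84 SV_B10b_84
  have g88 := SV_B10b_glue SV_B10b_f (60 / 900) (86 / 900) (88 / 900) _ _ (by norm_num) (by norm_num) g86 SV_B10b_86
  have g90 := SV_B10b_glue SV_B10b_f (60 / 900) (88 / 900) (90 / 900) _ _ (by norm_num) (by norm_num) g88 SV_B10b_88
  have g92 := SV_B10b_glue SV_B10b_f (60 / 900) (90 / 900) (92 / 900) _ _ (by norm_num) (by norm_num) g90 SV_B10b_90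
  have g94 := SV_B10b_glue SV_B10b_f (60 / 900) (92 / 900) (94 / 900) _ _ (by norm_num) (by norm_num) g92 SV_B10b_92
  have g96 := SV_B10b_glue SV_B10b_f (60 / 900) (94 / 900) (96 / 900) _ _ (by norm_num) (by norm_num) g94 SV_B10b_94
  have g98 := SV_B10b_glue SV_B10b_f (60 / 900) (96 / 900) (98 / 900) _ _ (by norm_num) (by norm_num) g96 SV_B10b_96
  have g100 := SV_B10b_glue SV_B10b_f (60 / 900) (98 / 900) (100 / 900) _ _ (by norm_num) (by norm_num) g98 SV_B10b_98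
  obtain ⟨x0, hx0, h⟩ := g100
  refine ⟨x0, hx0, fun x hx d hd hdx => ?_⟩
  have e1 : (1 / 15 : ℝ) = 60 / 900 := by norm_num
  have e2 : (1 / 9 : ℝ) = 100 / 900 := by norm_num
  rw [e1, e2]
  have h4 : 0 ≤ Real.log x := Real.log_nonneg (by linarith)
  have h5 : 0 ≤ (d : ℝ) / d.totient / Real.log x := by positivity
  refine (h x hx d hd hdx).trans ?_
  rw [mul_comm (179 / 50 : ℝ)]
  refine mul_le_mul_of_nonneg_left ?_ h5
  norm_num

end Pool.Agent.Lib.MP_42948a_nt.SV
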