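import Pool.Agent.Lib.MP_42948a_nt.SV.B10a

/-!
# The primes from `x^(1/9)` to `x^(8/15)` (job B10c)

Nineteen pieces `a = k/900`, `b = (k+20)/900`, `k = 100, 120, .., 460` of `piece2`, `b' = (299/500 - b)/2`. `Gam (1/9) b'` is, for `k = 100, 120, ..`: `.18217 .17899 .17524 .17091 .16596 .16035 .15404 .14699 .13913 .13042 .12077` (`b' > 1/9`)
and `b'` itself for `k ≥ 320`: `.11011 .09899 .08788 .07677 .06566 .05455 .04344 .03233`. `U` slightly above the inverse. The exact total of `(log(b/a) - 15/8 (b-a))/Gam` is `5.1602`; asked `5.2`, so there is room for rounding: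
`δ = 10^-4` in each piece (note that `log(b/a) - 15/8 (b-a) ≥ 0`, so an upper bound of `log(b/a)` is enough). `log q ≤ r` for rationals: `q ≤ exp r`, `Real.sum_le_exp_of_nonneg` and `norm_num`.
-/

namespace Pool.Agent.Lib.MP_42948a_nt.SV

open Finset Pool.Agent.Lib.MP_42948a_nt.OA Pool.Agent.Lib.MP_42948a_nt.OM

private def SV_B10c_P (f : ℝ → ℕ → ℕ → ℝ) (a b T : ℝ) : Prop :=
  ∃ x0 : ℝ, 2 ≤ x0 ∧ ∀ x : ℝ, x0 ≤ x → ∀ d : ℕ, 1 ≤ d → (d : ℝ) ≤ x ^ 2 →
    ∑ p ∈ Prd d (x ^ a) (x ^ b), f x d p ≤ (d : ℝ) / d.totient / Real.log x * T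

private theorem SV_B10c_glue (f : ℝ → ℕ → ℕ → ℝ) (a b c T T' : ℝ) (hab : a ≤ b) (hbc : b ≤ c)
    (h1 : SV_B10c_P f a b T) (h2 : SV_B10c_P f b c T') : SV_B10c_P f a c (T + T') := by
  obtain ⟨x1, hx1, h1⟩ := h1
  obtain ⟨x2, hx2, h2⟩ := h2
  refine ⟨max x1 x2, hx1.trans (le_max_left _ _), fun x hx d hd hdx => ?_⟩
  have g1 := h1 x ((le_max_left _ _).trans hx) d hd hdx
  have g2 := h2 x ((le_max_right _ _).trans hx) d hd hdx
  have hx0 : 1 ≤ x := by
    have := (le_max_left x1 x2).trans hx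
    linarith
  have p0 : 0 ≤ x ^ a := Real.rpow_nonneg (by linarith) a
  have p1 : 0 ≤ x ^ b := Real.rpow_nonneg (by linarith) b
  have q1 : x ^ a ≤ x ^ b := Real.rpow_le_rpow_of_exponent_le hx0 hab
  have q2 : x ^ b ≤ x ^ c := Real.rpow_le_rpow_of_exponent_le hx0 hbc
  have e : Prd d (x ^ a) (x ^ c) = Prd d (x ^ a) (x ^ b) ∪ Prd d (x ^ b) (x ^ c) := by
    ext p
    rw [mem_union, mem_Prd p0, mem_Prd p0, mem_Prd p1]
    constructor
    · rintro ⟨⟨h3, h4, h5⟩, h6⟩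
      rcases le_or_gt (p : ℝ) (x ^ b) with h7 | h7
      · exact Or.inl ⟨⟨h3, h4, h7⟩, h6⟩
      · exact Or.inr ⟨⟨h3, h7, h5⟩, h6⟩
    · rintro (⟨⟨h3, h4, h5⟩, h6⟩ | ⟨⟨h3, h4, h5⟩, h6⟩)
      · exact ⟨⟨h3, h4, h5.trans q2⟩, h6⟩
      · exact ⟨⟨h3, q1.trans_lt h4, h5⟩, h6⟩
  have hd : Disjoint (Prd d (x ^ a) (x ^ b)) (Prd d (x ^ b) (x ^ c)) := by
    rw [Finset.disjoint_left]
    intro p h3 h4
    rw [mem_Prd p0] at h3
    rw [mem_Prd p1] at h4
    linarith [h3.1.2.2, h4.1.2.1]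
  rw [e, sum_union hd, mul_add]
  exact add_le_add g1 g2

private theorem SV_B10c_log (q r : ℝ) (n : ℕ) (hq : 0 < q) (hr : 0 ≤ r) (h : q ≤ ∑ i ∈ range n, r ^ i / (i.factorial : ℝ)) :
    Real.log q ≤ r := by
  rw [Real.log_le_iff_le_exp hq]
  exact h.trans (Real.sum_le_exp_of_nonneg hr n)

private noncomputable def SV_B10c_f (x : ℝ) (d p : ℕ) : ℝ :=
  (1 - 15 / 8 * (Real.log p / Real.log x)) / (p * Gs d (zx x + 1) (Xx x p))

private theorem SV_B10c_step (a b b' U L T : ℝ) (ha : 1 / 9 ≤ a) (hab : a ≤ b) (hb : b ≤ 8 / 15) (hb' : 1 / 50 ≤ b')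
    (hbb : b' ≤ (299 / 500 - b) / 2) (hU0 : 0 < U) (hG : 1 < U * Gam (1 / 9) b') (hL0 : 0 ≤ L)
    (hL : b / a ≤ ∑ i ∈ range 6, L ^ i / (i.factorial : ℝ)) (hT : U * (L - 15 / 8 * (b - a)) + 1 / 10000 ≤ T) :
    SV_B10c_P SV_B10c_f a b T := by
  have ha0 : 0 < a := by linarith
  have h2 : Real.log (b / a) ≤ L := SV_B10c_log _ _ 6 (div_pos (by linarith) ha0) hL0 hL
  obtain ⟨x0, hx0, h⟩ := piece2 a b b' U ha hab hb hb' hbb hU0 hG (1 / 10000) (by norm_num)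
  refine ⟨x0, hx0, fun x hx d hd hdx => ?_⟩
  refine (h x hx d hd hdx).trans (mul_le_mul_of_nonneg_left ?_ ?_)
  · have := mul_le_mul_of_nonneg_left h2 hU0.le
    linarith
  · have h4 : 0 ≤ Real.log x := Real.log_nonneg (by linarith)
    positivity

private theorem SV_B10c_G1 (b' U r : ℝ) (hU0 : 0 < U) (hlt : 1 / 9 < b') (hr0 : 0 ≤ r)
    (hr : b' / (1 / 9) ≤ ∑ i ∈ range 9, r ^ i / (i.factorial : ℝ)) (hU : 1 < U * (2 * b' - b' * r - 1 / 9)) :
    1 < U * Gam (1 / 9) b' := by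
  have hb0 : 0 < b' := by linarith
  have h1 : Real.log (b' / (1 / 9)) ≤ r := SV_B10c_log _ _ 9 (div_pos hb0 (by norm_num)) hr0 hr
  unfold Gam
  rw [if_neg (not_le.mpr hlt)]
  refine hU.trans_le (mul_le_mul_of_nonneg_left ?_ hU0.le)
  have := mul_le_mul_of_nonneg_left h1 hb0.le
  linarith

private theorem SV_B10c_G2 (b' U : ℝ) (hlt : b' ≤ 1 / 9) (hU : 1 < U * b') : 1 < U * Gam (1 / 9) b' := by
  unfold Gam
  rw [if_pos hlt]
  exact hU

private theorem SV_B10c_100 : SV_B10c_P SV_B10c_f (100 / 900) (120 / 900) (1931 / 2500) := by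
  have hG : (1 : ℝ) < (549 / 100) * Gam (1 / 9) (697 / 3000) := by
    refine SV_B10c_G1 (697 / 3000) (549 / 100) (7377 / 10000) ?_ ?_ ?_ ?_ ?_ <;> norm_num [Finset.sum_range_succ, Nat.factorial]
  refine SV_B10c_step (100 / 900) (120 / 900) (697 / 3000) (549 / 100) (18233 / 100000) (1931 / 2500) ?_ ?_ ?_ ?_ ?_ ?_ hG ?_ ?_ ?_ <;>
    norm_num [Finset.sum_range_succ, Nat.factorial]

private theorem SV_B10c_120 : SV_B10c_P SV_B10c_f (120 / 900) (140 / 900) (393 / 625) := by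
  have hG : (1 : ℝ) < (1397 / 250) * Gam (1 / 9) (1991 / 9000) := by
    refine SV_B10c_G1 (1991 / 9000) (1397 / 250) (6887 / 10000) ?_ ?_ ?_ ?_ ?_ <;> norm_num [Finset.sum_range_succ, Nat.factorial]
  refine SV_B10c_step (120 / 900) (140 / 900) (1991 / 9000) (1397 / 250) (1927 / 12500) (393 / 625) ?_ ?_ ?_ ?_ ?_ ?_ hG ?_ ?_ ?_ <;>
    norm_num [Finset.sum_range_succ, Nat.factorial]

private theorem SV_B10c_140 : SV_B10c_P SV_B10c_f (140 / 900) (160 / 900) (1049 / 2000) := by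
  have hG : (1 : ℝ) < (5707 / 1000) * Gam (1 / 9) (1891 / 9000) := by
    refine SV_B10c_G1 (1891 / 9000) (5707 / 1000) (1593 / 2500) ?_ ?_ ?_ ?_ ?_ <;> norm_num [Finset.sum_range_succ, Nat.factorial]
  refine SV_B10c_step (140 / 900) (160 / 900) (1891 / 9000) (5707 / 1000) (6677 / 50000) (1049 / 2000) ?_ ?_ ?_ ?_ ?_ ?_ hG ?_ ?_ ?_ <;>
    norm_num [Finset.sum_range_succ, Nat.factorial]

private theorem SV_B10c_160 : SV_B10c_P SV_B10c_f (160 / 900) (180 / 900) (891 / 2000) := by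
  have hG : (1 : ℝ) < (5851 / 1000) * Gam (1 / 9) (199 / 1000) := by
    refine SV_B10c_G1 (199 / 1000) (5851 / 1000) (1457 / 2500) ?_ ?_ ?_ ?_ ?_ <;> norm_num [Finset.sum_range_succ, Nat.factorial]
  refine SV_B10c_step (160 / 900) (180 / 900) (199 / 1000) (5851 / 1000) (11779 / 100000) (891 / 2000) ?_ ?_ ?_ ?_ ?_ ?_ hG ?_ ?_ ?_ <;>
    norm_num [Finset.sum_range_succ, Nat.factorial]

private theorem SV_B10c_180 : SV_B10c_P SV_B10c_f (180 / 900) (200 / 900) (48 / 125) := by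
  have hG : (1 : ℝ) < (3013 / 500) * Gam (1 / 9) (1691 / 9000) := by
    refine SV_B10c_G1 (1691 / 9000) (3013 / 500) (2627 / 5000) ?_ ?_ ?_ ?_ ?_ <;> norm_num [Finset.sum_range_succ, Nat.factorial]
  refine SV_B10c_step (180 / 900) (200 / 900) (1691 / 9000) (3013 / 500) (10537 / 100000) (48 / 125) ?_ ?_ ?_ ?_ ?_ ?_ hG ?_ ?_ ?_ <;>
    norm_num [Finset.sum_range_succ, Nat.factorial]

private theorem SV_B10c_200 : SV_B10c_P SV_B10c_f (200 / 900) (220 / 900) (837 / 2500) := by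
  have hG : (1 : ℝ) < (6237 / 1000) * Gam (1 / 9) (1591 / 9000) := by
    refine SV_B10c_G1 (1591 / 9000) (6237 / 1000) (1161 / 2500) ?_ ?_ ?_ ?_ ?_ <;> norm_num [Finset.sum_range_succ, Nat.factorial]
  refine SV_B10c_step (200 / 900) (220 / 900) (1591 / 9000) (6237 / 1000) (2383 / 25000) (837 / 2500) ?_ ?_ ?_ ?_ ?_ ?_ hG ?_ ?_ ?_ <;>
    norm_num [Finset.sum_range_succ, Nat.factorial]

private theorem SV_B10c_220 : SV_B10c_P SV_B10c_f (220 / 900) (240 / 900) (1473 / 5000) := by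
  have hG : (1 : ℝ) < (1623 / 250) * Gam (1 / 9) (497 / 3000) := by
    refine SV_B10c_G1 (497 / 3000) (1623 / 250) (799 / 2000) ?_ ?_ ?_ ?_ ?_ <;> norm_num [Finset.sum_range_succ, Nat.factorial]
  refine SV_B10c_step (220 / 900) (240 / 900) (497 / 3000) (1623 / 250) (4351 / 50000) (1473 / 5000) ?_ ?_ ?_ ?_ ?_ ?_ hG ?_ ?_ ?_ <;>
    norm_num [Finset.sum_range_succ, Nat.factorial]

private theorem SV_B10c_240 : SV_B10c_P SV_B10c_f (240 / 900) (260 / 900) (2613 / 10000) := by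
  have hG : (1 : ℝ) < (1701 / 250) * Gam (1 / 9) (1391 / 9000) := by
    refine SV_B10c_G1 (1391 / 9000) (1701 / 250) (3301 / 10000) ?_ ?_ ?_ ?_ ?_ <;> norm_num [Finset.sum_range_succ, Nat.factorial]
  refine SV_B10c_step (240 / 900) (260 / 900) (1391 / 9000) (1701 / 250) (1601 / 20000) (2613 / 10000) ?_ ?_ ?_ ?_ ?_ ?_ hG ?_ ?_ ?_ <;>
    norm_num [Finset.sum_range_succ, Nat.factorial]

private theorem SV_B10c_260 : SV_B10c_P SV_B10c_f (260 / 900) (280 / 900) (1167 / 5000) := by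
  have hG : (1 : ℝ) < (1797 / 250) * Gam (1 / 9) (1291 / 9000) := by
    refine SV_B10c_G1 (1291 / 9000) (1797 / 250) (511 / 2000) ?_ ?_ ?_ ?_ ?_ <;> norm_num [Finset.sum_range_succ, Nat.factorial]
  refine SV_B10c_step (260 / 900) (280 / 900) (1291 / 9000) (1797 / 250) (7411 / 100000) (1167 / 5000) ?_ ?_ ?_ ?_ ?_ ?_ hG ?_ ?_ ?_ <;>
    norm_num [Finset.sum_range_succ, Nat.factorial]

private theorem SV_B10c_280 : SV_B10c_P SV_B10c_f (280 / 900) (300 / 900) (2097 / 10000) := by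
  have hG : (1 : ℝ) < (1917 / 250) * Gam (1 / 9) (397 / 3000) := by
    refine SV_B10c_G1 (397 / 3000) (1917 / 250) (437 / 2500) ?_ ?_ ?_ ?_ ?_ <;> norm_num [Finset.sum_range_succ, Nat.factorial]
  refine SV_B10c_step (280 / 900) (300 / 900) (397 / 3000) (1917 / 250) (69 / 1000) (2097 / 10000) ?_ ?_ ?_ ?_ ?_ ?_ hG ?_ ?_ ?_ <;>
    norm_num [Finset.sum_range_succ, Nat.factorial]

private theorem SV_B10c_300 : SV_B10c_P SV_B10c_f (300 / 900) (320 / 900) (379 / 2000) := by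
  have hG : (1 : ℝ) < (207 / 25) * Gam (1 / 9) (1091 / 9000) := by
    refine SV_B10c_G1 (1091 / 9000) (207 / 25) (871 / 10000) ?_ ?_ ?_ ?_ ?_ <;> norm_num [Finset.sum_range_succ, Nat.factorial]
  refine SV_B10c_step (300 / 900) (320 / 900) (1091 / 9000) (207 / 25) (3227 / 50000) (379 / 2000) ?_ ?_ ?_ ?_ ?_ ?_ hG ?_ ?_ ?_ <;>
    norm_num [Finset.sum_range_succ, Nat.factorial]

private theorem SV_B10c_320 : SV_B10c_P SV_B10c_f (320 / 900) (340 / 900) (431 / 2500) := by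
  have hG : (1 : ℝ) < (4541 / 500) * Gam (1 / 9) (991 / 9000) := by
    refine SV_B10c_G2 (991 / 9000) (4541 / 500) ?_ ?_ <;> norm_num
  refine SV_B10c_step (320 / 900) (340 / 900) (991 / 9000) (4541 / 500) (6063 / 100000) (431 / 2500) ?_ ?_ ?_ ?_ ?_ ?_ hG ?_ ?_ ?_ <;>
    norm_num [Finset.sum_range_succ, Nat.factorial]

private theorem SV_B10c_340 : SV_B10c_P SV_B10c_f (340 / 900) (360 / 900) (1567 / 10000) := by
  have hG : (1 : ℝ) < (5051 / 500) * Gam (1 / 9) (99 / 1000) := by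
    refine SV_B10c_G2 (99 / 1000) (5051 / 500) ?_ ?_ <;> norm_num
  refine SV_B10c_step (340 / 900) (360 / 900) (99 / 1000) (5051 / 500) (1429 / 25000) (1567 / 10000) ?_ ?_ ?_ ?_ ?_ ?_ hG ?_ ?_ ?_ <;>
    norm_num [Finset.sum_range_succ, Nat.factorial]

private theorem SV_B10c_360 : SV_B10c_P SV_B10c_f (360 / 900) (380 / 900) (1413 / 10000) := by
  have hG : (1 : ℝ) < (11379 / 1000) * Gam (1 / 9) (791 / 9000) := by
    refine SV_B10c_G2 (791 / 9000) (11379 / 1000) ?_ ?_ <;> norm_num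
  refine SV_B10c_step (360 / 900) (380 / 900) (791 / 9000) (11379 / 1000) (5407 / 100000) (1413 / 10000) ?_ ?_ ?_ ?_ ?_ ?_ hG ?_ ?_ ?_ <;>
    norm_num [Finset.sum_range_succ, Nat.factorial]

private theorem SV_B10c_380 : SV_B10c_P SV_B10c_f (380 / 900) (400 / 900) (157 / 1250) := by
  have hG : (1 : ℝ) < (521 / 40) * Gam (1 / 9) (691 / 9000) := by
    refine SV_B10c_G2 (691 / 9000) (521 / 40) ?_ ?_ <;> norm_num
  refine SV_B10c_step (380 / 900) (400 / 900) (691 / 9000) (521 / 40) (513 / 10000) (157 / 1250) ?_ ?_ ?_ ?_ ?_ ?_ hG ?_ ?_ ?_ <;>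
    norm_num [Finset.sum_range_succ, Nat.factorial]

private theorem SV_B10c_400 : SV_B10c_P SV_B10c_f (400 / 900) (420 / 900) (68 / 625) := by
  have hG : (1 : ℝ) < (15229 / 1000) * Gam (1 / 9) (197 / 3000) := by
    refine SV_B10c_G2 (197 / 3000) (15229 / 1000) ?_ ?_ <;> norm_num
  refine SV_B10c_step (400 / 900) (420 / 900) (197 / 3000) (15229 / 1000) (61 / 1250) (68 / 625) ?_ ?_ ?_ ?_ ?_ ?_ hG ?_ ?_ ?_ <;>
    norm_num [Finset.sum_range_succ, Nat.factorial]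

private theorem SV_B10c_420 : SV_B10c_P SV_B10c_f (420 / 900) (440 / 900) (893 / 10000) := by
  have hG : (1 : ℝ) < (1833 / 100) * Gam (1 / 9) (491 / 9000) := by
    refine SV_B10c_G2 (491 / 9000) (1833 / 100) ?_ ?_ <;> norm_num
  refine SV_B10c_step (420 / 900) (440 / 900) (491 / 9000) (1833 / 100) (4653 / 100000) (893 / 10000) ?_ ?_ ?_ ?_ ?_ ?_ hG ?_ ?_ ?_ <;>
    norm_num [Finset.sum_range_succ, Nat.factorial]

private theorem SV_B10c_440 : SV_B10c_P SV_B10c_f (440 / 900) (460 / 900) (161 / 2500) := by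
  have hG : (1 : ℝ) < (11509 / 500) * Gam (1 / 9) (391 / 9000) := by
    refine SV_B10c_G2 (391 / 9000) (11509 / 500) ?_ ?_ <;> norm_num
  refine SV_B10c_step (440 / 900) (460 / 900) (391 / 9000) (11509 / 500) (2223 / 50000) (161 / 2500) ?_ ?_ ?_ ?_ ?_ ?_ hG ?_ ?_ ?_ <;>
    norm_num [Finset.sum_range_succ, Nat.factorial]

private theorem SV_B10c_460 : SV_B10c_P SV_B10c_f (460 / 900) (480 / 900) (139 / 5000) := by
  have hG : (1 : ℝ) < (3866 / 125) * Gam (1 / 9) (97 / 3000) := by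
    refine SV_B10c_G2 (97 / 3000) (3866 / 125) ?_ ?_ <;> norm_num
  refine SV_B10c_step (460 / 900) (480 / 900) (97 / 3000) (3866 / 125) (133 / 3125) (139 / 5000) ?_ ?_ ?_ ?_ ?_ ?_ hG ?_ ?_ ?_ <;>
    norm_num [Finset.sum_range_succ, Nat.factorial]

theorem reg2 : ∃ x0 : ℝ, 2 ≤ x0 ∧ ∀ x : ℝ, x0 ≤ x → ∀ d : ℕ, 1 ≤ d → (d : ℝ) ≤ x ^ 2 →
    ∑ p ∈ Prd d (x ^ (1 / 9 : ℝ)) (x ^ (8 / 15 : ℝ)),
        (1 - 15 / 8 * (Real.log p / Real.log x)) / (p * Gs d (zx x + 1) (Xx x p)) ≤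
      26 / 5 * ((d : ℝ) / d.totient / Real.log x) := by
  have g120 := SV_B10c_100
  have g140 := SV_B10c_glue SV_B10c_f (100 / 900) (120 / 900) (140 / 900) _ _ (by norm_num) (by norm_num) g120 SV_B10c_120
  have g160 := SV_B10c_glue SV_B10c_f (100 / 900) (140 / 900) (160 / 900) _ _ (by norm_num) (by norm_num) g140 SV_B10c_140
  have g180 := SV_B10c_glue SV_B10c_f (100 / 900) (160 / 900) (180 / 900) _ _ (by norm_num) (by norm_num) g160 SV_B10c_160
  have g200 := SV_B10c_glue SV_B10c_f (100 / 900) (180 / 900) (200 / 900) _ _ (by norm_num) (by norm_num) g180 SV_B10c_180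
  have g220 := SV_B10c_glue SV_B10c_f (100 / 900) (200 / 900) (220 / 900) _ _ (by norm_num) (by norm_num) g200 SV_B10c_200
  have g240 := SV_B10c_glue SV_B10c_f (100 / 900) (220 / 900) (240 / 900) _ _ (by norm_num) (by norm_num) g220 SV_B10c_220
  have g260 := SV_B10c_glue SV_B10c_f (100 / 900) (240 / 900) (260 / 900) _ _ (by norm_num) (by norm_num) g240 SV_B10c_240
  have g280 := SV_B10c_glue SV_B10c_f (100 / 900) (260 / 900) (280 / 900) _ _ (by norm_num) (by norm_num) g260 SV_B10c_260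
  have g300 := SV_B10c_glue SV_B10c_f (100 / 900) (280 / 900) (300 / 900) _ _ (by norm_num) (by norm_num) g280 SV_B10c_280
  have g320 := SV_B10c_glue SV_B10c_f (100 / 900) (300 / 900) (320 / 900) _ _ (by norm_num) (by norm_num) g300 SV_B10c_300
  have g340 := SV_B10c_glue SV_B10c_f (100 / 900) (320 / 900) (340 / 900) _ _ (by norm_num) (by norm_num) g320 SV_B10c_320
  have g360 := SV_B10c_glue SV_B10c_f (100 / 900) (340 / 900) (360 / 900) _ _ (by norm_num) (by norm_num) g340 SV_B10c_340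
  have g380 := SV_B10c_glue SV_B10c_f (100 / 900) (360 / 900) (380 / 900) _ _ (by norm_num) (by norm_num) g360 SV_B10c_360
  have g400 := SV_B10c_glue SV_B10c_f (100 / 900) (380 / 900) (400 / 900) _ _ (by norm_num) (by norm_num) g380 SV_B10c_380
  have g420 := SV_B10c_glue SV_B10c_f (100 / 900) (400 / 900) (420 / 900) _ _ (by norm_num) (by norm_num) g400 SV_B10c_400
  have g440 := SV_B10c_glue SV_B10c_f (100 / 900) (420 / 900) (440 / 900) _ _ (by norm_num) (by norm_num) g420 SV_B10c_420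
  have g460 := SV_B10c_glue SV_B10c_f (100 / 900) (440 / 900) (460 / 900) _ _ (by norm_num) (by norm_num) g440 SV_B10c_440
  have g480 := SV_B10c_glue SV_B10c_f (100 / 900) (460 / 900) (480 / 900) _ _ (by norm_num) (by norm_num) g460 SV_B10c_460
  obtain ⟨x0, hx0, h⟩ := g480
  refine ⟨x0, hx0, fun x hx d hd hdx => ?_⟩
  have e1 : (1 / 9 : ℝ) = 100 / 900 := by norm_num
  have e2 : (8 / 15 : ℝ) = 480 / 900 := by norm_num
  rw [e1, e2]
  have h4 : 0 ≤ Real.log x := Real.log_nonneg (by linarith)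
  have h5 : 0 ≤ (d : ℝ) / d.totient / Real.log x := by positivity
  refine (h x hx d hd hdx).trans ?_
  rw [mul_comm (26 / 5 : ℝ)]
  refine mul_le_mul_of_nonneg_left ?_ h5
  norm_num

end Pool.Agent.Lib.MP_42948a_nt.SV
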