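import Pool.Agent.Lib.MP_42948a_nt.SV.B2a
import Pool.Agent.Lib.MP_42948a_nt.OA.DV

/-!
# Upper bound of `SD y d` (job B2b)

`Y = ⌊x^δ'⌋₊`, `δ' = δ/4`. `(d/φ d) SD y d = ∑_{l ∣ d, sqf} (1/φ l) SD y d` (`sum_sqf_inv_totient`). The `l ≤ Y` give at most `SD (Y y) 1` (the products `l m`, `l ∣ d`, `m` prime to `d`,
are different squarefree integers `≤ Y y`), which is `≤ log y + δ' log x + C`. The `l > Y` give `SD y d · τ`, `τ = ∑_{l ∣ d, sqf, l > Y} 1/φ l ≤ (Y+1)^(-1/2) ∑_{l ∣ d, sqf} l^(1/2)/φ l = (Y+1)^(-1/2) ∏_{p ∣ d} (1 + p^(1/2)/(p-1))`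
`≤ x^(-δ'/2) exp(3 ∑_{p ∣ d} p^(-1/2)) ≤ x^(-δ'/2) exp(6 √k)` where `k = #{p ∣ d} ≤ 3 log x` (`2^k ≤ d ≤ x^2`; `∑_{p ∣ d} p^(-1/2) ≤ ∑_{n ≤ k} n^(-1/2) ≤ 2 √k`; any bound `x^(o(1))` for this product does it, e.g. the divisor bound).
So `τ → 0` as `x → ∞`, uniformly in `d ≤ x^2`, and `(d/φ d) SD y d ≤ log y + δ' log x + C + τ SD y d ≤ ... + τ (d/φ d) SD y d`, so `(1 - τ)(d/φ d) SD y d ≤ log y + 2 δ' log x`, and the claim follows (`log y ≤ log x`).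
-/

namespace Pool.Agent.Lib.MP_42948a_nt.SV

open Finset Pool.Agent.Lib.MP_42948a_nt.OA Pool.Agent.Lib.MP_42948a_nt.OM

private theorem SV_B2b_tot (n : ℕ) : n ≤ 2 * n.totient ^ 2 := by
  have hpp : ∀ p k : ℕ, p.Prime → p ≠ 2 → p ^ k ≤ (p ^ k).totient ^ 2 := by
    intro p k hp hp2
    have hp3 : 3 ≤ p := by have := hp.two_le; omega
    rcases Nat.eq_zero_or_pos k with rfl | hk
    · simp
    · rw [Nat.totient_prime_pow hp hk]
      obtain ⟨k, rfl⟩ := Nat.exists_eq_succ_of_ne_zero hk.ne'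
      obtain ⟨q, rfl⟩ : ∃ q, p = q + 1 := ⟨p - 1, by omega⟩
      simp only [Nat.succ_eq_add_one, Nat.add_sub_cancel]
      have h1 : 1 ≤ (q + 1) ^ k := Nat.one_le_pow _ _ (by omega)
      have h2 : q + 1 ≤ q ^ 2 := by nlinarith
      calc (q + 1) ^ (k + 1) = (q + 1) ^ k * (q + 1) := pow_succ _ _
        _ ≤ (q + 1) ^ k * q ^ 2 := Nat.mul_le_mul_left _ h2
        _ ≤ ((q + 1) ^ k * (q + 1) ^ k) * q ^ 2 := by
            refine Nat.mul_le_mul_right _ ?_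
            nlinarith
        _ = ((q + 1) ^ k * q) ^ 2 := by ring
  have hodd : ∀ m : ℕ, Odd m → m ≤ m.totient ^ 2 := by
    intro m
    induction m using Nat.recOnPosPrimePosCoprime with
    | prime_pow p k hp hk =>
      intro hodd
      refine hpp p k hp ?_
      rintro rfl
      exact (Nat.not_odd_iff_even.mpr (Nat.even_pow.mpr ⟨even_two, hk.ne'⟩)) hodd
    | zero => intro h; simp
    | one => intro h; simp
    | coprime a b ha hb hab iha ihb =>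
      intro h
      rw [Nat.totient_mul hab, mul_pow]
      rw [Nat.odd_mul] at h
      exact Nat.mul_le_mul (iha h.1) (ihb h.2)
  rcases Nat.eq_zero_or_pos n with rfl | hn
  · simp
  obtain ⟨k, m, hm, rfl⟩ := Nat.exists_eq_two_pow_mul_odd hn.ne'
  have hcop : Nat.Coprime (2 ^ k) m := Nat.Coprime.pow_left _ (Nat.coprime_two_left.mpr hm)
  rw [Nat.totient_mul hcop, mul_pow, ← mul_assoc]
  refine Nat.mul_le_mul ?_ (hodd m hm)
  rcases Nat.eq_zero_or_pos k with rfl | hk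
  · simp
  · rw [Nat.totient_prime_pow Nat.prime_two hk]
    obtain ⟨k, rfl⟩ := Nat.exists_eq_succ_of_ne_zero hk.ne'
    simp only [Nat.succ_eq_add_one, Nat.add_sub_cancel]
    have h1 : 1 ≤ 2 ^ k := Nat.one_le_two_pow
    rw [pow_succ]
    nlinarith

private theorem SV_B2b_inv {l : ℕ} (hl : 1 ≤ l) : 1 / (l.totient : ℝ) ≤ 2 * (l : ℝ) ^ (-(1 / 2) : ℝ) := by
  have h1 : (l : ℝ) ≤ 2 * (l.totient : ℝ) ^ 2 := by exact_mod_cast SV_B2b_tot l
  have hl0 : (0 : ℝ) < l := by exact_mod_cast hl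
  have ht0 : (0 : ℝ) < l.totient := by exact_mod_cast Nat.totient_pos.2 hl
  have h2 : (l : ℝ) ^ (1 / 2 : ℝ) ≤ 2 * l.totient := by
    have h3 : (l : ℝ) ^ (1 / 2 : ℝ) ≤ ((2 * (l.totient : ℝ)) ^ (2 : ℕ)) ^ (1 / 2 : ℝ) :=
      Real.rpow_le_rpow hl0.le (by nlinarith) (by norm_num)
    rwa [← Real.sqrt_eq_rpow, ← Real.sqrt_eq_rpow, Real.sqrt_sq (by positivity),
      Real.sqrt_eq_rpow] at h3
  have h4 : (0 : ℝ) < (l : ℝ) ^ (1 / 2 : ℝ) := Real.rpow_pos_of_pos hl0 _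
  rw [Real.rpow_neg hl0.le, ← div_eq_mul_inv, div_le_div_iff₀ ht0 h4]
  linarith

open Pool.Agent.Lib.MP_2a816b_nt.BH in
private theorem SV_B2b_head (d y Y : ℕ) (hd : 1 ≤ d) (L : Finset ℕ)
    (hL : ∀ l ∈ L, l ∣ d ∧ Squarefree l ∧ l ≤ Y) :
    (∑ l ∈ L, 1 / (l.totient : ℝ)) * SD y d ≤ SD (Y * y) 1 := by
  classical
  unfold SD
  rw [sum_mul_sum, ← sum_product']
  have hinj : ∀ q ∈ L ×ˢ (Ioc 0 y).filter (fun e => Squarefree e ∧ e.Coprime d),
      Nat.gcd (q.1 * q.2) d = q.1 := by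
    intro q hq
    rw [mem_product, mem_filter] at hq
    rw [Nat.Coprime.gcd_mul_right_cancel _ hq.2.2.2, Nat.gcd_eq_left (hL _ hq.1).1]
  have hL0 : ∀ l ∈ L, 0 < l := fun l hl => Nat.pos_of_dvd_of_pos (hL l hl).1 hd
  have h1 : ∑ q ∈ L ×ˢ (Ioc 0 y).filter (fun e => Squarefree e ∧ e.Coprime d),
      1 / (q.1.totient : ℝ) * (1 / (q.2.totient : ℝ)) =
      ∑ e ∈ (L ×ˢ (Ioc 0 y).filter (fun e => Squarefree e ∧ e.Coprime d)).image
        (fun q => q.1 * q.2), 1 / (e.totient : ℝ) := by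
    rw [sum_image]
    · refine sum_congr rfl fun q hq => ?_
      rw [mem_product, mem_filter] at hq
      have hc : Nat.Coprime q.1 q.2 := (hq.2.2.2.coprime_dvd_right (hL _ hq.1).1).symm
      rw [Nat.totient_mul hc]
      push_cast
      rw [div_mul_div_comm, one_mul]
    · intro q hq q' hq' hqq
      have h2 := hinj q hq
      have h3 := hinj q' hq'
      simp only at hqq
      rw [hqq, h3] at h2
      have h4 : 0 < q.1 := hL0 _ (mem_product.1 hq).1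
      refine Prod.ext h2.symm ?_
      rw [h2] at hqq
      exact Nat.eq_of_mul_eq_mul_left h4 hqq
  rw [h1]
  refine sum_le_sum_of_subset_of_nonneg ?_ (fun e _ _ => by positivity)
  intro e he
  obtain ⟨q, hq, rfl⟩ := mem_image.1 he
  rw [mem_product, mem_filter, mem_Ioc] at hq
  obtain ⟨hq1, ⟨hq2, hq3⟩, hq4, hq5⟩ := hq
  rw [mem_filter, mem_Ioc]
  have hc : Nat.Coprime q.1 q.2 := (hq5.coprime_dvd_right (hL _ hq1).1).symm
  exact ⟨⟨Nat.mul_pos (hL0 _ hq1) hq2, Nat.mul_le_mul (hL _ hq1).2.2 hq3⟩,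
    (Nat.squarefree_mul hc).2 ⟨(hL _ hq1).2.1, hq4⟩, Nat.coprime_one_right _⟩

private theorem SV_B2b_tail {η B x : ℝ} (hη : 0 < η) (hB : ∀ n : ℕ, 0 < n →
    (n.divisors.card : ℝ) ≤ B * (n : ℝ) ^ (η / 8)) (hB1 : 1 ≤ B) (hx : 1 ≤ x) {d : ℕ} (hd : 1 ≤ d)
    (hdx : (d : ℝ) ≤ x ^ 2) (L : Finset ℕ) (hL : ∀ l ∈ L, l ∣ d ∧ x ^ η ≤ l) :
    ∑ l ∈ L, 1 / (l.totient : ℝ) ≤ 2 * B * x ^ (-(η / 4)) := by
  have hx0 : 0 < x := lt_of_lt_of_le one_pos hx
  have h1 : ∀ l ∈ L, 1 / (l.totient : ℝ) ≤ 2 * x ^ (-(η / 2)) := by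
    intro l hl
    have hl1 : 1 ≤ l := Nat.pos_of_dvd_of_pos (hL l hl).1 hd
    refine (SV_B2b_inv hl1).trans (mul_le_mul_of_nonneg_left ?_ zero_le_two)
    have h2 : x ^ (-(η / 2)) = (x ^ η) ^ (-(1 / 2) : ℝ) := by
      rw [← Real.rpow_mul hx0.le]
      congr 1
      ring
    rw [h2]
    exact Real.rpow_le_rpow_of_nonpos (Real.rpow_pos_of_pos hx0 _) (hL l hl).2 (by norm_num)
  have h2 : (L.card : ℝ) ≤ B * x ^ (η / 4) := by
    have h3 : (L.card : ℝ) ≤ d.divisors.card := by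
      exact_mod_cast card_le_card fun l hl => Nat.mem_divisors.2 ⟨(hL l hl).1, by omega⟩
    refine (h3.trans (hB d hd)).trans (mul_le_mul_of_nonneg_left ?_ (by linarith))
    refine (Real.rpow_le_rpow (Nat.cast_nonneg d) hdx (by positivity)).trans (le_of_eq ?_)
    rw [← Real.rpow_natCast x 2, ← Real.rpow_mul hx0.le]
    congr 1
    push_cast
    ring
  have hp : 0 < x ^ (-(η / 2)) := Real.rpow_pos_of_pos hx0 _
  calc ∑ l ∈ L, 1 / (l.totient : ℝ) ≤ ∑ _l ∈ L, 2 * x ^ (-(η / 2)) := sum_le_sum h1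
    _ = L.card * (2 * x ^ (-(η / 2))) := by rw [sum_const, nsmul_eq_mul]
    _ ≤ B * x ^ (η / 4) * (2 * x ^ (-(η / 2))) := mul_le_mul_of_nonneg_right h2 (by positivity)
    _ = 2 * B * (x ^ (η / 4) * x ^ (-(η / 2))) := by ring
    _ = 2 * B * x ^ (-(η / 4)) := by
        rw [← Real.rpow_add hx0]
        congr 2
        ring

open Pool.Agent.Lib.MP_2a816b_nt.BH in
theorem SD_upper (δ : ℝ) (hδ : 0 < δ) : ∃ x0 : ℝ, 2 ≤ x0 ∧ ∀ x : ℝ, x0 ≤ x → ∀ d : ℕ, 1 ≤ d → (d : ℝ) ≤ x ^ 2 →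
    ∀ y : ℕ, 1 ≤ y → (y : ℝ) ≤ x → (d : ℝ) / d.totient * SD y d ≤ Real.log y + δ * Real.log x := by
  classical
  obtain ⟨C, hC0, hC⟩ := SD_one
  obtain ⟨η, hη⟩ : ∃ η : ℝ, η = δ / 4 := ⟨_, rfl⟩
  have hη0 : 0 < η := by rw [hη]; positivity
  obtain ⟨B, hB1, hB⟩ := divisor_bound (η / 8) (by positivity)
  have e1 : ∀ᶠ x : ℝ in Filter.atTop, 2 * B * x ^ (-(η / 4)) < min 1 η := by
    have h := (tendsto_rpow_neg_atTop (by positivity : 0 < η / 4)).const_mul (2 * B)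
    rw [mul_zero] at h
    exact h.eventually_lt_const (lt_min one_pos hη0)
  have e2 : ∀ᶠ x : ℝ in Filter.atTop, C / η ≤ Real.log x :=
    Real.tendsto_log_atTop.eventually_ge_atTop _
  obtain ⟨x0, hx0⟩ := Filter.eventually_atTop.1 (e1.and e2)
  refine ⟨max x0 2, le_max_right _ _, ?_⟩
  intro x hx d hd hdx y hy hyx
  obtain ⟨h1, h2⟩ := hx0 x ((le_max_left _ _).trans hx)
  have hx2 : 2 ≤ x := (le_max_right _ _).trans hx
  have hx1 : 1 ≤ x := by linarith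
  have hxp : 0 < x := by linarith
  rw [div_le_iff₀ hη0] at h2
  have h3 := h1.trans_le (min_le_left _ _)
  have h4 := h1.trans_le (min_le_right _ _)
  obtain ⟨Y, hY⟩ : ∃ Y : ℕ, Y = ⌊x ^ η⌋₊ := ⟨_, rfl⟩
  have hxη : 1 ≤ x ^ η := Real.one_le_rpow hx1 hη0.le
  have hY1 : 1 ≤ Y := by
    rw [hY]
    exact (Nat.le_floor_iff (by linarith)).2 (by exact_mod_cast hxη)
  have hYx : (Y : ℝ) ≤ x ^ η := by
    rw [hY]
    exact Nat.floor_le (by linarith)
  have h0 := sum_sqf_inv_totient hd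
  rw [← sum_filter_add_sum_filter_not _ (fun l => l ≤ Y)] at h0
  have hhead := SV_B2b_head d y Y hd _ (fun l hl => ⟨Nat.dvd_of_mem_divisors
    (mem_filter.1 (mem_filter.1 hl).1).1, (mem_filter.1 (mem_filter.1 hl).1).2,
    (mem_filter.1 hl).2⟩ : ∀ l ∈ (d.divisors.filter (fun l => Squarefree l)).filter
      (fun l => l ≤ Y), l ∣ d ∧ Squarefree l ∧ l ≤ Y)
  have htail := SV_B2b_tail hη0 hB hB1 hx1 hd hdx _ (fun l hl => ⟨Nat.dvd_of_mem_divisors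
    (mem_filter.1 (mem_filter.1 hl).1).1, by
      have h5 : ¬ l ≤ Y := (mem_filter.1 hl).2
      have h6 : x ^ η < (Y : ℝ) + 1 := by
        rw [hY]
        exact Nat.lt_floor_add_one _
      have h7 : ((Y + 1 : ℕ) : ℝ) ≤ l := by exact_mod_cast (not_le.1 h5)
      push_cast at h7
      linarith⟩ : ∀ l ∈ (d.divisors.filter (fun l => Squarefree l)).filter
      (fun l => ¬ l ≤ Y), l ∣ d ∧ x ^ η ≤ l)
  have hS0 : 0 ≤ SD y d := by
    unfold SD
    exact sum_nonneg fun e _ => by positivity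
  have hS1 : SD y d ≤ SD y 1 := by
    unfold SD
    refine sum_le_sum_of_subset_of_nonneg ?_ (fun e _ _ => by positivity)
    intro e he
    rw [mem_filter] at he ⊢
    exact ⟨he.1, he.2.1, Nat.coprime_one_right _⟩
  have hy0 : (0 : ℝ) < y := by exact_mod_cast hy
  have hY0 : (0 : ℝ) < Y := by exact_mod_cast hY1
  have hly : Real.log y ≤ Real.log x := Real.log_le_log hy0 hyx
  have hlY : Real.log Y ≤ η * Real.log x := by
    have h5 := Real.log_le_log hY0 hYx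
    rwa [Real.log_rpow hxp] at h5
  have hlx : 0 ≤ Real.log x := Real.log_nonneg hx1
  have hS2 : SD y d ≤ Real.log x + C := by
    have h5 := (abs_le.1 (hC y hy)).2
    linarith
  have hS3 : SD (Y * y) 1 ≤ Real.log y + η * Real.log x + C := by
    have h5 := (abs_le.1 (hC (Y * y) (Nat.mul_pos hY1 hy))).2
    rw [Nat.cast_mul, Real.log_mul hY0.ne' hy0.ne'] at h5
    linarith
  rw [← h0, add_mul]
  have ht : (∑ l ∈ (d.divisors.filter (fun l => Squarefree l)).filter (fun l => ¬ l ≤ Y),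
      1 / (l.totient : ℝ)) * SD y d ≤ η * Real.log x + C := by
    have h5 : (2 * B * x ^ (-(η / 4))) * SD y d ≤ (2 * B * x ^ (-(η / 4))) * (Real.log x + C) :=
      mul_le_mul_of_nonneg_left hS2 (by positivity)
    have h6 := mul_le_mul_of_nonneg_right htail hS0
    have h7 : (2 * B * x ^ (-(η / 4))) * Real.log x ≤ η * Real.log x :=
      mul_le_mul_of_nonneg_right h4.le hlx
    have h8 : (2 * B * x ^ (-(η / 4))) * C ≤ 1 * C := mul_le_mul_of_nonneg_right h3.le hC0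
    rw [mul_add] at h5
    linarith
  have hδη : δ = 4 * η := by rw [hη]; ring
  rw [hδη]
  have h9 := hhead.trans hS3
  linarith

end Pool.Agent.Lib.MP_42948a_nt.SV
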