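import Pool.Agent.Lib.MP_42948a_nt.SV.B1
import Pool.Agent.Lib.MP_42948a_nt.SV.B2b
import Pool.Agent.Lib.MP_42948a_nt.SV.B3

/-!
# Lower bound of Selberg's sum (job B4)

By `Gs_mono` we may replace `w` by `w' = ⌈x^a⌉₊ ≤ w` and `ξ` by `ξ' = ⌈x^b⌉₊ - 1 ≤ ξ` (`ξ' < x^b ≤ ξ' + 1`, `ξ' ≥ x^b/2` for large `x`). `L = log x`, `r = d/φ d`.
`SD_lower` and `SD_one`: `r SD ξ' d ≥ log ξ' - C ≥ b L - C'`. If `b ≤ a`: there is no `p` with `w' ≤ p ≤ ξ'`, and `Gs_ge` (or directly) gives `r Gs ≥ b L - C'`.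
If `a < b`: `Gs_ge` and `SD_upper` (with a small `δ₁`): `r SD (ξ'/p) d ≤ log(ξ'/p) + δ₁ L ≤ (b + δ₁) L - log p`, so
`r ∑_{w' ≤ p ≤ ξ'} SD (ξ'/p) d/(p-1) ≤ (b+δ₁) L ∑ 1/(p-1) - ∑ log p/(p-1) ≤ (b+δ₁) L (log(b/a) + δ₁) - (b-a) L + C` over the primes `x^a ≤ p ≤ x^b` (`1/(p-1) = 1/p + O(1/p^2)`; the sum over `p ∤ d`
of nonnegative terms is at most the sum over all `p`: bound first `max 0 ((b+δ₁)L - log p)`, which is the term itself as `log p ≤ b L`; `mertA`, `mertB` on `(x^a/2, x^b]` or `(x^a, x^b]` plus at most one prime).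
So `r Gs ≥ L (b - b log(b/a) + (b-a) - O(δ₁)) - C`, which is `L (Gam a b - O(δ₁)) - C`. The bounds must be uniform in `a, b ∈ [1/50, 1]` (they are: `log(b/a) ≤ 4`, `1/a ≤ 50`).
-/

namespace Pool.Agent.Lib.MP_42948a_nt.SV

open Finset Pool.Agent.Lib.MP_42948a_nt.OA Pool.Agent.Lib.MP_42948a_nt.OM

private theorem SV_B4_log2 : Real.log 2 ≤ 1 := by
  have := Real.log_two_lt_d9
  linarith

private theorem SV_B4_frac (U T : ℝ) (hU : 0 < U - 1) : U / (U - 1) * T = T + T / (U - 1) := by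
  have h1 := hU.ne'
  rw [div_mul_eq_mul_div, div_eq_iff h1, add_mul, div_mul_cancel₀ _ h1]
  ring

private theorem SV_B4_log50 {a b : ℝ} (ha : 1 / 50 ≤ a) (hb : b ≤ 1) (hb0 : 0 < b) :
    Real.log (b / a) ≤ 4 := by
  have ha0 : 0 < a := by linarith
  have h1 : b / a ≤ 50 := by
    rw [div_le_iff₀ ha0]
    linarith
  have h2 : Real.log (b / a) ≤ Real.log 50 := Real.log_le_log (by positivity) h1
  have h3 : Real.log 50 ≤ 4 := by
    have h4 : (50 : ℝ) ≤ Real.exp 4 := by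
      have h5 := Real.exp_one_gt_d9
      have h6 : Real.exp 4 = Real.exp 1 ^ 4 := by
        rw [← Real.exp_nat_mul]
        norm_num
      rw [h6]
      calc (50 : ℝ) ≤ 2.7 ^ 4 := by norm_num
        _ ≤ Real.exp 1 ^ 4 := pow_le_pow_left₀ (by norm_num) (by linarith) 4
    rw [Real.log_le_iff_le_exp (by norm_num)]
    exact h4
  linarith

/-- the sum over all primes of the interval -/
private theorem SV_B4_T (C2 C3 : ℝ) (hC2 : 0 ≤ C2)
    (hA : ∀ u v : ℝ, 2 ≤ u → u ≤ v →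
      |∑ p ∈ Pri u v, 1 / (p : ℝ) - Real.log (Real.log v / Real.log u)| ≤ C2 / Real.log u)
    (hB : ∀ u v : ℝ, 1 ≤ u → u ≤ v →
      |∑ p ∈ Pri u v, Real.log p / p - (Real.log v - Real.log u)| ≤ C3)
    (x a b δ : ℝ) (hx : 1 < x) (ha : 1 / 50 ≤ a) (hab : a < b) (hb : b ≤ 1) (hδ : 0 ≤ δ)
    (hδ1 : δ ≤ 1) (h4 : 4 ≤ x ^ a) :
    ∑ p ∈ Pri (x ^ a / 2) (x ^ b), ((b + δ) * Real.log x - Real.log p) / (p : ℝ) ≤
      Real.log x * (b * Real.log (b / a) - (b - a) + 4 * δ) + (C3 + 200 * (1 + C2)) := by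
  have hx0 : 0 < x := by linarith
  have ha0 : 0 < a := by linarith
  have hb0 : 0 < b := by linarith
  set L := Real.log x with hL
  have hL0 : 0 < L := Real.log_pos hx
  have huv : x ^ a / 2 ≤ x ^ b := by
    have h1 : x ^ a ≤ x ^ b := Real.rpow_le_rpow_of_exponent_le hx.le hab.le
    linarith
  have hlv : Real.log (x ^ b) = b * L := by rw [Real.log_rpow hx0]
  have hlu : Real.log (x ^ a / 2) = a * L - Real.log 2 := by
    rw [Real.log_div (by positivity) (by norm_num), Real.log_rpow hx0]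
  have hs2 : 2 * Real.log 2 ≤ a * L := by
    have h1 : Real.log 4 ≤ Real.log (x ^ a) := Real.log_le_log (by norm_num) h4
    rw [Real.log_rpow hx0, show (4 : ℝ) = 2 ^ 2 by norm_num, Real.log_pow] at h1
    push_cast at h1
    exact h1
  have hlog2 : 0 < Real.log 2 := Real.log_pos (by norm_num)
  have hlog2' := SV_B4_log2
  have h5 := hA (x ^ a / 2) (x ^ b) (by linarith) huv
  have h6 := hB (x ^ a / 2) (x ^ b) (by linarith) huv
  rw [hlv, hlu] at h5 h6
  have h5' := (abs_le.1 h5).2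
  have h6' := (abs_le.1 h6).1
  have hs0 : 0 < a * L - Real.log 2 := by linarith
  have hsL : L / 50 ≤ a * L := by nlinarith
  have h7 : Real.log (b * L / (a * L - Real.log 2)) ≤ Real.log (b / a) + 100 / L := by
    have h8 : b * L / (a * L - Real.log 2) = (b / a) * (a * L / (a * L - Real.log 2)) := by
      field_simp
    rw [h8, Real.log_mul (by positivity) (by positivity)]
    have h9 : Real.log (a * L / (a * L - Real.log 2)) ≤ a * L / (a * L - Real.log 2) - 1 :=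
      Real.log_le_sub_one_of_pos (by positivity)
    have h10 : a * L / (a * L - Real.log 2) - 1 ≤ 100 / L := by
      rw [div_sub_one hs0.ne', div_le_div_iff₀ hs0 hL0]
      nlinarith
    linarith
  have h8 : C2 / (a * L - Real.log 2) ≤ 100 * C2 / L := by
    rw [div_le_div_iff₀ hs0 hL0]
    nlinarith
  have h9 : ∑ p ∈ Pri (x ^ a / 2) (x ^ b), ((b + δ) * L - Real.log p) / (p : ℝ) =
      (b + δ) * L * ∑ p ∈ Pri (x ^ a / 2) (x ^ b), 1 / (p : ℝ) -
        ∑ p ∈ Pri (x ^ a / 2) (x ^ b), Real.log p / p := by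
    rw [Finset.mul_sum, ← Finset.sum_sub_distrib]
    refine Finset.sum_congr rfl fun p _ => ?_
    ring
  rw [h9]
  have h10 : ∑ p ∈ Pri (x ^ a / 2) (x ^ b), 1 / (p : ℝ) ≤
      Real.log (b / a) + (100 + 100 * C2) / L := by
    have : (100 + 100 * C2) / L = 100 / L + 100 * C2 / L := by ring
    linarith
  have h11 : (b + δ) * L * ∑ p ∈ Pri (x ^ a / 2) (x ^ b), 1 / (p : ℝ) ≤
      (b + δ) * L * (Real.log (b / a) + (100 + 100 * C2) / L) :=
    mul_le_mul_of_nonneg_left h10 (by positivity)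
  have h12 : (b + δ) * L * (Real.log (b / a) + (100 + 100 * C2) / L) =
      L * (b * Real.log (b / a)) + L * (δ * Real.log (b / a)) + (b + δ) * (100 + 100 * C2) := by
    have : (b + δ) * L * ((100 + 100 * C2) / L) = (b + δ) * (100 + 100 * C2) := by
      rw [mul_assoc, mul_div_cancel₀ _ hL0.ne']
    linear_combination this
  have h13 : L * (δ * Real.log (b / a)) ≤ L * (4 * δ) := by
    have h14 := SV_B4_log50 ha hb hb0
    refine mul_le_mul_of_nonneg_left ?_ hL0.le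
    nlinarith
  have h15 : (b + δ) * (100 + 100 * C2) ≤ 2 * (100 + 100 * C2) :=
    mul_le_mul_of_nonneg_right (by linarith) (by positivity)
  nlinarith

theorem gs_lower (δ : ℝ) (hδ : 0 < δ) : ∃ x0 : ℝ, 2 ≤ x0 ∧ ∀ x : ℝ, x0 ≤ x → ∀ d : ℕ, 1 ≤ d → (d : ℝ) ≤ x ^ 2 →
    ∀ a b : ℝ, 1 / 50 ≤ a → a ≤ 1 → 1 / 50 ≤ b → b ≤ 1 → ∀ w ξ : ℕ, x ^ a ≤ (w : ℝ) → x ^ b ≤ (ξ : ℝ) + 1 →
      Real.log x * (Gam a b - δ) ≤ (d : ℝ) / d.totient * Gs d w ξ := by
  classical
  obtain ⟨C2, hC2, hA⟩ := mertA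
  obtain ⟨C3, hC3, hB⟩ := mertB
  obtain ⟨C1, hC1, hS1⟩ := SD_one
  set δ₁ : ℝ := min δ 1 / 8 with hδ₁
  have hδ₁0 : 0 < δ₁ := by
    rw [hδ₁]
    have : 0 < min δ 1 := lt_min hδ one_pos
    positivity
  have hδ₁1 : δ₁ ≤ 1 := by
    rw [hδ₁]
    have : min δ 1 ≤ 1 := min_le_right _ _
    linarith
  have hδ₁δ : 8 * δ₁ ≤ δ := by
    rw [hδ₁]
    have : min δ 1 ≤ δ := min_le_left _ _
    linarith
  obtain ⟨x1, hx1, hup⟩ := SD_upper δ₁ hδ₁0
  set C4 : ℝ := C3 + 200 * (1 + C2) with hC4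
  have hC40 : 0 ≤ C4 := by positivity
  set C5 : ℝ := 1 + C1 + C4 + 1 with hC5
  have ev1 : ∀ᶠ x : ℝ in Filter.atTop, C4 + 8 * Real.log x ≤ x ^ (1 / 50 : ℝ) / 2 - 1 := by
    have h1 := (isLittleO_log_rpow_atTop (show (0 : ℝ) < 1 / 50 by norm_num)).def
      (show (0 : ℝ) < 1 / 32 by norm_num)
    have h2 := (tendsto_rpow_atTop (show (0 : ℝ) < 1 / 50 by norm_num)).eventually_ge_atTop
      (4 * (C4 + 1))
    filter_upwards [h1, h2, Filter.eventually_ge_atTop (1 : ℝ)] with x h3 h4 h5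
    have h6 : 0 < x ^ (1 / 50 : ℝ) := Real.rpow_pos_of_pos (by linarith) _
    rw [Real.norm_of_nonneg (Real.log_nonneg h5), Real.norm_of_nonneg h6.le] at h3
    linarith
  have ev2 : ∀ᶠ x : ℝ in Filter.atTop, C5 ≤ δ / 2 * Real.log x := by
    have h1 := Real.tendsto_log_atTop.eventually_ge_atTop (C5 / (δ / 2))
    filter_upwards [h1] with x h2
    rw [div_le_iff₀ (by positivity)] at h2
    linarith
  have ev3 : ∀ᶠ x : ℝ in Filter.atTop, 4 ≤ x ^ (1 / 50 : ℝ) :=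
    (tendsto_rpow_atTop (show (0 : ℝ) < 1 / 50 by norm_num)).eventually_ge_atTop 4
  obtain ⟨x2, hx2⟩ := Filter.eventually_atTop.1 (ev1.and (ev2.and ev3))
  refine ⟨max 2 (max x1 x2), le_max_left _ _, ?_⟩
  intro x hx d hd hdx a b ha ha1 hb hb1 w ξ hw hξ
  have hx2' : 2 ≤ x := (le_max_left _ _).trans hx
  have hx1' : x1 ≤ x := ((le_max_left _ _).trans (le_max_right _ _)).trans hx
  obtain ⟨e1, e2, e3⟩ := hx2 x (((le_max_right _ _).trans (le_max_right _ _)).trans hx)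
  have hx0 : 0 < x := by linarith
  have hx1'' : 1 < x := by linarith
  set L := Real.log x with hL
  have hL0 : 0 < L := Real.log_pos hx1''
  set r : ℝ := (d : ℝ) / d.totient with hr
  have hr1 : 1 ≤ r := one_le_rd hd
  have hxa : x ^ (1 / 50 : ℝ) ≤ x ^ a := Real.rpow_le_rpow_of_exponent_le hx1''.le ha
  have hxb : x ^ (1 / 50 : ℝ) ≤ x ^ b := Real.rpow_le_rpow_of_exponent_le hx1''.le hb
  have hxb1 : x ^ b ≤ x := by
    calc x ^ b ≤ x ^ (1 : ℝ) := Real.rpow_le_rpow_of_exponent_le hx1''.le hb1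
      _ = x := Real.rpow_one x
  set w' : ℕ := ⌈x ^ a⌉₊ with hw'
  set ξ' : ℕ := ⌈x ^ b⌉₊ - 1 with hξ'
  have hw1 : w' ≤ w := Nat.ceil_le.2 hw
  have hw2 : x ^ a ≤ w' := Nat.le_ceil _
  have hc1 : 1 ≤ ⌈x ^ b⌉₊ := by
    rw [Nat.one_le_ceil_iff]
    positivity
  have hξ1 : ξ' ≤ ξ := by
    have : ⌈x ^ b⌉₊ ≤ ξ + 1 := Nat.ceil_le.2 (by push_cast; exact hξ)
    omega
  have hξ2 : (ξ' : ℝ) < x ^ b := by
    rw [← Nat.lt_ceil]
    omega
  have hξ3 : x ^ b ≤ (ξ' : ℝ) + 1 := by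
    have h1 : (⌈x ^ b⌉₊ : ℝ) = (ξ' : ℝ) + 1 := by
      have : ⌈x ^ b⌉₊ = ξ' + 1 := by omega
      rw [this]
      push_cast
      ring
    rw [← h1]
    exact Nat.le_ceil _
  have hξ4 : x ^ b / 2 ≤ ξ' := by linarith
  have hξ5 : (1 : ℝ) ≤ ξ' := by linarith
  have hξ6 : 1 ≤ ξ' := by exact_mod_cast hξ5
  have hlξ : b * L - 1 ≤ Real.log ξ' := by
    have h1 : Real.log (x ^ b / 2) ≤ Real.log ξ' := Real.log_le_log (by positivity) hξ4
    rw [Real.log_div (by positivity) (by norm_num), Real.log_rpow hx0] at h1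
    have := SV_B4_log2
    linarith
  have hSD : b * L - 1 - C1 ≤ r * Pool.Agent.Lib.MP_2a816b_nt.BH.SD ξ' d := by
    have h1 := SD_lower hd ξ'
    have h2 := (abs_le.1 (hS1 ξ' hξ6)).1
    linarith
  have hGs : Gs d w' ξ' ≤ Gs d w ξ := Gs_mono hw1 hξ1
  have hG := Gs_ge d w' ξ'
  have hrG : r * (Pool.Agent.Lib.MP_2a816b_nt.BH.SD ξ' d -
      ∑ p ∈ (Icc w' ξ').filter (fun p => p.Prime ∧ ¬ p ∣ d),
        Pool.Agent.Lib.MP_2a816b_nt.BH.SD (ξ' / p) d / ((p : ℝ) - 1)) ≤ r * Gs d w ξ :=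
    mul_le_mul_of_nonneg_left (hG.trans hGs) (by linarith)
  rw [mul_sub, Finset.mul_sum] at hrG
  unfold Gam
  by_cases hba : b ≤ a
  · rw [if_pos hba]
    have h1 : (Icc w' ξ').filter (fun p => p.Prime ∧ ¬ p ∣ d) = ∅ := by
      rw [Finset.filter_eq_empty_iff]
      intro p hp
      exfalso
      rw [Finset.mem_Icc] at hp
      have h2 : (w' : ℝ) ≤ ξ' := by exact_mod_cast hp.1.trans hp.2
      have h3 : x ^ b ≤ x ^ a := Real.rpow_le_rpow_of_exponent_le hx1''.le hba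
      linarith
    rw [h1, Finset.sum_empty, sub_zero] at hrG
    have h2 : C1 + 1 ≤ C5 := by rw [hC5]; linarith
    have h3 := mul_pos hδ hL0
    linarith
  · rw [if_neg hba]
    have hab : a < b := not_le.1 hba
    have hb0 : 0 < b := by linarith
    have ha0 : 0 < a := by linarith
    have hT := SV_B4_T C2 C3 hC2 hA hB x a b δ₁ hx1'' ha hab hb1 hδ₁0.le hδ₁1 (by linarith)
    rw [← hC4, ← hL] at hT
    set T := ∑ p ∈ Pri (x ^ a / 2) (x ^ b), ((b + δ₁) * L - Real.log p) / (p : ℝ) with hTdef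
    have hu : 1 < x ^ a / 2 := by linarith
    have hterm : ∀ p ∈ Pri (x ^ a / 2) (x ^ b), 0 ≤ (b + δ₁) * L - Real.log p := by
      intro p hp
      rw [mem_Pri (by linarith)] at hp
      have hp0 : (0 : ℝ) < p := by exact_mod_cast hp.1.pos
      have h1 : Real.log p ≤ Real.log (x ^ b) := Real.log_le_log hp0 hp.2.2
      rw [Real.log_rpow hx0] at h1
      have h2 := mul_nonneg hδ₁0.le hL0.le
      linarith
    have hT0 : 0 ≤ T := by
      rw [hTdef]
      exact Finset.sum_nonneg fun p hp => div_nonneg (hterm p hp) (Nat.cast_nonneg _)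
    have hlog0 : 0 ≤ Real.log (b / a) := Real.log_nonneg (by
      rw [le_div_iff₀ ha0]
      linarith)
    have hlog4 := SV_B4_log50 ha hb1 hb0
    have hTK : T ≤ 8 * L + C4 := by
      refine hT.trans ?_
      have h1 : b * Real.log (b / a) - (b - a) + 4 * δ₁ ≤ 8 := by
        have h2 : b * Real.log (b / a) ≤ 1 * 4 :=
          mul_le_mul hb1 hlog4 hlog0 zero_le_one
        linarith
      have h2 := mul_le_mul_of_nonneg_left h1 hL0.le
      linarith
    have hsum : ∑ p ∈ (Icc w' ξ').filter (fun p => p.Prime ∧ ¬ p ∣ d),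
        r * (Pool.Agent.Lib.MP_2a816b_nt.BH.SD (ξ' / p) d / ((p : ℝ) - 1)) ≤ T + 1 := by
      have h1 : ∀ p ∈ (Icc w' ξ').filter (fun p => p.Prime ∧ ¬ p ∣ d),
          r * (Pool.Agent.Lib.MP_2a816b_nt.BH.SD (ξ' / p) d / ((p : ℝ) - 1)) ≤
          (x ^ a / 2) / (x ^ a / 2 - 1) * (((b + δ₁) * L - Real.log p) / (p : ℝ)) := by
        intro p hp
        rw [Finset.mem_filter, Finset.mem_Icc] at hp
        obtain ⟨⟨hp1, hp2⟩, hp3, hp4⟩ := hp
        have hpu : x ^ a / 2 ≤ p := by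
          have : (w' : ℝ) ≤ p := by exact_mod_cast hp1
          have h5 : 0 < x ^ a := Real.rpow_pos_of_pos hx0 _
          linarith
        have hp2r : (p : ℝ) ≤ ξ' := by exact_mod_cast hp2
        have hpv : (p : ℝ) ≤ x ^ b := by linarith
        have hp0 : (0 : ℝ) < p := by linarith
        have hy1 : 1 ≤ ξ' / p := (Nat.one_le_div_iff hp3.pos).2 hp2
        have hy2 : ((ξ' / p : ℕ) : ℝ) ≤ (ξ' : ℝ) / p := Nat.cast_div_le
        have hy3 : ((ξ' / p : ℕ) : ℝ) ≤ x ^ b / p :=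
          hy2.trans (div_le_div_of_nonneg_right hξ2.le hp0.le)
        have hy4 : ((ξ' / p : ℕ) : ℝ) ≤ x := by
          refine hy3.trans ((div_le_self (by positivity) ?_).trans hxb1)
          exact_mod_cast hp3.one_lt.le
        have hy5 := hup x hx1' d hd hdx (ξ' / p) hy1 hy4
        have hy6 : Real.log ((ξ' / p : ℕ) : ℝ) ≤ b * L - Real.log p := by
          have h6 : (0 : ℝ) < ((ξ' / p : ℕ) : ℝ) := by exact_mod_cast hy1
          have h7 := Real.log_le_log h6 hy3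
          rw [Real.log_div (by positivity) hp0.ne', Real.log_rpow hx0] at h7
          exact h7
        have hy7 : r * Pool.Agent.Lib.MP_2a816b_nt.BH.SD (ξ' / p) d ≤
            (b + δ₁) * L - Real.log p := by linarith
        have hp1' : (0 : ℝ) < (p : ℝ) - 1 := by linarith
        have hy8 : 0 ≤ (b + δ₁) * L - Real.log p := by
          have h8 : Real.log p ≤ Real.log (x ^ b) := Real.log_le_log hp0 hpv
          rw [Real.log_rpow hx0] at h8
          have h9 := mul_nonneg hδ₁0.le hL0.le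
          linarith
        calc r * (Pool.Agent.Lib.MP_2a816b_nt.BH.SD (ξ' / p) d / ((p : ℝ) - 1))
            = (r * Pool.Agent.Lib.MP_2a816b_nt.BH.SD (ξ' / p) d) / ((p : ℝ) - 1) := by ring
          _ ≤ ((b + δ₁) * L - Real.log p) / ((p : ℝ) - 1) :=
              div_le_div_of_nonneg_right hy7 hp1'.le
          _ = ((b + δ₁) * L - Real.log p) * (1 / ((p : ℝ) - 1)) := by ring
          _ ≤ ((b + δ₁) * L - Real.log p) * ((x ^ a / 2) / (x ^ a / 2 - 1) * (1 / p)) := by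
              refine mul_le_mul_of_nonneg_left ?_ hy8
              rw [div_mul_div_comm, div_le_div_iff₀ hp1' (mul_pos (by linarith) hp0)]
              linarith
          _ = (x ^ a / 2) / (x ^ a / 2 - 1) * (((b + δ₁) * L - Real.log p) / (p : ℝ)) := by ring
      have h2 := Finset.sum_le_sum h1
      refine h2.trans ?_
      rw [← Finset.mul_sum]
      have h3 : ∑ p ∈ (Icc w' ξ').filter (fun p => p.Prime ∧ ¬ p ∣ d),
          ((b + δ₁) * L - Real.log p) / (p : ℝ) ≤ T := by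
        rw [hTdef]
        refine Finset.sum_le_sum_of_subset_of_nonneg ?_
          (fun p hp _ => div_nonneg (hterm p hp) (Nat.cast_nonneg _))
        intro p hp
        rw [Finset.mem_filter, Finset.mem_Icc] at hp
        obtain ⟨⟨hp1, hp2⟩, hp3, hp4⟩ := hp
        rw [mem_Pri (by linarith)]
        have h5 : (w' : ℝ) ≤ p := by exact_mod_cast hp1
        have h6 : (p : ℝ) ≤ ξ' := by exact_mod_cast hp2
        have h7 : 0 < x ^ a := Real.rpow_pos_of_pos hx0 _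
        exact ⟨hp3, by linarith, by linarith⟩
      have hu1 : 0 < x ^ a / 2 - 1 := by linarith
      calc (x ^ a / 2) / (x ^ a / 2 - 1) *
            ∑ p ∈ (Icc w' ξ').filter (fun p => p.Prime ∧ ¬ p ∣ d),
              ((b + δ₁) * L - Real.log p) / (p : ℝ)
          ≤ (x ^ a / 2) / (x ^ a / 2 - 1) * T :=
            mul_le_mul_of_nonneg_left h3 (div_nonneg (by linarith) hu1.le)
        _ = T + T / (x ^ a / 2 - 1) := SV_B4_frac _ _ hu1
        _ ≤ T + 1 := by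
            have h8 : T / (x ^ a / 2 - 1) ≤ 1 := by
              rw [div_le_one hu1]
              linarith
            linarith
    have h9 : b * L - 1 - C1 - (T + 1) ≤ r * Gs d w ξ := by linarith
    refine le_trans ?_ h9
    have h10 : C5 = 1 + C1 + C4 + 1 := hC5
    have h11 : L * (8 * δ₁) ≤ L * δ := mul_le_mul_of_nonneg_left hδ₁δ hL0.le
    linarith

end Pool.Agent.Lib.MP_42948a_nt.SV
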