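import Pool.Agent.Lib.MP_42948a_nt.SV.Defs

/-!
# Rankin's trick (job B5)

`∏_{q ∈ Pw d w} (1 + 1/(q-1)) = ∑_{m ∣ ∏ q} 1/φ m = 1/Vd d w`; the `m ≤ ξ` are those of `Sq d w ξ`; the `m ≥ ξ + 1` contribute at most `(ξ+1)^(-ε) ∑ m^ε/φ m = (ξ+1)^(-ε) ∏ (1 + q^ε/(q-1))`.
Multiply by `Vd`: `(1 - 1/q)(1 + q^ε/(q-1)) = 1 + (q^ε - 1)/q ≤ exp((q^ε-1)/q)`. (`Finset.prod_one_add`/`prod_add`: sums over `(Pw d w).powerset`, `T ↦ ∏ T` injective; or induction on `w`.)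
-/

namespace Pool.Agent.Lib.MP_42948a_nt.SV

open Finset Pool.Agent.Lib.MP_42948a_nt.OA Pool.Agent.Lib.MP_42948a_nt.OM

private lemma B5_pos {T : Finset ℕ} (hT : ∀ q ∈ T, q.Prime) : 0 < ∏ q ∈ T, q :=
  prod_pos fun q hq => (hT q hq).pos

private lemma B5_tot {T : Finset ℕ} (hT : ∀ q ∈ T, q.Prime) :
    ((∏ q ∈ T, q).totient : ℝ) = ∏ q ∈ T, ((q : ℝ) - 1) := by
  have h := Nat.totient_mul_prod_primeFactors (∏ q ∈ T, q)
  rw [Nat.primeFactors_prod hT] at h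
  have h2 : (∏ q ∈ T, q).totient = ∏ q ∈ T, (q - 1) := by
    have hp := B5_pos hT
    refine Nat.eq_of_mul_eq_mul_right hp ?_
    rw [h, mul_comm]
  rw [h2, Nat.cast_prod]
  refine prod_congr rfl fun q hq => ?_
  exact Nat.cast_pred (hT q hq).pos

private lemma B5_sqf {T : Finset ℕ} (hT : ∀ q ∈ T, q.Prime) : Squarefree (∏ q ∈ T, q) := by
  refine Finset.squarefree_prod_of_pairwise_isCoprime (fun a ha b hb hab => ?_)
    fun q hq => (hT q hq).squarefree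
  exact Nat.coprime_iff_isRelPrime.mp ((Nat.coprime_primes (hT a ha) (hT b hb)).mpr hab)

private lemma B5_small {d w ξ : ℕ} {T : Finset ℕ} (hT : ∀ q ∈ T, q ∈ Pw d w)
    (h : ∏ q ∈ T, q ≤ ξ) : ∏ q ∈ T, q ∈ Sq d w ξ := by
  have hp : ∀ q ∈ T, q.Prime := fun q hq => (mem_Pw.mp (hT q hq)).2.1
  rw [mem_Sq]
  refine ⟨⟨B5_pos hp, h⟩, B5_sqf hp, ?_, ?_⟩
  · refine Nat.Coprime.prod_left fun q hq => ?_
    exact (Nat.Prime.coprime_iff_not_dvd (hp q hq)).mpr (mem_Pw.mp (hT q hq)).2.2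
  · intro p hpp hpd
    have h1 : p ∈ (∏ q ∈ T, q).primeFactors :=
      Nat.mem_primeFactors.mpr ⟨hpp, hpd, (B5_pos hp).ne'⟩
    rw [Nat.primeFactors_prod hp] at h1
    exact (mem_Pw.mp (hT p h1)).1

theorem rankin (d w ξ : ℕ) (ε : ℝ) (hε : 0 ≤ ε) :
    1 ≤ Vd d w * Gs d w ξ +
      Real.exp (-(ε * Real.log ((ξ : ℝ) + 1)) + ∑ q ∈ Pw d w, ((q : ℝ) ^ ε - 1) / q) := by
  classical
  obtain ⟨P, hP⟩ : ∃ P, P = Pw d w := ⟨_, rfl⟩
  have hPw : ∀ q ∈ P, q ∈ Pw d w := fun q hq => hP ▸ hq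
  have hPp : ∀ q ∈ P, q.Prime := fun q hq => (mem_Pw.mp (hPw q hq)).2.1
  have hTw : ∀ T ∈ P.powerset, ∀ q ∈ T, q ∈ Pw d w := fun T hT q hq =>
    hPw q (mem_powerset.mp hT hq)
  have hTP : ∀ T ∈ P.powerset, ∀ q ∈ T, q.Prime := fun T hT q hq =>
    hPp q (mem_powerset.mp hT hq)
  have hp2 : ∀ q : ℕ, q.Prime → (2 : ℝ) ≤ q := fun q hq => by exact_mod_cast hq.two_le
  have hV : Vd d w = ∏ q ∈ P, (1 - 1 / (q : ℝ)) := by
    rw [hP]
    rfl
  have e1 : Vd d w * ∏ q ∈ P, (1 + 1 / ((q : ℝ) - 1)) = 1 := by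
    rw [hV, ← prod_mul_distrib]
    refine prod_eq_one fun q hq => ?_
    have h0 := hp2 q (hPp q hq)
    have h1 : (q : ℝ) ≠ 0 := by linarith
    have h2 : (q : ℝ) - 1 ≠ 0 := by linarith
    field_simp
    ring
  have e2 : ∏ q ∈ P, (1 + 1 / ((q : ℝ) - 1)) =
      ∑ T ∈ P.powerset, 1 / ((∏ q ∈ T, q).totient : ℝ) := by
    rw [prod_one_add]
    refine sum_congr rfl fun T hT => ?_
    rw [B5_tot (hTP T hT), prod_div_distrib, prod_const_one]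
  have h1 : ∑ T ∈ P.powerset.filter (fun T => ∏ q ∈ T, q ≤ ξ),
      1 / ((∏ q ∈ T, q).totient : ℝ) ≤ Gs d w ξ := by
    have hinj : Set.InjOn (fun T : Finset ℕ => ∏ q ∈ T, q)
        ((P.powerset.filter (fun T => ∏ q ∈ T, q ≤ ξ) : Finset (Finset ℕ)) :
          Set (Finset ℕ)) := by
      intro T hT T' hT' h
      have h1 : T ∈ P.powerset := (mem_filter.mp (mem_coe.mp hT)).1
      have h2 : T' ∈ P.powerset := (mem_filter.mp (mem_coe.mp hT')).1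
      have h3 : (∏ q ∈ T, q) = ∏ q ∈ T', q := h
      calc T = (∏ q ∈ T, q).primeFactors := (Nat.primeFactors_prod (hTP T h1)).symm
        _ = (∏ q ∈ T', q).primeFactors := by rw [h3]
        _ = T' := Nat.primeFactors_prod (hTP T' h2)
    have h2 := sum_image (f := fun m : ℕ => 1 / (m.totient : ℝ)) hinj
    have h3 : ∑ T ∈ P.powerset.filter (fun T => ∏ q ∈ T, q ≤ ξ),
        1 / ((∏ q ∈ T, q).totient : ℝ) =
        ∑ m ∈ (P.powerset.filter (fun T => ∏ q ∈ T, q ≤ ξ)).image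
          (fun T : Finset ℕ => ∏ q ∈ T, q), 1 / (m.totient : ℝ) := h2.symm
    rw [h3]
    unfold Gs
    refine sum_le_sum_of_subset_of_nonneg ?_ fun m _ _ => by positivity
    intro m hm
    obtain ⟨T, hT, rfl⟩ := mem_image.mp hm
    obtain ⟨hT1, hT2⟩ := mem_filter.mp hT
    exact B5_small (hTw T hT1) hT2
  obtain ⟨E, hE⟩ : ∃ E, E = Real.exp (-(ε * Real.log ((ξ : ℝ) + 1))) := ⟨_, rfl⟩
  have hE0 : 0 < E := by
    rw [hE]
    exact Real.exp_pos _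
  have hpr : ∀ T ∈ P.powerset, 0 < ∏ q ∈ T, ((q : ℝ) - 1) := fun T hT =>
    prod_pos fun q hq => by
      have := hp2 q (hTP T hT q hq)
      linarith
  have h2 : ∑ T ∈ P.powerset.filter (fun T => ¬ ∏ q ∈ T, q ≤ ξ),
      1 / ((∏ q ∈ T, q).totient : ℝ) ≤
      E * ∏ q ∈ P, (1 + (q : ℝ) ^ ε / ((q : ℝ) - 1)) := by
    rw [prod_one_add, mul_sum]
    refine le_trans (sum_le_sum (g := fun T : Finset ℕ =>
      E * ∏ q ∈ T, ((q : ℝ) ^ ε / ((q : ℝ) - 1))) fun T hT => ?_)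
      (sum_le_sum_of_subset_of_nonneg (filter_subset _ _) fun T hT _ => ?_)
    · obtain ⟨hT1, hT2⟩ := mem_filter.mp hT
      have hT3 := B5_pos (hTP T hT1)
      rw [B5_tot (hTP T hT1)]
      have h4 : ∏ q ∈ T, (q : ℝ) ^ ε = ((∏ q ∈ T, q : ℕ) : ℝ) ^ ε := by
        rw [Nat.cast_prod]
        exact Real.finsetProd_rpow _ _ (fun q _ => by positivity) _
      have h3 : 1 ≤ E * ∏ q ∈ T, (q : ℝ) ^ ε := by
        have h5 : (0 : ℝ) < ((∏ q ∈ T, q : ℕ) : ℝ) := by exact_mod_cast hT3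
        rw [h4, hE, Real.rpow_def_of_pos h5, ← Real.exp_add]
        refine Real.one_le_exp ?_
        have h6 : (ξ : ℝ) + 1 ≤ ((∏ q ∈ T, q : ℕ) : ℝ) := by
          exact_mod_cast Nat.lt_of_not_le hT2
        have h7 : Real.log ((ξ : ℝ) + 1) ≤ Real.log ((∏ q ∈ T, q : ℕ) : ℝ) :=
          Real.log_le_log (by positivity) h6
        have h8 := mul_le_mul_of_nonneg_left h7 hε
        linarith
      show 1 / ∏ q ∈ T, ((q : ℝ) - 1) ≤ E * ∏ q ∈ T, ((q : ℝ) ^ ε / ((q : ℝ) - 1))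
      rw [prod_div_distrib, ← mul_div_assoc]
      exact div_le_div_of_nonneg_right h3 (hpr T hT1).le
    · refine mul_nonneg hE0.le (prod_nonneg fun q hq => div_nonneg (by positivity) ?_)
      have := hp2 q (hTP T hT q hq)
      linarith
  have h3 : Vd d w * ∏ q ∈ P, (1 + (q : ℝ) ^ ε / ((q : ℝ) - 1)) ≤
      Real.exp (∑ q ∈ P, ((q : ℝ) ^ ε - 1) / q) := by
    rw [hV, ← prod_mul_distrib, Real.exp_sum]
    refine prod_le_prod (fun q hq => ?_) (fun q hq => ?_)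
    · have h0 := hp2 q (hPp q hq)
      have h5 : 1 / (q : ℝ) ≤ 1 / 2 := one_div_le_one_div_of_le (by norm_num) h0
      have h6 : 0 ≤ (q : ℝ) ^ ε / ((q : ℝ) - 1) := div_nonneg (by positivity) (by linarith)
      exact mul_nonneg (by linarith) (by linarith)
    · have h0 := hp2 q (hPp q hq)
      have h5 : (q : ℝ) ≠ 0 := by linarith
      have h6 : (q : ℝ) - 1 ≠ 0 := by linarith
      have h7 : (1 - 1 / (q : ℝ)) * (1 + (q : ℝ) ^ ε / ((q : ℝ) - 1)) =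
          ((q : ℝ) ^ ε - 1) / q + 1 := by
        field_simp
        ring
      rw [h7]
      exact Real.add_one_le_exp _
  have hVp := Vd_pos d w
  have h4 := sum_filter_add_sum_filter_not P.powerset (fun T => ∏ q ∈ T, q ≤ ξ)
    (fun T : Finset ℕ => 1 / ((∏ q ∈ T, q).totient : ℝ))
  rw [e2, ← h4] at e1
  rw [Real.exp_add, ← hE, ← hP]
  have h5 := mul_le_mul_of_nonneg_left h1 hVp.le
  have h6 := mul_le_mul_of_nonneg_left h2 hVp.le
  have h7 := mul_le_mul_of_nonneg_left h3 hE0.le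
  calc (1 : ℝ) = _ := e1.symm
    _ ≤ Vd d w * Gs d w ξ +
        Vd d w * (E * ∏ q ∈ P, (1 + (q : ℝ) ^ ε / ((q : ℝ) - 1))) := by
      rw [mul_add]
      exact add_le_add h5 h6
    _ = Vd d w * Gs d w ξ +
        E * (Vd d w * ∏ q ∈ P, (1 + (q : ℝ) ^ ε / ((q : ℝ) - 1))) := by ring
    _ ≤ _ := by linarith

end Pool.Agent.Lib.MP_42948a_nt.SV
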