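import Pool.Agent.Lib.MP_42948a_nt.SV.B1

/-!
# The sums in Rankin's trick (job B6)

`η = 11/5`, `ε = η/log w`. `Pw 1 w` is the set of all primes `< w`; `Pw d w ⊆ Pw 1 w`, so a bound for `d = 1` is enough.
`rsum_crude`: `q^ε - 1 ≤ e^η ε log q` for `q < w` (`e^t - 1 ≤ t e^t`), and `∑_{q<w} log q/q ≤ log w + C` (`mertB`).
`rsum_sharp` (true limit `∫_0^η (e^t - 1)/t dt = 4.46`, asked: `4.55`). Split at `w^(i/5)`, `i = 0, .., 5`; with `t = log q/log w ∈ [0,1]` the function `e^(η t) - 1` is convex, so on `[(i-1)/5, i/5]` it is below its chord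
`α_i + β_i t`, `β_i = 5 (e^(η i/5) - e^(η (i-1)/5))`, `α_i = e^(η(i-1)/5) - 1 - β_i (i-1)/5`. The sum over `w^((i-1)/5) < q ≤ w^(i/5)` is `≤ α_i log(i/(i-1)) + β_i/5 + O(1/log w)` for `i ≥ 2` (`α_i ≤ 0`: use the two-sided `mertA`)
and `≤ β_1/5 + O(1/log w)` for `i = 1` (`α_1 = 0`). Total `4.515`. Numerics: `e^(11/25)`, `e^(22/25)`, ... within `10^-3` (`Real.exp_bound'`, `Real.exp_one_gt_d9`), `log 2 ≥ .693`, `log(3/2) ≥ .405`, `log(4/3) ≥ .2876`, `log(5/4) ≥ .2231`.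
-/

namespace Pool.Agent.Lib.MP_42948a_nt.SV

open Finset Pool.Agent.Lib.MP_42948a_nt.OA Pool.Agent.Lib.MP_42948a_nt.OM

private theorem SV_B6_rpow {q : ℝ} (hq : 0 < q) (L : ℝ) :
    q ^ ((11 / 5 : ℝ) / L) = Real.exp (11 / 5 * (Real.log q / L)) := by
  rw [Real.rpow_def_of_pos hq]
  congr 1
  ring

private theorem SV_B6_chord (s t : ℝ) (h1 : s ≤ t) (h2 : t ≤ s + 1 / 5) :
    Real.exp (11 / 5 * t) ≤ Real.exp (11 / 5 * s) +
      5 * (t - s) * (Real.exp (11 / 5 * (s + 1 / 5)) - Real.exp (11 / 5 * s)) := by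
  have h := convexOn_exp.2 (Set.mem_univ (11 / 5 * s)) (Set.mem_univ (11 / 5 * (s + 1 / 5)))
    (show 0 ≤ 1 - 5 * (t - s) by linarith) (show 0 ≤ 5 * (t - s) by linarith) (by ring)
  rw [smul_eq_mul, smul_eq_mul, smul_eq_mul, smul_eq_mul] at h
  have h3 : (1 - 5 * (t - s)) * (11 / 5 * s) + 5 * (t - s) * (11 / 5 * (s + 1 / 5)) =
      11 / 5 * t := by ring
  rw [h3] at h
  linarith

private theorem SV_B6_split (f : ℕ → ℝ) (u v s : ℝ) (h1 : u ≤ v) (h2 : v ≤ s) :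
    ∑ p ∈ Pri u s, f p = ∑ p ∈ Pri u v, f p + ∑ p ∈ Pri v s, f p := by
  unfold Pri
  rw [Finset.sum_filter, Finset.sum_filter, Finset.sum_filter,
    Finset.sum_Ioc_consecutive _ (Nat.floor_le_floor h1) (Nat.floor_le_floor h2)]

private theorem SV_B6_sub (d w : ℕ) : Pw d w ⊆ Pri 1 w := by
  intro p hp
  rw [mem_Pw] at hp
  rw [mem_Pri zero_le_one]
  refine ⟨hp.2.1, ?_, ?_⟩
  · exact_mod_cast hp.2.1.one_lt
  · exact_mod_cast hp.1.le

private theorem SV_B6_nonneg (L : ℝ) (hL : 0 ≤ L) (q : ℕ) (hq : 1 ≤ q) :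
    0 ≤ ((q : ℝ) ^ ((11 / 5 : ℝ) / L) - 1) / q := by
  have h1 : (1 : ℝ) ≤ q := by exact_mod_cast hq
  refine div_nonneg ?_ (by linarith)
  have h2 : (1 : ℝ) ≤ (q : ℝ) ^ ((11 / 5 : ℝ) / L) := Real.one_le_rpow h1 (by positivity)
  linarith

private theorem SV_B6_all (d w : ℕ) (hw : 2 ≤ w) :
    ∑ q ∈ Pw d w, ((q : ℝ) ^ ((11 / 5 : ℝ) / Real.log w) - 1) / q ≤
      ∑ q ∈ Pri 1 w, ((q : ℝ) ^ ((11 / 5 : ℝ) / Real.log w) - 1) / q := by
  have hL : 0 ≤ Real.log w := Real.log_nonneg (by exact_mod_cast (show 1 ≤ w by omega))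
  refine Finset.sum_le_sum_of_subset_of_nonneg (SV_B6_sub d w) ?_
  intro q hq _
  rw [mem_Pri zero_le_one] at hq
  exact SV_B6_nonneg _ hL q hq.1.one_lt.le

theorem rsum_crude : ∃ C : ℝ, 0 ≤ C ∧ ∀ w : ℕ, 2 ≤ w → ∀ d : ℕ,
    ∑ q ∈ Pw d w, ((q : ℝ) ^ ((11 / 5 : ℝ) / Real.log w) - 1) / q ≤ C := by
  obtain ⟨C3, hC3, hB⟩ := mertB
  refine ⟨11 / 5 * Real.exp (11 / 5) * (1 + C3 / Real.log 2), ?_, ?_⟩
  · have : 0 < Real.log 2 := Real.log_pos (by norm_num)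
    positivity
  intro w hw d
  refine (SV_B6_all d w hw).trans ?_
  have hw2 : (2 : ℝ) ≤ w := by exact_mod_cast hw
  have hlog2 : 0 < Real.log 2 := Real.log_pos (by norm_num)
  have hL2 : Real.log 2 ≤ Real.log w := Real.log_le_log (by norm_num) hw2
  set L := Real.log w with hL
  have hL0 : 0 < L := by linarith
  have h1 : ∀ q ∈ Pri 1 w, ((q : ℝ) ^ ((11 / 5 : ℝ) / L) - 1) / q ≤
      11 / 5 * Real.exp (11 / 5) / L * (Real.log q / q) := by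
    intro q hq
    rw [mem_Pri zero_le_one] at hq
    have hq1 : (1 : ℝ) < q := hq.2.1
    have hq0 : (0 : ℝ) < q := by linarith
    have hlq : 0 ≤ Real.log q := Real.log_nonneg hq1.le
    have hlw : Real.log q ≤ L := Real.log_le_log hq0 hq.2.2
    rw [SV_B6_rpow hq0]
    set t := 11 / 5 * (Real.log q / L) with ht
    have ht0 : 0 ≤ t := by positivity
    have ht1 : t ≤ 11 / 5 := by
      have : Real.log q / L ≤ 1 := (div_le_one hL0).2 hlw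
      rw [ht]
      linarith
    have h2 : Real.exp t - 1 ≤ t * Real.exp t := by
      have h3 := Real.add_one_le_exp (-t)
      have h4 : Real.exp (-t) * Real.exp t = 1 := by
        rw [← Real.exp_add]
        simp
      have h5 := Real.exp_pos t
      nlinarith
    have h3 : t * Real.exp t ≤ t * Real.exp (11 / 5) :=
      mul_le_mul_of_nonneg_left (Real.exp_le_exp.2 ht1) ht0
    calc (Real.exp t - 1) / q ≤ t * Real.exp (11 / 5) / q :=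
          div_le_div_of_nonneg_right (h2.trans h3) hq0.le
      _ = 11 / 5 * Real.exp (11 / 5) / L * (Real.log q / q) := by
          rw [ht]
          ring
  refine (Finset.sum_le_sum h1).trans ?_
  rw [← Finset.mul_sum]
  have h2 := (abs_le.1 (hB 1 w le_rfl (by linarith))).2
  rw [Real.log_one, sub_zero, ← hL] at h2
  have h3 : ∑ p ∈ Pri 1 w, Real.log p / p ≤ L + C3 := by linarith
  have h4 : 11 / 5 * Real.exp (11 / 5) / L * ∑ p ∈ Pri 1 w, Real.log p / p ≤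
      11 / 5 * Real.exp (11 / 5) / L * (L + C3) := mul_le_mul_of_nonneg_left h3 (by positivity)
  refine h4.trans ?_
  have h5 : 11 / 5 * Real.exp (11 / 5) / L * (L + C3) =
      11 / 5 * Real.exp (11 / 5) * (1 + C3 / L) := by
    field_simp
  rw [h5]
  refine mul_le_mul_of_nonneg_left ?_ (by positivity)
  have h6 : C3 / L ≤ C3 / Real.log 2 := div_le_div_of_nonneg_left hC3 hlog2 hL2
  linarith

/-- one of the pieces `w ^ s < q ≤ w ^ (s + 1/5)` -/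
private theorem SV_B6_piece (C2 C3 : ℝ) (hC2 : 0 ≤ C2)
    (hA : ∀ u v : ℝ, 2 ≤ u → u ≤ v →
      |∑ p ∈ Pri u v, 1 / (p : ℝ) - Real.log (Real.log v / Real.log u)| ≤ C2 / Real.log u)
    (hB : ∀ u v : ℝ, 1 ≤ u → u ≤ v →
      |∑ p ∈ Pri u v, Real.log p / p - (Real.log v - Real.log u)| ≤ C3)
    (w s A B : ℝ) (hw : 1 < w) (hs : 1 / 5 ≤ s) (hw2 : 2 ≤ w ^ (1 / 5 : ℝ))
    (hA1 : Real.exp (11 / 5 * s) = A) (hB1 : Real.exp (11 / 5 * (s + 1 / 5)) = B)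
    (hAB : A ≤ B) (hα : 0 ≤ 5 * s * (B - A) + 1 - A) :
    ∑ q ∈ Pri (w ^ s) (w ^ (s + 1 / 5)), ((q : ℝ) ^ ((11 / 5 : ℝ) / Real.log w) - 1) / q ≤
      -(5 * s * (B - A) + 1 - A) * Real.log ((s + 1 / 5) / s) + (B - A) +
        ((5 * s * (B - A) + 1 - A) * (5 * C2) + 5 * (B - A) * C3) / Real.log w := by
  have hw0 : 0 < w := by linarith
  have hs0 : 0 < s := by linarith
  set L := Real.log w with hL
  have hL0 : 0 < L := Real.log_pos hw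
  have hu : w ^ (1 / 5 : ℝ) ≤ w ^ s := Real.rpow_le_rpow_of_exponent_le hw.le hs
  have huv : w ^ s ≤ w ^ (s + 1 / 5) := Real.rpow_le_rpow_of_exponent_le hw.le (by linarith)
  have hlu : Real.log (w ^ s) = s * L := by rw [Real.log_rpow hw0]
  have hlv : Real.log (w ^ (s + 1 / 5)) = (s + 1 / 5) * L := by rw [Real.log_rpow hw0]
  have h5 := hA (w ^ s) (w ^ (s + 1 / 5)) (by linarith) huv
  have h6 := hB (w ^ s) (w ^ (s + 1 / 5)) (by linarith) huv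
  rw [hlv, hlu] at h5 h6
  have h5' := (abs_le.1 h5).1
  have h6' := (abs_le.1 h6).2
  have h7 : (s + 1 / 5) * L / (s * L) = (s + 1 / 5) / s := mul_div_mul_right _ _ hL0.ne'
  rw [h7] at h5'
  have h8 : C2 / (s * L) ≤ 5 * C2 / L := by
    rw [div_le_div_iff₀ (by positivity) hL0]
    have : C2 * L ≤ (5 * s) * (C2 * L) := by
      refine le_mul_of_one_le_left (by positivity) (by linarith)
    linarith
  have h1 : ∀ q ∈ Pri (w ^ s) (w ^ (s + 1 / 5)), ((q : ℝ) ^ ((11 / 5 : ℝ) / L) - 1) / q ≤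
      -(5 * s * (B - A) + 1 - A) * (1 / (q : ℝ)) + 5 * (B - A) / L * (Real.log q / q) := by
    intro q hq
    rw [mem_Pri (by linarith)] at hq
    have hq0 : (0 : ℝ) < q := by linarith
    rw [SV_B6_rpow hq0]
    have ha : s ≤ Real.log q / L := by
      rw [le_div_iff₀ hL0, ← hlu]
      exact Real.log_le_log (by linarith) hq.2.1.le
    have hb : Real.log q / L ≤ s + 1 / 5 := by
      rw [div_le_iff₀ hL0, ← hlv]
      exact Real.log_le_log hq0 hq.2.2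
    have hc := SV_B6_chord s (Real.log q / L) ha hb
    rw [hA1, hB1] at hc
    calc (Real.exp (11 / 5 * (Real.log q / L)) - 1) / q ≤
          (A + 5 * (Real.log q / L - s) * (B - A) - 1) / q :=
          div_le_div_of_nonneg_right (by linarith) hq0.le
      _ = -(5 * s * (B - A) + 1 - A) * (1 / (q : ℝ)) +
            5 * (B - A) / L * (Real.log q / q) := by ring
  refine (Finset.sum_le_sum h1).trans ?_
  rw [Finset.sum_add_distrib, ← Finset.mul_sum, ← Finset.mul_sum]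
  have h9 : Real.log ((s + 1 / 5) / s) - 5 * C2 / L ≤
      ∑ p ∈ Pri (w ^ s) (w ^ (s + 1 / 5)), 1 / (p : ℝ) := by linarith
  have h10 : ∑ p ∈ Pri (w ^ s) (w ^ (s + 1 / 5)), Real.log p / p ≤ L / 5 + C3 := by linarith
  have h11 := mul_le_mul_of_nonneg_left h9 hα
  have h12 : 5 * (B - A) / L * ∑ p ∈ Pri (w ^ s) (w ^ (s + 1 / 5)), Real.log p / p ≤
      5 * (B - A) / L * (L / 5 + C3) :=
    mul_le_mul_of_nonneg_left h10 (div_nonneg (by linarith) hL0.le)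
  have h13 : 5 * (B - A) / L * (L / 5 + C3) = (B - A) + 5 * (B - A) * C3 / L := by
    field_simp
  have h14 : ((5 * s * (B - A) + 1 - A) * (5 * C2) + 5 * (B - A) * C3) / L =
      (5 * s * (B - A) + 1 - A) * (5 * C2 / L) + 5 * (B - A) * C3 / L := by
    ring
  rw [h14]
  rw [h13] at h12
  linarith

private theorem SV_B6_e : Real.exp (11 / 25) ≤ 15528 / 10000 := by
  have h1 : Real.exp (11 / 25) ^ 25 = Real.exp 1 ^ 11 := by
    rw [← Real.exp_nat_mul, ← Real.exp_nat_mul]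
    norm_num
  have h2 : Real.exp 1 ^ 11 ≤ (2.7182818286 : ℝ) ^ 11 :=
    pow_le_pow_left₀ (Real.exp_pos 1).le Real.exp_one_lt_d9.le 11
  have h3 : (2.7182818286 : ℝ) ^ 11 ≤ (15528 / 10000) ^ 25 := by norm_num
  exact (pow_le_pow_iff_left₀ (Real.exp_pos _).le (by norm_num) (by norm_num)).1
    (h1.le.trans (h2.trans h3))

private theorem SV_B6_log (x : ℝ) (m n : ℕ) (hn : n ≠ 0)
    (h : (2.7182818286 : ℝ) ^ m ≤ x ^ n) : (m : ℝ) / n ≤ Real.log x := by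
  have hn0 : (0 : ℝ) < n := by exact_mod_cast Nat.pos_of_ne_zero hn
  have h2 : Real.exp 1 ^ m ≤ (2.7182818286 : ℝ) ^ m :=
    pow_le_pow_left₀ (Real.exp_pos 1).le Real.exp_one_lt_d9.le m
  have h3 := Real.log_le_log (by positivity) (h2.trans h)
  rw [Real.log_pow, Real.log_pow, Real.log_exp, mul_one] at h3
  rw [div_le_iff₀ hn0]
  linarith

/-- the numerical part -/
private theorem SV_B6_num (e l2 l3 l4 l5 : ℝ) (he1 : 1 ≤ e) (he : e ≤ 15528 / 10000)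
    (h2 : 693 / 1000 ≤ l2) (h3 : 15 / 37 ≤ l3) (h4 : 23 / 80 ≤ l4) (h5 : 29 / 130 ≤ l5) :
    (e - 1) + (-(5 * (1 / 5) * (e ^ 2 - e) + 1 - e) * l2 + (e ^ 2 - e)) +
      (-(5 * (2 / 5) * (e ^ 3 - e ^ 2) + 1 - e ^ 2) * l3 + (e ^ 3 - e ^ 2)) +
      (-(5 * (3 / 5) * (e ^ 4 - e ^ 3) + 1 - e ^ 3) * l4 + (e ^ 4 - e ^ 3)) +
      (-(5 * (4 / 5) * (e ^ 5 - e ^ 4) + 1 - e ^ 4) * l5 + (e ^ 5 - e ^ 4)) ≤ 452 / 100 := by
  have he0 : 0 ≤ e := by linarith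
  have a2 : 0 ≤ 5 * (1 / 5) * (e ^ 2 - e) + 1 - e := by
    have : 5 * (1 / 5) * (e ^ 2 - e) + 1 - e = (e - 1) ^ 2 := by ring
    rw [this]
    positivity
  have a3 : 0 ≤ 5 * (2 / 5) * (e ^ 3 - e ^ 2) + 1 - e ^ 2 := by
    have : 5 * (2 / 5) * (e ^ 3 - e ^ 2) + 1 - e ^ 2 = (e - 1) ^ 2 * (2 * e + 1) := by ring
    rw [this]
    positivity
  have a4 : 0 ≤ 5 * (3 / 5) * (e ^ 4 - e ^ 3) + 1 - e ^ 3 := by
    have : 5 * (3 / 5) * (e ^ 4 - e ^ 3) + 1 - e ^ 3 =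
      (e - 1) ^ 2 * (3 * e ^ 2 + 2 * e + 1) := by ring
    rw [this]
    positivity
  have a5 : 0 ≤ 5 * (4 / 5) * (e ^ 5 - e ^ 4) + 1 - e ^ 4 := by
    have : 5 * (4 / 5) * (e ^ 5 - e ^ 4) + 1 - e ^ 4 =
      (e - 1) ^ 2 * (4 * e ^ 3 + 3 * e ^ 2 + 2 * e + 1) := by ring
    rw [this]
    positivity
  have b2 := mul_le_mul_of_nonneg_left h2 a2
  have b3 := mul_le_mul_of_nonneg_left h3 a3
  have b4 := mul_le_mul_of_nonneg_left h4 a4
  have b5 := mul_le_mul_of_nonneg_left h5 a5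
  have p2 : e ^ 2 ≤ (15528 / 10000) ^ 2 := pow_le_pow_left₀ he0 he 2
  have p3 : e ^ 3 ≤ (15528 / 10000) ^ 3 := pow_le_pow_left₀ he0 he 3
  have p4 : e ^ 4 ≤ (15528 / 10000) ^ 4 := pow_le_pow_left₀ he0 he 4
  have p5 : e ^ 5 ≤ (15528 / 10000) ^ 5 := pow_le_pow_left₀ he0 he 5
  norm_num at p2 p3 p4 p5
  linarith

theorem rsum_sharp : ∃ w0 : ℕ, 2 ≤ w0 ∧ ∀ w : ℕ, w0 ≤ w → ∀ d : ℕ,
    ∑ q ∈ Pw d w, ((q : ℝ) ^ ((11 / 5 : ℝ) / Real.log w) - 1) / q ≤ 91 / 20 := by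
  obtain ⟨C2, hC2, hA⟩ := mertA
  obtain ⟨C3, hC3, hB⟩ := mertB
  set e := Real.exp (11 / 25) with he
  have he1 : 1 ≤ e := Real.one_le_exp (by norm_num)
  have he0 : 0 ≤ e := by linarith
  have heu := SV_B6_e
  rw [← he] at heu
  set K : ℝ := 5 * (e - 1) * C3 +
    ((5 * (1 / 5) * (e ^ 2 - e) + 1 - e) * (5 * C2) + 5 * (e ^ 2 - e) * C3) +
    ((5 * (2 / 5) * (e ^ 3 - e ^ 2) + 1 - e ^ 2) * (5 * C2) + 5 * (e ^ 3 - e ^ 2) * C3) +
    ((5 * (3 / 5) * (e ^ 4 - e ^ 3) + 1 - e ^ 3) * (5 * C2) + 5 * (e ^ 4 - e ^ 3) * C3) +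
    ((5 * (4 / 5) * (e ^ 5 - e ^ 4) + 1 - e ^ 4) * (5 * C2) + 5 * (e ^ 5 - e ^ 4) * C3) with hK
  have ev : ∀ᶠ w : ℕ in Filter.atTop, K / (3 / 100) ≤ Real.log w :=
    (Real.tendsto_log_atTop.comp tendsto_natCast_atTop_atTop).eventually_ge_atTop _
  obtain ⟨w1, hw1⟩ := Filter.eventually_atTop.1 ev
  refine ⟨max 32 w1, by omega, ?_⟩
  intro w hw d
  have hw32 : 32 ≤ w := (le_max_left _ _).trans hw
  have hK1 := hw1 w ((le_max_right _ _).trans hw)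
  refine (SV_B6_all d w (by omega)).trans ?_
  have hwr : (32 : ℝ) ≤ w := by exact_mod_cast hw32
  have hw0 : (0 : ℝ) < w := by linarith
  have hw1' : (1 : ℝ) < w := by linarith
  have hw2 : (2 : ℝ) ≤ (w : ℝ) ^ (1 / 5 : ℝ) := by
    have h1 : ((2 : ℝ) ^ 5) ^ (1 / 5 : ℝ) ≤ (w : ℝ) ^ (1 / 5 : ℝ) :=
      Real.rpow_le_rpow (by norm_num) (by norm_num; exact hw32) (by norm_num)
    have h2 : ((2 : ℝ) ^ 5) ^ (1 / 5 : ℝ) = 2 := by
      rw [← Real.rpow_natCast, ← Real.rpow_mul (by norm_num)]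
      norm_num
    rwa [h2] at h1
  have hL0 : 0 < Real.log w := Real.log_pos hw1'
  have e1 : Real.exp (11 / 5 * (1 / 5)) = e := by rw [he]; norm_num
  have e2 : Real.exp (11 / 5 * (1 / 5 + 1 / 5)) = e ^ 2 := by
    rw [he, ← Real.exp_nat_mul]; norm_num
  have e3 : Real.exp (11 / 5 * (2 / 5 + 1 / 5)) = e ^ 3 := by
    rw [he, ← Real.exp_nat_mul]; norm_num
  have e4 : Real.exp (11 / 5 * (3 / 5 + 1 / 5)) = e ^ 4 := by
    rw [he, ← Real.exp_nat_mul]; norm_num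
  have e5 : Real.exp (11 / 5 * (4 / 5 + 1 / 5)) = e ^ 5 := by
    rw [he, ← Real.exp_nat_mul]; norm_num
  have e2' : Real.exp (11 / 5 * (2 / 5)) = e ^ 2 := by
    rw [he, ← Real.exp_nat_mul]; norm_num
  have e3' : Real.exp (11 / 5 * (3 / 5)) = e ^ 3 := by
    rw [he, ← Real.exp_nat_mul]; norm_num
  have e4' : Real.exp (11 / 5 * (4 / 5)) = e ^ 4 := by
    rw [he, ← Real.exp_nat_mul]; norm_num
  have a2 : 0 ≤ 5 * (1 / 5) * (e ^ 2 - e) + 1 - e := by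
    have : 5 * (1 / 5) * (e ^ 2 - e) + 1 - e = (e - 1) ^ 2 := by ring
    rw [this]
    positivity
  have a3 : 0 ≤ 5 * (2 / 5) * (e ^ 3 - e ^ 2) + 1 - e ^ 2 := by
    have : 5 * (2 / 5) * (e ^ 3 - e ^ 2) + 1 - e ^ 2 = (e - 1) ^ 2 * (2 * e + 1) := by ring
    rw [this]
    positivity
  have a4 : 0 ≤ 5 * (3 / 5) * (e ^ 4 - e ^ 3) + 1 - e ^ 3 := by
    have : 5 * (3 / 5) * (e ^ 4 - e ^ 3) + 1 - e ^ 3 =
      (e - 1) ^ 2 * (3 * e ^ 2 + 2 * e + 1) := by ring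
    rw [this]
    positivity
  have a5 : 0 ≤ 5 * (4 / 5) * (e ^ 5 - e ^ 4) + 1 - e ^ 4 := by
    have : 5 * (4 / 5) * (e ^ 5 - e ^ 4) + 1 - e ^ 4 =
      (e - 1) ^ 2 * (4 * e ^ 3 + 3 * e ^ 2 + 2 * e + 1) := by ring
    rw [this]
    positivity
  have m2 : e ≤ e ^ 2 := by nlinarith
  have m3 : e ^ 2 ≤ e ^ 3 := pow_le_pow_right₀ he1 (by norm_num)
  have m4 : e ^ 3 ≤ e ^ 4 := pow_le_pow_right₀ he1 (by norm_num)
  have m5 : e ^ 4 ≤ e ^ 5 := pow_le_pow_right₀ he1 (by norm_num)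
  have P2 := SV_B6_piece C2 C3 hC2 hA hB w (1 / 5) e (e ^ 2) hw1' le_rfl hw2 e1 e2 m2 a2
  have P3 := SV_B6_piece C2 C3 hC2 hA hB w (2 / 5) (e ^ 2) (e ^ 3) hw1' (by norm_num) hw2 e2' e3
    m3 a3
  have P4 := SV_B6_piece C2 C3 hC2 hA hB w (3 / 5) (e ^ 3) (e ^ 4) hw1' (by norm_num) hw2 e3' e4
    m4 a4
  have P5 := SV_B6_piece C2 C3 hC2 hA hB w (4 / 5) (e ^ 4) (e ^ 5) hw1' (by norm_num) hw2 e4' e5
    m5 a5
  have s2 : (1 / 5 + 1 / 5 : ℝ) = 2 / 5 := by norm_num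
  have s3 : (2 / 5 + 1 / 5 : ℝ) = 3 / 5 := by norm_num
  have s4 : (3 / 5 + 1 / 5 : ℝ) = 4 / 5 := by norm_num
  have s5 : (4 / 5 + 1 / 5 : ℝ) = 1 := by norm_num
  rw [s2] at P2
  rw [s3] at P3
  rw [s4] at P4
  rw [s5, Real.rpow_one] at P5
  have P1 : ∑ q ∈ Pri 1 ((w : ℝ) ^ (1 / 5 : ℝ)),
      ((q : ℝ) ^ ((11 / 5 : ℝ) / Real.log w) - 1) / q ≤ (e - 1) + 5 * (e - 1) * C3 / Real.log w := by
    have h1 : ∀ q ∈ Pri 1 ((w : ℝ) ^ (1 / 5 : ℝ)),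
        ((q : ℝ) ^ ((11 / 5 : ℝ) / Real.log w) - 1) / q ≤
        5 * (e - 1) / Real.log w * (Real.log q / q) := by
      intro q hq
      rw [mem_Pri zero_le_one] at hq
      have hq1 : (1 : ℝ) < q := hq.2.1
      have hq0 : (0 : ℝ) < q := by linarith
      rw [SV_B6_rpow hq0]
      have ha : 0 ≤ Real.log q / Real.log w := div_nonneg (Real.log_nonneg hq1.le) hL0.le
      have hb : Real.log q / Real.log w ≤ 0 + 1 / 5 := by
        rw [div_le_iff₀ hL0, zero_add, ← Real.log_rpow hw0]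
        exact Real.log_le_log hq0 hq.2.2
      have hc := SV_B6_chord 0 (Real.log q / Real.log w) ha hb
      rw [zero_add, e1, mul_zero, Real.exp_zero, sub_zero] at hc
      calc (Real.exp (11 / 5 * (Real.log q / Real.log w)) - 1) / q ≤
            (5 * (Real.log q / Real.log w) * (e - 1)) / q :=
            div_le_div_of_nonneg_right (by linarith) hq0.le
        _ = 5 * (e - 1) / Real.log w * (Real.log q / q) := by ring
    refine (Finset.sum_le_sum h1).trans ?_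
    rw [← Finset.mul_sum]
    have h2 := (abs_le.1 (hB 1 ((w : ℝ) ^ (1 / 5 : ℝ)) le_rfl (by linarith))).2
    rw [Real.log_one, sub_zero, Real.log_rpow hw0] at h2
    have h3 : ∑ p ∈ Pri 1 ((w : ℝ) ^ (1 / 5 : ℝ)), Real.log p / p ≤ Real.log w / 5 + C3 := by
      linarith
    have h4 := mul_le_mul_of_nonneg_left h3
      (show 0 ≤ 5 * (e - 1) / Real.log w from div_nonneg (by linarith) hL0.le)
    refine h4.trans (le_of_eq ?_)
    field_simp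
  have hsplit : ∑ q ∈ Pri 1 w, ((q : ℝ) ^ ((11 / 5 : ℝ) / Real.log w) - 1) / q =
      ∑ q ∈ Pri 1 ((w : ℝ) ^ (1 / 5 : ℝ)), ((q : ℝ) ^ ((11 / 5 : ℝ) / Real.log w) - 1) / q +
      (∑ q ∈ Pri ((w : ℝ) ^ (1 / 5 : ℝ)) ((w : ℝ) ^ (2 / 5 : ℝ)),
        ((q : ℝ) ^ ((11 / 5 : ℝ) / Real.log w) - 1) / q +
      (∑ q ∈ Pri ((w : ℝ) ^ (2 / 5 : ℝ)) ((w : ℝ) ^ (3 / 5 : ℝ)),
        ((q : ℝ) ^ ((11 / 5 : ℝ) / Real.log w) - 1) / q +
      (∑ q ∈ Pri ((w : ℝ) ^ (3 / 5 : ℝ)) ((w : ℝ) ^ (4 / 5 : ℝ)),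
        ((q : ℝ) ^ ((11 / 5 : ℝ) / Real.log w) - 1) / q +
      ∑ q ∈ Pri ((w : ℝ) ^ (4 / 5 : ℝ)) w,
        ((q : ℝ) ^ ((11 / 5 : ℝ) / Real.log w) - 1) / q))) := by
    have hle : ∀ a b : ℝ, a ≤ b → (w : ℝ) ^ a ≤ (w : ℝ) ^ b := fun a b hab =>
      Real.rpow_le_rpow_of_exponent_le hw1'.le hab
    have hle1 : ∀ a : ℝ, a ≤ 1 → (w : ℝ) ^ a ≤ (w : ℝ) := fun a ha => by
      have := hle a 1 ha
      rwa [Real.rpow_one] at this
    rw [← SV_B6_split _ _ _ _ (hle (3 / 5) (4 / 5) (by norm_num)) (hle1 (4 / 5) (by norm_num)),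
      ← SV_B6_split _ _ _ _ (hle (2 / 5) (3 / 5) (by norm_num)) (hle1 (3 / 5) (by norm_num)),
      ← SV_B6_split _ _ _ _ (hle (1 / 5) (2 / 5) (by norm_num)) (hle1 (2 / 5) (by norm_num)),
      ← SV_B6_split _ _ _ _ (by linarith) (hle1 (1 / 5) (by norm_num))]
  rw [hsplit]
  have l2 : (2 / 5 / (1 / 5) : ℝ) = 2 := by norm_num
  have l3 : (3 / 5 / (2 / 5) : ℝ) = 3 / 2 := by norm_num
  have l4 : (4 / 5 / (3 / 5) : ℝ) = 4 / 3 := by norm_num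
  have l5 : (1 / (4 / 5) : ℝ) = 5 / 4 := by norm_num
  rw [l2] at P2
  rw [l3] at P3
  rw [l4] at P4
  rw [l5] at P5
  have g2 : (693 / 1000 : ℝ) ≤ Real.log 2 := by
    have := Real.log_two_gt_d9
    linarith
  have g3 : (15 / 37 : ℝ) ≤ Real.log (3 / 2) := by
    have := SV_B6_log (3 / 2) 15 37 (by norm_num) (by norm_num)
    push_cast at this
    exact this
  have g4 : (23 / 80 : ℝ) ≤ Real.log (4 / 3) := by
    have := SV_B6_log (4 / 3) 23 80 (by norm_num) (by norm_num)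
    push_cast at this
    exact this
  have g5 : (29 / 130 : ℝ) ≤ Real.log (5 / 4) := by
    have := SV_B6_log (5 / 4) 29 130 (by norm_num) (by norm_num)
    push_cast at this
    exact this
  have N := SV_B6_num e _ _ _ _ he1 heu g2 g3 g4 g5
  have hK2 : K / Real.log w ≤ 3 / 100 := by
    rw [div_le_iff₀ (by norm_num)] at hK1
    rw [div_le_iff₀ hL0]
    linarith
  have hK3 : K / Real.log w = 5 * (e - 1) * C3 / Real.log w +
    ((5 * (1 / 5) * (e ^ 2 - e) + 1 - e) * (5 * C2) + 5 * (e ^ 2 - e) * C3) / Real.log w +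
    ((5 * (2 / 5) * (e ^ 3 - e ^ 2) + 1 - e ^ 2) * (5 * C2) + 5 * (e ^ 3 - e ^ 2) * C3) /
      Real.log w +
    ((5 * (3 / 5) * (e ^ 4 - e ^ 3) + 1 - e ^ 3) * (5 * C2) + 5 * (e ^ 4 - e ^ 3) * C3) /
      Real.log w +
    ((5 * (4 / 5) * (e ^ 5 - e ^ 4) + 1 - e ^ 4) * (5 * C2) + 5 * (e ^ 5 - e ^ 4) * C3) /
      Real.log w := by
    rw [hK]
    ring
  linarith

end Pool.Agent.Lib.MP_42948a_nt.SV
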