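import Pool.Agent.Lib.MP_42948a_nt.SV.Defs

/-!
# The products `Vd` (job B7)

`Vd_upper`: `Vd d w = ∏_{p<w} (1-1/p)/∏_{p<w, p ∣ d} (1-1/p)`, the numerator is `≤ 1/log(w-1)` (`PS.harm` with `z = w - 1`, `PP z` = primes `≤ z`), and `∏_{p<w, p ∣ d} (1-1/p)⁻¹ ≤ ∏_{p ∣ d} (1-1/p)⁻¹ = d/φ d`
(`Nat.totient_eq_mul_prod_factors`). `Vd_lower_of`: the same from below: `∏_{p ∣ d, p < w} (1-1/p) = (φ d/d)/∏_{p ∣ d, p ≥ w} (1-1/p)` and `∏_{p ∣ d, p ≥ w} (1-1/p) ≥ 1 - #{p ∣ d, p ≥ w}/w ≥ 1 - (log d/log 2)/w` (`2^k ≤ d`).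
`Vd_tel`: induction on `w` (`Vd d (w+1) = Vd d w (1-1/w)` if `w` is a prime not dividing `d`).
-/

namespace Pool.Agent.Lib.MP_42948a_nt.SV

open Finset Pool.Agent.Lib.MP_42948a_nt.OA Pool.Agent.Lib.MP_42948a_nt.OM

private lemma B7_succ_of {d w : ℕ} (h : w.Prime ∧ ¬ w ∣ d) : Pw d (w + 1) = insert w (Pw d w) := by
  ext p
  rw [mem_insert, mem_Pw, mem_Pw]
  constructor
  · rintro ⟨h1, h2⟩
    rcases Nat.lt_succ_iff_lt_or_eq.mp h1 with h3 | h3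
    · exact Or.inr ⟨h3, h2⟩
    · exact Or.inl h3
  · rintro (h1 | ⟨h1, h2⟩)
    · rw [h1]
      exact ⟨Nat.lt_succ_self w, h⟩
    · exact ⟨Nat.lt_succ_of_lt h1, h2⟩

private lemma B7_succ_not {d w : ℕ} (h : ¬ (w.Prime ∧ ¬ w ∣ d)) : Pw d (w + 1) = Pw d w := by
  ext p
  rw [mem_Pw, mem_Pw]
  constructor
  · rintro ⟨h1, h2⟩
    rcases Nat.lt_succ_iff_lt_or_eq.mp h1 with h3 | h3
    · exact ⟨h3, h2⟩
    · rw [h3] at h2
      exact absurd h2 h
  · rintro ⟨h1, h2⟩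
    exact ⟨Nat.lt_succ_of_lt h1, h2⟩

private lemma B7_fac {p : ℕ} (hp : p.Prime) : 0 < 1 - 1 / (p : ℝ) ∧ 1 - 1 / (p : ℝ) ≤ 1 := by
  have hp2 : (2 : ℝ) ≤ p := by exact_mod_cast hp.two_le
  have h1 : 1 / (p : ℝ) ≤ 1 / 2 := one_div_le_one_div_of_le (by norm_num) hp2
  have h2 : 0 ≤ 1 / (p : ℝ) := by positivity
  exact ⟨by linarith, by linarith⟩

/-- the primes `< w` dividing `d` -/
private def B7B (d w : ℕ) : Finset ℕ := (PP (w - 1)).filter (fun p => p ∣ d)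

/-- the primes `≥ w` dividing `d` -/
private def B7C (d w : ℕ) : Finset ℕ := d.primeFactors.filter (fun p => w ≤ p)

private lemma B7_memB {d w p : ℕ} : p ∈ B7B d w ↔ (1 ≤ p ∧ p ≤ w - 1) ∧ p.Prime ∧ p ∣ d := by
  unfold B7B PP
  rw [mem_filter, mem_filter, mem_Icc, and_assoc]

private lemma B7_PP {d w : ℕ} (hw : 1 ≤ w) :
    ∏ p ∈ PP (w - 1), (1 - 1 / (p : ℝ)) = (∏ p ∈ B7B d w, (1 - 1 / (p : ℝ))) * Vd d w := by
  have h1 := prod_filter_mul_prod_filter_not (PP (w - 1)) (fun p => p ∣ d)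
    (fun p : ℕ => 1 - 1 / (p : ℝ))
  have h2 : (PP (w - 1)).filter (fun p => ¬ p ∣ d) = Pw d w := by
    ext p
    unfold PP
    rw [mem_filter, mem_filter, mem_Icc, mem_Pw]
    constructor
    · rintro ⟨⟨⟨h1, h2⟩, h3⟩, h4⟩
      exact ⟨by omega, h3, h4⟩
    · rintro ⟨h1, h2, h3⟩
      have := h2.one_le
      exact ⟨⟨⟨this, by omega⟩, h2⟩, h3⟩
  rw [h2] at h1
  exact h1.symm

private lemma B7_phi {d : ℕ} (hd : 1 ≤ d) (w : ℕ) :
    (d.totient : ℝ) / d = (∏ p ∈ B7B d w, (1 - 1 / (p : ℝ))) *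
      ∏ p ∈ B7C d w, (1 - 1 / (p : ℝ)) := by
  have h := congrArg (fun q : ℚ => (q : ℝ)) (Nat.totient_eq_mul_prod_factors d)
  push_cast at h
  have hd0 : (d : ℝ) ≠ 0 := by
    have : (1 : ℝ) ≤ d := by exact_mod_cast hd
    linarith
  have h1 : (d.totient : ℝ) / d = ∏ p ∈ d.primeFactors, (1 - 1 / (p : ℝ)) := by
    rw [h, mul_div_cancel_left₀ _ hd0]
    exact prod_congr rfl fun p _ => by rw [one_div]
  have h2 := prod_filter_mul_prod_filter_not d.primeFactors (fun p => w ≤ p)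
    (fun p : ℕ => 1 - 1 / (p : ℝ))
  have h3 : d.primeFactors.filter (fun p => ¬ w ≤ p) = B7B d w := by
    ext p
    rw [mem_filter, Nat.mem_primeFactors, B7_memB]
    constructor
    · rintro ⟨⟨h1, h2, h3⟩, h4⟩
      exact ⟨⟨h1.one_le, by omega⟩, h1, h2⟩
    · rintro ⟨⟨h1, h2⟩, h3, h4⟩
      exact ⟨⟨h3, h4, by omega⟩, by omega⟩
  rw [h3] at h2
  rw [h1, ← h2, mul_comm]
  rfl

private lemma B7_Bpos (d w : ℕ) : 0 < ∏ p ∈ B7B d w, (1 - 1 / (p : ℝ)) :=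
  prod_pos fun p hp => (B7_fac (B7_memB.mp hp).2.1).1

private lemma B7_Cpr {d w p : ℕ} (hp : p ∈ B7C d w) : p.Prime ∧ w ≤ p ∧ p ∈ d.primeFactors := by
  unfold B7C at hp
  rw [mem_filter] at hp
  exact ⟨(Nat.mem_primeFactors.mp hp.1).1, hp.2, hp.1⟩

private lemma B7_Cpos (d w : ℕ) : 0 < ∏ p ∈ B7C d w, (1 - 1 / (p : ℝ)) :=
  prod_pos fun p hp => (B7_fac (B7_Cpr hp).1).1

private lemma B7_Cle (d w : ℕ) : ∏ p ∈ B7C d w, (1 - 1 / (p : ℝ)) ≤ 1 :=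
  prod_le_one (fun p hp => (B7_fac (B7_Cpr hp).1).1.le) fun p hp => (B7_fac (B7_Cpr hp).1).2

private lemma B7_weier (s : Finset ℕ) (f : ℕ → ℝ) (h0 : ∀ i ∈ s, 0 ≤ f i) (h1 : ∀ i ∈ s, f i ≤ 1) :
    1 - ∑ i ∈ s, f i ≤ ∏ i ∈ s, (1 - f i) := by
  classical
  induction s using Finset.induction_on with
  | empty => simp
  | insert a s ha ih =>
    rw [sum_insert ha, prod_insert ha]
    have h2 := ih (fun i hi => h0 i (mem_insert_of_mem hi)) (fun i hi => h1 i (mem_insert_of_mem hi))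
    have h3 := h0 a (mem_insert_self a s)
    have h4 := h1 a (mem_insert_self a s)
    have h5 : 0 ≤ ∑ i ∈ s, f i := sum_nonneg fun i hi => h0 i (mem_insert_of_mem hi)
    have h6 := mul_le_mul_of_nonneg_left h2 (show 0 ≤ 1 - f a by linarith)
    have h7 := mul_nonneg h3 h5
    linarith

private lemma B7_Clow {d : ℕ} (hd : 1 ≤ d) {w : ℕ} (hw : 1 ≤ w) :
    1 - Real.log d / Real.log 2 / w ≤ ∏ p ∈ B7C d w, (1 - 1 / (p : ℝ)) := by
  have hw1 : (1 : ℝ) ≤ w := by exact_mod_cast hw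
  have hl2 : 0 < Real.log 2 := Real.log_pos (by norm_num)
  have h1 := B7_weier (B7C d w) (fun p : ℕ => 1 / (p : ℝ)) (fun p _ => by positivity)
    (fun p hp => by
      have := (B7_fac (B7_Cpr hp).1).1
      linarith)
  have h2 : ∑ p ∈ B7C d w, 1 / (p : ℝ) ≤ (B7C d w).card / (w : ℝ) := by
    have h3 : ∑ p ∈ B7C d w, 1 / (p : ℝ) ≤ ∑ p ∈ B7C d w, 1 / (w : ℝ) := by
      refine sum_le_sum fun p hp => ?_
      refine one_div_le_one_div_of_le (by linarith) ?_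
      exact_mod_cast (B7_Cpr hp).2.1
    rw [sum_const, nsmul_eq_mul, mul_one_div] at h3
    exact h3
  have h3 : (2 : ℕ) ^ (B7C d w).card ≤ d := by
    have h4 : (2 : ℕ) ^ (B7C d w).card ≤ ∏ p ∈ B7C d w, p := by
      rw [← prod_const]
      exact prod_le_prod' fun p hp => (B7_Cpr hp).1.two_le
    have h5 : ∏ p ∈ B7C d w, p ∣ ∏ p ∈ d.primeFactors, p :=
      prod_dvd_prod_of_subset _ _ _ fun p hp => (B7_Cpr hp).2.2
    exact h4.trans (Nat.le_of_dvd (by omega) (h5.trans (Nat.prod_primeFactors_dvd d)))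
  have h4 : ((B7C d w).card : ℝ) ≤ Real.log d / Real.log 2 := by
    rw [le_div_iff₀ hl2, ← Real.log_pow]
    refine Real.log_le_log (by positivity) ?_
    exact_mod_cast h3
  have h5 : ((B7C d w).card : ℝ) / w ≤ Real.log d / Real.log 2 / w :=
    div_le_div_of_nonneg_right h4 (by linarith)
  linarith

theorem Vd_upper {d : ℕ} (hd : 1 ≤ d) (w : ℕ) (hw : 3 ≤ w) :
    Vd d w ≤ (d : ℝ) / d.totient / Real.log ((w : ℝ) - 1) := by
  have h1 := B7_PP (d := d) (show 1 ≤ w by omega)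
  have h2 := B7_phi hd w
  have hB := B7_Bpos d w
  have hC := B7_Cle d w
  have hV := Vd_pos d w
  have hh := PS.harm (w - 1) (by omega)
  have hcast : ((w - 1 : ℕ) : ℝ) = (w : ℝ) - 1 := by
    rw [Nat.cast_sub (by omega), Nat.cast_one]
  rw [hcast, h1] at hh
  have hd0 : (0 : ℝ) < d := by exact_mod_cast hd
  have ht0 : (0 : ℝ) < d.totient := by exact_mod_cast Nat.totient_pos.mpr hd
  have hw3 : (3 : ℝ) ≤ w := by exact_mod_cast hw
  have hl : 0 < Real.log ((w : ℝ) - 1) := Real.log_pos (by linarith)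
  have h3 : (d.totient : ℝ) / d ≤ ∏ p ∈ B7B d w, (1 - 1 / (p : ℝ)) := by
    rw [h2]
    have := mul_le_mul_of_nonneg_left hC hB.le
    linarith
  have h4 : (d.totient : ℝ) / d * Vd d w ≤ 1 / Real.log ((w : ℝ) - 1) :=
    (mul_le_mul_of_nonneg_right h3 hV.le).trans hh
  have h5 : Vd d w = (d : ℝ) / d.totient * ((d.totient : ℝ) / d * Vd d w) := by
    field_simp
  rw [h5, div_eq_mul_one_div ((d : ℝ) / d.totient)]
  exact mul_le_mul_of_nonneg_left h4 (by positivity)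

theorem Vd_lower_of {d : ℕ} (hd : 1 ≤ d) (w : ℕ) (hw : 1 ≤ w) :
    (d : ℝ) / d.totient * (∏ p ∈ PP (w - 1), (1 - 1 / (p : ℝ))) * (1 - Real.log d / Real.log 2 / w) ≤ Vd d w := by
  have h1 := B7_PP (d := d) hw
  have h2 := B7_phi hd w
  have hB := B7_Bpos d w
  have hC := B7_Cpos d w
  have hV := Vd_pos d w
  have h3 := B7_Clow hd hw
  have hd0 : (0 : ℝ) < d := by exact_mod_cast hd
  have ht0 : (0 : ℝ) < d.totient := by exact_mod_cast Nat.totient_pos.mpr hd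
  have h4 : (d : ℝ) / d.totient = 1 / ((∏ p ∈ B7B d w, (1 - 1 / (p : ℝ))) *
      ∏ p ∈ B7C d w, (1 - 1 / (p : ℝ))) := by
    rw [← h2, one_div_div]
  rw [h1, h4]
  have h5 : 1 / ((∏ p ∈ B7B d w, (1 - 1 / (p : ℝ))) * ∏ p ∈ B7C d w, (1 - 1 / (p : ℝ))) *
      ((∏ p ∈ B7B d w, (1 - 1 / (p : ℝ))) * Vd d w) * (1 - Real.log d / Real.log 2 / w) =
      Vd d w * ((1 - Real.log d / Real.log 2 / w) / ∏ p ∈ B7C d w, (1 - 1 / (p : ℝ))) := by
    field_simp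
  rw [h5]
  have h6 : (1 - Real.log d / Real.log 2 / w) / ∏ p ∈ B7C d w, (1 - 1 / (p : ℝ)) ≤ 1 :=
    (div_le_one hC).mpr h3
  have h7 := mul_le_mul_of_nonneg_left h6 hV.le
  linarith

theorem Vd_tel (d w : ℕ) : 1 - ∑ p ∈ Pw d w, Vd d p / p = Vd d w := by
  induction w with
  | zero =>
    have h : Pw d 0 = ∅ := by
      ext p
      rw [mem_Pw]
      constructor
      · rintro ⟨h1, _⟩
        exact absurd h1 (Nat.not_lt_zero p)
      · intro h1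
        exact absurd h1 (notMem_empty p)
    unfold Vd
    rw [h, sum_empty, prod_empty, sub_zero]
  | succ w ih =>
    by_cases h : w.Prime ∧ ¬ w ∣ d
    · have h1 : w ∉ Pw d w := fun h2 => absurd (mem_Pw.mp h2).1 (lt_irrefl w)
      have h2 : Vd d (w + 1) = (1 - 1 / (w : ℝ)) * Vd d w := by
        unfold Vd
        rw [B7_succ_of h, prod_insert h1]
      rw [B7_succ_of h, sum_insert h1, h2]
      have h3 : Vd d w / (w : ℝ) = 1 / (w : ℝ) * Vd d w := by ring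
      rw [h3]
      linarith
    · have h2 : Vd d (w + 1) = Vd d w := by
        unfold Vd
        rw [B7_succ_not h]
      rw [B7_succ_not h, h2]
      exact ih

end Pool.Agent.Lib.MP_42948a_nt.SV
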