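import Pool.Agent.Lib.MP_42948a_nt.SV.D1

/-!
# The Laplace transform, from below (job D3a)

`Al t := Al ⌊e^t⌋₊`. `p^(-η) ≥ p^(-η) - N^(-η) = ∫_{log p}^{log N} η e^(-η t) dt`, so
`∑_{p ≤ N} α_p p^(-η) ≥ ∫_0^{log N} η e^(-ηt) Al ⌊e^t⌋₊ dt ≥ ∫_1^{log N} η e^(-ηt) Al ⌊e^t⌋₊ dt` (finite sum of integrals of indicator functions; `Al ≥ 0`). For `t ≥ 1`, `n = ⌊e^t⌋₊ ≥ 2`: `t - 1 ≤ log(e^t - 1) ≤ log n ≤ t`, more precisely
`log n ≥ t - 2 e^(-t)` (`-log(1-s) ≤ 2 s`... for `s = e^(-t) ≤ 1/2`), so `log log n ≥ log t - K/t`, and `log n ≥ t/4`. By the hypothesis `Al n ≥ log t + c - K'/t`. (Here `C` may be replaced by any constant `K'` depending on `C`.)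
-/

namespace Pool.Agent.Lib.MP_42948a_nt.SV

open Finset Pool.Agent.Lib.MP_42948a_nt.OA Pool.Agent.Lib.MP_42948a_nt.OM

private theorem SV_D3a_alpha {p : ℕ} (hp : p.Prime) : 0 ≤ -Real.log (1 - 1 / (p : ℝ)) := by
  have hp2 : (2 : ℝ) ≤ p := by exact_mod_cast hp.two_le
  have h1 : 1 / (p : ℝ) ≤ 1 / 2 := one_div_le_one_div_of_le (by norm_num) hp2
  have h2 : 0 < 1 / (p : ℝ) := by positivity
  have h3 := Real.log_nonpos (x := 1 - 1 / (p : ℝ)) (by linarith) (by linarith)
  linarith

/-- pointwise bound for `Al ⌊e^t⌋₊` -/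
private theorem SV_D3a_point (c C : ℝ) (hC : 0 ≤ C)
    (h : ∀ N : ℕ, 2 ≤ N → |Al N - Real.log (Real.log N) - c| ≤ C / Real.log N) {t : ℝ} (ht : 1 ≤ t) :
    Real.log t + c - (2 + 2 * C) / t ≤ Al ⌊Real.exp t⌋₊ := by
  set n := ⌊Real.exp t⌋₊ with hn
  have h2 : 2 ≤ n := by
    refine Nat.le_floor ?_
    have h3 := Real.add_one_le_exp t
    push_cast
    linarith
  have hn2 : (2 : ℝ) ≤ n := by exact_mod_cast h2
  have hn0 : (0 : ℝ) < n := by linarith
  have h4 : Real.exp t < (n : ℝ) + 1 := Nat.lt_floor_add_one _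
  set y := Real.log n with hy
  have hy1 : t ≤ 2 * y := by
    have h5 : Real.exp t ≤ (n : ℝ) ^ 2 := by nlinarith
    have h6 := Real.log_le_log (Real.exp_pos t) h5
    rw [Real.log_exp, Real.log_pow] at h6
    push_cast at h6
    exact h6
  have hy2 : t ≤ 1 + y := by
    have h5 : Real.exp t ≤ Real.exp 1 * (n : ℝ) := by
      have h7 := Real.add_one_le_exp (1 : ℝ)
      nlinarith
    have h6 := Real.log_le_log (Real.exp_pos t) h5
    rw [Real.log_exp, Real.log_mul (Real.exp_pos 1).ne' hn0.ne', Real.log_exp] at h6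
    exact h6
  have hy0 : 0 < y := by linarith
  have ht0 : 0 < t := by linarith
  have h8 := (abs_le.1 (h n h2)).1
  rw [← hy] at h8
  have h9 : C / y ≤ 2 * C / t := by
    rw [div_le_div_iff₀ hy0 ht0]
    nlinarith
  have h10 : Real.log t - Real.log y ≤ 2 / t := by
    rw [← Real.log_div ht0.ne' hy0.ne']
    have h11 := Real.log_le_sub_one_of_pos (div_pos ht0 hy0)
    have h12 : t / y - 1 ≤ 2 / t := by
      have h13 : t / y - 1 = (t - y) / y := by
        field_simp
      rw [h13, div_le_div_iff₀ hy0 ht0]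
      nlinarith
    linarith
  have h14 : (2 + 2 * C) / t = 2 / t + 2 * C / t := by ring
  rw [h14]
  linarith

/-- the indicator function of `[log p, ∞)` times `η e^(-η t)` -/
private noncomputable def SV_D3a_g (η : ℝ) (p : ℕ) (t : ℝ) : ℝ :=
  if Real.log p ≤ t then η * Real.exp (-(η * t)) else 0

private theorem SV_D3a_cont (η : ℝ) : Continuous fun t : ℝ => η * Real.exp (-(η * t)) := by
  fun_prop

private theorem SV_D3a_int (η : ℝ) (p : ℕ) {a b : ℝ} (hab : a ≤ b) :
    IntervalIntegrable (SV_D3a_g η p) MeasureTheory.volume a b := by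
  have h1 : SV_D3a_g η p = Set.indicator (Set.Ici (Real.log p)) (fun t => η * Real.exp (-(η * t))) := by
    funext t
    unfold SV_D3a_g Set.indicator
    rfl
  rw [h1, intervalIntegrable_iff_integrableOn_Ioc_of_le hab]
  have h2 : MeasureTheory.IntegrableOn (fun t : ℝ => η * Real.exp (-(η * t))) (Set.Ioc a b) :=
    (intervalIntegrable_iff_integrableOn_Ioc_of_le hab).1 ((SV_D3a_cont η).intervalIntegrable a b)
  exact MeasureTheory.Integrable.indicator h2 measurableSet_Ici

private theorem SV_D3a_exp {η : ℝ} (hη : 0 < η) (a b : ℝ) :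
    ∫ t in a..b, η * Real.exp (-(η * t)) = Real.exp (-(η * a)) - Real.exp (-(η * b)) := by
  have h1 : ∀ t ∈ Set.uIcc a b, HasDerivAt (fun t : ℝ => -Real.exp (-(η * t)))
      (η * Real.exp (-(η * t))) t := by
    intro t _
    have h2 : HasDerivAt (fun t : ℝ => -(η * t)) (-η) t := by
      have h3 := ((hasDerivAt_id t).const_mul (-η))
      simp only [mul_one] at h3
      refine h3.congr_of_eventuallyEq (Filter.Eventually.of_forall fun y => ?_)
      change -(η * y) = -η * y
      ring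
    have h4 := (h2.exp).neg
    have h5 : -(Real.exp (-(η * t)) * -η) = η * Real.exp (-(η * t)) := by ring
    rw [← h5]
    exact h4
  rw [intervalIntegral.integral_eq_sub_of_hasDerivAt h1 ((SV_D3a_cont η).intervalIntegrable a b)]
  ring

private theorem SV_D3a_ind {η : ℝ} (hη : 0 < η) {N p : ℕ} (hN : 3 ≤ N) (hp : p.Prime) (hpN : p ≤ N) :
    ∫ t in (1 : ℝ)..(Real.log N), SV_D3a_g η p t ≤ (p : ℝ) ^ (-η) := by
  have hp0 : (0 : ℝ) < p := by exact_mod_cast hp.pos
  have hlogN : 1 ≤ Real.log N := by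
    rw [Real.le_log_iff_exp_le (by positivity)]
    have h1 : (3 : ℝ) ≤ N := by exact_mod_cast hN
    have h2 := Real.exp_one_lt_d9
    linarith
  have hlogp : Real.log p ≤ Real.log N :=
    Real.log_le_log hp0 (by exact_mod_cast hpN)
  set a := max 1 (Real.log p) with ha
  have ha1 : 1 ≤ a := le_max_left _ _
  have ha2 : a ≤ Real.log N := max_le hlogN hlogp
  rw [← intervalIntegral.integral_add_adjacent_intervals (SV_D3a_int η p ha1) (SV_D3a_int η p ha2)]
  have h1 : ∫ t in (1 : ℝ)..a, SV_D3a_g η p t ≤ 0 := by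
    rcases le_total (Real.log p) 1 with hc | hc
    · have : a = 1 := max_eq_left hc
      rw [this, intervalIntegral.integral_same]
    · have hae : a = Real.log p := max_eq_right hc
      have h2 : ∫ t in (1 : ℝ)..a, SV_D3a_g η p t = ∫ t in (1 : ℝ)..a, (0 : ℝ) := by
        refine intervalIntegral.integral_congr_ae ?_
        have h3 : ∀ᵐ t : ℝ ∂MeasureTheory.volume, t ≠ a :=
          MeasureTheory.Measure.ae_ne MeasureTheory.volume a
        filter_upwards [h3] with t ht hta
        rw [Set.uIoc_of_le ha1] at hta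
        have h4 : t < Real.log p := by
          rw [← hae]
          exact lt_of_le_of_ne hta.2 ht
        unfold SV_D3a_g
        rw [if_neg (not_le.2 h4)]
      rw [h2]
      simp
  have h5 : ∫ t in a..(Real.log N), SV_D3a_g η p t = Real.exp (-(η * a)) - Real.exp (-(η * Real.log N)) := by
    rw [← SV_D3a_exp hη]
    refine intervalIntegral.integral_congr fun t ht => ?_
    rw [Set.uIcc_of_le ha2] at ht
    unfold SV_D3a_g
    rw [if_pos ((le_max_right _ _).trans ht.1)]
  have h6 : Real.exp (-(η * a)) ≤ (p : ℝ) ^ (-η) := by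
    rw [Real.rpow_def_of_pos hp0]
    refine Real.exp_le_exp.2 ?_
    have h7 : Real.log p ≤ a := le_max_right _ _
    nlinarith
  have h8 := Real.exp_pos (-(η * Real.log N))
  rw [h5]
  linarith

open MeasureTheory in
theorem laplace_lower (c C : ℝ) (hC : 0 ≤ C)
    (h : ∀ N : ℕ, 2 ≤ N → |Al N - Real.log (Real.log N) - c| ≤ C / Real.log N) :
    ∃ K : ℝ, 0 ≤ K ∧ ∀ η : ℝ, 0 < η → ∀ N : ℕ, 3 ≤ N →
      ∫ t in (1 : ℝ)..(Real.log N), η * Real.exp (-(η * t)) * (Real.log t + c - K / t) ≤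
        ∑ p ∈ PP N, -Real.log (1 - 1 / (p : ℝ)) * (p : ℝ) ^ (-η) := by
  refine ⟨2 + 2 * C, by positivity, fun η hη N hN => ?_⟩
  have hN3 : (3 : ℝ) ≤ N := by exact_mod_cast hN
  have hlogN : 1 ≤ Real.log N := by
    rw [Real.le_log_iff_exp_le (by positivity)]
    have h2 := Real.exp_one_lt_d9
    linarith
  have hPP : ∀ (M p : ℕ), p ∈ PP M ↔ p.Prime ∧ p ≤ M := by
    intro M p
    unfold PP
    rw [mem_filter, mem_Icc]
    exact ⟨fun hp => ⟨hp.2, hp.1.2⟩, fun hp => ⟨⟨hp.1.one_le, hp.2⟩, hp.1⟩⟩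
  set G : ℝ → ℝ := fun t => ∑ p ∈ PP N, -Real.log (1 - 1 / (p : ℝ)) * SV_D3a_g η p t with hG
  have hGint : IntervalIntegrable G volume 1 (Real.log N) := by
    have h1 : G = ∑ p ∈ PP N, fun t => -Real.log (1 - 1 / (p : ℝ)) * SV_D3a_g η p t := by
      funext t
      rw [hG, Finset.sum_apply]
    rw [h1]
    exact IntervalIntegrable.sum _ fun p _ => (SV_D3a_int η p hlogN).const_mul _
  have hcont : ContinuousOn (fun t : ℝ => η * Real.exp (-(η * t)) *
      (Real.log t + c - (2 + 2 * C) / t)) (Set.uIcc 1 (Real.log N)) := by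
    rw [Set.uIcc_of_le hlogN]
    have hne : ∀ t ∈ Set.Icc 1 (Real.log N), t ≠ 0 := fun t ht => by
      have := ht.1
      linarith
    refine ContinuousOn.mul (SV_D3a_cont η).continuousOn ?_
    refine ContinuousOn.sub ?_ ?_
    · exact (ContinuousOn.log continuousOn_id hne).add continuousOn_const
    · exact continuousOn_const.div continuousOn_id hne
  have hmono : ∫ t in (1 : ℝ)..(Real.log N), η * Real.exp (-(η * t)) *
      (Real.log t + c - (2 + 2 * C) / t) ≤ ∫ t in (1 : ℝ)..(Real.log N), G t := by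
    refine intervalIntegral.integral_mono_on hlogN hcont.intervalIntegrable hGint fun t ht => ?_
    have hpt := SV_D3a_point c C hC h ht.1
    have he : 0 ≤ η * Real.exp (-(η * t)) := by positivity
    have hGt : G t = η * Real.exp (-(η * t)) * Al ⌊Real.exp t⌋₊ := by
      have h2 : PP ⌊Real.exp t⌋₊ = (PP N).filter (fun p : ℕ => Real.log (p : ℝ) ≤ t) := by
        ext p
        rw [mem_filter, hPP, hPP]
        constructor
        · rintro ⟨hp, hle⟩
          have hp0 : (0 : ℝ) < p := by exact_mod_cast hp.pos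
          have h3 : (p : ℝ) ≤ Real.exp t := (Nat.le_floor_iff (Real.exp_pos t).le).1 hle
          have h4 : Real.log p ≤ t := (Real.log_le_iff_le_exp hp0).2 h3
          have h5 : Real.exp t ≤ N := by
            rw [← Real.le_log_iff_exp_le (by positivity)]
            exact ht.2
          exact ⟨⟨hp, by exact_mod_cast h3.trans h5⟩, h4⟩
        · rintro ⟨⟨hp, -⟩, h4⟩
          have hp0 : (0 : ℝ) < p := by exact_mod_cast hp.pos
          have h3 : (p : ℝ) ≤ Real.exp t := (Real.log_le_iff_le_exp hp0).1 h4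
          exact ⟨hp, Nat.le_floor h3⟩
      unfold Al
      rw [h2, sum_filter, mul_sum]
      refine sum_congr rfl fun p _ => ?_
      unfold SV_D3a_g
      split_ifs
      · ring
      · ring
    change _ ≤ G t
    rw [hGt]
    exact mul_le_mul_of_nonneg_left hpt he
  refine hmono.trans ?_
  have hsum : ∫ t in (1 : ℝ)..(Real.log N), G t =
      ∑ p ∈ PP N, -Real.log (1 - 1 / (p : ℝ)) * ∫ t in (1 : ℝ)..(Real.log N), SV_D3a_g η p t := by
    rw [hG, intervalIntegral.integral_finsetSum fun p _ => (SV_D3a_int η p hlogN).const_mul _]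
    exact sum_congr rfl fun p _ => intervalIntegral.integral_const_mul _ _
  rw [hsum]
  refine sum_le_sum fun p hp => ?_
  obtain ⟨hp1, hp2⟩ := (hPP N p).1 hp
  exact mul_le_mul_of_nonneg_left (SV_D3a_ind hη hN hp1 hp2) (SV_D3a_alpha hp1)

end Pool.Agent.Lib.MP_42948a_nt.SV
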