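import Pool.Agent.Lib.MP_42948a_nt.SV.Defs

/-!
# The integral (job D3b)

`∫_0^∞ e^(-u) log u du = -γ` (`Real.eulerMascheroniConstant_eq_neg_deriv`, `Complex.hasDerivAt_GammaIntegral` or `Real.Gamma` versions). Substituting `u = η t`:
`∫_1^∞ η e^(-ηt) (log t + c - K/t) dt = ∫_η^∞ e^(-u) (log u - log η + c) du - K η ∫_1^∞ e^(-ηt)/t dt`;
`∫_η^∞ e^(-u) log u du ≥ -γ` (`log u ≤ 0` on `(0, η)`), `∫_η^∞ e^(-u) (c - log η) du = e^(-η) (c + log(1/η)) ≥ log(1/η) + c - η (|c| + log(1/η))` and `η ∫_1^∞ e^(-ηt)/t dt ≤ η log(1/η) + 1·η` or so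
(`∫_1^{1/η} dt/t + ∫_{1/η}^∞ η e^(-ηt) dt`); `η log(1/η) ≤ 2 √η`. So the limit of the integrals `∫_1^T` as `T → ∞` is `≥ log(1/η) + c - γ - K' √η`; the statement: for every `η` there are arbitrarily large `T` (even: for all `T ≥ T0`) with the bound.
-/

namespace Pool.Agent.Lib.MP_42948a_nt.SV

open Finset Pool.Agent.Lib.MP_42948a_nt.OA Pool.Agent.Lib.MP_42948a_nt.OM

open MeasureTheory in
private theorem SV_D3b_gam :
    IntegrableOn (fun u : ℝ => Real.log u * Real.exp (-u)) (Set.Ioi 0) ∧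
      ∫ u in Set.Ioi (0 : ℝ), Real.log u * Real.exp (-u) = -Real.eulerMascheroniConstant := by
  have h1 := Complex.hasDerivAt_GammaIntegral (s := 1) (by simp)
  have h2 : HasDerivAt Complex.Gamma (-(Real.eulerMascheroniConstant : ℂ)) 1 :=
    Complex.hasDerivAt_Gamma_one
  have h3 : Complex.Gamma =ᶠ[nhds 1] Complex.GammaIntegral := by
    have : {s : ℂ | 0 < s.re} ∈ nhds (1 : ℂ) :=
      (isOpen_lt continuous_const Complex.continuous_re).mem_nhds (by simp)
    filter_upwards [this] with s hs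
    exact Complex.Gamma_eq_integral hs
  have h4 := (h1.congr_of_eventuallyEq h3).unique h2
  have h5 : ∫ t in Set.Ioi (0 : ℝ), (t : ℂ) ^ ((1 : ℂ) - 1) *
      ((Real.log t : ℂ) * (Real.exp (-t) : ℂ)) =
      ((∫ t in Set.Ioi (0 : ℝ), Real.log t * Real.exp (-t) : ℝ) : ℂ) := by
    rw [← integral_complex_ofReal]
    refine setIntegral_congr_fun measurableSet_Ioi (fun t ht => ?_)
    simp
  rw [h5] at h4
  have h6 : ∫ u in Set.Ioi (0 : ℝ), Real.log u * Real.exp (-u) =
      -Real.eulerMascheroniConstant := by exact_mod_cast h4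
  refine ⟨?_, h6⟩
  by_contra hn
  rw [integral_undef hn] at h6
  linarith [Real.one_half_lt_eulerMascheroniConstant]

open MeasureTheory in
private theorem SV_D3b_exp {η : ℝ} (hη : 0 < η) (a : ℝ) :
    IntegrableOn (fun t : ℝ => Real.exp (-(η * t))) (Set.Ioi a) ∧
      ∫ t in Set.Ioi a, Real.exp (-(η * t)) = η⁻¹ * Real.exp (-(η * a)) := by
  constructor
  · have h1 : IntegrableOn (fun u : ℝ => Real.exp (-u)) (Set.Ioi (η * a)) :=
      integrableOn_exp_neg_Ioi _
    exact (integrableOn_Ioi_comp_mul_left_iff (fun u : ℝ => Real.exp (-u)) a hη).2 h1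
  · have h1 := integral_comp_mul_left_Ioi (fun u : ℝ => Real.exp (-u)) a hη
    rw [integral_exp_neg_Ioi, smul_eq_mul] at h1
    exact h1

open MeasureTheory in
private theorem SV_D3b_log {η : ℝ} (hη : 0 < η) :
    IntegrableOn (fun t : ℝ => Real.exp (-(η * t)) * Real.log t) (Set.Ioi 0) ∧
      ∫ t in Set.Ioi (0 : ℝ), Real.exp (-(η * t)) * Real.log t =
        η⁻¹ * (-Real.eulerMascheroniConstant - Real.log η) := by
  obtain ⟨hg1, hg2⟩ := SV_D3b_gam
  obtain ⟨he1, he2⟩ := SV_D3b_exp hη 0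
  have hG1 : IntegrableOn (fun t : ℝ => Real.log (η * t) * Real.exp (-(η * t))) (Set.Ioi 0) := by
    apply (integrableOn_Ioi_comp_mul_left_iff
      (fun u : ℝ => Real.log u * Real.exp (-u)) 0 hη).2
    rw [mul_zero]
    exact hg1
  have hG2 : ∫ t in Set.Ioi (0 : ℝ), Real.log (η * t) * Real.exp (-(η * t)) =
      η⁻¹ * (-Real.eulerMascheroniConstant) := by
    have h1 := integral_comp_mul_left_Ioi (fun u : ℝ => Real.log u * Real.exp (-u)) 0 hη
    rw [mul_zero, hg2, smul_eq_mul] at h1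
    exact h1
  have hE1 : IntegrableOn (fun t : ℝ => Real.log η * Real.exp (-(η * t))) (Set.Ioi 0) :=
    he1.const_mul _
  have heq : Set.EqOn (fun t : ℝ => Real.log (η * t) * Real.exp (-(η * t)) -
      Real.log η * Real.exp (-(η * t))) (fun t : ℝ => Real.exp (-(η * t)) * Real.log t)
      (Set.Ioi 0) := by
    intro t ht
    have ht' : (0 : ℝ) < t := ht
    simp only
    rw [Real.log_mul hη.ne' ht'.ne']
    ring
  constructor
  · exact (hG1.sub hE1).congr_fun heq measurableSet_Ioi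
  · rw [← setIntegral_congr_fun measurableSet_Ioi heq, integral_sub hG1 hE1, hG2,
      integral_const_mul, he2]
    simp
    ring

open MeasureTheory in
private theorem SV_D3b_rpow {η : ℝ} (hη : 0 < η) :
    IntegrableOn (fun t : ℝ => t ^ (-(1 / 2) : ℝ) * Real.exp (-(η * t))) (Set.Ioi 0) ∧
      ∫ t in Set.Ioi (0 : ℝ), t ^ (-(1 / 2) : ℝ) * Real.exp (-(η * t)) =
        (1 / η) ^ (1 / 2 : ℝ) * Real.Gamma (1 / 2) := by
  have h1 := Real.integral_rpow_mul_exp_neg_mul_Ioi (a := 1 / 2) (r := η) (by norm_num) hη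
  rw [show (1 / 2 - 1 : ℝ) = -(1 / 2) by norm_num] at h1
  refine ⟨?_, h1⟩
  by_contra hn
  rw [integral_undef hn] at h1
  have h2 : 0 < (1 / η) ^ (1 / 2 : ℝ) * Real.Gamma (1 / 2) := by
    have := Real.Gamma_pos_of_pos (s := 1 / 2) (by norm_num)
    positivity
  linarith

open MeasureTheory in
theorem integral_lower (c K : ℝ) (hK : 0 ≤ K) : ∃ K' : ℝ, 0 ≤ K' ∧ ∀ η : ℝ, 0 < η → η ≤ 1 / 2 → ∃ T0 : ℝ, 1 ≤ T0 ∧ ∀ T : ℝ, T0 ≤ T →
    Real.log (1 / η) + c - Real.eulerMascheroniConstant - K' * Real.sqrt η ≤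
      ∫ t in (1 : ℝ)..T, η * Real.exp (-(η * t)) * (Real.log t + c - K / t) := by
  have hΓ : 0 < Real.Gamma (1 / 2) := Real.Gamma_pos_of_pos (by norm_num)
  refine ⟨|c| + K * Real.Gamma (1 / 2) + 1, by positivity, ?_⟩
  intro η hη hη2
  obtain ⟨hA1, hA2⟩ := SV_D3b_log hη
  obtain ⟨hB1, hB2⟩ := SV_D3b_exp hη 1
  obtain ⟨hR1, hR2⟩ := SV_D3b_rpow hη
  have hsub : Set.Ioi (1 : ℝ) ⊆ Set.Ioi 0 := Set.Ioi_subset_Ioi zero_le_one
  have hA1' : IntegrableOn (fun t : ℝ => Real.exp (-(η * t)) * Real.log t) (Set.Ioi 1) :=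
    hA1.mono_set hsub
  have hR1' : IntegrableOn (fun t : ℝ => t ^ (-(1 / 2) : ℝ) * Real.exp (-(η * t)))
      (Set.Ioi 1) := hR1.mono_set hsub
  -- the logarithmic part
  have hA3 : η⁻¹ * (-Real.eulerMascheroniConstant - Real.log η) ≤
      ∫ t in Set.Ioi (1 : ℝ), Real.exp (-(η * t)) * Real.log t := by
    have hu : Set.Ioc (0 : ℝ) 1 ∪ Set.Ioi 1 = Set.Ioi 0 := Set.Ioc_union_Ioi_eq_Ioi zero_le_one
    have hd : Disjoint (Set.Ioc (0 : ℝ) 1) (Set.Ioi 1) := Set.Ioc_disjoint_Ioi le_rfl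
    have h1 := setIntegral_union hd measurableSet_Ioi
      (hA1.mono_set (by rw [← hu]; exact Set.subset_union_left)) hA1'
    rw [hu, hA2] at h1
    have h2 : ∫ t in Set.Ioc (0 : ℝ) 1, Real.exp (-(η * t)) * Real.log t ≤ 0 := by
      apply setIntegral_nonpos measurableSet_Ioc
      intro t ht
      exact mul_nonpos_of_nonneg_of_nonpos (Real.exp_pos _).le
        (Real.log_nonpos ht.1.le ht.2)
    linarith
  -- the part with the factor 1 / t
  have hpt : ∀ t ∈ Set.Ioi (1 : ℝ), Real.exp (-(η * t)) / t ≤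
      t ^ (-(1 / 2) : ℝ) * Real.exp (-(η * t)) := by
    intro t ht
    have ht' : (1 : ℝ) < t := ht
    have h0 : (0 : ℝ) < t := by linarith
    rw [div_eq_mul_inv, mul_comm]
    apply mul_le_mul_of_nonneg_right _ (Real.exp_pos _).le
    rw [← Real.rpow_neg_one]
    exact Real.rpow_le_rpow_of_exponent_le ht'.le (by norm_num)
  have hC1 : IntegrableOn (fun t : ℝ => Real.exp (-(η * t)) / t) (Set.Ioi 1) := by
    refine Integrable.mono' hR1' ?_ ?_
    · apply Measurable.aestronglyMeasurable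
      fun_prop
    · refine (ae_restrict_iff' measurableSet_Ioi).2 (Filter.Eventually.of_forall ?_)
      intro t ht
      have ht' : (1 : ℝ) < t := ht
      have h0 : (0 : ℝ) < t := by linarith
      rw [Real.norm_eq_abs, abs_of_nonneg (by positivity)]
      exact hpt t ht
  have hC2 : ∫ t in Set.Ioi (1 : ℝ), Real.exp (-(η * t)) / t ≤
      (1 / η) ^ (1 / 2 : ℝ) * Real.Gamma (1 / 2) := by
    rw [← hR2]
    calc ∫ t in Set.Ioi (1 : ℝ), Real.exp (-(η * t)) / t ≤
        ∫ t in Set.Ioi (1 : ℝ), t ^ (-(1 / 2) : ℝ) * Real.exp (-(η * t)) :=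
          setIntegral_mono_on hC1 hR1' measurableSet_Ioi hpt
      _ ≤ ∫ t in Set.Ioi (0 : ℝ), t ^ (-(1 / 2) : ℝ) * Real.exp (-(η * t)) := by
          apply setIntegral_mono_set hR1
          · refine (ae_restrict_iff' measurableSet_Ioi).2 (Filter.Eventually.of_forall ?_)
            intro t ht
            have ht' : (0 : ℝ) < t := ht
            positivity
          · exact Filter.Eventually.of_forall hsub
  -- the whole function
  have hfun : ∀ t : ℝ, η * Real.exp (-(η * t)) * (Real.log t + c - K / t) =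
      η * (Real.exp (-(η * t)) * Real.log t) + c * η * Real.exp (-(η * t)) -
        K * η * (Real.exp (-(η * t)) / t) := by
    intro t
    ring
  have hI1 : IntegrableOn (fun t : ℝ => η * (Real.exp (-(η * t)) * Real.log t)) (Set.Ioi 1) :=
    hA1'.const_mul _
  have hI2 : IntegrableOn (fun t : ℝ => c * η * Real.exp (-(η * t))) (Set.Ioi 1) :=
    hB1.const_mul _
  have hI3 : IntegrableOn (fun t : ℝ => K * η * (Real.exp (-(η * t)) / t)) (Set.Ioi 1) :=
    hC1.const_mul _
  have hI12 : IntegrableOn (fun t : ℝ => η * (Real.exp (-(η * t)) * Real.log t) +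
      c * η * Real.exp (-(η * t))) (Set.Ioi 1) := hI1.add hI2
  have hI : IntegrableOn (fun t : ℝ => η * Real.exp (-(η * t)) * (Real.log t + c - K / t))
      (Set.Ioi 1) := by
    simp_rw [hfun]
    exact hI12.sub hI3
  have hval : ∫ t in Set.Ioi (1 : ℝ), η * Real.exp (-(η * t)) * (Real.log t + c - K / t) =
      η * (∫ t in Set.Ioi (1 : ℝ), Real.exp (-(η * t)) * Real.log t) +
        c * η * (η⁻¹ * Real.exp (-(η * 1))) -
        K * η * ∫ t in Set.Ioi (1 : ℝ), Real.exp (-(η * t)) / t := by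
    simp_rw [hfun]
    rw [integral_sub hI12 hI3, integral_add hI1 hI2, integral_const_mul,
      integral_const_mul, integral_const_mul, hB2]
  have hsq : 0 < Real.sqrt η := Real.sqrt_pos.2 hη
  have hsq2 : Real.sqrt η * Real.sqrt η = η := Real.mul_self_sqrt hη.le
  have hle : η ≤ Real.sqrt η := by
    have h1 : Real.sqrt η ≤ 1 := Real.sqrt_le_iff.2 ⟨zero_le_one, by linarith⟩
    nlinarith
  have hlower : Real.log (1 / η) + c - Real.eulerMascheroniConstant -
      (|c| + K * Real.Gamma (1 / 2)) * Real.sqrt η ≤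
      ∫ t in Set.Ioi (1 : ℝ), η * Real.exp (-(η * t)) * (Real.log t + c - K / t) := by
    rw [hval]
    have h1 : -Real.eulerMascheroniConstant - Real.log η ≤
        η * ∫ t in Set.Ioi (1 : ℝ), Real.exp (-(η * t)) * Real.log t := by
      calc -Real.eulerMascheroniConstant - Real.log η =
          η * (η⁻¹ * (-Real.eulerMascheroniConstant - Real.log η)) := by
            field_simp
        _ ≤ _ := by gcongr
    have h2 : c - |c| * Real.sqrt η ≤ c * η * (η⁻¹ * Real.exp (-(η * 1))) := by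
      have e1 : c * η * (η⁻¹ * Real.exp (-(η * 1))) = c * Real.exp (-η) := by
        rw [mul_one]
        field_simp
      rw [e1]
      have e2 : 1 - η ≤ Real.exp (-η) := by
        have := Real.add_one_le_exp (-η)
        linarith
      have e3 : Real.exp (-η) ≤ 1 := Real.exp_le_one_iff.2 (by linarith)
      have e4 : c * (1 - Real.exp (-η)) ≤ |c| * η := by
        calc c * (1 - Real.exp (-η)) ≤ |c| * (1 - Real.exp (-η)) := by
              apply mul_le_mul_of_nonneg_right (le_abs_self c) (by linarith)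
          _ ≤ |c| * η := by
              apply mul_le_mul_of_nonneg_left (by linarith) (abs_nonneg c)
      have e5 : |c| * η ≤ |c| * Real.sqrt η := mul_le_mul_of_nonneg_left hle (abs_nonneg c)
      linarith
    have h3 : K * η * (∫ t in Set.Ioi (1 : ℝ), Real.exp (-(η * t)) / t) ≤
        K * Real.Gamma (1 / 2) * Real.sqrt η := by
      have e1 : η * (1 / η) ^ (1 / 2 : ℝ) = Real.sqrt η := by
        rw [← Real.sqrt_eq_rpow, Real.sqrt_div zero_le_one, Real.sqrt_one]
        field_simp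
        rw [sq]
        exact hsq2.symm
      calc K * η * (∫ t in Set.Ioi (1 : ℝ), Real.exp (-(η * t)) / t) ≤
          K * η * ((1 / η) ^ (1 / 2 : ℝ) * Real.Gamma (1 / 2)) := by gcongr
        _ = K * Real.Gamma (1 / 2) * (η * (1 / η) ^ (1 / 2 : ℝ)) := by ring
        _ = K * Real.Gamma (1 / 2) * Real.sqrt η := by rw [e1]
    have h4 : Real.log (1 / η) = -Real.log η := by
      rw [one_div, Real.log_inv]
    rw [h4]
    nlinarith
  have hlim := intervalIntegral_tendsto_integral_Ioi 1 hI Filter.tendsto_id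
  have hev := hlim.eventually (lt_mem_nhds (show
    (∫ t in Set.Ioi (1 : ℝ), η * Real.exp (-(η * t)) * (Real.log t + c - K / t)) -
      Real.sqrt η < _ by linarith))
  obtain ⟨T1, hT1⟩ := Filter.eventually_atTop.1 hev
  refine ⟨max 1 T1, le_max_left _ _, ?_⟩
  intro T hT
  have h5 := hT1 T ((le_max_right _ _).trans hT)
  simp only [id] at h5
  nlinarith

end Pool.Agent.Lib.MP_42948a_nt.SV
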