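import Pool.Agent.Lib.MP_42948a_nt.SV.D2
import Pool.Agent.Lib.MP_42948a_nt.SV.D3a
import Pool.Agent.Lib.MP_42948a_nt.SV.D3b

/-!
# Mertens' third theorem, lower bound (job D4)

`c_le`: `laplace_lower`, `integral_lower`, `al_series`: for every `η ∈ (0, 1/2]`, with `N` large: `log(1/η) + c - γ - K' √η ≤ log(1/η) + C η`, so `c - γ ≤ K' √η + C η`; let `η → 0`.
`mertens3`: `Al_asymp`: `∏_{p ≤ N} (1-1/p) = exp(-Al N) ≥ exp(-log log N - c - C/log N) = e^(-c) e^(-C/log N)/log N`, and `e^(-c) ≥ e^(-γ)`.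
`exp_gamma`: `γ < H_128 - log 128 = .58112` (`Real.eulerMascheroniConstant_lt_eulerMascheroniSeq'`, `Real.log_two_gt_d9`, `norm_num` or `decide` for the harmonic number), `e^(-.5813) ≥ .5591`: enough `e^(-.585) > .557` (`exp(.585) < 1/.557 = 1.7953`, `Real.exp_bound'`).
-/

namespace Pool.Agent.Lib.MP_42948a_nt.SV

open Finset Pool.Agent.Lib.MP_42948a_nt.OA Pool.Agent.Lib.MP_42948a_nt.OM

theorem c_le (c C : ℝ) (hC : 0 ≤ C)
    (h : ∀ N : ℕ, 2 ≤ N → |Al N - Real.log (Real.log N) - c| ≤ C / Real.log N) :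
    c ≤ Real.eulerMascheroniConstant := by
  obtain ⟨K, hK, h1⟩ := laplace_lower c C hC h
  obtain ⟨C2, hC2, h2⟩ := al_series
  obtain ⟨K', hK', h3⟩ := integral_lower c K hK
  refine le_of_forall_pos_le_add fun ε hε => ?_
  obtain ⟨D, hD⟩ : ∃ D : ℝ, D = K' + C2 + 1 := ⟨_, rfl⟩
  have hD0 : 0 < D := by linarith
  obtain ⟨η, hη⟩ : ∃ η : ℝ, η = min (1 / 2) ((ε / D) ^ 2) := ⟨_, rfl⟩
  have hη0 : 0 < η := by
    rw [hη]
    exact lt_min (by norm_num) (by positivity)
  have hη1 : η ≤ 1 / 2 := by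
    rw [hη]
    exact min_le_left _ _
  have hη2 : Real.sqrt η ≤ ε / D := by
    rw [Real.sqrt_le_left (by positivity), hη]
    exact min_le_right _ _
  have hη3 : η ≤ Real.sqrt η := by
    rw [Real.le_sqrt' hη0]
    nlinarith
  obtain ⟨T0, hT0, h4⟩ := h3 η hη0 hη1
  obtain ⟨N, hN⟩ : ∃ N : ℕ, N = max 3 ⌈Real.exp T0⌉₊ := ⟨_, rfl⟩
  have hN3 : 3 ≤ N := by
    rw [hN]
    exact le_max_left _ _
  have hNT : T0 ≤ Real.log N := by
    rw [Real.le_log_iff_exp_le (by exact_mod_cast (by omega : 0 < N))]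
    refine (Nat.le_ceil _).trans ?_
    rw [hN]
    exact_mod_cast le_max_right _ _
  have h5 := h4 (Real.log N) hNT
  have h6 := h1 η hη0 N hN3
  have h7 := h2 η hη0 (by linarith) N
  have h8 : C2 * η ≤ C2 * Real.sqrt η := mul_le_mul_of_nonneg_left hη3 hC2
  have h9 : D * Real.sqrt η ≤ ε := by
    calc D * Real.sqrt η ≤ D * (ε / D) := mul_le_mul_of_nonneg_left hη2 hD0.le
      _ = ε := by field_simp
  have h10 : 0 ≤ Real.sqrt η := Real.sqrt_nonneg η
  have h11 : D * Real.sqrt η = K' * Real.sqrt η + C2 * Real.sqrt η + Real.sqrt η := by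
    rw [hD]
    ring
  linarith

private theorem SV_D4_harm : (harmonic 128 : ℚ) < 54332 / 10000 := by
  decide +kernel

private theorem SV_D4_gamma : Real.eulerMascheroniConstant < 5812 / 10000 := by
  have h1 := Real.eulerMascheroniConstant_lt_eulerMascheroniSeq' 128
  have h2 : Real.eulerMascheroniSeq' 128 = ((harmonic 128 : ℚ) : ℝ) - Real.log (128 : ℕ) := by
    unfold Real.eulerMascheroniSeq'
    rw [if_neg (by norm_num)]
  have h3 : Real.log ((128 : ℕ) : ℝ) = 7 * Real.log 2 := by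
    rw [show ((128 : ℕ) : ℝ) = 2 ^ 7 by norm_num, Real.log_pow]
    norm_num
  have h4 := Real.log_two_gt_d9
  have h5 : ((harmonic 128 : ℚ) : ℝ) < 54332 / 10000 := by
    have h6 : ((harmonic 128 : ℚ) : ℝ) < ((54332 / 10000 : ℚ) : ℝ) := by
      exact_mod_cast SV_D4_harm
    refine h6.trans_le ?_
    norm_num
  rw [h2, h3] at h1
  linarith

theorem exp_gamma : 5571 / 10000 < Real.exp (-Real.eulerMascheroniConstant) := by
  have h1 : Real.exp (5812 / 10000) ≤ 179 / 100 := by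
    have h2 := Real.exp_bound' (x := 5812 / 10000) (by norm_num) (by norm_num) (n := 5) (by norm_num)
    refine h2.trans ?_
    simp only [Finset.sum_range_succ, Finset.sum_range_zero, Nat.factorial]
    norm_num
  have h3 : Real.exp (-(5812 / 10000)) < Real.exp (-Real.eulerMascheroniConstant) :=
    Real.exp_lt_exp.2 (by linarith [SV_D4_gamma])
  refine lt_of_le_of_lt ?_ h3
  rw [Real.exp_neg]
  have h4 : ((179 / 100 : ℝ))⁻¹ ≤ (Real.exp (5812 / 10000))⁻¹ :=
    inv_anti₀ (Real.exp_pos _) h1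
  refine le_trans ?_ h4
  norm_num

theorem mertens3 : ∃ z0 : ℕ, 2 ≤ z0 ∧ ∀ z : ℕ, z0 ≤ z → 5571 / 10000 / Real.log z ≤ ∏ p ∈ PP z, (1 - 1 / (p : ℝ)) := by
  obtain ⟨c, C, hC, h⟩ := Al_asymp
  have hc := c_le c C hC h
  have hg := exp_gamma
  obtain ⟨δ, hδ⟩ : ∃ δ : ℝ, δ = -Real.eulerMascheroniConstant - Real.log (5571 / 10000) := ⟨_, rfl⟩
  have hδ0 : 0 < δ := by
    have h1 : Real.log (5571 / 10000) < -Real.eulerMascheroniConstant := by
      rw [Real.log_lt_iff_lt_exp (by norm_num)]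
      exact hg
    rw [hδ]
    linarith
  refine ⟨max 2 ⌈Real.exp (C / δ)⌉₊, le_max_left _ _, fun z hz => ?_⟩
  have hz2 : 2 ≤ z := (le_max_left _ _).trans hz
  have hz0 : (0 : ℝ) < z := by exact_mod_cast (by omega : 0 < z)
  have hz1 : (1 : ℝ) < z := by exact_mod_cast (by omega : 1 < z)
  have hlz : 0 < Real.log z := Real.log_pos hz1
  have hzC : C / δ ≤ Real.log z := by
    rw [Real.le_log_iff_exp_le hz0]
    refine (Nat.le_ceil _).trans ?_
    exact_mod_cast (le_max_right 2 _).trans hz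
  have hCz : C / Real.log z ≤ δ := by
    rw [div_le_iff₀ hlz]
    rw [div_le_iff₀ hδ0] at hzC
    linarith
  have h1 := (abs_le.1 (h z hz2)).2
  have hpos : ∀ p ∈ PP z, (0 : ℝ) < 1 - 1 / (p : ℝ) := by
    intro p hp
    have hp' : p.Prime := (Finset.mem_filter.1 hp).2
    have hp2 : (2 : ℝ) ≤ p := by exact_mod_cast hp'.two_le
    have h2 : 1 / (p : ℝ) ≤ 1 / 2 := one_div_le_one_div_of_le (by norm_num) hp2
    linarith
  have h2 : ∏ p ∈ PP z, (1 - 1 / (p : ℝ)) = Real.exp (-Al z) := by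
    unfold Al
    rw [← Finset.sum_neg_distrib, Real.exp_sum]
    refine Finset.prod_congr rfl fun p hp => ?_
    rw [neg_neg, Real.exp_log (hpos p hp)]
  have h3 : 5571 / 10000 / Real.log z =
      Real.exp (Real.log (5571 / 10000) - Real.log (Real.log z)) := by
    rw [Real.exp_sub, Real.exp_log (by norm_num), Real.exp_log hlz]
  rw [h2, h3]
  refine Real.exp_le_exp.2 ?_
  linarith

end Pool.Agent.Lib.MP_42948a_nt.SV
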