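import Pool.Agent.Lib.MP_42948a_nt.SV.B7
import Pool.Agent.Lib.MP_42948a_nt.SV.D4

/-!
# Lower bound of `Vd` (job B8)

`w = ⌊x^(1/15)⌋₊ + 1`, `w - 1 = ⌊x^(1/15)⌋₊ =: z`. `Vd_lower_of`, `mertens3`: `∏_{p ≤ z} (1-1/p) ≥ (557/1000 + 10^-4)/log z ≥ (.5571 · 15)/log x`, and the last factor is `≥ 1 - 3 log x/x^(1/15)`, which is `≥ 1 - 10^-5` for large `x` (`d ≤ x^2`).
-/

namespace Pool.Agent.Lib.MP_42948a_nt.SV

open Finset Pool.Agent.Lib.MP_42948a_nt.OA Pool.Agent.Lib.MP_42948a_nt.OM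

private theorem SV_B8_log : ∃ x1 : ℝ, 2 ≤ x1 ∧ ∀ x : ℝ, x1 ≤ x →
    3 * Real.log x / x ^ (1 / 15 : ℝ) ≤ 1 / 10000 := by
  have h := isLittleO_log_rpow_atTop (show (0 : ℝ) < 1 / 15 by norm_num)
  have h1 := h.def (show (0 : ℝ) < 1 / 30000 by norm_num)
  obtain ⟨x1, hx1⟩ := Filter.eventually_atTop.mp h1
  refine ⟨max x1 2, le_max_right _ _, fun x hx => ?_⟩
  have h2 := hx1 x ((le_max_left _ _).trans hx)
  have hx2 : (2 : ℝ) ≤ x := (le_max_right _ _).trans hx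
  have hp : 0 < x ^ (1 / 15 : ℝ) := Real.rpow_pos_of_pos (by linarith) _
  rw [Real.norm_eq_abs, Real.norm_eq_abs, abs_of_pos hp,
    abs_of_nonneg (Real.log_nonneg (by linarith))] at h2
  rw [div_le_iff₀ hp]
  linarith

theorem Vd_lower : ∃ x0 : ℝ, 2 ≤ x0 ∧ ∀ x : ℝ, x0 ≤ x → ∀ d : ℕ, 1 ≤ d → (d : ℝ) ≤ x ^ 2 →
    557 / 1000 * 15 * ((d : ℝ) / d.totient / Real.log x) ≤ Vd d (⌊x ^ (1 / 15 : ℝ)⌋₊ + 1) := by
  obtain ⟨z0, hz0, hm⟩ := mertens3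
  obtain ⟨x1, hx1, hlog⟩ := SV_B8_log
  refine ⟨max x1 ((z0 : ℝ) ^ (15 : ℝ)), le_max_of_le_left hx1, fun x hx d hd hdx => ?_⟩
  have hxx1 : x1 ≤ x := (le_max_left _ _).trans hx
  have hx2 : (2 : ℝ) ≤ x := hx1.trans hxx1
  have hx0 : (0 : ℝ) < x := by linarith
  have hL : 0 < Real.log x := Real.log_pos (by linarith)
  have hz : (z0 : ℝ) ≤ x ^ (1 / 15 : ℝ) := by
    have h1 : (z0 : ℝ) ^ (15 : ℝ) ≤ x := (le_max_right _ _).trans hx
    have h2 : ((z0 : ℝ) ^ (15 : ℝ)) ^ (1 / 15 : ℝ) ≤ x ^ (1 / 15 : ℝ) :=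
      Real.rpow_le_rpow (Real.rpow_nonneg (Nat.cast_nonneg _) _) h1 (by norm_num)
    rw [← Real.rpow_mul (Nat.cast_nonneg _)] at h2
    have h3 : (15 : ℝ) * (1 / 15) = 1 := by norm_num
    rw [h3, Real.rpow_one] at h2
    exact h2
  obtain ⟨z, hzdef⟩ : ∃ z, z = ⌊x ^ (1 / 15 : ℝ)⌋₊ := ⟨_, rfl⟩
  have hz1 : z0 ≤ z := by
    rw [hzdef]
    exact Nat.le_floor hz
  have hz2 : (2 : ℝ) ≤ (z : ℝ) := by exact_mod_cast hz0.trans hz1
  have hp : 0 < x ^ (1 / 15 : ℝ) := Real.rpow_pos_of_pos hx0 _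
  have hzx : (z : ℝ) ≤ x ^ (1 / 15 : ℝ) := by
    rw [hzdef]
    exact Nat.floor_le hp.le
  have hlz : Real.log z ≤ Real.log x / 15 := by
    have h1 := Real.log_le_log (by linarith) hzx
    rw [Real.log_rpow hx0] at h1
    linarith
  have hlz0 : 0 < Real.log z := Real.log_pos (by linarith)
  have hM : 5571 / 10000 * 15 / Real.log x ≤ ∏ p ∈ PP z, (1 - 1 / (p : ℝ)) := by
    refine le_trans ?_ (hm z hz1)
    rw [div_le_div_iff₀ hL hlz0]
    nlinarith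
  have hV := Vd_lower_of hd (z + 1) (by omega)
  rw [Nat.add_sub_cancel] at hV
  rw [← hzdef]
  have hF : 9999 / 10000 ≤ 1 - Real.log d / Real.log 2 / ((z + 1 : ℕ) : ℝ) := by
    have h1 : x ^ (1 / 15 : ℝ) ≤ ((z + 1 : ℕ) : ℝ) := by
      rw [hzdef]
      push_cast
      exact (Nat.lt_floor_add_one _).le
    have hd0 : (0 : ℝ) < d := by exact_mod_cast hd
    have hd1 : (1 : ℝ) ≤ d := by exact_mod_cast hd
    have h2 : Real.log d ≤ 2 * Real.log x := by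
      have h3 := Real.log_le_log hd0 hdx
      rw [Real.log_pow] at h3
      push_cast at h3
      exact h3
    have h3 : Real.log d / Real.log 2 ≤ 3 * Real.log x := by
      have h4 := Real.log_two_gt_d9
      rw [div_le_iff₀ (Real.log_pos (by norm_num))]
      nlinarith
    have h4 : Real.log d / Real.log 2 / ((z + 1 : ℕ) : ℝ) ≤ 3 * Real.log x / x ^ (1 / 15 : ℝ) :=
      div_le_div₀ (by positivity) h3 hp h1
    have h5 := hlog x hxx1
    linarith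
  have hA : (0 : ℝ) ≤ (d : ℝ) / d.totient := by positivity
  have hM0 : (0 : ℝ) ≤ 5571 / 10000 * 15 / Real.log x := by positivity
  refine le_trans ?_ hV
  have e1 : (d : ℝ) / d.totient * (5571 / 10000 * 15 / Real.log x) ≤
      (d : ℝ) / d.totient * ∏ p ∈ PP z, (1 - 1 / (p : ℝ)) := mul_le_mul_of_nonneg_left hM hA
  have e2 : (d : ℝ) / d.totient * (5571 / 10000 * 15 / Real.log x) * (9999 / 10000) ≤
      (d : ℝ) / d.totient * (∏ p ∈ PP z, (1 - 1 / (p : ℝ))) *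
        (1 - Real.log d / Real.log 2 / ((z + 1 : ℕ) : ℝ)) :=
    mul_le_mul e1 hF (by norm_num) ((mul_nonneg hA hM0).trans e1)
  refine le_trans ?_ e2
  have e3 : 0 ≤ (d : ℝ) / d.totient / Real.log x := by positivity
  have e4 : (d : ℝ) / d.totient * (5571 / 10000 * 15 / Real.log x) * (9999 / 10000) =
      5571 / 10000 * 15 * (9999 / 10000) * ((d : ℝ) / d.totient / Real.log x) := by ring
  rw [e4]
  exact mul_le_mul_of_nonneg_right (by norm_num) e3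

end Pool.Agent.Lib.MP_42948a_nt.SV
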