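import Pool.Agent.Lib.MP_42948a_nt.SV.B1

/-!
# A sum over primes (job B9b)

`X = x^(1/15)`, `L = log X = log x/15`. Split at `X^(j/8)`, `j = 1, .., 8`: for `X^((j-1)/8) < p ≤ X^(j/8)` `(log p)^8/p ≤ (j L/8)^7 log p/p`, and `∑ log p/p ≤ L/8 + C` (`mertB`), so the sum is
`≤ ∑_j (j/8)^7 L^7 (L/8 + C) ≤ (1.573/8 + o(1)) L^8 ≤ L^8/5`.
-/

namespace Pool.Agent.Lib.MP_42948a_nt.SV

open Finset Pool.Agent.Lib.MP_42948a_nt.OA Pool.Agent.Lib.MP_42948a_nt.OM

private theorem SV_B9b_step {C h : ℝ} (h0 : 0 ≤ h)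
    (hC : ∀ u v : ℝ, 1 ≤ u → u ≤ v → |∑ p ∈ Pri u v, Real.log p / p - (Real.log v - Real.log u)| ≤ C)
    (j : ℕ) :
    ∑ p ∈ Pri 1 (Real.exp (j * h)), Real.log p ^ 8 / (p : ℝ) ≤
      ∑ i ∈ range j, (((i : ℝ) + 1) * h) ^ 7 * (h + C) := by
  induction j with
  | zero =>
    have h1 : Pri 1 (Real.exp ((0 : ℕ) * h)) = ∅ := by
      ext p
      rw [mem_Pri (by norm_num)]
      simp only [Nat.cast_zero, zero_mul, Real.exp_zero, notMem_empty, iff_false, not_and, not_le]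
      exact fun _ h => h
    rw [h1]
    simp
  | succ j ih =>
    set u := Real.exp (j * h) with hu
    set v := Real.exp (((j + 1 : ℕ) : ℝ) * h) with hv
    have hj : (0 : ℝ) ≤ j := Nat.cast_nonneg j
    have hu1 : 1 ≤ u := Real.one_le_exp (mul_nonneg hj h0)
    have huv : u ≤ v := by
      refine Real.exp_le_exp.2 ?_
      push_cast
      nlinarith
    have hlu : Real.log u = j * h := Real.log_exp _
    have hlv : Real.log v = ((j : ℝ) + 1) * h := by
      rw [hv, Real.log_exp]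
      push_cast
      ring
    have hsub : Pri 1 v ⊆ Pri 1 u ∪ Pri u v := by
      intro p hp
      rw [mem_Pri (by norm_num)] at hp
      rw [mem_union, mem_Pri (by norm_num), mem_Pri (by linarith)]
      by_cases hpu : (p : ℝ) ≤ u
      · exact Or.inl ⟨hp.1, hp.2.1, hpu⟩
      · exact Or.inr ⟨hp.1, lt_of_not_ge hpu, hp.2.2⟩
    have hnn : ∀ p : ℕ, 0 ≤ Real.log p ^ 8 / (p : ℝ) := fun p => by positivity
    have h1 : ∑ p ∈ Pri 1 v, Real.log p ^ 8 / (p : ℝ) ≤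
        ∑ p ∈ Pri 1 u, Real.log p ^ 8 / (p : ℝ) + ∑ p ∈ Pri u v, Real.log p ^ 8 / (p : ℝ) := by
      refine (sum_le_sum_of_subset_of_nonneg hsub fun p _ _ => hnn p).trans ?_
      have h2 := sum_union_inter (s₁ := Pri 1 u) (s₂ := Pri u v)
        (f := fun p : ℕ => Real.log p ^ 8 / (p : ℝ))
      have h3 : 0 ≤ ∑ p ∈ Pri 1 u ∩ Pri u v, Real.log p ^ 8 / (p : ℝ) := sum_nonneg fun p _ => hnn p
      linarith
    have h4 : ∑ p ∈ Pri u v, Real.log p ^ 8 / (p : ℝ) ≤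
        (((j : ℝ) + 1) * h) ^ 7 * ∑ p ∈ Pri u v, Real.log p / (p : ℝ) := by
      rw [mul_sum]
      refine sum_le_sum fun p hp => ?_
      rw [mem_Pri (by linarith)] at hp
      have hp1 : (1 : ℝ) ≤ p := by exact_mod_cast hp.1.one_lt.le
      have h5 : Real.log p ≤ ((j : ℝ) + 1) * h := by
        rw [← hlv]
        exact Real.log_le_log (by linarith) hp.2.2
      have h6 : 0 ≤ Real.log p := Real.log_nonneg hp1
      have h7 := pow_le_pow_left₀ h6 h5 7
      have h8 : 0 ≤ Real.log p / (p : ℝ) := by positivity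
      have h9 : Real.log p ^ 8 / (p : ℝ) = Real.log p ^ 7 * (Real.log p / p) := by ring
      rw [h9]
      exact mul_le_mul_of_nonneg_right h7 h8
    have h10 : ∑ p ∈ Pri u v, Real.log p / (p : ℝ) ≤ h + C := by
      have h11 := (abs_le.1 (hC u v hu1 huv)).2
      rw [hlu, hlv] at h11
      linarith
    have h12 : 0 ≤ (((j : ℝ) + 1) * h) ^ 7 := by positivity
    have h13 := mul_le_mul_of_nonneg_left h10 h12
    rw [sum_range_succ]
    linarith

theorem logpow_sum : ∃ x0 : ℝ, 2 ≤ x0 ∧ ∀ x : ℝ, x0 ≤ x →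
    ∑ p ∈ Pri 1 (x ^ (1 / 15 : ℝ)), Real.log p ^ 8 / p ≤ 1 / 5 * (Real.log x / 15) ^ 8 := by
  obtain ⟨C, hC0, hC⟩ := mertB
  refine ⟨max 2 (Real.exp (6840 * C)), le_max_left _ _, fun x hx => ?_⟩
  have hx2 : 2 ≤ x := (le_max_left _ _).trans hx
  have hx0 : 0 < x := by linarith
  have hlog : 6840 * C ≤ Real.log x := by
    rw [Real.le_log_iff_exp_le hx0]
    exact (le_max_right _ _).trans hx
  have hlog0 : 0 ≤ Real.log x := Real.log_nonneg (by linarith)
  set h : ℝ := Real.log x / 120 with hh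
  have h0 : 0 ≤ h := by positivity
  have hX : x ^ (1 / 15 : ℝ) = Real.exp ((8 : ℕ) * h) := by
    rw [Real.rpow_def_of_pos hx0, hh]
    congr 1
    push_cast
    ring
  rw [hX]
  refine (SV_B9b_step h0 hC 8).trans ?_
  have hCh : 57 * C ≤ h := by
    rw [hh]
    linarith
  have e1 : ∑ i ∈ range 8, (((i : ℝ) + 1) * h) ^ 7 * (h + C) = 3297456 * h ^ 7 * (h + C) := by
    simp only [sum_range_succ, range_zero, sum_empty]
    push_cast
    ring
  have e2 : Real.log x / 15 = 8 * h := by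
    rw [hh]
    ring
  rw [e1, e2]
  have h7 : 0 ≤ h ^ 7 := by positivity
  have h8 := mul_le_mul_of_nonneg_left hCh h7
  have h9 : h ^ 8 = h ^ 7 * h := by ring
  have h10 : 0 ≤ h ^ 7 * h := by positivity
  have h11 : (1 : ℝ) / 5 * (8 * h) ^ 8 = 1 / 5 * 16777216 * (h ^ 7 * h) := by ring
  rw [h11]
  linarith only [h8, h10]

end Pool.Agent.Lib.MP_42948a_nt.SV
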