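import Pool.Agent.Lib.MP_42948a_nt.SV.B9a
import Pool.Agent.Lib.MP_42948a_nt.SV.B9b

/-!
# The small primes (job B9)

The primes `w1 ≤ p ≤ x^(1/15)`: `main_term` gives `(1/p)(1/Gs - Vd) ≤ 31/2000 (15/log x)^9 (log p)^8/p · (d/φ d)`; sum `≤ 31/2000 (15/log x)^9 (1/5)(log x/15)^8 (d/φ d) = 31/2000 · 15/5 · (d/φ d)/log x = .0465 (d/φ d)/log x`.
The primes `p < w1`: `small_term` with `δ = 10^-3/w1`: at most `w1 · δ/log x ≤ 10^-3/log x ≤ 10^-3 (d/φ d)/log x`. Total `≤ .0475 ≤ 1/20`.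
-/

namespace Pool.Agent.Lib.MP_42948a_nt.SV

open Finset Pool.Agent.Lib.MP_42948a_nt.OA Pool.Agent.Lib.MP_42948a_nt.OM

theorem small_primes : ∃ x0 : ℝ, 2 ≤ x0 ∧ ∀ x : ℝ, x0 ≤ x → ∀ d : ℕ, 1 ≤ d → (d : ℝ) ≤ x ^ 2 →
    ∑ p ∈ Pw d (⌊x ^ (1 / 15 : ℝ)⌋₊ + 1), 1 / (p : ℝ) * (1 / Gs d p (Xx x p) - Vd d p) ≤
      1 / 20 * ((d : ℝ) / d.totient / Real.log x) := by
  classical
  obtain ⟨w1, hw1, x1, hx1, hmain⟩ := main_term
  have hw1r : (0 : ℝ) < w1 := by
    have : 0 < w1 := by omega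
    exact_mod_cast this
  obtain ⟨x2, hx2, hsmall⟩ := small_term w1 hw1 (1 / 1000 / w1) (by positivity)
  obtain ⟨x3, hx3, hlog⟩ := logpow_sum
  refine ⟨max x1 (max x2 x3), hx1.trans (le_max_left _ _), fun x hx d hd hdx => ?_⟩
  have hxx1 : x1 ≤ x := (le_max_left _ _).trans hx
  have hxx2 : x2 ≤ x := ((le_max_left _ _).trans (le_max_right _ _)).trans hx
  have hxx3 : x3 ≤ x := ((le_max_right _ _).trans (le_max_right _ _)).trans hx
  have hx2' : 2 ≤ x := hx1.trans hxx1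
  have hlx : 0 < Real.log x := Real.log_pos (by linarith)
  have hX0 : 0 ≤ x ^ (1 / 15 : ℝ) := Real.rpow_nonneg (by linarith) _
  have hrd := one_le_rd hd
  have hrd0 : 0 ≤ (d : ℝ) / d.totient := zero_le_one.trans hrd
  set S := Pw d (⌊x ^ (1 / 15 : ℝ)⌋₊ + 1) with hS
  rw [← sum_filter_add_sum_filter_not S (fun p => p < w1)]
  have h1 : ∑ p ∈ S.filter (fun p => p < w1), 1 / (p : ℝ) * (1 / Gs d p (Xx x p) - Vd d p) ≤
      1 / 1000 * ((d : ℝ) / d.totient / Real.log x) := by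
    have h2 : ∀ p ∈ S.filter (fun p => p < w1),
        1 / (p : ℝ) * (1 / Gs d p (Xx x p) - Vd d p) ≤ 1 / 1000 / w1 / Real.log x := by
      intro p hp
      rw [mem_filter] at hp
      have hpp := (mem_Pw.1 hp.1).2.1
      have hp1 : (1 : ℝ) ≤ p := by exact_mod_cast hpp.one_lt.le
      have h3 := hsmall x hxx2 d hd p hpp hp.2
      have h4 : 1 / (p : ℝ) ≤ 1 := by
        rw [div_le_one (by linarith)]
        exact hp1
      have h5 : 0 ≤ 1 / (p : ℝ) := by positivity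
      have h6 : 0 ≤ 1 / 1000 / (w1 : ℝ) / Real.log x := by positivity
      calc 1 / (p : ℝ) * (1 / Gs d p (Xx x p) - Vd d p)
          ≤ 1 / (p : ℝ) * (1 / 1000 / w1 / Real.log x) := mul_le_mul_of_nonneg_left h3 h5
        _ ≤ 1 * (1 / 1000 / w1 / Real.log x) := mul_le_mul_of_nonneg_right h4 h6
        _ = 1 / 1000 / w1 / Real.log x := one_mul _
    refine (sum_le_sum h2).trans ?_
    rw [sum_const, nsmul_eq_mul]
    have h3 : (S.filter (fun p => p < w1)).card ≤ w1 := by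
      have h4 : S.filter (fun p => p < w1) ⊆ range w1 := by
        intro p hp
        rw [mem_filter] at hp
        exact mem_range.2 hp.2
      have h5 := card_le_card h4
      rwa [card_range] at h5
    have h4 : ((S.filter (fun p => p < w1)).card : ℝ) ≤ w1 := by exact_mod_cast h3
    have h6 : 0 ≤ 1 / 1000 / (w1 : ℝ) / Real.log x := by positivity
    calc ((S.filter (fun p => p < w1)).card : ℝ) * (1 / 1000 / w1 / Real.log x)
        ≤ w1 * (1 / 1000 / w1 / Real.log x) := mul_le_mul_of_nonneg_right h4 h6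
      _ = 1 / 1000 * (1 / Real.log x) := by
          field_simp
      _ ≤ 1 / 1000 * ((d : ℝ) / d.totient / Real.log x) := by
          refine mul_le_mul_of_nonneg_left ?_ (by norm_num)
          exact div_le_div_of_nonneg_right hrd hlx.le
  have h2 : ∑ p ∈ S.filter (fun p => ¬ p < w1), 1 / (p : ℝ) * (1 / Gs d p (Xx x p) - Vd d p) ≤
      93 / 2000 * ((d : ℝ) / d.totient / Real.log x) := by
    have h3 : ∀ p ∈ S.filter (fun p => ¬ p < w1),
        1 / (p : ℝ) * (1 / Gs d p (Xx x p) - Vd d p) ≤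
          31 / 2000 * (15 / Real.log x) ^ 9 * ((d : ℝ) / d.totient) * (Real.log p ^ 8 / p) := by
      intro p hp
      rw [mem_filter] at hp
      obtain ⟨hpS, hpw⟩ := hp
      obtain ⟨hpX, hpp, hpd⟩ := mem_Pw.1 hpS
      have hpX' : (p : ℝ) ≤ x ^ (1 / 15 : ℝ) :=
        (Nat.le_floor_iff hX0).1 (Nat.lt_succ_iff.1 hpX)
      have h4 := hmain x hxx1 d hd p hpp (not_lt.1 hpw) hpX'
      have hp1 : (1 : ℝ) < p := by exact_mod_cast hpp.one_lt
      have hlp : 0 < Real.log p := Real.log_pos hp1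
      have h5 : 0 ≤ 1 / (p : ℝ) := by positivity
      refine (mul_le_mul_of_nonneg_left h4 h5).trans (le_of_eq ?_)
      field_simp
    refine (sum_le_sum h3).trans ?_
    rw [← mul_sum]
    have h4 : ∑ p ∈ S.filter (fun p => ¬ p < w1), Real.log p ^ 8 / (p : ℝ) ≤
        1 / 5 * (Real.log x / 15) ^ 8 := by
      refine le_trans ?_ (hlog x hxx3)
      refine sum_le_sum_of_subset_of_nonneg ?_ fun p hp _ => ?_
      · intro p hp
        rw [mem_filter] at hp
        obtain ⟨hpX, hpp, hpd⟩ := mem_Pw.1 hp.1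
        rw [mem_Pri zero_le_one]
        refine ⟨hpp, by exact_mod_cast hpp.one_lt, ?_⟩
        exact (Nat.le_floor_iff hX0).1 (Nat.lt_succ_iff.1 hpX)
      · rw [mem_Pri zero_le_one] at hp
        have h5 : 0 ≤ Real.log p := Real.log_nonneg hp.2.1.le
        positivity
    have h5 : 0 ≤ 31 / 2000 * (15 / Real.log x) ^ 9 * ((d : ℝ) / d.totient) := by positivity
    refine (mul_le_mul_of_nonneg_left h4 h5).trans (le_of_eq ?_)
    field_simp
    ring
  have h3 : 0 ≤ (d : ℝ) / d.totient / Real.log x := by positivity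
  linarith

end Pool.Agent.Lib.MP_42948a_nt.SV
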