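import Pool.Agent.Lib.MP_42948a_nt.SV.B5
import Pool.Agent.Lib.MP_42948a_nt.SV.B6
import Pool.Agent.Lib.MP_42948a_nt.SV.B7

/-!
# The small primes: bound of one term (job B9a)

`w = p`, `ξ = Xx x p`, `ε = η/log p`, `η = 11/5`, `t = log p/log x ≤ 1/15`. `lt_Xx`: `log(ξ+1) ≥ (299/500 log x - log p)/2`, so `ε log(ξ+1) ≥ η (299/500/t - 1)/2 = 3289/5000/t - 11/10`. `rankin` and `rsum_sharp`:
`1 - Vd Gs ≤ T`, `T = exp(-(3289/5000)/t + 11/10 + 91/20)`. As `t ≤ 1/15`: `exp(-(3289/5000)/t) ≤ exp(-9.867) (15 t)^9` (put `s = 1/(15 t) ≥ 1`: `9.867 s ≥ 9.867 + 9 log s`, as `log s ≤ s - 1`), so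
`T ≤ e^(-9.867+5.65) (15t)^9 = e^(-4.217) (15 t)^9 ≤ 3/200 (15 t)^9`. `1/Gs - Vd = (1 - Vd Gs)/Gs ≤ T Vd/(1-T)` if the left side is positive (`Gs ≥ (1-T)/Vd`), `1/(1-T) ≤ 200/197`, `Vd d p ≤ (d/φ d)/log(p-1)`,
and `log(p-1) ≥ (1 - 1/1000) log p` for large `p`. In total the constant is `3/200 · 200/197 · 1000/999 < 31/2000`.
`small_term` (all `p ≥ 2`, for the `p` below a constant): `rsum_crude` instead, `w = p ≤ w1`, so `T ≤ exp(C - (11/5) log(ξ+1)/log w1)` is as small as we want: `log(ξ+1) ≥ (299/500 log x - log w1)/2`, so `T ≤ C' x^(-κ)`; `Vd ≤ 1 ≤ d/φ d`.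
-/

namespace Pool.Agent.Lib.MP_42948a_nt.SV

open Finset Pool.Agent.Lib.MP_42948a_nt.OA Pool.Agent.Lib.MP_42948a_nt.OM

private theorem SV_B9a_aux {V G T : ℝ} (hV : 0 < V) (hT : T < 1) (h : 1 ≤ V * G + T) :
    1 / G - V ≤ V * T / (1 - T) := by
  have h1 : 0 < 1 - T := by linarith
  have h2 : 0 < V * G := by linarith
  have hG : 0 < G := by
    by_contra h3
    have h4 : V * G ≤ 0 := mul_nonpos_of_nonneg_of_nonpos hV.le (not_lt.mp h3)
    linarith
  have h3 : 1 / G ≤ V / (1 - T) := by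
    rw [div_le_div_iff₀ hG h1]
    linarith
  have h4 : V / (1 - T) - V = V * T / (1 - T) := by
    field_simp
    ring
  linarith

private theorem SV_B9a_log {x : ℝ} (hx : 0 < x) {p : ℕ} (hp : 1 ≤ p) :
    (299 / 500 * Real.log x - Real.log p) / 2 ≤ Real.log ((Xx x p : ℝ) + 1) := by
  have h1 := lt_Xx (x := x) hp
  have hp0 : (0 : ℝ) < p := by exact_mod_cast hp
  have h2 : (0 : ℝ) < (Xx x p : ℝ) + 1 := by positivity
  have h3 := Real.log_le_log (Real.rpow_pos_of_pos hx _) h1.le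
  rw [Real.log_rpow hx, Real.log_mul hp0.ne' (by positivity), Real.log_pow] at h3
  push_cast at h3
  linarith

private theorem SV_B9a_exp : Real.exp (-(4217 / 1000) : ℝ) ≤ 3 / 200 := by
  rw [Real.exp_neg, inv_le_comm₀ (Real.exp_pos _) (by norm_num)]
  have h1 : Real.exp (4217 / 1000 : ℝ) = Real.exp 1 ^ 4 * Real.exp (217 / 1000 : ℝ) := by
    rw [← Real.exp_nat_mul, ← Real.exp_add]
    norm_num
  rw [h1]
  have h2 : (2718 / 1000 : ℝ) ≤ Real.exp 1 := by
    have := Real.exp_one_gt_d9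
    linarith
  have h3 : (1 + 217 / 1000 + (217 / 1000) ^ 2 / 2 : ℝ) ≤ Real.exp (217 / 1000 : ℝ) :=
    Real.quadratic_le_exp_of_nonneg (by norm_num)
  have h4 : (2718 / 1000 : ℝ) ^ 4 ≤ Real.exp 1 ^ 4 := pow_le_pow_left₀ (by norm_num) h2 4
  calc ((3 / 200 : ℝ))⁻¹ ≤ (2718 / 1000 : ℝ) ^ 4 * (1 + 217 / 1000 + (217 / 1000) ^ 2 / 2) := by
        norm_num
    _ ≤ Real.exp 1 ^ 4 * Real.exp (217 / 1000 : ℝ) := mul_le_mul h4 h3 (by norm_num) (by positivity)

theorem main_term : ∃ w1 : ℕ, 3 ≤ w1 ∧ ∃ x0 : ℝ, 2 ≤ x0 ∧ ∀ x : ℝ, x0 ≤ x → ∀ d : ℕ, 1 ≤ d → ∀ p : ℕ, p.Prime → w1 ≤ p →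
    (p : ℝ) ≤ x ^ (1 / 15 : ℝ) →
      1 / Gs d p (Xx x p) - Vd d p ≤
        31 / 2000 * (15 * Real.log p / Real.log x) ^ 9 * ((d : ℝ) / d.totient / Real.log p) := by
  obtain ⟨w0, hw0, hS⟩ := rsum_sharp
  refine ⟨max w0 1001, by omega, 2, le_refl 2, ?_⟩
  intro x hx d hd p hp hwp hpx
  have hx0 : 0 < x := by linarith
  have hL : 0 < Real.log x := Real.log_pos (by linarith)
  have hp1001 : 1001 ≤ p := (le_max_right _ _).trans hwp
  have hpR : (1001 : ℝ) ≤ p := by exact_mod_cast hp1001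
  have hp0 : (0 : ℝ) < p := by linarith
  have hl1 : 1 ≤ Real.log p := by
    rw [Real.le_log_iff_exp_le hp0]
    have := Real.exp_one_lt_d9
    linarith
  have hl : 0 < Real.log p := by linarith
  have hlL : Real.log p ≤ 1 / 15 * Real.log x := by
    have h5 := Real.log_le_log hp0 hpx
    rwa [Real.log_rpow hx0] at h5
  have hlog := SV_B9a_log hx0 (p := p) hp.one_lt.le
  have hr := rankin d p (Xx x p) ((11 / 5 : ℝ) / Real.log p) (by positivity)
  have hs := hS p ((le_max_left _ _).trans hwp) d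
  set L := Real.log x with hLdef
  set l := Real.log p with hldef
  set s := L / (15 * l) with hsdef
  have hs1 : 1 ≤ s := by
    rw [hsdef, le_div_iff₀ (by positivity)]
    linarith
  have hs0 : 0 < s := by linarith
  have hexp : -((11 / 5 : ℝ) / l * Real.log ((Xx x p : ℝ) + 1)) +
      ∑ q ∈ Pw d p, ((q : ℝ) ^ ((11 / 5 : ℝ) / l) - 1) / q ≤ -(4217 / 1000) - 9 * Real.log s := by
    have h1 : (11 / 5 : ℝ) / l * ((299 / 500 * L - l) / 2) ≤
        (11 / 5 : ℝ) / l * Real.log ((Xx x p : ℝ) + 1) :=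
      mul_le_mul_of_nonneg_left hlog (by positivity)
    have h2 : (11 / 5 : ℝ) / l * ((299 / 500 * L - l) / 2) = 9867 / 1000 * s - 11 / 10 := by
      rw [hsdef]
      field_simp
      ring
    have h3 : Real.log s ≤ s - 1 := Real.log_le_sub_one_of_pos hs0
    rw [h2] at h1
    linarith
  have hT : Real.exp (-((11 / 5 : ℝ) / l * Real.log ((Xx x p : ℝ) + 1)) +
      ∑ q ∈ Pw d p, ((q : ℝ) ^ ((11 / 5 : ℝ) / l) - 1) / q) ≤ 3 / 200 * (15 * l / L) ^ 9 := by
    refine (Real.exp_le_exp.mpr hexp).trans ?_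
    rw [sub_eq_add_neg, Real.exp_add]
    have h1 : Real.exp (-(9 * Real.log s)) = (15 * l / L) ^ 9 := by
      have h2 : 9 * Real.log s = Real.log (s ^ 9) := by
        rw [Real.log_pow]
        norm_num
      rw [h2, Real.exp_neg, Real.exp_log (by positivity), hsdef, ← inv_pow, inv_div]
    rw [h1]
    exact mul_le_mul_of_nonneg_right SV_B9a_exp (by positivity)
  set T := 3 / 200 * (15 * l / L) ^ 9 with hTdef
  have ht1 : 15 * l / L ≤ 1 := by
    rw [div_le_one hL]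
    linarith
  have ht9 : (15 * l / L) ^ 9 ≤ 1 := pow_le_one₀ (by positivity) ht1
  have hT3 : T ≤ 3 / 200 := by
    rw [hTdef]
    linarith
  have hT0 : 0 ≤ T := by positivity
  have hVG : 1 ≤ Vd d p * Gs d p (Xx x p) + T := hr.trans (by linarith)
  have h1 := SV_B9a_aux (Vd_pos d p) (show T < 1 by linarith) hVG
  refine h1.trans ?_
  have hV := Vd_upper hd p (by omega)
  have hlp : 999 / 1000 * l ≤ Real.log ((p : ℝ) - 1) := by
    have h2 : Real.log p - Real.log ((p : ℝ) - 1) ≤ 1 / 1000 := by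
      have h3 : (0 : ℝ) < (p : ℝ) - 1 := by linarith
      rw [← Real.log_div hp0.ne' h3.ne']
      have h4 := Real.log_le_sub_one_of_pos (show 0 < (p : ℝ) / ((p : ℝ) - 1) by positivity)
      have h5 : (p : ℝ) / ((p : ℝ) - 1) - 1 = 1 / ((p : ℝ) - 1) := by
        field_simp
        ring
      rw [h5] at h4
      refine h4.trans ?_
      exact one_div_le_one_div_of_le (by norm_num) (by linarith)
    linarith
  have hdt : (0 : ℝ) < (d : ℝ) / d.totient := lt_of_lt_of_le one_pos (one_le_rd hd)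
  have hV2 : Vd d p ≤ (d : ℝ) / d.totient / l * (1000 / 999) := by
    refine hV.trans ?_
    rw [div_mul_eq_mul_div, div_le_div_iff₀ (by linarith) hl]
    have h6 : (d : ℝ) / d.totient * (1000 / 999) * (999 / 1000 * l) ≤
        (d : ℝ) / d.totient * (1000 / 999) * Real.log ((p : ℝ) - 1) :=
      mul_le_mul_of_nonneg_left hlp (by positivity)
    calc (d : ℝ) / d.totient * l = (d : ℝ) / d.totient * (1000 / 999) * (999 / 1000 * l) := by ring
      _ ≤ _ := h6
  have h7 : Vd d p * T / (1 - T) ≤ ((d : ℝ) / d.totient / l * (1000 / 999)) * T / (197 / 200) := by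
    apply div_le_div₀
    · positivity
    · exact mul_le_mul_of_nonneg_right hV2 hT0
    · norm_num
    · linarith
  refine h7.trans ?_
  have h8 : ((d : ℝ) / d.totient / l * (1000 / 999)) * T / (197 / 200) =
      (1000 / 999 * (3 / 200) / (197 / 200)) * ((15 * l / L) ^ 9 * ((d : ℝ) / d.totient / l)) := by
    rw [hTdef]
    ring
  rw [h8, mul_assoc (31 / 2000 : ℝ)]
  refine mul_le_mul_of_nonneg_right (by norm_num) ?_
  positivity

theorem small_term (w1 : ℕ) (hw : 3 ≤ w1) (δ : ℝ) (hδ : 0 < δ) : ∃ x0 : ℝ, 2 ≤ x0 ∧ ∀ x : ℝ, x0 ≤ x → ∀ d : ℕ, 1 ≤ d →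
    ∀ p : ℕ, p.Prime → p < w1 → 1 / Gs d p (Xx x p) - Vd d p ≤ δ / Real.log x := by
  obtain ⟨C, hC0, hC⟩ := rsum_crude
  have hw1R : (3 : ℝ) ≤ w1 := by exact_mod_cast hw
  have hlw : 0 < Real.log w1 := Real.log_pos (by linarith)
  set κ := 3289 / 5000 / Real.log w1 with hκ
  have hκ0 : 0 < κ := by positivity
  set A := Real.exp (C + 11 / 10) with hA
  have hA0 : 0 < A := Real.exp_pos _
  set L0 := max 1 (max (4 * A / (κ ^ 2 * δ)) (4 * A / κ ^ 2)) with hL0
  refine ⟨max 2 (Real.exp L0), le_max_left _ _, ?_⟩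
  intro x hx d hd p hp hpw
  have hx2 : 2 ≤ x := (le_max_left _ _).trans hx
  have hx0 : 0 < x := by linarith
  have hLx : L0 ≤ Real.log x := by
    rw [Real.le_log_iff_exp_le hx0]
    exact (le_max_right _ _).trans hx
  have hL1 : 1 ≤ Real.log x := (le_max_left _ _).trans hLx
  have hL2 : 4 * A / (κ ^ 2 * δ) ≤ Real.log x :=
    ((le_max_left _ _).trans (le_max_right _ _)).trans hLx
  have hL3 : 4 * A / κ ^ 2 ≤ Real.log x :=
    ((le_max_right _ _).trans (le_max_right _ _)).trans hLx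
  have hp2 : (2 : ℝ) ≤ p := by exact_mod_cast hp.two_le
  have hp0 : (0 : ℝ) < p := by linarith
  have hl : 0 < Real.log p := Real.log_pos (by linarith)
  have hlw2 : Real.log p ≤ Real.log w1 := Real.log_le_log hp0 (by exact_mod_cast hpw.le)
  have hlog := SV_B9a_log hx0 (p := p) hp.one_lt.le
  have hr := rankin d p (Xx x p) ((11 / 5 : ℝ) / Real.log p) (by positivity)
  have hs := hC p hp.two_le d
  set L := Real.log x with hLdef
  set l := Real.log p with hldef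
  have hexp : -((11 / 5 : ℝ) / l * Real.log ((Xx x p : ℝ) + 1)) +
      ∑ q ∈ Pw d p, ((q : ℝ) ^ ((11 / 5 : ℝ) / l) - 1) / q ≤ (C + 11 / 10) - κ * L := by
    have h1 : (11 / 5 : ℝ) / l * ((299 / 500 * L - l) / 2) ≤
        (11 / 5 : ℝ) / l * Real.log ((Xx x p : ℝ) + 1) :=
      mul_le_mul_of_nonneg_left hlog (by positivity)
    have h2 : (11 / 5 : ℝ) / l * ((299 / 500 * L - l) / 2) = 3289 / 5000 / l * L - 11 / 10 := by
      field_simp
      ring
    have h3 : κ * L ≤ 3289 / 5000 / l * L := by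
      refine mul_le_mul_of_nonneg_right ?_ (by linarith)
      rw [hκ]
      exact div_le_div_of_nonneg_left (by norm_num) hl hlw2
    rw [h2] at h1
    linarith
  set T := A * Real.exp (-(κ * L)) with hTdef
  have hT : Real.exp (-((11 / 5 : ℝ) / l * Real.log ((Xx x p : ℝ) + 1)) +
      ∑ q ∈ Pw d p, ((q : ℝ) ^ ((11 / 5 : ℝ) / l) - 1) / q) ≤ T := by
    refine (Real.exp_le_exp.mpr hexp).trans ?_
    rw [sub_eq_add_neg, Real.exp_add]
  have hL0' : 0 < L := by linarith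
  have hT0 : 0 < T := by positivity
  have hTL : T ≤ 2 * A / (κ ^ 2 * L ^ 2) := by
    have h1 : (κ * L) ^ 2 / 2 ≤ Real.exp (κ * L) := by
      have h2 := Real.quadratic_le_exp_of_nonneg (show 0 ≤ κ * L by positivity)
      have h3 : 0 ≤ κ * L := by positivity
      linarith
    have h4 : Real.exp (-(κ * L)) ≤ 2 / (κ * L) ^ 2 := by
      rw [Real.exp_neg, inv_le_comm₀ (Real.exp_pos _) (by positivity), inv_div]
      exact h1
    calc T ≤ A * (2 / (κ * L) ^ 2) := mul_le_mul_of_nonneg_left h4 hA0.le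
      _ = 2 * A / (κ ^ 2 * L ^ 2) := by
        rw [mul_pow]
        ring
  have hT2 : T ≤ 1 / 2 := by
    refine hTL.trans ?_
    rw [div_le_iff₀ (by positivity)] at hL3 ⊢
    have h5 : 1 * L ≤ L * L := mul_le_mul_of_nonneg_right hL1 hL0'.le
    have h6 : L * κ ^ 2 ≤ L * L * κ ^ 2 := by
      refine mul_le_mul_of_nonneg_right ?_ (by positivity)
      linarith
    calc 2 * A ≤ 1 / 2 * (L * κ ^ 2) := by linarith
      _ ≤ 1 / 2 * (L * L * κ ^ 2) := by linarith
      _ = 1 / 2 * (κ ^ 2 * L ^ 2) := by ring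
  have hT3 : 2 * T ≤ δ / L := by
    rw [le_div_iff₀ hL0']
    have h5 : 2 * T * L ≤ 2 * (2 * A / (κ ^ 2 * L ^ 2)) * L := by
      refine mul_le_mul_of_nonneg_right ?_ hL0'.le
      linarith
    refine h5.trans ?_
    have h6 : 2 * (2 * A / (κ ^ 2 * L ^ 2)) * L = 4 * A / (κ ^ 2 * L) := by
      field_simp
      ring
    rw [h6]
    rw [div_le_iff₀ (by positivity)] at hL2 ⊢
    calc 4 * A ≤ L * (κ ^ 2 * δ) := hL2
      _ = δ * (κ ^ 2 * L) := by ring
  have hVG : 1 ≤ Vd d p * Gs d p (Xx x p) + T := hr.trans (by linarith)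
  have h1 := SV_B9a_aux (Vd_pos d p) (show T < 1 by linarith) hVG
  refine (h1.trans ?_).trans hT3
  have hV1 := Vd_le_one d p
  have hV0 := Vd_pos d p
  rw [div_le_iff₀ (by linarith)]
  have h7 : Vd d p * T ≤ 1 * T := mul_le_mul_of_nonneg_right hV1 hT0.le
  have h8 : 2 * T * (1 / 2) ≤ 2 * T * (1 - T) := mul_le_mul_of_nonneg_left (by linarith) (by positivity)
  linarith

end Pool.Agent.Lib.MP_42948a_nt.SV
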