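import Pool.Agent.Lib.MP_42948a_nt.SV.B8
import Pool.Agent.Lib.MP_42948a_nt.SV.B9
import Pool.Agent.Lib.MP_42948a_nt.SV.B10b
import Pool.Agent.Lib.MP_42948a_nt.SV.B10c

/-!
# The main term of the weighted sieve is positive
-/

namespace Pool.Agent.Lib.MP_42948a_nt.SV

open Finset Pool.Agent.Lib.MP_42948a_nt.OA Pool.Agent.Lib.MP_42948a_nt.OM

private theorem Px_split {x : ℝ} (hx : 2 ≤ x) (d : ℕ) (f : ℕ → ℝ) :
    ∑ p ∈ Px d x, f p = ∑ p ∈ Pw d (⌊x ^ (1 / 15 : ℝ)⌋₊ + 1), f p +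
      ∑ p ∈ Prd d (x ^ (1 / 15 : ℝ)) (x ^ (1 / 9 : ℝ)), f p +
      ∑ p ∈ Prd d (x ^ (1 / 9 : ℝ)) (x ^ (8 / 15 : ℝ)), f p := by
  classical
  have hx0 : (0 : ℝ) ≤ x := by linarith
  have hx1 : (1 : ℝ) ≤ x := by linarith
  have h1 : (0 : ℝ) ≤ x ^ (1 / 15 : ℝ) := Real.rpow_nonneg hx0 _
  have h2 : (0 : ℝ) ≤ x ^ (1 / 9 : ℝ) := Real.rpow_nonneg hx0 _
  have h3 : (0 : ℝ) ≤ x ^ (8 / 15 : ℝ) := Real.rpow_nonneg hx0 _
  have h12 : x ^ (1 / 15 : ℝ) ≤ x ^ (1 / 9 : ℝ) := Real.rpow_le_rpow_of_exponent_le hx1 (by norm_num)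
  have h23 : x ^ (1 / 9 : ℝ) ≤ x ^ (8 / 15 : ℝ) := Real.rpow_le_rpow_of_exponent_le hx1 (by norm_num)
  have hd1 : Disjoint (Pw d (⌊x ^ (1 / 15 : ℝ)⌋₊ + 1)) (Prd d (x ^ (1 / 15 : ℝ)) (x ^ (1 / 9 : ℝ))) := by
    rw [Finset.disjoint_left]
    intro p hp hq
    rw [mem_Pw] at hp
    rw [mem_Prd h1] at hq
    have h4 : p ≤ ⌊x ^ (1 / 15 : ℝ)⌋₊ := Nat.lt_succ_iff.mp hp.1
    have h5 : (p : ℝ) ≤ x ^ (1 / 15 : ℝ) := (Nat.le_floor_iff h1).mp h4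
    exact absurd hq.1.2.1 (not_lt.mpr h5)
  have hd2 : Disjoint (Pw d (⌊x ^ (1 / 15 : ℝ)⌋₊ + 1) ∪ Prd d (x ^ (1 / 15 : ℝ)) (x ^ (1 / 9 : ℝ)))
      (Prd d (x ^ (1 / 9 : ℝ)) (x ^ (8 / 15 : ℝ))) := by
    rw [Finset.disjoint_left]
    intro p hp hq
    rw [mem_Prd h2] at hq
    rw [mem_union] at hp
    rcases hp with hp | hp
    · rw [mem_Pw] at hp
      have h4 : p ≤ ⌊x ^ (1 / 15 : ℝ)⌋₊ := Nat.lt_succ_iff.mp hp.1
      have h5 : (p : ℝ) ≤ x ^ (1 / 15 : ℝ) := (Nat.le_floor_iff h1).mp h4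
      exact absurd hq.1.2.1 (not_lt.mpr (h5.trans h12))
    · rw [mem_Prd h1] at hp
      exact absurd hq.1.2.1 (not_lt.mpr hp.1.2.2)
  have hU : Px d x = (Pw d (⌊x ^ (1 / 15 : ℝ)⌋₊ + 1) ∪ Prd d (x ^ (1 / 15 : ℝ)) (x ^ (1 / 9 : ℝ))) ∪
      Prd d (x ^ (1 / 9 : ℝ)) (x ^ (8 / 15 : ℝ)) := by
    ext p
    rw [mem_union, mem_union, mem_Prd h1, mem_Prd h2, mem_Pw]
    unfold Px
    rw [mem_Pw]
    constructor
    · rintro ⟨ha, hb, hc⟩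
      have h4 : p ≤ yx x := Nat.lt_succ_iff.mp ha
      have h5 : (p : ℝ) ≤ x ^ (8 / 15 : ℝ) := (Nat.le_floor_iff h3).mp h4
      by_cases h6 : (p : ℝ) ≤ x ^ (1 / 15 : ℝ)
      · left; left
        exact ⟨Nat.lt_succ_iff.mpr ((Nat.le_floor_iff h1).mpr h6), hb, hc⟩
      · push Not at h6
        by_cases h7 : (p : ℝ) ≤ x ^ (1 / 9 : ℝ)
        · left; right
          exact ⟨⟨hb, h6, h7⟩, hc⟩
        · push Not at h7
          right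
          exact ⟨⟨hb, h7, h5⟩, hc⟩
    · rintro ((⟨ha, hb, hc⟩ | ⟨⟨hb, _, ha⟩, hc⟩) | ⟨⟨hb, _, ha⟩, hc⟩)
      · refine ⟨?_, hb, hc⟩
        have h4 : p ≤ ⌊x ^ (1 / 15 : ℝ)⌋₊ := Nat.lt_succ_iff.mp ha
        exact Nat.lt_succ_iff.mpr (h4.trans (Nat.floor_le_floor (h12.trans h23)))
      · exact ⟨Nat.lt_succ_iff.mpr ((Nat.le_floor_iff h3).mpr (ha.trans h23)), hb, hc⟩
      · exact ⟨Nat.lt_succ_iff.mpr ((Nat.le_floor_iff h3).mpr ha), hb, hc⟩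
  rw [hU, sum_union hd2, sum_union hd1]

theorem main_lower : ∃ x0 : ℝ, 2 ≤ x0 ∧ ∀ x : ℝ, x0 ≤ x → ∀ d : ℕ, 1 ≤ d → (d : ℝ) ≤ x ^ 2 →
    9 / 100 * ((d : ℝ) / d.totient / Real.log x) ≤
      1 - ∑ p ∈ Px d x, cx x p / (p * Gs d (Wx x p) (Xx x p)) := by
  obtain ⟨x1, hx1, h1⟩ := Vd_lower
  obtain ⟨x2, hx2, h2⟩ := small_primes
  obtain ⟨x3, hx3, h3⟩ := reg1
  obtain ⟨x4, hx4, h4⟩ := reg2
  refine ⟨x1 + x2 + x3 + x4, by linarith, ?_⟩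
  intro x hx d hd hdx
  have g1 := h1 x (by linarith) d hd hdx
  have g2 := h2 x (by linarith) d hd hdx
  have g3 := h3 x (by linarith) d hd hdx
  have g4 := h4 x (by linarith) d hd hdx
  have hx2' : (2 : ℝ) ≤ x := by linarith
  have hx0 : (0 : ℝ) ≤ x := by linarith
  have hx1' : (1 : ℝ) ≤ x := by linarith
  have p1 : (0 : ℝ) ≤ x ^ (1 / 15 : ℝ) := Real.rpow_nonneg hx0 _
  have p2 : (0 : ℝ) ≤ x ^ (1 / 9 : ℝ) := Real.rpow_nonneg hx0 _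
  have h12 : x ^ (1 / 15 : ℝ) ≤ x ^ (1 / 9 : ℝ) := Real.rpow_le_rpow_of_exponent_le hx1' (by norm_num)
  have hR : 0 ≤ (d : ℝ) / d.totient / Real.log x := by
    have hl : 0 ≤ Real.log x := Real.log_nonneg hx1'
    positivity
  rw [Px_split hx2' d]
  have e1 : ∑ p ∈ Pw d (⌊x ^ (1 / 15 : ℝ)⌋₊ + 1), cx x p / (p * Gs d (Wx x p) (Xx x p)) =
      ∑ p ∈ Pw d (⌊x ^ (1 / 15 : ℝ)⌋₊ + 1), Vd d p / p +
        ∑ p ∈ Pw d (⌊x ^ (1 / 15 : ℝ)⌋₊ + 1), 1 / (p : ℝ) * (1 / Gs d p (Xx x p) - Vd d p) := by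
    rw [← sum_add_distrib]
    refine sum_congr rfl fun p hp => ?_
    rw [mem_Pw] at hp
    have h5 : p ≤ ⌊x ^ (1 / 15 : ℝ)⌋₊ := Nat.lt_succ_iff.mp hp.1
    have h6 : p ≤ zx x := h5.trans (Nat.floor_le_floor h12)
    have hc : cx x p = 1 := by
      unfold cx
      rw [if_pos h6]
    have hW : Wx x p = p := by
      unfold Wx
      exact min_eq_left (by omega)
    have hp0 : (p : ℝ) ≠ 0 := by
      have := hp.2.1.pos
      positivity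
    have hy : p ≤ yx x := h6.trans (by
      unfold zx yx
      exact Nat.floor_le_floor (Real.rpow_le_rpow_of_exponent_le hx1' (by norm_num)))
    have hG : Gs d p (Xx x p) ≠ 0 := (Gs_pos d p (one_le_Xx hx1' hp.2.1.pos hy)).ne'
    rw [hc, hW]
    field_simp
    ring
  have e2 : ∑ p ∈ Prd d (x ^ (1 / 15 : ℝ)) (x ^ (1 / 9 : ℝ)), cx x p / (p * Gs d (Wx x p) (Xx x p)) =
      ∑ p ∈ Prd d (x ^ (1 / 15 : ℝ)) (x ^ (1 / 9 : ℝ)), 1 / (p * Gs d p (Xx x p)) := by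
    refine sum_congr rfl fun p hp => ?_
    rw [mem_Prd p1] at hp
    have h6 : p ≤ zx x := (Nat.le_floor_iff p2).mpr hp.1.2.2
    have hc : cx x p = 1 := by
      unfold cx
      rw [if_pos h6]
    have hW : Wx x p = p := by
      unfold Wx
      exact min_eq_left (by omega)
    rw [hc, hW]
  have e3 : ∑ p ∈ Prd d (x ^ (1 / 9 : ℝ)) (x ^ (8 / 15 : ℝ)), cx x p / (p * Gs d (Wx x p) (Xx x p)) =
      lz * ∑ p ∈ Prd d (x ^ (1 / 9 : ℝ)) (x ^ (8 / 15 : ℝ)),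
        (1 - 15 / 8 * (Real.log p / Real.log x)) / (p * Gs d (zx x + 1) (Xx x p)) := by
    rw [mul_sum]
    refine sum_congr rfl fun p hp => ?_
    rw [mem_Prd p2] at hp
    have h6 : ¬ p ≤ zx x := by
      intro h7
      have h8 : (p : ℝ) ≤ x ^ (1 / 9 : ℝ) := (Nat.le_floor_iff p2).mp h7
      exact absurd hp.1.2.1 (not_lt.mpr h8)
    have hc : cx x p = lz * (1 - 15 / 8 * (Real.log p / Real.log x)) := by
      unfold cx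
      rw [if_neg h6]
    have hW : Wx x p = zx x + 1 := by
      unfold Wx
      exact min_eq_right (by omega)
    rw [hc, hW, mul_div_assoc]
  have ht := Vd_tel d (⌊x ^ (1 / 15 : ℝ)⌋₊ + 1)
  rw [e1, e2, e3]
  have hlz : lz * (26 / 5 * ((d : ℝ) / d.totient / Real.log x)) ≤
      4631 / 1000 * ((d : ℝ) / d.totient / Real.log x) := by
    have h7 : lz * (26 / 5) ≤ 4631 / 1000 := by
      unfold lz
      norm_num
    calc lz * (26 / 5 * ((d : ℝ) / d.totient / Real.log x)) =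
        lz * (26 / 5) * ((d : ℝ) / d.totient / Real.log x) := by ring
      _ ≤ 4631 / 1000 * ((d : ℝ) / d.totient / Real.log x) := mul_le_mul_of_nonneg_right h7 hR
  have hlz0 : 0 ≤ lz := by
    unfold lz
    norm_num
  have g5 := (mul_le_mul_of_nonneg_left g4 hlz0).trans hlz
  linarith

end Pool.Agent.Lib.MP_42948a_nt.SV
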