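import Pool.Agent.Lib.MP_42948a_nt.SV.B1

/-!
# Mertens' product with an unspecified constant (job D1)

`Al N = ∑_{p ≤ N} -log(1 - 1/p)`. `f N = Al N - log log N`. For `2 ≤ N ≤ M`: `f M - f N = ∑_{N<p≤M} 1/p - log(log M/log N) + ∑_{N<p≤M} (-log(1-1/p) - 1/p)`, the first part is `O(1/log N)` by `mertA`, the second is
between `0` and `∑_{n > N} 1/n^2 ≤ 1/N` (`0 ≤ -log(1-t) - t ≤ t^2` for `0 ≤ t ≤ 1/2`). So `f` is a Cauchy sequence; `c` its limit; let `M → ∞`.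
-/

namespace Pool.Agent.Lib.MP_42948a_nt.SV

open Finset Pool.Agent.Lib.MP_42948a_nt.OA Pool.Agent.Lib.MP_42948a_nt.OM

/-- `∑_{p ≤ N} -log(1 - 1/p)` -/
noncomputable def Al (N : ℕ) : ℝ := ∑ p ∈ PP N, -Real.log (1 - 1 / (p : ℝ))

private theorem SV_D1_log {t : ℝ} (h0 : 0 ≤ t) (h1 : t ≤ 1 / 2) :
    0 ≤ -Real.log (1 - t) - t ∧ -Real.log (1 - t) - t ≤ 2 * t ^ 2 := by
  have hp : 0 < 1 - t := by linarith
  have e1 := Real.log_le_sub_one_of_pos hp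
  have e2 := Real.one_sub_inv_le_log_of_pos hp
  refine ⟨by linarith, ?_⟩
  have e3 : (1 - t)⁻¹ ≤ 1 + t + 2 * t ^ 2 := by
    rw [inv_le_iff_one_le_mul₀ hp]
    have h2 : 0 ≤ t ^ 2 * (1 - 2 * t) := mul_nonneg (sq_nonneg t) (by linarith)
    nlinarith [h2]
  linarith

private theorem SV_D1_step : ∃ K : ℝ, 0 ≤ K ∧ ∀ N M : ℕ, 2 ≤ N → N ≤ M →
    |(Al M - Real.log (Real.log M)) - (Al N - Real.log (Real.log N))| ≤ K / Real.log N := by
  obtain ⟨C, hC0, hC⟩ := mertA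
  refine ⟨C + 2, by linarith, fun N M hN hNM => ?_⟩
  have hN2 : (2 : ℝ) ≤ N := by exact_mod_cast hN
  have hNM' : (N : ℝ) ≤ M := by exact_mod_cast hNM
  have hlN : 0 < Real.log N := Real.log_pos (by linarith)
  have hlM : 0 < Real.log M := Real.log_pos (by linarith)
  have hPri : Pri (N : ℝ) (M : ℝ) = (Ioc N M).filter Nat.Prime := by
    unfold Pri
    rw [Nat.floor_natCast, Nat.floor_natCast]
  have hsum : Al M = Al N + ∑ p ∈ Pri (N : ℝ) (M : ℝ), -Real.log (1 - 1 / (p : ℝ)) := by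
    unfold Al PP
    rw [hPri, ← sum_union]
    · refine sum_congr ?_ fun _ _ => rfl
      ext p
      rw [mem_union, mem_filter, mem_filter, mem_filter, mem_Icc, mem_Icc, mem_Ioc]
      constructor
      · rintro ⟨⟨h1, h2⟩, h3⟩
        rcases le_or_gt p N with h | h
        · exact Or.inl ⟨⟨h1, h⟩, h3⟩
        · exact Or.inr ⟨⟨h, h2⟩, h3⟩
      · rintro (⟨⟨h1, h2⟩, h3⟩ | ⟨⟨h1, h2⟩, h3⟩)
        · exact ⟨⟨h1, h2.trans hNM⟩, h3⟩
        · exact ⟨⟨h3.one_lt.le, h2⟩, h3⟩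
    · rw [disjoint_left]
      intro p h1 h2
      rw [mem_filter, mem_Icc] at h1
      rw [mem_filter, mem_Ioc] at h2
      exact absurd h1.1.2 (not_le.mpr h2.1.1)
  have hr : ∀ p ∈ Pri (N : ℝ) (M : ℝ), 0 ≤ -Real.log (1 - 1 / (p : ℝ)) - 1 / (p : ℝ) ∧
      -Real.log (1 - 1 / (p : ℝ)) - 1 / (p : ℝ) ≤ 2 * (((p : ℝ) ^ 2)⁻¹) := by
    intro p hp
    rw [hPri, mem_filter] at hp
    have h2 : (2 : ℝ) ≤ p := by exact_mod_cast hp.2.two_le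
    have h3 : 1 / (p : ℝ) ≤ 1 / 2 := one_div_le_one_div_of_le (by norm_num) h2
    obtain ⟨a, b⟩ := SV_D1_log (by positivity) h3
    refine ⟨a, b.trans (le_of_eq ?_)⟩
    rw [one_div, inv_pow]
  have hR0 : 0 ≤ ∑ p ∈ Pri (N : ℝ) (M : ℝ), (-Real.log (1 - 1 / (p : ℝ)) - 1 / (p : ℝ)) :=
    sum_nonneg fun p hp => (hr p hp).1
  have hR1 : ∑ p ∈ Pri (N : ℝ) (M : ℝ), (-Real.log (1 - 1 / (p : ℝ)) - 1 / (p : ℝ)) ≤
      2 / Real.log N := by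
    have h1 : ∑ i ∈ Ioc N M, ((i : ℝ) ^ 2)⁻¹ ≤ (N : ℝ)⁻¹ - (M : ℝ)⁻¹ :=
      sum_Ioc_inv_sq_le_sub (by omega) hNM
    have h2 : ∑ p ∈ Pri (N : ℝ) (M : ℝ), (((p : ℝ) ^ 2)⁻¹) ≤ ∑ i ∈ Ioc N M, ((i : ℝ) ^ 2)⁻¹ := by
      rw [hPri]
      exact sum_le_sum_of_subset_of_nonneg (filter_subset _ _) fun i _ _ => by positivity
    have h3 : (0 : ℝ) ≤ (M : ℝ)⁻¹ := by positivity
    have h4 : (N : ℝ)⁻¹ ≤ (Real.log N)⁻¹ := by
      refine inv_anti₀ hlN ?_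
      have := Real.log_le_sub_one_of_pos (show (0 : ℝ) < N by linarith)
      linarith
    calc ∑ p ∈ Pri (N : ℝ) (M : ℝ), (-Real.log (1 - 1 / (p : ℝ)) - 1 / (p : ℝ))
        ≤ ∑ p ∈ Pri (N : ℝ) (M : ℝ), 2 * (((p : ℝ) ^ 2)⁻¹) := sum_le_sum fun p hp => (hr p hp).2
      _ = 2 * ∑ p ∈ Pri (N : ℝ) (M : ℝ), (((p : ℝ) ^ 2)⁻¹) := by rw [mul_sum]
      _ ≤ 2 * (Real.log N)⁻¹ := by
          refine mul_le_mul_of_nonneg_left ?_ (by norm_num)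
          linarith
      _ = 2 / Real.log N := by rw [div_eq_mul_inv]
  have hm := hC N M hN2 hNM'
  have hdiv : Real.log (Real.log M / Real.log N) = Real.log (Real.log M) - Real.log (Real.log N) :=
    Real.log_div hlM.ne' hlN.ne'
  rw [hdiv] at hm
  have hsplit : ∑ p ∈ Pri (N : ℝ) (M : ℝ), (-Real.log (1 - 1 / (p : ℝ)) - 1 / (p : ℝ)) =
      ∑ p ∈ Pri (N : ℝ) (M : ℝ), -Real.log (1 - 1 / (p : ℝ)) -
        ∑ p ∈ Pri (N : ℝ) (M : ℝ), 1 / (p : ℝ) := sum_sub_distrib _ _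
  have hm2 := abs_le.mp hm
  have hadd : (C + 2) / Real.log N = C / Real.log N + 2 / Real.log N := add_div _ _ _
  have h2pos : 0 ≤ 2 / Real.log N := by positivity
  rw [abs_le, hsum, hadd]
  constructor <;> linarith [hm2.1, hm2.2]

theorem Al_asymp : ∃ c C : ℝ, 0 ≤ C ∧ ∀ N : ℕ, 2 ≤ N → |Al N - Real.log (Real.log N) - c| ≤ C / Real.log N := by
  obtain ⟨K, hK0, hK⟩ := SV_D1_step
  obtain ⟨f, hf⟩ : ∃ f : ℕ → ℝ, f = fun N => Al N - Real.log (Real.log N) := ⟨_, rfl⟩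
  have hfK : ∀ N M : ℕ, 2 ≤ N → N ≤ M → |f M - f N| ≤ K / Real.log N := by
    intro N M h1 h2
    rw [hf]
    exact hK N M h1 h2
  have ht : Filter.Tendsto (fun N : ℕ => K / Real.log (N : ℝ)) Filter.atTop (nhds 0) :=
    (Real.tendsto_log_atTop.comp tendsto_natCast_atTop_atTop).const_div_atTop K
  have hcau : CauchySeq f := by
    rw [Metric.cauchySeq_iff']
    intro ε hε
    obtain ⟨N, hN1, hN2⟩ := ((ht.eventually_lt_const hε).and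
      (Filter.eventually_ge_atTop 2)).exists
    refine ⟨N, fun n hn => ?_⟩
    rw [Real.dist_eq]
    exact lt_of_le_of_lt (hfK N n hN2 hn) hN1
  obtain ⟨c, hc⟩ := cauchySeq_tendsto_of_complete hcau
  refine ⟨c, K, hK0, fun N hN => ?_⟩
  have h1 : Filter.Tendsto (fun M => |f M - f N|) Filter.atTop (nhds |c - f N|) :=
    (hc.sub_const (f N)).abs
  have h2 : |c - f N| ≤ K / Real.log N :=
    le_of_tendsto h1 ((Filter.eventually_ge_atTop N).mono fun M hM => hfK N M hN hM)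
  rw [abs_sub_comm, hf] at h2
  exact h2

end Pool.Agent.Lib.MP_42948a_nt.SV
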