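import Pool.Agent.Lib.MP_42948a_nt.SV.Defs

/-!
# The Dirichlet series at `1 + η` (job D2)

`α_p = -log(1-1/p) = ∑_k p^(-k)/k`. `α_p p^(-η) + log(1 - p^(-1-η)) = ∑_{k ≥ 2} p^(-k) (p^(-η) - p^(-kη))/k ≤ ∑_{k≥2} p^(-k) η log p ≤ 2 η log p/p^2` (`p^(-η) - p^(-kη) ≤ (k-1) η log p`).
In a finite form: with `t = 1/p ≤ 1/2`, `u = p^(-η) ∈ (0,1]`: `-u log(1-t) ≤ -log(1-tu) + 2 t^2 (1-u)` (the difference is zero at `u = 1`; its derivative in `u` ...; or by the power series), and `1 - u ≤ η log p`.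
So `∑_{p≤N} α_p p^(-η) ≤ ∑_{p ≤ N} -log(1-p^(-1-η)) + 2 η ∑_p log p/p^2`, and `∏_{p≤N} (1-p^(-1-η))⁻¹ ≤ ∑_{n≥1} n^(-1-η) ≤ 1 + 1/η ≤ (1/η)(1+η)` (as in `PS.harm`: `EulerProduct` with the completely multiplicative function `n ↦ n^(-1-η)`,
`ZetaAsymp`/`tsum` comparison with the integral), `log(1+η) ≤ η`.
-/

namespace Pool.Agent.Lib.MP_42948a_nt.SV

open Finset Pool.Agent.Lib.MP_42948a_nt.OA Pool.Agent.Lib.MP_42948a_nt.OM

private theorem SV_D2_step {η : ℝ} (hη : 0 < η) {M : ℕ} (hM : 1 ≤ M) :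
    ((M + 1 : ℕ) : ℝ) ^ (-(1 + η)) ≤ ((M : ℝ) ^ (-η) - ((M + 1 : ℕ) : ℝ) ^ (-η)) / η := by
  have hM1 : (1 : ℝ) ≤ M := by exact_mod_cast hM
  have hM0 : (0 : ℝ) < M := by linarith
  have hm : ((M + 1 : ℕ) : ℝ) = (M : ℝ) + 1 := by push_cast; ring
  rw [hm]
  set m : ℝ := (M : ℝ) + 1 with hmdef
  have hm0 : 0 < m := by linarith
  rw [le_div_iff₀ hη]
  have e1 : m ^ (-(1 + η)) = m ^ (-η) * m⁻¹ := by
    rw [← Real.rpow_neg_one, ← Real.rpow_add hm0]
    congr 1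
    ring
  have e2 : (M : ℝ) ^ (-η) = m ^ (-η) * (m / M) ^ η := by
    rw [Real.rpow_neg hM0.le, Real.rpow_neg hm0.le, Real.div_rpow hm0.le hM0.le]
    have := (Real.rpow_pos_of_pos hm0 η).ne'
    field_simp
  have h1 : 1 + η * m⁻¹ ≤ (m / M) ^ η := by
    rw [Real.rpow_def_of_pos (div_pos hm0 hM0)]
    have h2 : m⁻¹ ≤ Real.log (m / M) := by
      have h3 := Real.log_le_sub_one_of_pos (div_pos hM0 hm0)
      have h4 : Real.log (m / M) = - Real.log (M / m) := by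
        rw [← Real.log_inv, inv_div]
      have h5 : (M : ℝ) / m - 1 = - m⁻¹ := by
        have : (M : ℝ) = m - 1 := by rw [hmdef]; ring
        rw [this]
        field_simp
        ring
      rw [h4]
      linarith
    have h6 := Real.add_one_le_exp (Real.log (m / M) * η)
    have h7 := mul_le_mul_of_nonneg_right h2 hη.le
    linarith
  have h8 : 0 < m ^ (-η) := Real.rpow_pos_of_pos hm0 _
  have h9 := mul_le_mul_of_nonneg_left h1 h8.le
  rw [e1, e2]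
  linarith

private theorem SV_D2_partial {η : ℝ} (hη : 0 < η) (M : ℕ) :
    ∑ n ∈ Icc 1 M, (n : ℝ) ^ (-(1 + η)) ≤ 1 + 1 / η := by
  have key : ∀ M : ℕ, 1 ≤ M →
      ∑ n ∈ Icc 1 M, (n : ℝ) ^ (-(1 + η)) ≤ 1 + (1 - (M : ℝ) ^ (-η)) / η := by
    intro M hM
    induction M, hM using Nat.le_induction with
    | base => simp
    | succ M hM ih =>
      rw [sum_Icc_succ_top (by omega)]
      have h1 := SV_D2_step hη hM
      have h2 : (1 - (M : ℝ) ^ (-η)) / η + ((M : ℝ) ^ (-η) - ((M + 1 : ℕ) : ℝ) ^ (-η)) / η =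
          (1 - ((M + 1 : ℕ) : ℝ) ^ (-η)) / η := by
        rw [← add_div]
        congr 1
        ring
      linarith
  rcases Nat.eq_zero_or_pos M with h0 | h0
  · subst h0
    have : 0 < 1 / η := by positivity
    simp
    linarith [this, one_div η]
  · have h1 := key M h0
    have h2 : 0 ≤ (M : ℝ) ^ (-η) := by positivity
    have h3 : (1 - (M : ℝ) ^ (-η)) / η ≤ 1 / η := div_le_div_of_nonneg_right (by linarith) hη.le
    linarith

/-- The completely multiplicative function `n ↦ n^(-(1+η))`. -/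
private noncomputable def SV_D2_f (η : ℝ) : ℕ →* ℝ where
  toFun n := (n : ℝ) ^ (-(1 + η))
  map_one' := by simp
  map_mul' a b := by
    push_cast
    rw [Real.mul_rpow (Nat.cast_nonneg a) (Nat.cast_nonneg b)]

private theorem SV_D2_f_apply (η : ℝ) (n : ℕ) : SV_D2_f η n = (n : ℝ) ^ (-(1 + η)) := rfl

private theorem SV_D2_lt {η : ℝ} (hη : 0 < η) {p : ℕ} (hp : p.Prime) :
    (p : ℝ) ^ (-(1 + η)) < 1 :=
  Real.rpow_lt_one_of_one_lt_of_neg (by exact_mod_cast hp.one_lt) (by linarith)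

private theorem SV_D2_euler {η : ℝ} (hη : 0 < η) (N : ℕ) :
    ∏ p ∈ PP N, (1 - (p : ℝ) ^ (-(1 + η)))⁻¹ ≤ 1 + 1 / η := by
  have h := (EulerProduct.summable_and_hasSum_smoothNumbers_prod_primesBelow_geometric
    (f := SV_D2_f η) (fun {p} hp => by
      rw [SV_D2_f_apply, Real.norm_eq_abs, abs_of_nonneg (Real.rpow_nonneg (Nat.cast_nonneg _) _)]
      exact SV_D2_lt hη hp) (N + 1)).2
  have hP : (N + 1).primesBelow = PP N := by
    ext p
    unfold PP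
    rw [Nat.mem_primesBelow, mem_filter, mem_Icc]
    constructor
    · rintro ⟨h1, h2⟩
      exact ⟨⟨h2.one_le, by omega⟩, h2⟩
    · rintro ⟨⟨h1, h2⟩, h3⟩
      exact ⟨by omega, h3⟩
  rw [hP] at h
  refine hasSum_le_of_sum_le h fun s => ?_
  have h1 : ∑ m ∈ s, SV_D2_f η (m : ℕ) =
      ∑ n ∈ s.image (fun m : (N + 1).smoothNumbers => (m : ℕ)), (n : ℝ) ^ (-(1 + η)) := by
    rw [sum_image (fun a _ b _ hab => Subtype.ext hab)]
    rfl
  rw [h1]
  set T := s.image (fun m : (N + 1).smoothNumbers => (m : ℕ)) with hT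
  have h2 : T ⊆ Icc 1 (T.sup id) := by
    intro n hn
    rw [mem_Icc]
    constructor
    · obtain ⟨m, _, rfl⟩ := mem_image.1 hn
      exact Nat.one_le_iff_ne_zero.2 (Nat.ne_zero_of_mem_smoothNumbers m.2)
    · exact le_sup (f := id) hn
  refine (sum_le_sum_of_subset_of_nonneg h2 fun n _ _ => ?_).trans (SV_D2_partial hη _)
  positivity

private theorem SV_D2_term {t u : ℝ} (ht0 : 0 < t) (ht : t ≤ 1 / 2) (hu0 : 0 < u) (hu : u ≤ 1) :
    -Real.log (1 - t) * u ≤ -Real.log (1 - t * u) + 2 * t ^ 2 * (1 - u) := by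
  have h1 : 0 < 1 - t := by linarith
  have htu : t * u ≤ t := by nlinarith
  have h2 : 0 < 1 - t * u := by linarith
  -- log ((1 - t u)/(1 - t)) ≤ (1-u) t/(1-t)
  have h3 : Real.log (1 - t * u) - Real.log (1 - t) ≤ (1 - u) * (t / (1 - t)) := by
    rw [← Real.log_div h2.ne' h1.ne']
    have h4 := Real.log_le_sub_one_of_pos (div_pos h2 h1)
    have h5 : (1 - t * u) / (1 - t) - 1 = (1 - u) * (t / (1 - t)) := by
      field_simp
      ring
    rw [← h5]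
    exact h4
  have h6 : Real.log (1 - t) ≤ -t := by
    have := Real.log_le_sub_one_of_pos h1
    linarith
  have h7 : t / (1 - t) - t ≤ 2 * t ^ 2 := by
    have h8 : t / (1 - t) - t = t ^ 2 / (1 - t) := by
      field_simp
      ring
    rw [h8, div_le_iff₀ h1]
    nlinarith [sq_nonneg t]
  have h9 : (1 - u) * (Real.log (1 - t) + t / (1 - t)) ≤ (1 - u) * (2 * t ^ 2) :=
    mul_le_mul_of_nonneg_left (by linarith) (by linarith)
  nlinarith

theorem al_series : ∃ C : ℝ, 0 ≤ C ∧ ∀ η : ℝ, 0 < η → η ≤ 1 → ∀ N : ℕ,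
    ∑ p ∈ PP N, -Real.log (1 - 1 / (p : ℝ)) * (p : ℝ) ^ (-η) ≤ Real.log (1 / η) + C * η := by
  refine ⟨13, by norm_num, fun η hη hη1 N => ?_⟩
  have hmem : ∀ p ∈ PP N, p.Prime ∧ p ∈ Icc 1 N := fun p hp => by
    unfold PP at hp
    exact ⟨(mem_filter.1 hp).2, (mem_filter.1 hp).1⟩
  -- termwise
  have h1 : ∀ p ∈ PP N, -Real.log (1 - 1 / (p : ℝ)) * (p : ℝ) ^ (-η) ≤
      Real.log ((1 - (p : ℝ) ^ (-(1 + η)))⁻¹) + 4 * η * (p : ℝ) ^ (-(1 + 1 / 2 : ℝ)) := by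
    intro p hp
    have hp1 := (hmem p hp).1
    have hp2 : (2 : ℝ) ≤ p := by exact_mod_cast hp1.two_le
    have hp0 : (0 : ℝ) < p := by linarith
    have hu0 : 0 < (p : ℝ) ^ (-η) := Real.rpow_pos_of_pos hp0 _
    have hu1 : (p : ℝ) ^ (-η) ≤ 1 := Real.rpow_le_one_of_one_le_of_nonpos (by linarith) (by linarith)
    have ht : 1 / (p : ℝ) ≤ 1 / 2 := one_div_le_one_div_of_le (by norm_num) hp2
    have h2 := SV_D2_term (t := 1 / (p : ℝ)) (by positivity) ht hu0 hu1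
    have e1 : 1 / (p : ℝ) * (p : ℝ) ^ (-η) = (p : ℝ) ^ (-(1 + η)) := by
      rw [one_div, ← Real.rpow_neg_one, ← Real.rpow_add hp0]
      congr 1
      ring
    rw [e1] at h2
    rw [Real.log_inv]
    have h3 : 1 - (p : ℝ) ^ (-η) ≤ η * Real.log p := by
      rw [Real.rpow_def_of_pos hp0]
      have := Real.add_one_le_exp (Real.log p * -η)
      linarith
    have h4 : Real.log p ≤ 2 * (p : ℝ) ^ (1 / 2 : ℝ) := by
      have h5 := Real.log_le_rpow_div hp0.le (by norm_num : (0 : ℝ) < 1 / 2)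
      have h6 : (p : ℝ) ^ (1 / 2 : ℝ) / (1 / 2) = 2 * (p : ℝ) ^ (1 / 2 : ℝ) := by ring
      rwa [h6] at h5
    have e2 : (1 / (p : ℝ)) ^ 2 * (p : ℝ) ^ (1 / 2 : ℝ) = (p : ℝ) ^ (-(1 + 1 / 2 : ℝ)) := by
      have h7 : (1 / (p : ℝ)) ^ 2 = (p : ℝ) ^ (-2 : ℝ) := by
        rw [Real.rpow_neg hp0.le, one_div, inv_pow]
        norm_cast
      rw [h7, ← Real.rpow_add hp0]
      congr 1
      norm_num
    have h8 : 2 * (1 / (p : ℝ)) ^ 2 * (1 - (p : ℝ) ^ (-η)) ≤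
        4 * η * (p : ℝ) ^ (-(1 + 1 / 2 : ℝ)) := by
      have h9 : 0 ≤ 2 * (1 / (p : ℝ)) ^ 2 := by positivity
      have h10 : 1 - (p : ℝ) ^ (-η) ≤ η * (2 * (p : ℝ) ^ (1 / 2 : ℝ)) :=
        h3.trans (mul_le_mul_of_nonneg_left h4 hη.le)
      refine (mul_le_mul_of_nonneg_left h10 h9).trans (le_of_eq ?_)
      rw [← e2]
      ring
    linarith
  refine (sum_le_sum h1).trans ?_
  rw [sum_add_distrib, ← mul_sum]
  have h11 : ∑ p ∈ PP N, (p : ℝ) ^ (-(1 + 1 / 2 : ℝ)) ≤ 3 := by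
    have h12 : ∑ p ∈ PP N, (p : ℝ) ^ (-(1 + 1 / 2 : ℝ)) ≤
        ∑ n ∈ Icc 1 N, (n : ℝ) ^ (-(1 + 1 / 2 : ℝ)) :=
      sum_le_sum_of_subset_of_nonneg (fun p hp => (hmem p hp).2) fun n _ _ => by positivity
    have h13 := SV_D2_partial (η := 1 / 2) (by norm_num) N
    norm_num at h13 h12 ⊢
    linarith
  have h14 : ∑ p ∈ PP N, Real.log ((1 - (p : ℝ) ^ (-(1 + η)))⁻¹) ≤ Real.log (1 / η) + η := by
    have hne : ∀ p ∈ PP N, (1 - (p : ℝ) ^ (-(1 + η)))⁻¹ ≠ 0 := fun p hp => by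
      have := SV_D2_lt hη (hmem p hp).1
      exact inv_ne_zero (by linarith)
    rw [← Real.log_prod hne]
    have h15 := SV_D2_euler hη N
    have h16 : 0 < ∏ p ∈ PP N, (1 - (p : ℝ) ^ (-(1 + η)))⁻¹ := prod_pos fun p hp => by
      have := SV_D2_lt hη (hmem p hp).1
      exact inv_pos.2 (by linarith)
    refine (Real.log_le_log h16 h15).trans ?_
    have h17 : 1 + 1 / η = 1 / η * (1 + η) := by
      field_simp
      ring
    rw [h17, Real.log_mul (by positivity) (by positivity)]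
    have h18 := Real.log_le_sub_one_of_pos (by linarith : 0 < 1 + η)
    linarith
  have h19 := mul_le_mul_of_nonneg_left h11 (by positivity : 0 ≤ 4 * η)
  linarith

end Pool.Agent.Lib.MP_42948a_nt.SV
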