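import Pool.Agent.Lib.MP_42948a_nt.OM.E0
import Pool.Agent.Lib.MP_42948a_nt.PS.B2
import Pool.Agent.Lib.MP_2a816b_nt.BH.Dens

/-!
# The weighted sieve of level `x ^ (299/500)` (products of at most two primes): definitions
-/

namespace Pool.Agent.Lib.MP_42948a_nt.SV

open Finset Pool.Agent.Lib.MP_42948a_nt.OA Pool.Agent.Lib.MP_42948a_nt.OM

open Classical in
/-- The squarefree `m ≤ ξ` prime to `d` all of whose primes are `< w`. -/
noncomputable def Sq (d w ξ : ℕ) : Finset ℕ :=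
  (Icc 1 ξ).filter (fun m => Squarefree m ∧ m.Coprime d ∧ ∀ p : ℕ, p.Prime → p ∣ m → p < w)

/-- Selberg's sum. -/
noncomputable def Gs (d w ξ : ℕ) : ℝ := ∑ m ∈ Sq d w ξ, 1 / (m.totient : ℝ)

open Classical in
/-- The primes `< w` not dividing `d`. -/
noncomputable def Pw (d w : ℕ) : Finset ℕ := (range w).filter (fun p => p.Prime ∧ ¬ p ∣ d)

/-- The product of `1 - 1/p` over the primes `p < w` not dividing `d`. -/
noncomputable def Vd (d w : ℕ) : ℝ := ∏ p ∈ Pw d w, (1 - 1 / (p : ℝ))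

open Classical in
/-- Selberg's weights. -/
noncomputable def lamS (d w ξ m : ℕ) : ℝ :=
  if m ∈ Sq d w ξ then
    ((ArithmeticFunction.moebius m : ℤ) : ℝ) * ((m : ℝ) / m.totient) *
      (∑ k ∈ (Sq d w (ξ / m)).filter (fun k => k.Coprime m), 1 / (k.totient : ℝ)) / Gs d w ξ
  else 0

open Classical in
/-- Coefficients of the upper bound sieve of the integers divisible by `p`. -/
noncomputable def kap (d w ξ p m : ℕ) : ℝ :=
  ∑ a ∈ Sq d w ξ, ∑ b ∈ Sq d w ξ, if p * a.lcm b = m then lamS d w ξ a * lamS d w ξ b else 0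

open Classical in
/-- The weighted sieve. -/
noncomputable def omg (d : ℕ) (P : Finset ℕ) (c : ℕ → ℝ) (W X : ℕ → ℕ) (m : ℕ) : ℝ :=
  (if m = 1 then 1 else 0) - ∑ p ∈ P, c p * kap d (W p) (X p) p m

/-- The primes `u < p ≤ v`. -/
noncomputable def Pri (u v : ℝ) : Finset ℕ := (Ioc ⌊u⌋₊ ⌊v⌋₊).filter Nat.Prime

/-- The primes `u < p ≤ v` not dividing `d`. -/
noncomputable def Prd (d : ℕ) (u v : ℝ) : Finset ℕ := (Pri u v).filter (fun p => ¬ p ∣ d)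

/-- Lower bound of Selberg's sum, one step of Buchstab's identity. -/
noncomputable def Gam (a b : ℝ) : ℝ := if b ≤ a then b else 2 * b - b * Real.log (b / a) - a

/-! ## The parameters -/

/-- The level. -/
noncomputable def Dx (x : ℝ) : ℕ := ⌊x ^ (299 / 500 : ℝ)⌋₊

/-- The sifting limit. -/
noncomputable def zx (x : ℝ) : ℕ := ⌊x ^ (1 / 9 : ℝ)⌋₊

/-- The limit of the weights. -/
noncomputable def yx (x : ℝ) : ℕ := ⌊x ^ (8 / 15 : ℝ)⌋₊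

/-- The sifting limit of the multiples of `p`. -/
noncomputable def Wx (x : ℝ) (p : ℕ) : ℕ := min p (zx x + 1)

/-- The root of the level of the multiples of `p`. -/
noncomputable def Xx (x : ℝ) (p : ℕ) : ℕ := Nat.sqrt (Dx x / p)

/-- The primes of the weights. -/
noncomputable def Px (d : ℕ) (x : ℝ) : Finset ℕ := Pw d (yx x + 1)

/-- `1 / (3 - 15/8 · 1001/1000)` -/
noncomputable def lz : ℝ := 1 / (3 - 15 / 8 * (1001 / 1000))

open Classical in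
/-- The weights. -/
noncomputable def cx (x : ℝ) (p : ℕ) : ℝ :=
  if p ≤ zx x then 1 else lz * (1 - 15 / 8 * (Real.log p / Real.log x))

/-! ## First properties -/

theorem mem_Sq {d w ξ m : ℕ} : m ∈ Sq d w ξ ↔
    (1 ≤ m ∧ m ≤ ξ) ∧ Squarefree m ∧ m.Coprime d ∧ ∀ p : ℕ, p.Prime → p ∣ m → p < w := by
  classical
  unfold Sq
  rw [mem_filter, mem_Icc]

theorem one_mem_Sq (d w : ℕ) {ξ : ℕ} (h : 1 ≤ ξ) : 1 ∈ Sq d w ξ := by
  rw [mem_Sq]
  refine ⟨⟨le_refl 1, h⟩, squarefree_one, Nat.coprime_one_left d, ?_⟩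
  intro p hp hd
  exact absurd (Nat.dvd_one.mp hd) hp.one_lt.ne'

theorem Sq_mono {d w w' ξ ξ' : ℕ} (hw : w ≤ w') (hx : ξ ≤ ξ') : Sq d w ξ ⊆ Sq d w' ξ' := by
  intro m hm
  rw [mem_Sq] at hm ⊢
  exact ⟨⟨hm.1.1, hm.1.2.trans hx⟩, hm.2.1, hm.2.2.1, fun p hp hd => (hm.2.2.2 p hp hd).trans_le hw⟩

theorem Gs_nonneg (d w ξ : ℕ) : 0 ≤ Gs d w ξ := by
  unfold Gs
  exact sum_nonneg fun m _ => by positivity

theorem Gs_mono {d w w' ξ ξ' : ℕ} (hw : w ≤ w') (hx : ξ ≤ ξ') : Gs d w ξ ≤ Gs d w' ξ' := by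
  unfold Gs
  exact sum_le_sum_of_subset_of_nonneg (Sq_mono hw hx) fun m _ _ => by positivity

theorem one_le_Gs (d w : ℕ) {ξ : ℕ} (h : 1 ≤ ξ) : 1 ≤ Gs d w ξ := by
  unfold Gs
  have h1 := single_le_sum (f := fun m : ℕ => 1 / (m.totient : ℝ)) (s := Sq d w ξ)
    (fun m _ => by positivity) (one_mem_Sq d w h)
  have h2 : (1 : ℝ) / ((1 : ℕ).totient : ℝ) = 1 := by norm_num
  have h3 : (1 : ℝ) / ((1 : ℕ).totient : ℝ) ≤ ∑ m ∈ Sq d w ξ, 1 / (m.totient : ℝ) := h1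
  rw [h2] at h3
  exact h3

theorem Gs_pos (d w : ℕ) {ξ : ℕ} (h : 1 ≤ ξ) : 0 < Gs d w ξ := lt_of_lt_of_le one_pos (one_le_Gs d w h)

theorem mem_Pw {d w p : ℕ} : p ∈ Pw d w ↔ p < w ∧ p.Prime ∧ ¬ p ∣ d := by
  unfold Pw
  rw [mem_filter, mem_range]

theorem mem_Pri {u v : ℝ} {p : ℕ} (hu : 0 ≤ u) : p ∈ Pri u v ↔ p.Prime ∧ u < p ∧ (p : ℝ) ≤ v := by
  unfold Pri
  rw [mem_filter, mem_Ioc]
  constructor
  · rintro ⟨⟨h1, h2⟩, hp⟩
    refine ⟨hp, (Nat.floor_lt hu).mp h1, ?_⟩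
    exact (Nat.le_floor_iff' hp.pos.ne').mp h2
  · rintro ⟨hp, h1, h2⟩
    exact ⟨⟨(Nat.floor_lt hu).mpr h1, (Nat.le_floor_iff' hp.pos.ne').mpr h2⟩, hp⟩

theorem mem_Prd {d : ℕ} {u v : ℝ} {p : ℕ} (hu : 0 ≤ u) :
    p ∈ Prd d u v ↔ (p.Prime ∧ u < p ∧ (p : ℝ) ≤ v) ∧ ¬ p ∣ d := by
  unfold Prd
  rw [mem_filter, mem_Pri hu]

theorem Vd_pos (d w : ℕ) : 0 < Vd d w := by
  unfold Vd
  refine prod_pos fun p hp => ?_
  have hp2 : (2 : ℝ) ≤ p := by exact_mod_cast (mem_Pw.mp hp).2.1.two_le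
  have : 1 / (p : ℝ) ≤ 1 / 2 := one_div_le_one_div_of_le (by norm_num) hp2
  linarith

theorem Vd_le_one (d w : ℕ) : Vd d w ≤ 1 := by
  unfold Vd
  refine prod_le_one (fun p hp => ?_) (fun p hp => ?_)
  · have hp2 : (2 : ℝ) ≤ p := by exact_mod_cast (mem_Pw.mp hp).2.1.two_le
    have : 1 / (p : ℝ) ≤ 1 / 2 := one_div_le_one_div_of_le (by norm_num) hp2
    linarith
  · have : 0 ≤ 1 / (p : ℝ) := by positivity
    linarith

theorem one_le_rd {d : ℕ} (hd : 1 ≤ d) : 1 ≤ (d : ℝ) / d.totient := by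
  have h1 : (0 : ℝ) < (d.totient : ℝ) := by exact_mod_cast Nat.totient_pos.mpr hd
  rw [le_div_iff₀ h1, one_mul]
  exact_mod_cast Nat.totient_le d

theorem Xx_mul_sq_le (x : ℝ) (p : ℕ) : p * (Xx x p) ^ 2 ≤ Dx x := by
  unfold Xx
  have h1 : (Nat.sqrt (Dx x / p)) ^ 2 ≤ Dx x / p := by
    rw [pow_two]
    exact Nat.sqrt_le _
  calc p * (Nat.sqrt (Dx x / p)) ^ 2 ≤ p * (Dx x / p) := Nat.mul_le_mul_left p h1
    _ ≤ Dx x := Nat.mul_div_le (Dx x) p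

theorem lt_Xx {x : ℝ} {p : ℕ} (hp : 1 ≤ p) :
    x ^ (299 / 500 : ℝ) < (p : ℝ) * ((Xx x p : ℝ) + 1) ^ 2 := by
  have h1 : Dx x / p < (Xx x p + 1) ^ 2 := by
    unfold Xx
    rw [pow_two]
    exact Nat.lt_succ_sqrt _
  have h2 : Dx x < p * (Xx x p + 1) ^ 2 := by
    have h3 : Dx x < p * (Dx x / p + 1) := by
      have h4 := Nat.div_add_mod (Dx x) p
      have h5 := Nat.mod_lt (Dx x) (show 0 < p from hp)
      calc Dx x = p * (Dx x / p) + Dx x % p := h4.symm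
        _ < p * (Dx x / p) + p := Nat.add_lt_add_left h5 _
        _ = p * (Dx x / p + 1) := by ring
    exact h3.trans_le (Nat.mul_le_mul_left p h1)
  have h3 : x ^ (299 / 500 : ℝ) < (Dx x : ℝ) + 1 := Nat.lt_floor_add_one _
  have h4 : ((Dx x : ℝ) + 1) ≤ ((p * (Xx x p + 1) ^ 2 : ℕ) : ℝ) := by exact_mod_cast h2
  have h5 : ((p * (Xx x p + 1) ^ 2 : ℕ) : ℝ) = (p : ℝ) * ((Xx x p : ℝ) + 1) ^ 2 := by
    push_cast
    ring
  rw [h5] at h4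
  exact h3.trans_le h4

theorem one_le_Xx {x : ℝ} (hx : 1 ≤ x) {p : ℕ} (hp : 1 ≤ p) (hpy : p ≤ yx x) : 1 ≤ Xx x p := by
  unfold Xx
  rw [Nat.le_sqrt]
  have h1 : yx x ≤ Dx x := by
    unfold yx Dx
    refine Nat.floor_le_floor ?_
    exact Real.rpow_le_rpow_of_exponent_le hx (by norm_num)
  rw [one_mul]
  exact (Nat.le_div_iff_mul_le hp).mpr (by rw [one_mul]; exact hpy.trans h1)

end Pool.Agent.Lib.MP_42948a_nt.SV
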