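import Pool.Agent.Lib.MP_42948a_nt.SV.C2
import Pool.Agent.Lib.MP_42948a_nt.SV.A2
import Pool.Agent.Lib.MP_42948a_nt.SV.A3a
import Pool.Agent.Lib.MP_42948a_nt.SV.A3b
import Pool.Agent.Lib.MP_42948a_nt.SV.A4

/-!
# The weighted sieve of level `x ^ (299/500)` for products of at most two primes
-/

namespace Pool.Agent.Lib.MP_42948a_nt.SV

open Finset Pool.Agent.Lib.MP_42948a_nt.OA Pool.Agent.Lib.MP_42948a_nt.OM

private theorem Px_facts {x : ℝ} (hx : 2 ≤ x) (d : ℕ) :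
    ∀ p ∈ Px d x, p.Prime ∧ ¬ p ∣ d ∧ p * (Xx x p) ^ 2 ≤ Dx x ∧ 1 ≤ Xx x p ∧ |cx x p| ≤ 1 := by
  intro p hp
  have hx0 : (0 : ℝ) ≤ x := by linarith
  have hx1 : (1 : ℝ) ≤ x := by linarith
  unfold Px at hp
  rw [mem_Pw] at hp
  have hpy : p ≤ yx x := Nat.lt_succ_iff.mp hp.1
  refine ⟨hp.2.1, hp.2.2, Xx_mul_sq_le x p, one_le_Xx hx1 hp.2.1.pos hpy, ?_⟩
  have h3 : (0 : ℝ) ≤ x ^ (8 / 15 : ℝ) := Real.rpow_nonneg hx0 _
  have h5 : (p : ℝ) ≤ x ^ (8 / 15 : ℝ) := (Nat.le_floor_iff h3).mp hpy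
  have hp0 : (0 : ℝ) < p := by exact_mod_cast hp.2.1.pos
  have hp1 : (1 : ℝ) ≤ p := by exact_mod_cast hp.2.1.one_le
  have hL : 0 < Real.log x := Real.log_pos (by linarith)
  have hlp : Real.log p ≤ 8 / 15 * Real.log x := by
    have h6 := Real.log_le_log hp0 h5
    rwa [Real.log_rpow (by linarith)] at h6
  have hlp0 : 0 ≤ Real.log p := Real.log_nonneg hp1
  unfold cx
  split_ifs with h
  · norm_num
  · have h6 : Real.log p / Real.log x ≤ 8 / 15 := by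
      rw [div_le_iff₀ hL]
      exact hlp
    have h7 : 0 ≤ Real.log p / Real.log x := by positivity
    have hlz0 : 0 ≤ lz := by
      unfold lz
      norm_num
    have hlz1 : lz ≤ 1 := by
      unfold lz
      norm_num
    rw [abs_le]
    constructor
    · have : 0 ≤ lz * (1 - 15 / 8 * (Real.log p / Real.log x)) := mul_nonneg hlz0 (by linarith)
      linarith
    · calc lz * (1 - 15 / 8 * (Real.log p / Real.log x)) ≤ 1 * 1 :=
            mul_le_mul hlz1 (by linarith) (by linarith) (by norm_num)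
        _ = 1 := by norm_num

open Classical in
theorem sv : ∃ c : ℝ, 0 < c ∧ ∃ C : ℕ, ∃ x0 : ℝ, 2 ≤ x0 ∧ ∀ x : ℝ, x0 ≤ x → ∀ d : ℕ, 1 ≤ d → (d : ℝ) ≤ x ^ 2 →
    ∃ ω : ℕ → ℝ,
      (∀ m, ω m ≠ 0 → 1 ≤ m ∧ m ≤ ⌊x ^ (299 / 500 : ℝ)⌋₊ ∧ m.Coprime d) ∧
      (∑ m ∈ Icc 1 ⌊x ^ (299 / 500 : ℝ)⌋₊, |ω m| / m ≤ (Real.log x) ^ C) ∧
      (∀ n : ℕ, x < n → (n : ℝ) ≤ x ^ (1001 / 1000 : ℝ) → n.Coprime d → ∑ m ∈ n.divisors, ω m ≤
        (if Rough ⌊x ^ (1 / 9 : ℝ)⌋₊ n ∧ ArithmeticFunction.cardFactors n ≤ 2 then (1 : ℝ) else 0) +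
          (if ∃ p : ℕ, p.Prime ∧ x ^ (1 / 9 : ℝ) < p ∧ p ^ 2 ∣ n then (1 : ℝ) else 0)) ∧
      (c * ((d : ℝ) / d.totient / Real.log x) ≤ ∑ m ∈ Icc 1 ⌊x ^ (299 / 500 : ℝ)⌋₊, ω m / m) := by
  obtain ⟨x1, hx1, h1⟩ := main_lower
  refine ⟨9 / 100, by norm_num, 5, x1 + Real.exp 32, ?_, ?_⟩
  · have := Real.exp_pos 32
    linarith
  intro x hx d hd hdx
  have he : Real.exp 32 ≤ x := by linarith
  have hx2 : (2 : ℝ) ≤ x := by
    have := Real.exp_pos 32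
    linarith
  have hx1' : (1 : ℝ) ≤ x := by linarith
  have hx0 : (0 : ℝ) < x := by linarith
  have hL : 32 ≤ Real.log x := by
    have h3 := Real.log_le_log (Real.exp_pos 32) he
    rwa [Real.log_exp] at h3
  have hD : 1 ≤ Dx x := by
    unfold Dx
    exact Nat.le_floor (by
      rw [Nat.cast_one]
      exact Real.one_le_rpow hx1' (by norm_num))
  have hf := Px_facts hx2 d
  refine ⟨omg d (Px d x) (cx x) (Wx x) (Xx x), ?_, ?_, ?_, ?_⟩
  · intro m hm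
    exact omg_supp d (Dx x) (Px d x) (cx x) (Wx x) (Xx x) hD
      (fun p hp => ⟨(hf p hp).1, (hf p hp).2.1, (hf p hp).2.2.1⟩) m hm
  · have h4 := omg_abs d (Dx x) (Px d x) (cx x) (Wx x) (Xx x) hD
      (fun p hp => ⟨(hf p hp).1, (hf p hp).2.1, (hf p hp).2.2.1⟩)
      (fun p hp => (hf p hp).2.2.2.1) (fun p hp => (hf p hp).2.2.2.2)
    have h5 : Real.log (Dx x) ≤ Real.log x := by
      have h6 : (Dx x : ℝ) ≤ x ^ (299 / 500 : ℝ) := Nat.floor_le (Real.rpow_nonneg hx0.le _)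
      have h7 : x ^ (299 / 500 : ℝ) ≤ x ^ (1 : ℝ) := Real.rpow_le_rpow_of_exponent_le hx1' (by norm_num)
      rw [Real.rpow_one] at h7
      exact Real.log_le_log (by exact_mod_cast hD) (h6.trans h7)
    have h6 : 0 ≤ Real.log (Dx x) := Real.log_nonneg (by exact_mod_cast hD)
    refine h4.trans ?_
    have h7 : 1 + (1 + Real.log (Dx x)) ^ 4 ≤ 1 + (2 * Real.log x) ^ 4 := by
      have : (1 + Real.log (Dx x)) ^ 4 ≤ (2 * Real.log x) ^ 4 := pow_le_pow_left₀ (by linarith) (by linarith) 4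
      linarith
    have h8 : (1 : ℝ) ≤ Real.log x ^ 4 := one_le_pow₀ (by linarith)
    calc 1 + (1 + Real.log (Dx x)) ^ 4 ≤ 1 + (2 * Real.log x) ^ 4 := h7
      _ = 1 + 16 * Real.log x ^ 4 := by ring
      _ ≤ 32 * Real.log x ^ 4 := by linarith
      _ ≤ Real.log x * Real.log x ^ 4 := mul_le_mul_of_nonneg_right hL (by linarith)
      _ = Real.log x ^ 5 := by ring
  · intro n hn hn2 hnd
    have hn0 : 0 < n := by
      have : (0 : ℝ) < n := hx0.trans hn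
      exact_mod_cast this
    have h4 := omg_div d (Px d x) (cx x) (Wx x) (Xx x) (fun p hp => (hf p hp).1.pos) n hn0
    rw [h4]
    exact pointwise hx2 d n hn hn2 hnd
  · have h4 := omg_sum d (Dx x) (Px d x) (cx x) (Wx x) (Xx x) hD
      (fun p hp => ⟨(hf p hp).1, (hf p hp).2.1, (hf p hp).2.2.1⟩) (fun p hp => (hf p hp).2.2.2.1)
    have h5 := h1 x (by
      have := Real.exp_pos 32
      linarith) d hd hdx
    have h6 : ∑ m ∈ Icc 1 ⌊x ^ (299 / 500 : ℝ)⌋₊, omg d (Px d x) (cx x) (Wx x) (Xx x) m / m =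
        1 - ∑ p ∈ Px d x, cx x p / (p * Gs d (Wx x p) (Xx x p)) := h4
    rw [h6]
    exact h5

end Pool.Agent.Lib.MP_42948a_nt.SV
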